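import Pool.Agent.Helper96.FC.BodA

/-!
# Flag certificates on six vertices: configurations of type A
-/

set_option autoImplicit false

namespace Pool.Agent.Helper96.FC

open Finset

variable {V : Type} [Fintype V]

theorem tHA2_eq : ∀ s < 6, ent tHA2 48 m48 s = pk [0, s, s, s] := by decide +kernel

theorem tHA3_eq : ∀ s < 6, ent tHA3 48 m48 s = pk [s, 0, 8 * s, 8 * s] := by decide +kernel

theorem tHA4_eq : ∀ s < 6, ent tHA4 48 m48 s = pk [8 * s, 8 * s, 0, 64 * s] := by decide +kernel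

theorem tHA5_eq : ∀ s < 6, ent tHA5 48 m48 s = pk [64 * s, 64 * s, 64 * s, 0] := by decide +kernel

theorem tHAK_eq : ∀ b < 64, ent tHAK 48 m48 b =
    pk [512 * (b / 4 % 2) + 1024 * (b / 2 % 2) + 2048 * (b % 2),
      512 * (b / 16 % 2) + 1024 * (b / 8 % 2) + 2048 * (b % 2),
      512 * (b / 32 % 2) + 1024 * (b / 8 % 2) + 2048 * (b / 2 % 2),
      512 * (b / 32 % 2) + 1024 * (b / 16 % 2) + 2048 * (b / 4 % 2)] := by decide +kernel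

theorem qrA_eq : ∀ s < 6, ∀ k < 2, ∀ l < 2, ∀ m < 2, qrA (8 * s + (2 * (2 * k + l) + m)) =
    qrow (aw0 s) (aw1 s) k l m := by decide +kernel

/-- the regularity weights of type A -/
noncomputable def Sys.omA (S : Sys V) (y : Fin 5 → V) (z : Fin 5) : ℤ :=
  (wdg (prA (ixA (S.vw (y 0) (y 1) (y 2)) (S.vw (y 0) (y 1) (y 3)) (S.vw (y 0) (y 1) (y 4))
    (S.a (y 2) (y 3)) (S.a (y 2) (y 4)) (S.a (y 3) (y 4)))) z : ℤ) - cW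

/-- the bits of the edges between the free vertices -/
def Sys.bbA (S : Sys V) (x : Fin 6 → V) : ℕ :=
  32 * S.a (x 2) (x 3) + 16 * S.a (x 2) (x 4) + 8 * S.a (x 2) (x 5) + 4 * S.a (x 3) (x 4) +
    2 * S.a (x 3) (x 5) + S.a (x 4) (x 5)

theorem Sys.bbA_dg (S : Sys V) (x : Fin 6 → V) : S.bbA x < 64 ∧ S.bbA x / 32 % 2 = S.a (x 2) (x 3) ∧
    S.bbA x / 16 % 2 = S.a (x 2) (x 4) ∧ S.bbA x / 8 % 2 = S.a (x 2) (x 5) ∧
    S.bbA x / 4 % 2 = S.a (x 3) (x 4) ∧ S.bbA x / 2 % 2 = S.a (x 3) (x 5) ∧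
    S.bbA x % 2 = S.a (x 4) (x 5) := by
  have h1 := S.a_le (x 2) (x 3)
  have h2 := S.a_le (x 2) (x 4)
  have h3 := S.a_le (x 2) (x 5)
  have h4 := S.a_le (x 3) (x 4)
  have h5 := S.a_le (x 3) (x 5)
  have h6 := S.a_le (x 4) (x 5)
  unfold Sys.bbA
  omega

theorem Sys.hA_eq (S : Sys V) (x : Fin 6 → V) :
    hA (S.vw (x 0) (x 1) (x 2)) (S.vw (x 0) (x 1) (x 3)) (S.vw (x 0) (x 1) (x 4))
      (S.vw (x 0) (x 1) (x 5)) (S.bbA x) =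
    pk [S.c5 (x ∘ ![0, 1, 3, 4, 5]), S.c5 (x ∘ ![0, 1, 2, 4, 5]), S.c5 (x ∘ ![0, 1, 2, 3, 5]),
      S.c5 (x ∘ ![0, 1, 2, 3, 4])] := by
  obtain ⟨b0, b1, b2, b3, b4, b5, b6⟩ := S.bbA_dg x
  show ent tHA2 48 m48 _ + (ent tHA3 48 m48 _ + (ent tHA4 48 m48 _ + (ent tHA5 48 m48 _ +
    ent tHAK 48 m48 _))) = _
  rw [tHA2_eq _ (S.vw_lt _ _ _), tHA3_eq _ (S.vw_lt _ _ _), tHA4_eq _ (S.vw_lt _ _ _),
    tHA5_eq _ (S.vw_lt _ _ _), tHAK_eq _ b0, b1, b2, b3, b4, b5, b6]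
  simp only [pk]
  have c0 : S.c5 (x ∘ ![0, 1, 3, 4, 5]) = S.vw (x 0) (x 1) (x 3) + 8 * S.vw (x 0) (x 1) (x 4) +
    64 * S.vw (x 0) (x 1) (x 5) + 512 * S.a (x 3) (x 4) + 1024 * S.a (x 3) (x 5) +
    2048 * S.a (x 4) (x 5) := rfl
  have c1 : S.c5 (x ∘ ![0, 1, 2, 4, 5]) = S.vw (x 0) (x 1) (x 2) + 8 * S.vw (x 0) (x 1) (x 4) +
    64 * S.vw (x 0) (x 1) (x 5) + 512 * S.a (x 2) (x 4) + 1024 * S.a (x 2) (x 5) +
    2048 * S.a (x 4) (x 5) := rfl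
  have c2 : S.c5 (x ∘ ![0, 1, 2, 3, 5]) = S.vw (x 0) (x 1) (x 2) + 8 * S.vw (x 0) (x 1) (x 3) +
    64 * S.vw (x 0) (x 1) (x 5) + 512 * S.a (x 2) (x 3) + 1024 * S.a (x 2) (x 5) +
    2048 * S.a (x 3) (x 5) := rfl
  have c3 : S.c5 (x ∘ ![0, 1, 2, 3, 4]) = S.vw (x 0) (x 1) (x 2) + 8 * S.vw (x 0) (x 1) (x 3) +
    64 * S.vw (x 0) (x 1) (x 4) + 512 * S.a (x 2) (x 3) + 1024 * S.a (x 2) (x 4) +
    2048 * S.a (x 3) (x 4) := rfl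
  rw [c0, c1, c2, c3]
  ring

theorem evA_pk (e0 e1 e2 e3 : ℕ) (h : ∀ a ∈ [e0, e1, e2, e3], a < 4096) :
    evA (pk [e0, e1, e2, e3]) = bodyA e0 e1 e2 e3 := by
  have g0 : fl0 (pk [e0, e1, e2, e3]) = e0 := pk_get _ 0 (by simp) h
  have g1 : fl1 (pk [e0, e1, e2, e3]) = e1 := pk_get _ 1 (by simp) h
  have g2 : fl2 (pk [e0, e1, e2, e3]) = e2 := pk_get _ 2 (by simp) h
  have g3 : fl3 (pk [e0, e1, e2, e3]) = e3 := pk_get _ 3 (by simp) h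
  unfold evA
  simp only [frc_eq, g0, g1, g2, g3]

/-- one regularity term of type A and its packed form -/
theorem Sys.rgA_dig (S : Sys V) (R : ∀ i < 1728, chkR (prA i) = true) (y : Fin 6 → V) :
    DigZ 51 (2 ^ 57) (2 ^ 56) (S.rg S.omA y + 5 * cW)
      (Nat.mul (prA (ixA (S.vw (y 0) (y 1) (y 2)) (S.vw (y 0) (y 1) (y 3))
        (S.vw (y 0) (y 1) (y 4)) (S.a (y 2) (y 3)) (S.a (y 2) (y 4)) (S.a (y 3) (y 4))))
        (qrA (jxA (S.vw (y 0) (y 1) (y 5)) (S.a (y 2) (y 5)) (S.a (y 3) (y 5))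
          (S.a (y 4) (y 5))))) := by
  have v2 := S.vw_lt (y 0) (y 1) (y 2)
  have v3 := S.vw_lt (y 0) (y 1) (y 3)
  have v4 := S.vw_lt (y 0) (y 1) (y 4)
  have v5 := S.vw_lt (y 0) (y 1) (y 5)
  have u1 := S.a_le (y 2) (y 3)
  have u2 := S.a_le (y 2) (y 4)
  have u3 := S.a_le (y 3) (y 4)
  have R1 := R (ixA (S.vw (y 0) (y 1) (y 2)) (S.vw (y 0) (y 1) (y 3))
        (S.vw (y 0) (y 1) (y 4)) (S.a (y 2) (y 3)) (S.a (y 2) (y 4)) (S.a (y 3) (y 4))) (by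
    show 8 * (6 * (6 * _ + _) + _) + (2 * (2 * _ + _) + _) < _
    omega)
  have q : qrA (jxA (S.vw (y 0) (y 1) (y 5)) (S.a (y 2) (y 5)) (S.a (y 3) (y 5))
      (S.a (y 4) (y 5))) = qrow (S.a (y 0) (y 5)) (S.a (y 1) (y 5)) (S.a (y 2) (y 5))
      (S.a (y 3) (y 5)) (S.a (y 4) (y 5)) := by
    have := qrA_eq _ v5 _ (Nat.lt_succ_of_le (S.a_le (y 2) (y 5))) _
      (Nat.lt_succ_of_le (S.a_le (y 3) (y 5))) _ (Nat.lt_succ_of_le (S.a_le (y 4) (y 5)))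
    rw [S.aw0_vw, S.aw1_vw] at this
    exact this
  rw [q]
  have D1 := reg_dig R1 (S.a_le (y 0) (y 5)) (S.a_le (y 1) (y 5)) (S.a_le (y 2) (y 5))
    (S.a_le (y 3) (y 5)) (S.a_le (y 4) (y 5))
  have h : S.rg S.omA y = ((wdg (prA (ixA (S.vw (y 0) (y 1) (y 2)) (S.vw (y 0) (y 1) (y 3))
        (S.vw (y 0) (y 1) (y 4)) (S.a (y 2) (y 3)) (S.a (y 2) (y 4)) (S.a (y 3) (y 4)))) 0 : ℤ) -
          cW) * S.a (y 0) (y 5) +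
      ((wdg (prA (ixA (S.vw (y 0) (y 1) (y 2)) (S.vw (y 0) (y 1) (y 3))
        (S.vw (y 0) (y 1) (y 4)) (S.a (y 2) (y 3)) (S.a (y 2) (y 4)) (S.a (y 3) (y 4)))) 1 : ℤ) -
          cW) * S.a (y 1) (y 5) +
      ((wdg (prA (ixA (S.vw (y 0) (y 1) (y 2)) (S.vw (y 0) (y 1) (y 3))
        (S.vw (y 0) (y 1) (y 4)) (S.a (y 2) (y 3)) (S.a (y 2) (y 4)) (S.a (y 3) (y 4)))) 2 : ℤ) -
          cW) * S.a (y 2) (y 5) +
      ((wdg (prA (ixA (S.vw (y 0) (y 1) (y 2)) (S.vw (y 0) (y 1) (y 3))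
        (S.vw (y 0) (y 1) (y 4)) (S.a (y 2) (y 3)) (S.a (y 2) (y 4)) (S.a (y 3) (y 4)))) 3 : ℤ) -
          cW) * S.a (y 3) (y 5) +
      ((wdg (prA (ixA (S.vw (y 0) (y 1) (y 2)) (S.vw (y 0) (y 1) (y 3))
        (S.vw (y 0) (y 1) (y 4)) (S.a (y 2) (y 3)) (S.a (y 2) (y 4)) (S.a (y 3) (y 4)))) 4 : ℤ) -
          cW) * S.a (y 4) (y 5) := by
    unfold Sys.rg
    rw [Fin.sum_univ_five]
    rfl
  rw [h]
  exact D1

theorem Sys.valA_eq (S : Sys V) (K : Facts) (R : ∀ i < 1728, chkR (prA i) = true)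
    (x : Fin 6 → V) (h01 : S.a (x 0) (x 1) = 1) :
    ((valA (S.vw (x 0) (x 1) (x 2)) (S.vw (x 0) (x 1) (x 3)) (S.vw (x 0) (x 1) (x 4))
      (S.vw (x 0) (x 1) (x 5)) (S.a (x 2) (x 3)) (S.a (x 2) (x 4)) (S.a (x 2) (x 5))
      (S.a (x 3) (x 4)) (S.a (x 3) (x 5)) (S.a (x 4) (x 5))
      (hA (S.vw (x 0) (x 1) (x 2)) (S.vw (x 0) (x 1) (x 3)) (S.vw (x 0) (x 1) (x 4))
      (S.vw (x 0) (x 1) (x 5)) (S.bbA x)) : ℕ) : ℤ) =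
    S.KS tau plAA plAC x + S.RR S.omA gA x + kA := by
  rw [S.hA_eq x]
  have hbody := S.body_A K x h01 h01
  have g1 : (x ∘ ![0, 1, 2, 3, 4, 5] : Fin 6 → V) = x := by
    funext i; fin_cases i <;> rfl
  have hrr : S.RR S.omA gA x = S.rg S.omA x + (S.rg S.omA (x ∘ ![0, 1, 2, 3, 5, 4]) +
      (S.rg S.omA (x ∘ ![0, 1, 2, 4, 5, 3]) + S.rg S.omA (x ∘ ![0, 1, 3, 4, 5, 2]))) := by
    unfold Sys.RR gA
    simp only [List.map_cons, List.map_nil, List.sum_cons, List.sum_nil, g1]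
    ring
  have D1 := S.rgA_dig R x
  have D2 := S.rgA_dig R (x ∘ ![0, 1, 2, 3, 5, 4])
  have D3 := S.rgA_dig R (x ∘ ![0, 1, 2, 4, 5, 3])
  have D4 := S.rgA_dig R (x ∘ ![0, 1, 3, 4, 5, 2])
  have D := hbody.add (D1.add (D2.add (D3.add D4)))
  have hD := D.extract (by unfold BB; norm_num) (by unfold BB; norm_num)
  unfold valA
  rw [evA_pk _ _ _ _ (by
    intro a ha
    simp only [List.mem_cons, List.not_mem_nil, or_false] at ha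
    rcases ha with rfl | rfl | rfl | rfl <;> exact S.c5_lt _)]
  have s43 : S.a (x 3) (x 4) = S.a (x 4) (x 3) := S.a_symm _ _
  have e : ∀ M : ℕ, dgt M = M / BB ^ 51 % BB := fun _ => rfl
  have e3 : (kA : ℤ) = 18 * 2 ^ 45 + 20 * cW := by unfold kA cW; norm_num
  rw [e, hrr, e3]
  have hM : ∀ M M' : ℕ, M = M' → ((M' / BB ^ 51 % BB : ℕ) : ℤ) = S.KS tau plAA plAC x +
      18 * 2 ^ 45 + (S.rg S.omA x + 5 * cW + (S.rg S.omA (x ∘ ![0, 1, 2, 3, 5, 4]) + 5 * cW +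
      (S.rg S.omA (x ∘ ![0, 1, 2, 4, 5, 3]) + 5 * cW +
        (S.rg S.omA (x ∘ ![0, 1, 3, 4, 5, 2]) + 5 * cW)))) →
      ((M / BB ^ 51 % BB : ℕ) : ℤ) = S.KS tau plAA plAC x + (S.rg S.omA x +
      (S.rg S.omA (x ∘ ![0, 1, 2, 3, 5, 4]) +
      (S.rg S.omA (x ∘ ![0, 1, 2, 4, 5, 3]) + S.rg S.omA (x ∘ ![0, 1, 3, 4, 5, 2])))) +
      (18 * 2 ^ 45 + 20 * cW) := by
    intro M M' h1 h2
    rw [h1, h2]
    ring
  refine hM _ _ ?_ hD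
  have y1 : S.a (x 4) (x 5) = S.a (x 5) (x 4) := S.a_symm _ _
  have y2 : S.a (x 3) (x 4) = S.a (x 4) (x 3) := S.a_symm _ _
  have y3 : S.a (x 3) (x 5) = S.a (x 5) (x 3) := S.a_symm _ _
  have y4 : S.a (x 2) (x 3) = S.a (x 3) (x 2) := S.a_symm _ _
  have y5 : S.a (x 2) (x 4) = S.a (x 4) (x 2) := S.a_symm _ _
  have y6 : S.a (x 2) (x 5) = S.a (x 5) (x 2) := S.a_symm _ _
  show _ + (Nat.mul _ _ + (Nat.mul _ _ + (Nat.mul _ _ + Nat.mul _ _))) = _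
  have z2 : qrA (jxA (S.vw (x 0) (x 1) (x 4)) (S.a (x 2) (x 4)) (S.a (x 3) (x 4))
      (S.a (x 4) (x 5))) = qrA (jxA (S.vw (x 0) (x 1) (x 4)) (S.a (x 2) (x 4)) (S.a (x 3) (x 4))
      (S.a (x 5) (x 4))) := by rw [y1]
  have z3 : qrA (jxA (S.vw (x 0) (x 1) (x 3)) (S.a (x 2) (x 3)) (S.a (x 3) (x 4))
      (S.a (x 3) (x 5))) = qrA (jxA (S.vw (x 0) (x 1) (x 3)) (S.a (x 2) (x 3)) (S.a (x 4) (x 3))
      (S.a (x 5) (x 3))) := by rw [y2, y3]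
  have z4 : qrA (jxA (S.vw (x 0) (x 1) (x 2)) (S.a (x 2) (x 3)) (S.a (x 2) (x 4))
      (S.a (x 2) (x 5))) = qrA (jxA (S.vw (x 0) (x 1) (x 2)) (S.a (x 3) (x 2)) (S.a (x 4) (x 2))
      (S.a (x 5) (x 2))) := by rw [y4, y5, y6]
  rw [z2, z3, z4]
  rfl

end Pool.Agent.Helper96.FC
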