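import Pool.Agent.Helper96.FC.BodB

/-!
# Flag certificates on six vertices: configurations of type B
-/

set_option autoImplicit false

namespace Pool.Agent.Helper96.FC

open Finset

variable {V : Type} [Fintype V]

/-- the two views of a vertex as one number, and back -/
noncomputable def uI (s t : ℕ) : ℕ := ent tAI 4 15 (6 * s + t)

noncomputable def uT (u : ℕ) : ℕ := ent tAT 6 63 u

theorem uI_lt : ∀ s < 6, ∀ t < 6, uI s t < 16 := by decide +kernel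

theorem uT_uI' : ∀ s < 6, ∀ t < 6, (¬ (aw0 s = aw0 t ∧ ¬ (s = 1 ∧ t = 2) ∧ ¬ (s = 2 ∧ t = 1))) ∨
    (uT (uI s t) % 8 = s ∧ uT (uI s t) / 8 = t) := by decide +kernel

theorem tHB_eq : ∀ a < 2, ent tHB 96 m96 a = pk [0, 2 + 3 * a, 2 + 3 * a, 2 + 3 * a,
    0, 2 + 3 * a, 2 + 3 * a, 2 + 3 * a] := by decide +kernel

def fB3 (s t : ℕ) : ℕ := pk [s, 0, 8 * s + 512 * aw1 t, 8 * s + 512 * aw1 t,
  t, 0, 8 * t + 512 * aw1 s, 8 * t + 512 * aw1 s]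

def fB4 (s t : ℕ) : ℕ := pk [8 * s, 8 * s + 512 * aw1 t, 0, 64 * s + 1024 * aw1 t,
  8 * t, 8 * t + 512 * aw1 s, 0, 64 * t + 1024 * aw1 s]

def fB5 (s t : ℕ) : ℕ := pk [64 * s, 64 * s + 1024 * aw1 t, 64 * s + 1024 * aw1 t, 0,
  64 * t, 64 * t + 1024 * aw1 s, 64 * t + 1024 * aw1 s, 0]

theorem tHB3_eq : ∀ u < 16, ent tHB3 96 m96 u = fB3 (uT u % 8) (uT u / 8) := by decide +kernel

theorem tHB4_eq : ∀ u < 16, ent tHB4 96 m96 u = fB4 (uT u % 8) (uT u / 8) := by decide +kernel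

theorem tHB5_eq : ∀ u < 16, ent tHB5 96 m96 u = fB5 (uT u % 8) (uT u / 8) := by decide +kernel

theorem tHBK_eq : ∀ b < 8, ent tHBK 96 m96 b =
    pk [512 * (b / 4 % 2) + 1024 * (b / 2 % 2) + 2048 * (b % 2), 2048 * (b % 2),
      2048 * (b / 2 % 2), 2048 * (b / 4 % 2),
      512 * (b / 4 % 2) + 1024 * (b / 2 % 2) + 2048 * (b % 2), 2048 * (b % 2),
      2048 * (b / 2 % 2), 2048 * (b / 4 % 2)] := by decide +kernel

theorem qrB_eq : ∀ u < 16, ∀ k < 2, ∀ l < 2, qrB (2 * (2 * u + k) + l) =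
    qrow (aw0 (uT u % 8)) (aw1 (uT u % 8)) (aw1 (uT u / 8)) k l := by decide +kernel

/-- the number of the views of a vertex -/
noncomputable def Sys.ub (S : Sys V) (a b c k : V) : ℕ := uI (S.vw a b k) (S.vw a c k)

theorem Sys.ub_lt (S : Sys V) (a b c k : V) : S.ub a b c k < 16 :=
  uI_lt _ (S.vw_lt _ _ _) _ (S.vw_lt _ _ _)

theorem vw_q (S : Sys V) (a b k : V) : (S.vw a b k = 1 → S.q a k = false) ∧
    (S.vw a b k = 2 → S.q a k = true) := by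
  unfold Sys.vw
  rcases h1 : S.adj a k <;> rcases h2 : S.adj b k <;> rcases h3 : S.q a k <;>
    rcases h4 : S.q b k <;> simp

theorem Sys.ub_dg (S : Sys V) (a b c k : V) :
    uT (S.ub a b c k) % 8 = S.vw a b k ∧ uT (S.ub a b c k) / 8 = S.vw a c k := by
  rcases uT_uI' _ (S.vw_lt a b k) _ (S.vw_lt a c k) with h | h
  · exfalso
    apply h
    refine ⟨by rw [S.aw0_vw, S.aw0_vw], fun h => ?_, fun h => ?_⟩
    · have h1 := (vw_q S a b k).1 h.1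
      rw [(vw_q S a c k).2 h.2] at h1
      exact absurd h1 (by simp)
    · have h1 := (vw_q S a c k).1 h.2
      rw [(vw_q S a b k).2 h.1] at h1
      exact absurd h1 (by simp)
  · exact h

/-- the regularity weights of type B -/
noncomputable def Sys.omB (S : Sys V) (y : Fin 5 → V) (z : Fin 5) : ℤ :=
  (wdg (prB (ixB (S.a (y 1) (y 2)) (S.ub (y 0) (y 1) (y 2) (y 3))
    (S.ub (y 0) (y 1) (y 2) (y 4)) (S.a (y 3) (y 4)))) z : ℤ) - cW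

/-- the bits of the edges between the free vertices -/
def Sys.bbB (S : Sys V) (x : Fin 6 → V) : ℕ :=
  4 * S.a (x 3) (x 4) + 2 * S.a (x 3) (x 5) + S.a (x 4) (x 5)

theorem Sys.bbB_dg (S : Sys V) (x : Fin 6 → V) : S.bbB x < 8 ∧
    S.bbB x / 4 % 2 = S.a (x 3) (x 4) ∧ S.bbB x / 2 % 2 = S.a (x 3) (x 5) ∧
    S.bbB x % 2 = S.a (x 4) (x 5) := by
  have h4 := S.a_le (x 3) (x 4)
  have h5 := S.a_le (x 3) (x 5)
  have h6 := S.a_le (x 4) (x 5)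
  unfold Sys.bbB
  omega

theorem Sys.vw_mark (S : Sys V) {a b c : V} (h : S.q a c = true) :
    S.vw a b c = 2 + 3 * S.a b c := by
  unfold Sys.vw Sys.a
  rw [S.q_adj _ _ h, h]
  rcases S.adj b c <;> rfl

theorem Sys.hB_eq (S : Sys V) (x : Fin 6 → V) (h01 : S.q (x 0) (x 1) = true)
    (h02 : S.q (x 0) (x 2) = true) :
    hB (S.a (x 1) (x 2)) (S.ub (x 0) (x 1) (x 2) (x 3)) (S.ub (x 0) (x 1) (x 2) (x 4))
      (S.ub (x 0) (x 1) (x 2) (x 5)) (S.bbB x) =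
    pk [S.c5 (x ∘ ![0, 1, 3, 4, 5]), S.c5 (x ∘ ![0, 1, 2, 4, 5]), S.c5 (x ∘ ![0, 1, 2, 3, 5]),
      S.c5 (x ∘ ![0, 1, 2, 3, 4]), S.c5 (x ∘ ![0, 2, 3, 4, 5]), S.c5 (x ∘ ![0, 2, 1, 4, 5]),
      S.c5 (x ∘ ![0, 2, 1, 3, 5]), S.c5 (x ∘ ![0, 2, 1, 3, 4])] := by
  obtain ⟨b0, b1, b2, b3⟩ := S.bbB_dg x
  obtain ⟨p3, q3⟩ := S.ub_dg (x 0) (x 1) (x 2) (x 3)
  obtain ⟨p4, q4⟩ := S.ub_dg (x 0) (x 1) (x 2) (x 4)
  obtain ⟨p5, q5⟩ := S.ub_dg (x 0) (x 1) (x 2) (x 5)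
  show ent tHB 96 m96 _ + (ent tHB3 96 m96 _ + (ent tHB4 96 m96 _ + (ent tHB5 96 m96 _ +
    ent tHBK 96 m96 _))) = _
  rw [tHB_eq _ (Nat.lt_succ_of_le (S.a_le _ _)), tHB3_eq _ (S.ub_lt _ _ _ _),
    tHB4_eq _ (S.ub_lt _ _ _ _), tHB5_eq _ (S.ub_lt _ _ _ _), tHBK_eq _ b0, b1, b2, b3,
    p3, q3, p4, q4, p5, q5]
  unfold fB3 fB4 fB5
  simp only [pk, S.aw0_vw, S.aw1_vw]
  have s2 := S.vw_mark (b := x 1) h02
  have t1 := S.vw_mark (b := x 2) h01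
  rw [S.a_symm (x 2) (x 1)] at t1
  have c0 : S.c5 (x ∘ ![0, 1, 3, 4, 5]) = S.vw (x 0) (x 1) (x 3) + 8 * S.vw (x 0) (x 1) (x 4) +
    64 * S.vw (x 0) (x 1) (x 5) + 512 * S.a (x 3) (x 4) + 1024 * S.a (x 3) (x 5) +
    2048 * S.a (x 4) (x 5) := rfl
  have c1 : S.c5 (x ∘ ![0, 1, 2, 4, 5]) = S.vw (x 0) (x 1) (x 2) + 8 * S.vw (x 0) (x 1) (x 4) +
    64 * S.vw (x 0) (x 1) (x 5) + 512 * S.a (x 2) (x 4) + 1024 * S.a (x 2) (x 5) +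
    2048 * S.a (x 4) (x 5) := rfl
  have c2 : S.c5 (x ∘ ![0, 1, 2, 3, 5]) = S.vw (x 0) (x 1) (x 2) + 8 * S.vw (x 0) (x 1) (x 3) +
    64 * S.vw (x 0) (x 1) (x 5) + 512 * S.a (x 2) (x 3) + 1024 * S.a (x 2) (x 5) +
    2048 * S.a (x 3) (x 5) := rfl
  have c3 : S.c5 (x ∘ ![0, 1, 2, 3, 4]) = S.vw (x 0) (x 1) (x 2) + 8 * S.vw (x 0) (x 1) (x 3) +
    64 * S.vw (x 0) (x 1) (x 4) + 512 * S.a (x 2) (x 3) + 1024 * S.a (x 2) (x 4) +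
    2048 * S.a (x 3) (x 4) := rfl
  have f0 : S.c5 (x ∘ ![0, 2, 3, 4, 5]) = S.vw (x 0) (x 2) (x 3) + 8 * S.vw (x 0) (x 2) (x 4) +
    64 * S.vw (x 0) (x 2) (x 5) + 512 * S.a (x 3) (x 4) + 1024 * S.a (x 3) (x 5) +
    2048 * S.a (x 4) (x 5) := rfl
  have f1 : S.c5 (x ∘ ![0, 2, 1, 4, 5]) = S.vw (x 0) (x 2) (x 1) + 8 * S.vw (x 0) (x 2) (x 4) +
    64 * S.vw (x 0) (x 2) (x 5) + 512 * S.a (x 1) (x 4) + 1024 * S.a (x 1) (x 5) +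
    2048 * S.a (x 4) (x 5) := rfl
  have f2 : S.c5 (x ∘ ![0, 2, 1, 3, 5]) = S.vw (x 0) (x 2) (x 1) + 8 * S.vw (x 0) (x 2) (x 3) +
    64 * S.vw (x 0) (x 2) (x 5) + 512 * S.a (x 1) (x 3) + 1024 * S.a (x 1) (x 5) +
    2048 * S.a (x 3) (x 5) := rfl
  have f3 : S.c5 (x ∘ ![0, 2, 1, 3, 4]) = S.vw (x 0) (x 2) (x 1) + 8 * S.vw (x 0) (x 2) (x 3) +
    64 * S.vw (x 0) (x 2) (x 4) + 512 * S.a (x 1) (x 3) + 1024 * S.a (x 1) (x 4) +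
    2048 * S.a (x 3) (x 4) := rfl
  rw [c0, c1, c2, c3, f0, f1, f2, f3, s2, t1]
  ring

theorem evB_pk (e0 e1 e2 e3 f0 f1 f2 f3 : ℕ) (h : ∀ a ∈ [e0, e1, e2, e3, f0, f1, f2, f3], a < 4096) :
    evB (pk [e0, e1, e2, e3, f0, f1, f2, f3]) = bodyB e0 e1 e2 e3 f0 f1 f2 f3 := by
  have g0 : fl0 (pk [e0, e1, e2, e3, f0, f1, f2, f3]) = e0 := pk_get _ 0 (by simp) h
  have g1 : fl1 (pk [e0, e1, e2, e3, f0, f1, f2, f3]) = e1 := pk_get _ 1 (by simp) h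
  have g2 : fl2 (pk [e0, e1, e2, e3, f0, f1, f2, f3]) = e2 := pk_get _ 2 (by simp) h
  have g3 : fl3 (pk [e0, e1, e2, e3, f0, f1, f2, f3]) = e3 := pk_get _ 3 (by simp) h
  have g4 : fl4 (pk [e0, e1, e2, e3, f0, f1, f2, f3]) = f0 := pk_get _ 4 (by simp) h
  have g5 : fl5 (pk [e0, e1, e2, e3, f0, f1, f2, f3]) = f1 := pk_get _ 5 (by simp) h
  have g6 : fl6 (pk [e0, e1, e2, e3, f0, f1, f2, f3]) = f2 := pk_get _ 6 (by simp) h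
  have g7 : fl7 (pk [e0, e1, e2, e3, f0, f1, f2, f3]) = f3 := pk_get _ 7 (by simp) h
  unfold evB
  simp only [frc_eq, g0, g1, g2, g3, g4, g5, g6, g7]

/-- one regularity term of type B and its packed form -/
theorem Sys.rgB_dig (S : Sys V) (R : ∀ i < 1024, chkR (prB i) = true) (y : Fin 6 → V) :
    DigZ 51 (2 ^ 57) (2 ^ 56) (S.rg S.omB y + 5 * cW)
      (Nat.mul (prB (ixB (S.a (y 1) (y 2)) (S.ub (y 0) (y 1) (y 2) (y 3))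
        (S.ub (y 0) (y 1) (y 2) (y 4)) (S.a (y 3) (y 4))))
        (qrB (jxB (S.ub (y 0) (y 1) (y 2) (y 5)) (S.a (y 3) (y 5)) (S.a (y 4) (y 5))))) := by
  have v3 := S.ub_lt (y 0) (y 1) (y 2) (y 3)
  have v4 := S.ub_lt (y 0) (y 1) (y 2) (y 4)
  have v5 := S.ub_lt (y 0) (y 1) (y 2) (y 5)
  have u1 := S.a_le (y 1) (y 2)
  have u2 := S.a_le (y 3) (y 4)
  obtain ⟨p5, q5⟩ := S.ub_dg (y 0) (y 1) (y 2) (y 5)
  have R1 := R (ixB (S.a (y 1) (y 2)) (S.ub (y 0) (y 1) (y 2) (y 3))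
        (S.ub (y 0) (y 1) (y 2) (y 4)) (S.a (y 3) (y 4))) (by
    show 2 * (16 * (16 * _ + _) + _) + _ < _
    omega)
  have q : qrB (jxB (S.ub (y 0) (y 1) (y 2) (y 5)) (S.a (y 3) (y 5)) (S.a (y 4) (y 5))) =
      qrow (S.a (y 0) (y 5)) (S.a (y 1) (y 5)) (S.a (y 2) (y 5))
      (S.a (y 3) (y 5)) (S.a (y 4) (y 5)) := by
    have := qrB_eq _ v5 _ (Nat.lt_succ_of_le (S.a_le (y 3) (y 5))) _
      (Nat.lt_succ_of_le (S.a_le (y 4) (y 5)))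
    rw [p5, q5, S.aw0_vw, S.aw1_vw, S.aw1_vw] at this
    exact this
  rw [q]
  have D1 := reg_dig R1 (S.a_le (y 0) (y 5)) (S.a_le (y 1) (y 5)) (S.a_le (y 2) (y 5))
    (S.a_le (y 3) (y 5)) (S.a_le (y 4) (y 5))
  have h : ∀ z, S.omB (y ∘ t5) z = (wdg (prB (ixB (S.a (y 1) (y 2))
      (S.ub (y 0) (y 1) (y 2) (y 3)) (S.ub (y 0) (y 1) (y 2) (y 4)) (S.a (y 3) (y 4)))) z : ℤ) -
      cW := fun z => rfl
  unfold Sys.rg
  rw [Fin.sum_univ_five]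
  simp only [h]
  exact D1

theorem Sys.valB_eq (S : Sys V) (K : Facts) (R : ∀ i < 1024, chkR (prB i) = true)
    (x : Fin 6 → V) (h01 : S.q (x 0) (x 1) = true) (h02 : S.q (x 0) (x 2) = true) :
    ((valB (S.a (x 1) (x 2)) (S.ub (x 0) (x 1) (x 2) (x 3)) (S.ub (x 0) (x 1) (x 2) (x 4))
      (S.ub (x 0) (x 1) (x 2) (x 5)) (S.a (x 3) (x 4)) (S.a (x 3) (x 5)) (S.a (x 4) (x 5))
      (hB (S.a (x 1) (x 2)) (S.ub (x 0) (x 1) (x 2) (x 3)) (S.ub (x 0) (x 1) (x 2) (x 4))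
      (S.ub (x 0) (x 1) (x 2) (x 5)) (S.bbB x)) : ℕ) : ℤ) =
    S.KS tau plBA plBC x + S.RR S.omB gB x + kB := by
  rw [S.hB_eq x h01 h02]
  have a01 : S.a (x 0) (x 1) = 1 := by unfold Sys.a; rw [S.q_adj _ _ h01]; rfl
  have a02 : S.a (x 0) (x 2) = 1 := by unfold Sys.a; rw [S.q_adj _ _ h02]; rfl
  have hbody := S.body_B K x a01 a02
  have g1 : (x ∘ ![0, 1, 2, 3, 4, 5] : Fin 6 → V) = x := by
    funext i; fin_cases i <;> rfl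
  have hrr : S.RR S.omB gB x = S.rg S.omB x + (S.rg S.omB (x ∘ ![0, 1, 2, 3, 5, 4]) +
      S.rg S.omB (x ∘ ![0, 1, 2, 4, 5, 3])) := by
    unfold Sys.RR gB
    simp only [List.map_cons, List.map_nil, List.sum_cons, List.sum_nil, g1]
    ring
  have D1 := S.rgB_dig R x
  have D2 := S.rgB_dig R (x ∘ ![0, 1, 2, 3, 5, 4])
  have D3 := S.rgB_dig R (x ∘ ![0, 1, 2, 4, 5, 3])
  have D := hbody.add (D1.add (D2.add D3))
  have hD := D.extract (by unfold BB; norm_num) (by unfold BB; norm_num)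
  unfold valB
  rw [evB_pk _ _ _ _ _ _ _ _ (by
    intro a ha
    simp only [List.mem_cons, List.not_mem_nil, or_false] at ha
    rcases ha with rfl | rfl | rfl | rfl | rfl | rfl | rfl | rfl <;> exact S.c5_lt _)]
  have e : ∀ M : ℕ, dgt M = M / BB ^ 51 % BB := fun _ => rfl
  have e3 : (kB : ℤ) = 25 * 2 ^ 45 + 15 * cW := by unfold kB cW; norm_num
  rw [e, hrr, e3]
  have hM : ∀ M M' : ℕ, M = M' → ((M' / BB ^ 51 % BB : ℕ) : ℤ) = S.KS tau plBA plBC x +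
      25 * 2 ^ 45 + (S.rg S.omB x + 5 * cW + (S.rg S.omB (x ∘ ![0, 1, 2, 3, 5, 4]) + 5 * cW +
      (S.rg S.omB (x ∘ ![0, 1, 2, 4, 5, 3]) + 5 * cW))) →
      ((M / BB ^ 51 % BB : ℕ) : ℤ) = S.KS tau plBA plBC x + (S.rg S.omB x +
      (S.rg S.omB (x ∘ ![0, 1, 2, 3, 5, 4]) +
      S.rg S.omB (x ∘ ![0, 1, 2, 4, 5, 3]))) +
      (25 * 2 ^ 45 + 15 * cW) := by
    intro M M' h1 h2
    rw [h1, h2]
    ring
  refine hM _ _ ?_ hD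
  have y1 : S.a (x 4) (x 5) = S.a (x 5) (x 4) := S.a_symm _ _
  have y2 : S.a (x 3) (x 4) = S.a (x 4) (x 3) := S.a_symm _ _
  have y3 : S.a (x 3) (x 5) = S.a (x 5) (x 3) := S.a_symm _ _
  show _ + (Nat.mul _ _ + (Nat.mul _ _ + Nat.mul _ _)) = _
  have z2 : qrB (jxB (S.ub (x 0) (x 1) (x 2) (x 4)) (S.a (x 3) (x 4)) (S.a (x 4) (x 5))) =
      qrB (jxB (S.ub (x 0) (x 1) (x 2) (x 4)) (S.a (x 3) (x 4)) (S.a (x 5) (x 4))) := by rw [y1]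
  have z3 : qrB (jxB (S.ub (x 0) (x 1) (x 2) (x 3)) (S.a (x 3) (x 4)) (S.a (x 3) (x 5))) =
      qrB (jxB (S.ub (x 0) (x 1) (x 2) (x 3)) (S.a (x 4) (x 3)) (S.a (x 5) (x 3))) := by
    rw [y2, y3]
  rw [z2, z3]
  rfl

end Pool.Agent.Helper96.FC
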