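import Pool.Agent.Helper96.FC.EnA1
import Pool.Agent.Helper96.FC.EnA2
import Pool.Agent.Helper96.FC.EnA3
import Pool.Agent.Helper96.FC.EnA4
import Pool.Agent.Helper96.FC.EnA5
import Pool.Agent.Helper96.FC.EnA6
import Pool.Agent.Helper96.FC.EnA7
import Pool.Agent.Helper96.FC.EnA8
import Pool.Agent.Helper96.FC.EnA9
import Pool.Agent.Helper96.FC.EnA10
import Pool.Agent.Helper96.FC.EnA11
import Pool.Agent.Helper96.FC.EnA12

/-!
# Flag certificates on six vertices: the enumeration for type A
-/

set_option autoImplicit false

namespace Pool.Agent.Helper96.FC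

theorem enA_all : ∀ s2 < 6, ∀ s3 < 6, enA s2 s3 = true := by
  intro s2 h2 s3 h3
  interval_cases s2 <;> interval_cases s3
  · exact enA_0
  · exact enA_1
  · exact enA_2
  · exact enA_3
  · exact enA_4
  · exact enA_5
  · exact enA_6
  · exact enA_7
  · exact enA_8
  · exact enA_9
  · exact enA_10
  · exact enA_11
  · exact enA_12
  · exact enA_13
  · exact enA_14
  · exact enA_15
  · exact enA_16
  · exact enA_17
  · exact enA_18
  · exact enA_19
  · exact enA_20
  · exact enA_21
  · exact enA_22
  · exact enA_23
  · exact enA_24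
  · exact enA_25
  · exact enA_26
  · exact enA_27
  · exact enA_28
  · exact enA_29
  · exact enA_30
  · exact enA_31
  · exact enA_32
  · exact enA_33
  · exact enA_34
  · exact enA_35

end Pool.Agent.Helper96.FC
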