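import Pool.Agent.Helper96.FC.PtB

/-!
# Flag certificates on six vertices: the enumeration for type B
-/

set_option autoImplicit false

namespace Pool.Agent.Helper96.FC

theorem enB_16 : enB 1 0 = true := by decide +kernel

theorem enB_17 : enB 1 1 = true := by decide +kernel

theorem enB_18 : enB 1 2 = true := by decide +kernel

theorem enB_19 : enB 1 3 = true := by decide +kernel

end Pool.Agent.Helper96.FC
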