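import Pool.Agent.Helper96.FC.EnB1
import Pool.Agent.Helper96.FC.EnB2
import Pool.Agent.Helper96.FC.EnB3
import Pool.Agent.Helper96.FC.EnB4
import Pool.Agent.Helper96.FC.EnB5
import Pool.Agent.Helper96.FC.EnB6
import Pool.Agent.Helper96.FC.EnB7
import Pool.Agent.Helper96.FC.EnB8

/-!
# Flag certificates on six vertices: the enumeration for type B
-/

set_option autoImplicit false

namespace Pool.Agent.Helper96.FC

theorem enB_all : ∀ a < 2, ∀ u < 16, enB a u = true := by
  intro a ha u hu
  interval_cases a <;> interval_cases u
  · exact enB_0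
  · exact enB_1
  · exact enB_2
  · exact enB_3
  · exact enB_4
  · exact enB_5
  · exact enB_6
  · exact enB_7
  · exact enB_8
  · exact enB_9
  · exact enB_10
  · exact enB_11
  · exact enB_12
  · exact enB_13
  · exact enB_14
  · exact enB_15
  · exact enB_16
  · exact enB_17
  · exact enB_18
  · exact enB_19
  · exact enB_20
  · exact enB_21
  · exact enB_22
  · exact enB_23
  · exact enB_24
  · exact enB_25
  · exact enB_26
  · exact enB_27
  · exact enB_28
  · exact enB_29
  · exact enB_30
  · exact enB_31

end Pool.Agent.Helper96.FC
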