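import Pool.Agent.Helper96.FC.PtC

/-!
# Flag certificates on six vertices: the enumeration for type C
-/

set_option autoImplicit false

namespace Pool.Agent.Helper96.FC

theorem enC_5 : enC 5 = true := by decide +kernel

theorem enC_6 : enC 6 = true := by decide +kernel

theorem enC_7 : enC 7 = true := by decide +kernel

theorem enC_8 : enC 8 = true := by decide +kernel

theorem enC_9 : enC 9 = true := by decide +kernel

end Pool.Agent.Helper96.FC
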