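import Pool.Agent.Helper96.FC.PtC

/-!
# Flag certificates on six vertices: the enumeration for type C
-/

set_option autoImplicit false

namespace Pool.Agent.Helper96.FC

theorem enC_10 : enC 10 = true := by decide +kernel

theorem enC_11 : enC 11 = true := by decide +kernel

theorem enC_12 : enC 12 = true := by decide +kernel

theorem enC_13 : enC 13 = true := by decide +kernel

theorem enC_14 : enC 14 = true := by decide +kernel

end Pool.Agent.Helper96.FC
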