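import Pool.Agent.Helper96.FC.PtC

/-!
# Flag certificates on six vertices: the enumeration for type C
-/

set_option autoImplicit false

namespace Pool.Agent.Helper96.FC

theorem enC_15 : enC 15 = true := by decide +kernel

theorem enC_16 : enC 16 = true := by decide +kernel

theorem enC_17 : enC 17 = true := by decide +kernel

theorem enC_18 : enC 18 = true := by decide +kernel

theorem enC_19 : enC 19 = true := by decide +kernel

end Pool.Agent.Helper96.FC
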