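import Pool.Agent.Helper96.FC.PtC

/-!
# Flag certificates on six vertices: the enumeration for type C
-/

set_option autoImplicit false

namespace Pool.Agent.Helper96.FC

theorem enC_20 : enC 20 = true := by decide +kernel

theorem enC_21 : enC 21 = true := by decide +kernel

theorem enC_22 : enC 22 = true := by decide +kernel

theorem enC_23 : enC 23 = true := by decide +kernel

theorem enC_24 : enC 24 = true := by decide +kernel

end Pool.Agent.Helper96.FC
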