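import Pool.Agent.Helper96.FC.PtC

/-!
# Flag certificates on six vertices: the enumeration for type C
-/

set_option autoImplicit false

namespace Pool.Agent.Helper96.FC

theorem enC_25 : enC 25 = true := by decide +kernel

theorem enC_26 : enC 26 = true := by decide +kernel

theorem enC_27 : enC 27 = true := by decide +kernel

theorem enC_28 : enC 28 = true := by decide +kernel

theorem enC_29 : enC 29 = true := by decide +kernel

end Pool.Agent.Helper96.FC
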