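import Pool.Agent.Helper96.FC.PtC

/-!
# Flag certificates on six vertices: the enumeration for type C
-/

set_option autoImplicit false

namespace Pool.Agent.Helper96.FC

theorem enC_30 : enC 30 = true := by decide +kernel

theorem enC_31 : enC 31 = true := by decide +kernel

theorem enC_32 : enC 32 = true := by decide +kernel

theorem enC_33 : enC 33 = true := by decide +kernel

theorem enC_34 : enC 34 = true := by decide +kernel

end Pool.Agent.Helper96.FC
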