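import Pool.Agent.Helper96.FC.PtC

/-!
# Flag certificates on six vertices: the enumeration for type C
-/

set_option autoImplicit false

namespace Pool.Agent.Helper96.FC

theorem enC_35 : enC 35 = true := by decide +kernel

theorem enC_36 : enC 36 = true := by decide +kernel

theorem enC_37 : enC 37 = true := by decide +kernel

theorem enC_38 : enC 38 = true := by decide +kernel

theorem enC_39 : enC 39 = true := by decide +kernel

end Pool.Agent.Helper96.FC
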