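import Pool.Agent.Helper96.FC.PtC

/-!
# Flag certificates on six vertices: the enumeration for type C
-/

set_option autoImplicit false

namespace Pool.Agent.Helper96.FC

theorem enC_40 : enC 40 = true := by decide +kernel

theorem enC_41 : enC 41 = true := by decide +kernel

theorem enC_42 : enC 42 = true := by decide +kernel

theorem enC_43 : enC 43 = true := by decide +kernel

theorem enC_44 : enC 44 = true := by decide +kernel

end Pool.Agent.Helper96.FC
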