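import Pool.Agent.Helper96.FC.EnC1
import Pool.Agent.Helper96.FC.EnC2
import Pool.Agent.Helper96.FC.EnC3
import Pool.Agent.Helper96.FC.EnC4
import Pool.Agent.Helper96.FC.EnC5
import Pool.Agent.Helper96.FC.EnC6
import Pool.Agent.Helper96.FC.EnC7
import Pool.Agent.Helper96.FC.EnC8
import Pool.Agent.Helper96.FC.EnC9
import Pool.Agent.Helper96.FC.EnC10

/-!
# Flag certificates on six vertices: the enumeration for type C
-/

set_option autoImplicit false

namespace Pool.Agent.Helper96.FC

theorem enC_all : ∀ b < 49, enC b = true := by
  intro b hb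
  interval_cases b
  · exact enC_0
  · exact enC_1
  · exact enC_2
  · exact enC_3
  · exact enC_4
  · exact enC_5
  · exact enC_6
  · exact enC_7
  · exact enC_8
  · exact enC_9
  · exact enC_10
  · exact enC_11
  · exact enC_12
  · exact enC_13
  · exact enC_14
  · exact enC_15
  · exact enC_16
  · exact enC_17
  · exact enC_18
  · exact enC_19
  · exact enC_20
  · exact enC_21
  · exact enC_22
  · exact enC_23
  · exact enC_24
  · exact enC_25
  · exact enC_26
  · exact enC_27
  · exact enC_28
  · exact enC_29
  · exact enC_30
  · exact enC_31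
  · exact enC_32
  · exact enC_33
  · exact enC_34
  · exact enC_35
  · exact enC_36
  · exact enC_37
  · exact enC_38
  · exact enC_39
  · exact enC_40
  · exact enC_41
  · exact enC_42
  · exact enC_43
  · exact enC_44
  · exact enC_45
  · exact enC_46
  · exact enC_47
  · exact enC_48

end Pool.Agent.Helper96.FC
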