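import Pool.Agent.Helper96.FC.Sem

/-!
# Flag certificates on six vertices: checks of the regularity weights
-/

set_option autoImplicit false

namespace Pool.Agent.Helper96.FC

noncomputable section

/-- entries of entries -/
theorem ent_ent (T w n k j : ℕ) (hj : j < n) :
    ent (ent T (Nat.mul w n) (Nat.pred (Nat.pow 2 (Nat.mul w n))) k) w
      (Nat.pred (Nat.pow 2 w)) j =
    ent T w (Nat.pred (Nat.pow 2 w)) (n * k + j) := by
  show ((T >>> ((w * n) * k)) &&& (2 ^ (w * n) - 1)) >>> (w * j) &&& (2 ^ w - 1) =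
    T >>> (w * (n * k + j)) &&& (2 ^ w - 1)
  apply Nat.eq_of_testBit_eq
  intro i
  simp only [Nat.testBit_land, Nat.testBit_shiftRight, Nat.testBit_two_pow_sub_one]
  by_cases hi : i < w
  · have h1 : w * j + i < w * n := by
      calc w * j + i < w * j + w := by omega
        _ = w * (j + 1) := by ring
        _ ≤ w * n := Nat.mul_le_mul_left _ hj
    have h2 : w * n * k + (w * j + i) = w * (n * k + j) + i := by ring
    simp only [hi, h1, decide_true, Bool.and_true, h2]
  · simp only [hi, decide_false, Bool.and_false]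

theorem ent_eq (T w k : ℕ) :
    ent T w (Nat.pred (Nat.pow 2 w)) k = T / 2 ^ (w * k) % 2 ^ w := by
  show T >>> (w * k) &&& (2 ^ w - 1) = _
  rw [Nat.shiftRight_eq_div_pow, Nat.and_two_pow_sub_one_eq_mod]

/-- the digits of an entry of `384` bits -/
theorem ent_dig (c j z : ℕ) (hz : z < 6) :
    ent c 64 (Nat.pred (Nat.pow 2 64)) (6 * j + z) =
      ent c 384 (Nat.pred (Nat.pow 2 384)) j / BB ^ z % BB := by
  have h := ent_ent c 64 6 j z hz
  have h1 : ent c 384 (Nat.pred (Nat.pow 2 384)) j =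
    ent c (Nat.mul 64 6) (Nat.pred (Nat.pow 2 (Nat.mul 64 6))) j := rfl
  rw [h1, ← h, ent_eq _ 64 z, Nat.pow_mul]
  rfl

theorem packP_dig (e : ℕ) (he : e < BB ^ 6) : e = packP [e % BB, e / BB ^ 1 % BB,
    e / BB ^ 2 % BB, e / BB ^ 3 % BB, e / BB ^ 4 % BB, e / BB ^ 5 % BB] := by
  have hB : 0 < BB := by unfold BB; positivity
  have h : ∀ k, e / BB ^ k = e / BB ^ k % BB + BB * (e / BB ^ (k + 1)) := by
    intro k
    rw [Nat.pow_succ, ← Nat.div_div_eq_div_mul, Nat.mod_add_div]
  have h6 : e / BB ^ 6 = 0 := Nat.div_eq_of_lt he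
  have h0 : e = e % BB + BB * (e / BB ^ 1) := by
    rw [pow_one, Nat.mod_add_div]
  simp only [packP]
  conv_lhs => rw [h0, h 1, h 2, h 3, h 4, h 5, h6]

/-- check of an entry which starts at the digit number `b` -/
def chkE (c b : ℕ) : Bool :=
  cond (Nat.beq (ent c 64 (Nat.pred (Nat.pow 2 64)) b) 1)
    (frcB (fun w0 => frcB (fun w1 => frcB (fun w2 => frcB (fun w3 => frcB (fun w4 =>
      cond (Nat.ble w0 1125899906842624) (cond (Nat.ble w1 1125899906842624)
      (cond (Nat.ble w2 1125899906842624) (cond (Nat.ble w3 1125899906842624)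
      (cond (Nat.ble w4 1125899906842624)
        (Nat.beq (Nat.add (Nat.add (Nat.add (Nat.add w0 w1) w2) w3) w4) 175921860444160)
        false) false) false) false) false)
      (ent c 64 (Nat.pred (Nat.pow 2 64)) (Nat.add b 5)))
      (ent c 64 (Nat.pred (Nat.pow 2 64)) (Nat.add b 4)))
      (ent c 64 (Nat.pred (Nat.pow 2 64)) (Nat.add b 3)))
      (ent c 64 (Nat.pred (Nat.pow 2 64)) (Nat.add b 2)))
      (ent c 64 (Nat.pred (Nat.pow 2 64)) (Nat.add b 1))) false

theorem beq_of_eq' {a b : ℕ} (h : a = b) : Nat.beq a b = true := by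
  subst h
  exact Nat.beq_refl a

theorem cond_ff {b c : Bool} (h : cond b c false = true) : b = true ∧ c = true := by
  cases b
  · simp at h
  · exact ⟨rfl, h⟩

theorem chkE_ok {c j : ℕ} (h : chkE c (6 * j) = true) :
    chkR (ent c 384 (Nat.pred (Nat.pow 2 384)) j) = true := by
  unfold chkE at h
  simp only [frcB_eq] at h
  obtain ⟨h0, h⟩ := cond_ff h
  obtain ⟨h1, h⟩ := cond_ff h
  obtain ⟨h2, h⟩ := cond_ff h
  obtain ⟨h3, h⟩ := cond_ff h
  obtain ⟨h4, h⟩ := cond_ff h
  obtain ⟨h5, h⟩ := cond_ff h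
  have d0 := ent_dig c j 0 (by norm_num)
  have d1 := ent_dig c j 1 (by norm_num)
  have d2 := ent_dig c j 2 (by norm_num)
  have d3 := ent_dig c j 3 (by norm_num)
  have d4 := ent_dig c j 4 (by norm_num)
  have d5 := ent_dig c j 5 (by norm_num)
  have e0 := Nat.eq_of_beq_eq_true h0
  have e1 := Nat.le_of_ble_eq_true h1
  have e2 := Nat.le_of_ble_eq_true h2
  have e3 := Nat.le_of_ble_eq_true h3
  have e4 := Nat.le_of_ble_eq_true h4
  have e5 := Nat.le_of_ble_eq_true h5
  have e6 := Nat.eq_of_beq_eq_true h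
  have he : ent c 384 (Nat.pred (Nat.pow 2 384)) j < BB ^ 6 := by
    rw [ent_eq]
    have : BB ^ 6 = 2 ^ 384 := by unfold BB; rw [← pow_mul]
    rw [this]
    exact Nat.mod_lt _ (by positivity)
  generalize ent c 384 (Nat.pred (Nat.pow 2 384)) j = e at *
  have f0 : ent c 64 (Nat.pred (Nat.pow 2 64)) (6 * j) = e % BB := by
    rw [← Nat.div_one e, ← pow_zero BB]; exact d0
  have g1 : ent c 64 (Nat.pred (Nat.pow 2 64)) ((6 * j).add 1) = wdg e 0 := d1
  have g2 : ent c 64 (Nat.pred (Nat.pow 2 64)) ((6 * j).add 2) = wdg e 1 := d2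
  have g3 : ent c 64 (Nat.pred (Nat.pow 2 64)) ((6 * j).add 3) = wdg e 2 := d3
  have g4 : ent c 64 (Nat.pred (Nat.pow 2 64)) ((6 * j).add 4) = wdg e 3 := d4
  have g5 : ent c 64 (Nat.pred (Nat.pow 2 64)) ((6 * j).add 5) = wdg e 4 := d5
  rw [f0] at e0
  rw [g1] at e1 e6
  rw [g2] at e2 e6
  rw [g3] at e3 e6
  rw [g4] at e4 e6
  rw [g5] at e5 e6
  have hp := packP_dig e he
  rw [e0] at hp
  have hb : (2 : ℕ) ^ 50 = 1125899906842624 := by norm_num
  have hc : 5 * cW = 175921860444160 := by unfold cW; norm_num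
  unfold chkR
  rw [hb, hc]
  have k1 : Nat.beq e (packP [1, wdg e 0, wdg e 1, wdg e 2, wdg e 3, wdg e 4]) = true :=
    beq_of_eq' hp
  have k2 : Nat.beq (wdg e 0 + wdg e 1 + wdg e 2 + wdg e 3 + wdg e 4) 175921860444160 = true :=
    beq_of_eq' e6
  rw [k1, k2, Nat.ble_eq_true_of_le e1, Nat.ble_eq_true_of_le e2, Nat.ble_eq_true_of_le e3,
    Nat.ble_eq_true_of_le e4, Nat.ble_eq_true_of_le e5]
  rfl

/-- check of a table with `a * n` entries of `384` bits, in `a` chunks -/
def chkT (T a n : ℕ) : Bool :=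
  frcB (fun t => allN a (fun k => frcB (fun c => allN n (fun j => chkE c (Nat.mul 6 j)))
    (ent t (Nat.mul 384 n) (Nat.pred (Nat.pow 2 (Nat.mul 384 n))) k))) T

theorem chkT_ok {T a n : ℕ} (h : chkT T a n = true) : ∀ i < a * n,
    chkR (ent T 384 (Nat.pred (Nat.pow 2 384)) i) = true := by
  intro i hi
  have hn : 0 < n := by
    rcases Nat.eq_zero_or_pos n with rfl | h
    · simp at hi
    · exact h
  unfold chkT at h
  rw [frcB_eq] at h
  have hk : i / n < a := (Nat.div_lt_iff_lt_mul hn).2 hi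
  have h1 := (allN_iff _ _).1 h (i / n) hk
  rw [frcB_eq] at h1
  have h2 := chkE_ok ((allN_iff _ _).1 h1 (i % n) (Nat.mod_lt _ hn))
  rw [ent_ent _ _ _ _ _ (Nat.mod_lt _ hn), Nat.div_add_mod] at h2
  exact h2

theorem chkR_C_all : chkT tRC 42 42 = true := by decide +kernel

theorem chkR_B_all : chkT tRB 32 32 = true := by decide +kernel

theorem chkR_A_all : chkT tRA 36 48 = true := by decide +kernel

theorem chkR_C : ∀ i < 1764, chkR (prC i) = true := fun i hi =>
  chkT_ok chkR_C_all i (by simpa using hi)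

theorem chkR_B : ∀ i < 1024, chkR (prB i) = true := fun i hi =>
  chkT_ok chkR_B_all i (by simpa using hi)

theorem chkR_A : ∀ i < 1728, chkR (prA i) = true := fun i hi =>
  chkT_ok chkR_A_all i (by simpa using hi)

theorem kregC : ∀ i < 1764, chkR (prC i) = true := chkR_C

theorem kregB : ∀ i < 1024, chkR (prB i) = true := chkR_B

theorem kregA : ∀ i < 1728, chkR (prA i) = true := chkR_A

end

end Pool.Agent.Helper96.FC
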