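import Pool.Agent.Helper96.FC.All
import Pool.Agent.Helper96.FC.KReg
import Pool.Agent.Helper96.FC.EnC
import Pool.Agent.Helper96.FC.EnB
import Pool.Agent.Helper96.FC.EnA

/-!
# Flag certificates on six vertices: the inequalities for all good tuples
-/

set_option autoImplicit false

namespace Pool.Agent.Helper96.FC

open Finset Pool.Agent.Helper60.SL

variable {V : Type} [Fintype V]

/-- The inequality for good tuples of type C. -/
theorem Sys.goodC (S : Sys V) (x : Fin 6 → V) (h01 : S.q (x 0) (x 1) = true)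
    (h23 : S.q (x 2) (x 3) = true) (hG : Good S x) :
    S.KS tau plCA plCC x + S.RR S.omC gC x + 8 * scl * (S.dg4 x 4 * S.dg4 x 5 : ℕ) ≤ 0 :=
  S.ptC facts kregC enC_all x h01 h23 hG

/-- The inequality for good tuples of type B. -/
theorem Sys.goodB (S : Sys V) (x : Fin 6 → V) (h01 : S.q (x 0) (x 1) = true)
    (h02 : S.q (x 0) (x 2) = true) (hG : Good S x) :
    S.KS tau plBA plBC x + S.RR S.omB gB x ≤ 0 :=
  S.ptB facts kregB enB_all x h01 h02 hG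

/-- The inequality for tuples of type A. -/
theorem Sys.goodA (S : Sys V) (x : Fin 6 → V) (h01 : S.q (x 0) (x 1) = true) :
    S.KS tau plAA plAC x + S.RR S.omA gA x ≤ 16 * scl * (S.oA x : ℕ) :=
  S.ptA facts kregA enA_all x h01

theorem wdg_sum {e : ℕ} (h : chkR e = true) : ∑ z : Fin 5, ((wdg e z : ℤ) - cW) = 0 := by
  obtain ⟨-, h2, -⟩ := chkR_ok h
  rw [Fin.sum_univ_five]
  have h3 : ((wdg e 0 + wdg e 1 + wdg e 2 + wdg e 3 + wdg e 4 : ℕ) : ℤ) = ((5 * cW : ℕ) : ℤ) := by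
    rw [h2]
  push_cast at h3
  linarith

theorem Sys.omC_sum (S : Sys V) (y : Fin 5 → V) : ∑ z : Fin 5, S.omC y z = 0 := by
  unfold Sys.omC
  by_cases hb : S.bOk y
  · simp only [if_pos hb]
    refine wdg_sum (kregC _ ?_)
    have h1 := bI_lt _ (S.bs6_lt y)
    have h2 := S.vw_lt (y 0) (y 1) (y 4)
    have h3 := S.vw_lt (y 2) (y 3) (y 4)
    show 36 * _ + _ < _
    omega
  · simp only [if_neg hb]
    simp

theorem Sys.omB_sum (S : Sys V) (y : Fin 5 → V) : ∑ z : Fin 5, S.omB y z = 0 := by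
  refine wdg_sum (kregB _ ?_)
  have h1 := S.ub_lt (y 0) (y 1) (y 2) (y 3)
  have h2 := S.ub_lt (y 0) (y 1) (y 2) (y 4)
  have h3 := S.a_le (y 1) (y 2)
  have h4 := S.a_le (y 3) (y 4)
  show 2 * (16 * (16 * _ + _) + _) + _ < _
  omega

theorem Sys.omA_sum (S : Sys V) (y : Fin 5 → V) : ∑ z : Fin 5, S.omA y z = 0 := by
  refine wdg_sum (kregA _ ?_)
  have v2 := S.vw_lt (y 0) (y 1) (y 2)
  have v3 := S.vw_lt (y 0) (y 1) (y 3)
  have v4 := S.vw_lt (y 0) (y 1) (y 4)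
  have u1 := S.a_le (y 2) (y 3)
  have u2 := S.a_le (y 2) (y 4)
  have u3 := S.a_le (y 3) (y 4)
  show 8 * (6 * (6 * _ + _) + _) + (2 * (2 * _ + _) + _) < _
  omega

theorem wdg_le {e : ℕ} (h : chkR e = true) (z : Fin 5) : (wdg e z : ℤ) - cW ≤ (2 ^ 50 : ℕ) := by
  obtain ⟨-, -, h2⟩ := chkR_ok h
  have h3 : (wdg e z : ℤ) ≤ (2 ^ 50 : ℕ) := by exact_mod_cast h2 z
  have h4 : (0 : ℤ) ≤ (cW : ℤ) := Int.natCast_nonneg _
  linarith

theorem Sys.omC_le (S : Sys V) (y : Fin 5 → V) (z : Fin 5) : S.omC y z ≤ (2 ^ 50 : ℕ) := by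
  unfold Sys.omC
  by_cases hb : S.bOk y
  · rw [if_pos hb]
    refine wdg_le (kregC _ ?_) z
    have h1 := bI_lt _ (S.bs6_lt y)
    have h2 := S.vw_lt (y 0) (y 1) (y 4)
    have h3 := S.vw_lt (y 2) (y 3) (y 4)
    show 36 * _ + _ < _
    omega
  · rw [if_neg hb]
    exact Int.natCast_nonneg _

theorem Sys.omB_le (S : Sys V) (y : Fin 5 → V) (z : Fin 5) : S.omB y z ≤ (2 ^ 50 : ℕ) := by
  refine wdg_le (kregB _ ?_) z
  have h1 := S.ub_lt (y 0) (y 1) (y 2) (y 3)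
  have h2 := S.ub_lt (y 0) (y 1) (y 2) (y 4)
  have h3 := S.a_le (y 1) (y 2)
  have h4 := S.a_le (y 3) (y 4)
  show 2 * (16 * (16 * _ + _) + _) + _ < _
  omega

theorem Sys.omA_le (S : Sys V) (y : Fin 5 → V) (z : Fin 5) : S.omA y z ≤ (2 ^ 50 : ℕ) := by
  refine wdg_le (kregA _ ?_) z
  have v2 := S.vw_lt (y 0) (y 1) (y 2)
  have v3 := S.vw_lt (y 0) (y 1) (y 3)
  have v4 := S.vw_lt (y 0) (y 1) (y 4)
  have u1 := S.a_le (y 2) (y 3)
  have u2 := S.a_le (y 2) (y 4)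
  have u3 := S.a_le (y 3) (y 4)
  show 8 * (6 * (6 * _ + _) + _) + (2 * (2 * _ + _) + _) < _
  omega

end Pool.Agent.Helper96.FC
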