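import Pool.Agent.Helper96.FC.Lists

/-!
# Flag certificates on six vertices: the squares as sums over placements
-/

set_option autoImplicit false

namespace Pool.Agent.Helper96.FC

open Finset

variable {V : Type} [Fintype V]

theorem goodA_C : ∀ p ∈ plCA.flatten, p.Good 2 3 := by decide +kernel

theorem goodA_B : ∀ p ∈ plBA.flatten, p.Good 0 2 := by decide +kernel

theorem goodA_A : ∀ p ∈ plAA.flatten, p.Good 0 1 := by decide +kernel

theorem goodC_C : ∀ p ∈ plCC, p.Good 2 3 := by decide +kernel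

theorem goodC_B : ∀ p ∈ plBC, p.Good 0 2 := by decide +kernel

theorem goodC_A : ∀ p ∈ plAC, p.Good 0 1 := by decide +kernel

/-- the pair of mark numbers -/
def PA.pr (p : PA) : Fin 10 × Fin 10 := (p.m, p.m')

def PC.pr (p : PC) : Fin 6 × Fin 6 := (p.m, p.m')

/-- the four variants of a pair of mark numbers -/
def PC.var (p : PC) : List (Fin 6 × Fin 6) :=
  [(p.m, p.m'), (sw p.m, p.m'), (p.m, sw p.m'), (sw p.m, sw p.m')]

theorem countA : ∀ m m' : Fin 10, 6 * (plCA.flatten.map PA.pr).count (m, m')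
    + 8 * (plBA.flatten.map PA.pr).count (m, m') + (plAA.flatten.map PA.pr).count (m, m') = 48 := by
  decide +kernel

theorem countC : ∀ m m' : Fin 6, 6 * (plCC.flatMap PC.var).count (m, m')
    + 8 * (plBC.flatMap PC.var).count (m, m') + (plAC.flatMap PC.var).count (m, m') = 48 := by
  decide +kernel

/-- the tables of a certificate -/
structure Tab where
  idA : ℕ → ℕ
  XA : ℕ → ℕ → ℕ → ℤ
  idC : ℕ → ℕ
  XC : ℕ → ℕ → ℕ → ℤ
  gramA : IsGram XA
  gramC : IsGram XC
  swC : SwInv idC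

/-- the contribution of the squares at a tuple, for lists of placements -/
def Sys.KS (S : Sys V) (τ : Tab) (lA : List (List PA)) (lC : List PC) (x : Fin 6 → V) : ℤ :=
  (lA.flatten.map (fun p => S.GA τ.idA τ.XA p.m p.m' (x ∘ p.f))).sum +
    (lC.map (fun p => S.GC τ.idC τ.XC p.m p.m' (x ∘ p.f))).sum

theorem Sys.T_KS (S : Sys V) (τ : Tab) (a b : Fin 6) (lA : List (List PA)) (lC : List PC)
    (hA : ∀ p ∈ lA.flatten, p.Good a b) (hC : ∀ p ∈ lC, p.Good a b) :
    S.T a b (fun x => (S.KS τ lA lC x : ℝ))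
      = (lA.flatten.map (fun p => ∑ x : Fin 6 → V, S.wt p.m (x ∘ s1) * S.wt p.m' (x ∘ s2) *
          (S.GA τ.idA τ.XA p.m p.m' x : ℝ))).sum +
        (lC.map (fun p => S.tC τ.idC τ.XC p.m p.m')).sum := by
  have h1 : (fun x : Fin 6 → V => (S.KS τ lA lC x : ℝ)) = fun x =>
      (lA.flatten.map (fun p => (S.GA τ.idA τ.XA p.m p.m' (x ∘ p.f) : ℝ))).sum +
      (lC.map (fun p => (S.GC τ.idC τ.XC p.m p.m' (x ∘ p.f) : ℝ))).sum := by
    funext x
    unfold Sys.KS
    push_cast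
    rw [List.map_map, List.map_map]
    rfl
  rw [h1, Sys.T_add, Sys.T_listsum, Sys.T_listsum]
  congr 1
  · congr 1
    exact List.map_congr_left fun p hp => (S.placeA τ.idA τ.XA a b p (hA p hp)).symm
  · congr 1
    exact List.map_congr_left fun p hp => (S.placeC τ.idC τ.XC a b p (hC p hp)).symm

theorem var_sum (S : Sys V) (τ : Tab) (l : List PC) :
    ((l.flatMap PC.var).map (fun q => S.tC τ.idC τ.XC q.1 q.2)).sum
      = 4 * (l.map (fun p => S.tC τ.idC τ.XC p.m p.m')).sum := by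
  induction l with
  | nil => simp
  | cons p l ih =>
    rw [List.flatMap_cons, List.map_append, List.sum_append, ih, List.map_cons, List.sum_cons]
    unfold PC.var
    simp only [List.map_cons, List.map_nil, List.sum_cons, List.sum_nil, S.tC_sw1 τ.swC,
      S.tC_sw2 τ.swC]
    ring

/-- the squares as sums over tuples with the marks at the standard positions -/
theorem Sys.sos_decomp (S : Sys V) (τ : Tab) :
    0 ≤ 6 * S.T 2 3 (fun x => (S.KS τ plCA plCC x : ℝ)) +
      8 * S.T 0 2 (fun x => (S.KS τ plBA plBC x : ℝ)) +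
      S.T 0 1 (fun x => (S.KS τ plAA plAC x : ℝ)) := by
  rw [S.T_KS τ 2 3 plCA plCC goodA_C goodC_C, S.T_KS τ 0 2 plBA plBC goodA_B goodC_B,
    S.T_KS τ 0 1 plAA plAC goodA_A goodC_A]
  have hA : 6 * (plCA.flatten.map (fun p => ∑ x : Fin 6 → V, S.wt p.m (x ∘ s1) *
        S.wt p.m' (x ∘ s2) * (S.GA τ.idA τ.XA p.m p.m' x : ℝ))).sum +
      8 * (plBA.flatten.map (fun p => ∑ x : Fin 6 → V, S.wt p.m (x ∘ s1) *
        S.wt p.m' (x ∘ s2) * (S.GA τ.idA τ.XA p.m p.m' x : ℝ))).sum +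
      (plAA.flatten.map (fun p => ∑ x : Fin 6 → V, S.wt p.m (x ∘ s1) *
        S.wt p.m' (x ∘ s2) * (S.GA τ.idA τ.XA p.m p.m' x : ℝ))).sum
      = 48 * ∑ m : Fin 10, ∑ m' : Fin 10, ∑ x : Fin 6 → V,
        S.wt m (x ∘ s1) * S.wt m' (x ∘ s2) * (S.GA τ.idA τ.XA m m' x : ℝ) := by
    have h := fun l : List (List PA) => sum_count (l.flatten.map PA.pr)
      (fun m m' => ∑ x : Fin 6 → V,
        S.wt m (x ∘ s1) * S.wt m' (x ∘ s2) * (S.GA τ.idA τ.XA m m' x : ℝ))
    simp only [List.map_map] at h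
    have e : ∀ l : List (List PA), (l.flatten.map (fun p => ∑ x : Fin 6 → V, S.wt p.m (x ∘ s1) *
        S.wt p.m' (x ∘ s2) * (S.GA τ.idA τ.XA p.m p.m' x : ℝ))).sum
        = ∑ m, ∑ m', ((l.flatten.map PA.pr).count (m, m') : ℝ) * ∑ x : Fin 6 → V,
        S.wt m (x ∘ s1) * S.wt m' (x ∘ s2) * (S.GA τ.idA τ.XA m m' x : ℝ) := fun l => h l
    rw [e, e, e, Finset.mul_sum, Finset.mul_sum, Finset.mul_sum, ← Finset.sum_add_distrib,
      ← Finset.sum_add_distrib]
    refine Finset.sum_congr rfl fun m _ => ?_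
    rw [Finset.mul_sum, Finset.mul_sum, Finset.mul_sum, ← Finset.sum_add_distrib,
      ← Finset.sum_add_distrib]
    refine Finset.sum_congr rfl fun m' _ => ?_
    have hc := countA m m'
    have hc' : (6 : ℝ) * ((plCA.flatten.map PA.pr).count (m, m') : ℝ)
      + 8 * ((plBA.flatten.map PA.pr).count (m, m') : ℝ)
      + ((plAA.flatten.map PA.pr).count (m, m') : ℝ) = 48 := by exact_mod_cast hc
    rw [← hc']; ring
  have hC : 6 * (4 * (plCC.map (fun p => S.tC τ.idC τ.XC p.m p.m')).sum) +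
      8 * (4 * (plBC.map (fun p => S.tC τ.idC τ.XC p.m p.m')).sum) +
      4 * (plAC.map (fun p => S.tC τ.idC τ.XC p.m p.m')).sum
      = 48 * ∑ m : Fin 6, ∑ m' : Fin 6, S.tC τ.idC τ.XC m m' := by
    rw [← var_sum, ← var_sum, ← var_sum, sum_count, sum_count, sum_count,
      Finset.mul_sum, Finset.mul_sum, Finset.mul_sum, ← Finset.sum_add_distrib,
      ← Finset.sum_add_distrib]
    refine Finset.sum_congr rfl fun m _ => ?_
    rw [Finset.mul_sum, Finset.mul_sum, Finset.mul_sum, ← Finset.sum_add_distrib,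
      ← Finset.sum_add_distrib]
    refine Finset.sum_congr rfl fun m' _ => ?_
    have hc := countC m m'
    have hc' : (6 : ℝ) * ((plCC.flatMap PC.var).count (m, m') : ℝ)
      + 8 * ((plBC.flatMap PC.var).count (m, m') : ℝ)
      + ((plAC.flatMap PC.var).count (m, m') : ℝ) = 48 := by exact_mod_cast hc
    rw [← hc']; ring
  have h1 := S.sosA_nonneg τ.idA τ.gramA
  have h2 := S.sosC_nonneg τ.idC τ.gramC
  have h3 : ∑ m : Fin 6, ∑ m' : Fin 6, S.tC τ.idC τ.XC m m' = ∑ m : Fin 6, ∑ m' : Fin 6,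
      ∑ x : Fin 6 → V, S.wt4 m (x ∘ t1) * S.wt4 m' (x ∘ t2) * (S.GC τ.idC τ.XC m m' x : ℝ) := rfl
  linarith

end Pool.Agent.Helper96.FC
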