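import Pool.Agent.Helper96.FC.Obj
import Pool.Agent.Helper96.FC.Decomp

/-!
# Flag certificates on six vertices: from inequalities for tuples to the quadratic form
-/

set_option autoImplicit false

namespace Pool.Agent.Helper96.FC

open Finset

variable {V : Type} [Fintype V]

def gC : List (Fin 6 → Fin 6) := [![0, 1, 2, 3, 4, 5], ![0, 1, 2, 3, 5, 4]]

def gB : List (Fin 6 → Fin 6) := [![0, 1, 2, 3, 4, 5], ![0, 1, 2, 3, 5, 4], ![0, 1, 2, 4, 5, 3]]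

def gA : List (Fin 6 → Fin 6) :=
  [![0, 1, 2, 3, 4, 5], ![0, 1, 2, 3, 5, 4], ![0, 1, 2, 4, 5, 3], ![0, 1, 3, 4, 5, 2]]

theorem gC_ok : ∀ g ∈ gC, Function.Injective g ∧ g 0 = 0 ∧ g 1 = 1 ∧ g 2 = 2 ∧ g 3 = 3 := by
  intro g hg
  simp only [gC, List.mem_cons, List.not_mem_nil, or_false] at hg
  rcases hg with rfl | rfl <;> decide +kernel

theorem gB_ok : ∀ g ∈ gB, Function.Injective g ∧ g 0 = 0 ∧ g 1 = 1 ∧ g 0 = 0 ∧ g 2 = 2 := by
  intro g hg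
  simp only [gB, List.mem_cons, List.not_mem_nil, or_false] at hg
  rcases hg with rfl | rfl | rfl <;> decide +kernel

theorem gA_ok : ∀ g ∈ gA, Function.Injective g ∧ g 0 = 0 ∧ g 1 = 1 ∧ g 0 = 0 ∧ g 1 = 1 := by
  intro g hg
  simp only [gA, List.mem_cons, List.not_mem_nil, or_false] at hg
  rcases hg with rfl | rfl | rfl | rfl <;> decide +kernel

/-- the sum of the regularity terms over a list of rearrangements -/
def Sys.RR (S : Sys V) (ω : (Fin 5 → V) → Fin 5 → ℤ) (l : List (Fin 6 → Fin 6))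
    (x : Fin 6 → V) : ℤ :=
  (l.map (fun g => S.rg ω (x ∘ g))).sum

theorem Sys.T_RR (S : Sys V) (a b : Fin 6) (ha : a ≠ 5) (hb : b ≠ 5)
    (ω : (Fin 5 → V) → Fin 5 → ℤ) (hω : ∀ y, ∑ z : Fin 5, ω y z = 0) (l : List (Fin 6 → Fin 6))
    (hl : ∀ g ∈ l, Function.Injective g ∧ g 0 = 0 ∧ g 1 = 1 ∧ g a = a ∧ g b = b) :
    S.T a b (fun x => (S.RR ω l x : ℝ)) = 0 := by
  have h1 : (fun x : Fin 6 → V => (S.RR ω l x : ℝ)) = fun x =>
      (l.map (fun g => (S.rg ω (x ∘ g) : ℝ))).sum := by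
    funext x
    unfold Sys.RR
    push_cast
    rw [List.map_map]
    rfl
  rw [h1, Sys.T_listsum]
  refine List.sum_eq_zero fun r hr => ?_
  obtain ⟨g, hg, rfl⟩ := List.mem_map.1 hr
  obtain ⟨h2, h3, h4, h5, h6⟩ := hl g hg
  rw [S.T_comp a b g h2 h3 h4 h5 h6 (fun x => (S.rg ω x : ℝ))]
  exact S.T_rg a b ha hb ω hω

theorem Sys.T_le (S : Sys V) (a b : Fin 6) (K L : (Fin 6 → V) → ℤ)
    (h : ∀ x, S.q (x 0) (x 1) = true → S.q (x a) (x b) = true → K x ≤ L x) :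
    S.T a b (fun x => (K x : ℝ)) ≤ S.T a b (fun x => (L x : ℝ)) := by
  have h1 := S.T_nonneg a b (fun x => (L x : ℝ) - (K x : ℝ)) (fun x h1 h2 => by
    have h3 : (K x : ℝ) ≤ (L x : ℝ) := by exact_mod_cast h x h1 h2
    linarith)
  rw [S.T_sub] at h1
  linarith

/-- The inequalities for tuples give the inequality for the weights. -/
theorem Sys.main (S : Sys V) (hD : 1 ≤ S.D) (τ : Tab) (N : ℕ) (hN : 0 < N)
    (ωC ωB ωA : (Fin 5 → V) → Fin 5 → ℤ) (hωC : ∀ y, ∑ z : Fin 5, ωC y z = 0)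
    (hωB : ∀ y, ∑ z : Fin 5, ωB y z = 0) (hωA : ∀ y, ∑ z : Fin 5, ωA y z = 0)
    (hC : ∀ x, S.q (x 0) (x 1) = true → S.q (x 2) (x 3) = true →
      S.KS τ plCA plCC x + S.RR ωC gC x + 8 * N * (S.dg4 x 4 * S.dg4 x 5 : ℕ) ≤ 0)
    (hB : ∀ x, S.q (x 0) (x 1) = true → S.q (x 0) (x 2) = true →
      S.KS τ plBA plBC x + S.RR ωB gB x ≤ 0)
    (hA : ∀ x, S.q (x 0) (x 1) = true → S.q (x 0) (x 1) = true →
      S.KS τ plAA plAC x + S.RR ωA gA x ≤ 16 * N * (S.oA x : ℕ)) :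
    (∑ u, ∑ v, S.lam u v) ^ 2 ≤ ∑ a, ∑ b, S.lam a b ^ 2 *
      ((S.D : ℝ) ^ 2 + 2 * S.D * ∑ u, ((S.a a u * S.a b u : ℕ) : ℝ) +
        ∑ u, ∑ v, ((S.uu a b u * S.uu a b v * S.a u v : ℕ) : ℝ)) := by
  have h0 := S.sos_decomp τ
  have c1 := S.T_RR 2 3 (by decide) (by decide) ωC hωC gC gC_ok
  have b1 := S.T_RR 0 2 (by decide) (by decide) ωB hωB gB gB_ok
  have a1 := S.T_RR 0 1 (by decide) (by decide) ωA hωA gA gA_ok
  have c2 := S.T_le 2 3 (fun x => S.KS τ plCA plCC x)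
    (fun x => -(S.RR ωC gC x) - 8 * N * (S.dg4 x 4 * S.dg4 x 5 : ℕ)) (fun x h1 h2 => by
      have := hC x h1 h2
      linarith)
  have b2 := S.T_le 0 2 (fun x => S.KS τ plBA plBC x)
    (fun x => -(S.RR ωB gB x)) (fun x h1 h2 => by
      have := hB x h1 h2
      linarith)
  have a2 := S.T_le 0 1 (fun x => S.KS τ plAA plAC x)
    (fun x => 16 * N * (S.oA x : ℕ) - S.RR ωA gA x) (fun x h1 h2 => by
      have := hA x h1 h2
      linarith)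
  have c3 : S.T 2 3 (fun x => ((-(S.RR ωC gC x) - 8 * N * (S.dg4 x 4 * S.dg4 x 5 : ℕ) : ℤ) : ℝ))
      = -(8 * N * (16 * (S.D : ℝ) ^ 2 * (∑ u, ∑ v, S.lam u v) ^ 2)) := by
    rw [← S.T_dd, ← S.T_mul]
    have : (fun x : Fin 6 → V => ((-(S.RR ωC gC x) - 8 * N * (S.dg4 x 4 * S.dg4 x 5 : ℕ) : ℤ) : ℝ))
        = fun x => (-1 : ℝ) * (S.RR ωC gC x : ℝ) -
          8 * N * ((S.dg4 x 4 * S.dg4 x 5 : ℕ) : ℝ) := by
      funext x; push_cast; ring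
    rw [this, S.T_sub, S.T_mul, c1]
    ring
  have b3 : S.T 0 2 (fun x => ((-(S.RR ωB gB x) : ℤ) : ℝ)) = 0 := by
    have : (fun x : Fin 6 → V => ((-(S.RR ωB gB x) : ℤ) : ℝ))
        = fun x => (-1 : ℝ) * (S.RR ωB gB x : ℝ) := by
      funext x; push_cast; ring
    rw [this, S.T_mul, b1]
    ring
  have a3 : S.T 0 1 (fun x => ((16 * N * (S.oA x : ℕ) - S.RR ωA gA x : ℤ) : ℝ))
      = 16 * N * S.T 0 1 (fun x => (S.oA x : ℝ)) := by
    rw [← S.T_mul]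
    have : (fun x : Fin 6 → V => ((16 * N * (S.oA x : ℕ) - S.RR ωA gA x : ℤ) : ℝ))
        = fun x => 16 * N * (S.oA x : ℝ) - (S.RR ωA gA x : ℝ) := by
      funext x; push_cast; ring
    rw [this, S.T_sub, a1]
    ring
  rw [c3] at c2
  rw [b3] at b2
  rw [a3, S.T_oA] at a2
  have hNr : (0 : ℝ) < N := by exact_mod_cast hN
  have hDr : (0 : ℝ) < (S.D : ℝ) := by exact_mod_cast hD
  have hpos : 0 < 16 * 48 * (N : ℝ) * (S.D : ℝ) ^ 2 := by positivity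
  refine le_of_mul_le_mul_left ?_ hpos
  nlinarith [h0, c2, b2, a2]

end Pool.Agent.Helper96.FC
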