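import Pool.Agent.Helper96.FC.DatV
import Pool.Agent.Helper96.FC.DatP
import Pool.Agent.Helper96.FC.DatQ
import Pool.Agent.Helper96.FC.DatX

/-!
# Flag certificates on six vertices: the tables
-/

set_option autoImplicit false

namespace Pool.Agent.Helper96.FC

noncomputable section

noncomputable def mw22 : ℕ := Nat.pred (Nat.pow 2 1408)

noncomputable def mw24 : ℕ := Nat.pred (Nat.pow 2 1536)

noncomputable def mw26 : ℕ := Nat.pred (Nat.pow 2 1664)

noncomputable def mw30 : ℕ := Nat.pred (Nat.pow 2 1920)

noncomputable def mw40 : ℕ := Nat.pred (Nat.pow 2 2560)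

noncomputable def mw50 : ℕ := Nat.pred (Nat.pow 2 3200)

noncomputable def mw52 : ℕ := Nat.pred (Nat.pow 2 3328)

noncomputable def P0d : ℕ := 0x1000000000000000000000000001

noncomputable def Q0d : ℕ := 0x100000000000000000000000000100000000000000000000000000000000000000000000000000000000000000000000000000000000000000000000000000000000000000000000000000000000000000000000000000000000000000000000000000000000000000000000000000000000000000000000000000000000000000000000000000000000000000000000000000000000000000000000000000000000000000000000000000000000000000000000000000000000000000000000000000000000000000000000000000000000000000000000000000000000000000000000000000000000000000000000000000000000000000000000000000000000000000000000000000000000000000000000000000000000000000000000000000000000000000000000000000000000000000000000000000000000000000000000000000000000000000000000000000000000000000000000000000000000000000000000000000000000000000000000000000000000000000000000000000000000000000000000000000000000000000000000000000000000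

noncomputable def lookPF (ix : ℕ) : ℕ :=
  frc (fun cl => frc (fun e =>
      (cond (Nat.beq cl 3) (ent tP3 3328 mw52 e)
      (cond (Nat.beq cl 4) (ent tP4 3200 mw50 e)
      (cond (Nat.beq cl 1) (ent tP1 1664 mw26 e)
      (cond (Nat.beq cl 2) (ent tP2 1536 mw24 e)
      (cond (Nat.beq cl 5) (ent tP5 1920 mw30 e)
      (cond (Nat.beq cl 8) (ent tP8 2560 mw40 e)
      (cond (Nat.beq cl 7) (ent tP7 1408 mw22 e)
      (P0d))))))))) (Nat.shiftRight ix 4)) (Nat.land ix 15)

noncomputable def lookQF (ix : ℕ) : ℕ :=
  frc (fun cl => frc (fun e =>
      (cond (Nat.beq cl 3) (ent tQ3 3328 mw52 e)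
      (cond (Nat.beq cl 4) (Nat.shiftLeft (ent tQ4 3200 mw50 e) 128)
      (cond (Nat.beq cl 1) (Nat.shiftLeft (ent tQ1 1664 mw26 e) 1664)
      (cond (Nat.beq cl 2) (Nat.shiftLeft (ent tQ2 1536 mw24 e) 1792)
      (cond (Nat.beq cl 5) (Nat.shiftLeft (ent tQ5 1920 mw30 e) 1408)
      (cond (Nat.beq cl 8) (Nat.shiftLeft (ent tQ8 2560 mw40 e) 768)
      (cond (Nat.beq cl 7) (Nat.shiftLeft (ent tQ7 1408 mw22 e) 1920)
      (Q0d))))))))) (Nat.shiftRight ix 4)) (Nat.land ix 15)

/-- the tables of the certificate -/
noncomputable def T0 : TD where
  K1 := 17592186044416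
  N := 51
  clsC := fun r => ent tCC 4 15 r
  clsG := fun r => ent tCG 4 15 r
  cd := cdF
  vec := vecF
  ki := fun k => ent tKI 9 511 k
  ki4 := fun k => ent tKI4 8 255 k
  ord := ordF
  el := elF
  E := fun cl => Es.getD cl 0
  lookP := lookPF
  lookQ := lookQF

/-- bounds for the digits -/
noncomputable def aMax : ℕ := 4194303

noncomputable def bMax : ℕ := 536870911

end

end Pool.Agent.Helper96.FC
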