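import Pool.Agent.Helper96.FC.BodC

/-!
# Flag certificates on six vertices: configurations of type C
-/

set_option autoImplicit false

namespace Pool.Agent.Helper96.FC

open Finset

variable {V : Type} [Fintype V]

/-- the fields which depend on the four marked vertices -/
def bC (s2 s3 t0 t1 : ℕ) : ℕ :=
  pk [s3, s2, s2 + 8 * s3 + 512, s2 + 8 * s3 + 512, t1, t0, t0 + 8 * t1 + 512, t0 + 8 * t1 + 512]

def iC (s t : ℕ) : ℕ :=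
  pk [8 * s + 512 * aw1 t, 8 * s + 512 * aw0 t, 0, 64 * s + 1024 * aw0 t + 2048 * aw1 t,
    8 * t + 512 * aw1 s, 8 * t + 512 * aw0 s, 0, 64 * t + 1024 * aw0 s + 2048 * aw1 s]

def jC (s t : ℕ) : ℕ :=
  pk [64 * s + 1024 * aw1 t, 64 * s + 1024 * aw0 t, 64 * s + 1024 * aw0 t + 2048 * aw1 t, 0,
    64 * t + 1024 * aw1 s, 64 * t + 1024 * aw0 s, 64 * t + 1024 * aw0 s + 2048 * aw1 s, 0]

/-- the code of a base -/
noncomputable def bT (b : ℕ) : ℕ := ent tBT 12 4095 b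

/-- the number of a base -/
noncomputable def bI (w : ℕ) : ℕ := ent tBI 6 63 w

theorem tHC_eq : ∀ b < 49, ent tHC 96 m96 b = bC (bT b % 8) (bT b / 8 % 8) (bT b / 64 % 8)
    (bT b / 512 % 8) := by decide +kernel

theorem tHC4_eq : ∀ s < 6, ∀ t < 6, ent tHC4 96 m96 (6 * s + t) = iC s t := by decide +kernel

theorem tHC5_eq : ∀ s < 6, ∀ t < 6, ent tHC5 96 m96 (6 * s + t) = jC s t := by decide +kernel

theorem hkC_eq : hkC = pk [2048, 2048, 0, 0, 2048, 2048, 0, 0] := by decide +kernel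

theorem bI_lt : ∀ w < 1296, bI w < 49 := by decide +kernel

theorem qrC_eq : ∀ s < 6, ∀ t < 6, ∀ k < 2, qrC (2 * (6 * s + t) + k) =
    qrow (aw0 s) (aw1 s) (aw0 t) (aw1 t) k := by decide +kernel

theorem dg_eq : ∀ s < 6, ∀ t < 6, dg (6 * s + t) = aw0 s + aw1 s + aw0 t + aw1 t := by
  decide +kernel

/-- the base of five vertices, as a number with digits to base six -/
def Sys.bs6 (S : Sys V) (y : Fin 5 → V) : ℕ :=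
  S.vw (y 0) (y 1) (y 2) + 6 * S.vw (y 0) (y 1) (y 3) + 36 * S.vw (y 2) (y 3) (y 0) +
    216 * S.vw (y 2) (y 3) (y 1)

def Sys.bs8 (S : Sys V) (y : Fin 5 → V) : ℕ :=
  S.vw (y 0) (y 1) (y 2) + 8 * S.vw (y 0) (y 1) (y 3) + 64 * S.vw (y 2) (y 3) (y 0) +
    512 * S.vw (y 2) (y 3) (y 1)

/-- the base has a number -/
def Sys.bOk (S : Sys V) (y : Fin 5 → V) : Prop := bT (bI (S.bs6 y)) = S.bs8 y

open scoped Classical in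
/-- the regularity weights of type C -/
noncomputable def Sys.omC (S : Sys V) (y : Fin 5 → V) (z : Fin 5) : ℤ :=
  if S.bOk y then (wdg (prC (Nat.add (Nat.mul 36 (bI (S.bs6 y)))
    (6 * S.vw (y 0) (y 1) (y 4) + S.vw (y 2) (y 3) (y 4)))) z : ℤ) - cW else 0

theorem Sys.bs6_lt (S : Sys V) (y : Fin 5 → V) : S.bs6 y < 1296 := by
  have h1 := S.vw_lt (y 0) (y 1) (y 2)
  have h2 := S.vw_lt (y 0) (y 1) (y 3)
  have h3 := S.vw_lt (y 2) (y 3) (y 0)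
  have h4 := S.vw_lt (y 2) (y 3) (y 1)
  unfold Sys.bs6
  omega

theorem Sys.hC_eq (S : Sys V) (x : Fin 6 → V) (h01 : S.a (x 0) (x 1) = 1)
    (h23 : S.a (x 2) (x 3) = 1) (hb : S.bOk (x ∘ t5)) :
    hC (bI (S.bs6 (x ∘ t5))) (6 * S.vw (x 0) (x 1) (x 4) + S.vw (x 2) (x 3) (x 4))
      (6 * S.vw (x 0) (x 1) (x 5) + S.vw (x 2) (x 3) (x 5)) (S.a (x 4) (x 5)) =
    pk [S.c5 (x ∘ ![0, 1, 3, 4, 5]), S.c5 (x ∘ ![0, 1, 2, 4, 5]), S.c5 (x ∘ ![0, 1, 2, 3, 5]),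
      S.c5 (x ∘ ![0, 1, 2, 3, 4]), S.c5 (x ∘ ![2, 3, 1, 4, 5]), S.c5 (x ∘ ![2, 3, 0, 4, 5]),
      S.c5 (x ∘ ![2, 3, 0, 1, 5]), S.c5 (x ∘ ![2, 3, 0, 1, 4])] := by
  have l1 := S.vw_lt (x 0) (x 1) (x 2)
  have l2 := S.vw_lt (x 0) (x 1) (x 3)
  have l3 := S.vw_lt (x 2) (x 3) (x 0)
  have l4 := S.vw_lt (x 2) (x 3) (x 1)
  have hbs : S.bs8 (x ∘ t5) = S.vw (x 0) (x 1) (x 2) + 8 * S.vw (x 0) (x 1) (x 3) +
      64 * S.vw (x 2) (x 3) (x 0) + 512 * S.vw (x 2) (x 3) (x 1) := rfl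
  have d1 : S.bs8 (x ∘ t5) % 8 = S.vw (x 0) (x 1) (x 2) := by rw [hbs]; omega
  have d2 : S.bs8 (x ∘ t5) / 8 % 8 = S.vw (x 0) (x 1) (x 3) := by rw [hbs]; omega
  have d3 : S.bs8 (x ∘ t5) / 64 % 8 = S.vw (x 2) (x 3) (x 0) := by rw [hbs]; omega
  have d4 : S.bs8 (x ∘ t5) / 512 % 8 = S.vw (x 2) (x 3) (x 1) := by rw [hbs]; omega
  unfold Sys.bOk at hb
  show ent tHC 96 m96 _ + (ent tHC4 96 m96 _ + (ent tHC5 96 m96 _ + hkC * _)) = _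
  rw [tHC_eq _ (bI_lt _ (S.bs6_lt _)), hb, d1, d2, d3, d4, tHC4_eq _ (S.vw_lt _ _ _) _
    (S.vw_lt _ _ _), tHC5_eq _ (S.vw_lt _ _ _) _ (S.vw_lt _ _ _), hkC_eq]
  unfold bC iC jC
  simp only [pk, S.aw0_vw, S.aw1_vw]
  have c0 : S.c5 (x ∘ ![0, 1, 3, 4, 5]) = S.vw (x 0) (x 1) (x 3) + 8 * S.vw (x 0) (x 1) (x 4) +
    64 * S.vw (x 0) (x 1) (x 5) + 512 * S.a (x 3) (x 4) + 1024 * S.a (x 3) (x 5) +
    2048 * S.a (x 4) (x 5) := rfl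
  have c1 : S.c5 (x ∘ ![0, 1, 2, 4, 5]) = S.vw (x 0) (x 1) (x 2) + 8 * S.vw (x 0) (x 1) (x 4) +
    64 * S.vw (x 0) (x 1) (x 5) + 512 * S.a (x 2) (x 4) + 1024 * S.a (x 2) (x 5) +
    2048 * S.a (x 4) (x 5) := rfl
  have c2 : S.c5 (x ∘ ![0, 1, 2, 3, 5]) = S.vw (x 0) (x 1) (x 2) + 8 * S.vw (x 0) (x 1) (x 3) +
    64 * S.vw (x 0) (x 1) (x 5) + 512 * S.a (x 2) (x 3) + 1024 * S.a (x 2) (x 5) +
    2048 * S.a (x 3) (x 5) := rfl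
  have c3 : S.c5 (x ∘ ![0, 1, 2, 3, 4]) = S.vw (x 0) (x 1) (x 2) + 8 * S.vw (x 0) (x 1) (x 3) +
    64 * S.vw (x 0) (x 1) (x 4) + 512 * S.a (x 2) (x 3) + 1024 * S.a (x 2) (x 4) +
    2048 * S.a (x 3) (x 4) := rfl
  have f0 : S.c5 (x ∘ ![2, 3, 1, 4, 5]) = S.vw (x 2) (x 3) (x 1) + 8 * S.vw (x 2) (x 3) (x 4) +
    64 * S.vw (x 2) (x 3) (x 5) + 512 * S.a (x 1) (x 4) + 1024 * S.a (x 1) (x 5) +
    2048 * S.a (x 4) (x 5) := rfl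
  have f1 : S.c5 (x ∘ ![2, 3, 0, 4, 5]) = S.vw (x 2) (x 3) (x 0) + 8 * S.vw (x 2) (x 3) (x 4) +
    64 * S.vw (x 2) (x 3) (x 5) + 512 * S.a (x 0) (x 4) + 1024 * S.a (x 0) (x 5) +
    2048 * S.a (x 4) (x 5) := rfl
  have f2 : S.c5 (x ∘ ![2, 3, 0, 1, 5]) = S.vw (x 2) (x 3) (x 0) + 8 * S.vw (x 2) (x 3) (x 1) +
    64 * S.vw (x 2) (x 3) (x 5) + 512 * S.a (x 0) (x 1) + 1024 * S.a (x 0) (x 5) +
    2048 * S.a (x 1) (x 5) := rfl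
  have f3 : S.c5 (x ∘ ![2, 3, 0, 1, 4]) = S.vw (x 2) (x 3) (x 0) + 8 * S.vw (x 2) (x 3) (x 1) +
    64 * S.vw (x 2) (x 3) (x 4) + 512 * S.a (x 0) (x 1) + 1024 * S.a (x 0) (x 4) +
    2048 * S.a (x 1) (x 4) := rfl
  rw [c0, c1, c2, c3, f0, f1, f2, f3, h01, h23]
  ring

theorem evC_pk (e0 e1 e2 e3 f0 f1 f2 f3 : ℕ) (h : ∀ a ∈ [e0, e1, e2, e3, f0, f1, f2, f3], a < 4096) :
    evC (pk [e0, e1, e2, e3, f0, f1, f2, f3]) = bodyC e0 e1 e2 e3 f0 f1 f2 f3 := by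
  have g0 : fl0 (pk [e0, e1, e2, e3, f0, f1, f2, f3]) = e0 := pk_get _ 0 (by simp) h
  have g1 : fl1 (pk [e0, e1, e2, e3, f0, f1, f2, f3]) = e1 := pk_get _ 1 (by simp) h
  have g2 : fl2 (pk [e0, e1, e2, e3, f0, f1, f2, f3]) = e2 := pk_get _ 2 (by simp) h
  have g3 : fl3 (pk [e0, e1, e2, e3, f0, f1, f2, f3]) = e3 := pk_get _ 3 (by simp) h
  have g4 : fl4 (pk [e0, e1, e2, e3, f0, f1, f2, f3]) = f0 := pk_get _ 4 (by simp) h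
  have g5 : fl5 (pk [e0, e1, e2, e3, f0, f1, f2, f3]) = f1 := pk_get _ 5 (by simp) h
  have g6 : fl6 (pk [e0, e1, e2, e3, f0, f1, f2, f3]) = f2 := pk_get _ 6 (by simp) h
  have g7 : fl7 (pk [e0, e1, e2, e3, f0, f1, f2, f3]) = f3 := pk_get _ 7 (by simp) h
  unfold evC
  simp only [frc_eq, g0, g1, g2, g3, g4, g5, g6, g7]

/-- one regularity term of type C -/
theorem Sys.rgC_eq (S : Sys V) (y : Fin 6 → V) (hb : S.bOk (y ∘ t5)) :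
    S.rg S.omC y =
      ((wdg (prC (Nat.add (Nat.mul 36 (bI (S.bs6 (y ∘ t5))))
        (6 * S.vw (y 0) (y 1) (y 4) + S.vw (y 2) (y 3) (y 4)))) 0 : ℤ) - cW) * S.a (y 0) (y 5) +
      ((wdg (prC (Nat.add (Nat.mul 36 (bI (S.bs6 (y ∘ t5))))
        (6 * S.vw (y 0) (y 1) (y 4) + S.vw (y 2) (y 3) (y 4)))) 1 : ℤ) - cW) * S.a (y 1) (y 5) +
      ((wdg (prC (Nat.add (Nat.mul 36 (bI (S.bs6 (y ∘ t5))))
        (6 * S.vw (y 0) (y 1) (y 4) + S.vw (y 2) (y 3) (y 4)))) 2 : ℤ) - cW) * S.a (y 2) (y 5) +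
      ((wdg (prC (Nat.add (Nat.mul 36 (bI (S.bs6 (y ∘ t5))))
        (6 * S.vw (y 0) (y 1) (y 4) + S.vw (y 2) (y 3) (y 4)))) 3 : ℤ) - cW) * S.a (y 3) (y 5) +
      ((wdg (prC (Nat.add (Nat.mul 36 (bI (S.bs6 (y ∘ t5))))
        (6 * S.vw (y 0) (y 1) (y 4) + S.vw (y 2) (y 3) (y 4)))) 4 : ℤ) - cW) * S.a (y 4) (y 5) := by
  have h : ∀ z, S.omC (y ∘ t5) z = (wdg (prC (Nat.add (Nat.mul 36 (bI (S.bs6 (y ∘ t5))))
        (6 * S.vw (y 0) (y 1) (y 4) + S.vw (y 2) (y 3) (y 4)))) z : ℤ) - cW := by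
    intro z
    unfold Sys.omC
    rw [if_pos hb]
    rfl
  unfold Sys.rg
  rw [Fin.sum_univ_five]
  simp only [h]
  rfl

theorem Sys.valC_eq (S : Sys V) (K : Facts) (R : ∀ i < 1764, chkR (prC i) = true)
    (x : Fin 6 → V) (h01 : S.a (x 0) (x 1) = 1) (h23 : S.a (x 2) (x 3) = 1)
    (hb : S.bOk (x ∘ t5)) :
    ((valC (bI (S.bs6 (x ∘ t5))) (6 * S.vw (x 0) (x 1) (x 4) + S.vw (x 2) (x 3) (x 4))
      (6 * S.vw (x 0) (x 1) (x 5) + S.vw (x 2) (x 3) (x 5)) (S.a (x 4) (x 5))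
      (hC (bI (S.bs6 (x ∘ t5))) (6 * S.vw (x 0) (x 1) (x 4) + S.vw (x 2) (x 3) (x 4))
      (6 * S.vw (x 0) (x 1) (x 5) + S.vw (x 2) (x 3) (x 5)) (S.a (x 4) (x 5))) : ℕ) : ℤ) =
    S.KS tau plCA plCC x + S.RR S.omC gC x + 8 * scl * (S.dg4 x 4 * S.dg4 x 5 : ℕ) + kC := by
  rw [S.hC_eq x h01 h23 hb]
  have hbody := S.body_C K x h01 h23
  have hb2 : S.bOk ((x ∘ ![0, 1, 2, 3, 5, 4]) ∘ t5) := hb
  have g1 : (x ∘ ![0, 1, 2, 3, 4, 5] : Fin 6 → V) = x := by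
    funext i; fin_cases i <;> rfl
  have hrr : S.RR S.omC gC x = S.rg S.omC x + S.rg S.omC (x ∘ ![0, 1, 2, 3, 5, 4]) := by
    unfold Sys.RR gC
    simp only [List.map_cons, List.map_nil, List.sum_cons, List.sum_nil, g1]
    ring
  rw [hrr, S.rgC_eq x hb, S.rgC_eq (x ∘ ![0, 1, 2, 3, 5, 4]) hb2]
  have hbI := bI_lt _ (S.bs6_lt (x ∘ t5))
  have hbs : S.bs6 ((x ∘ ![0, 1, 2, 3, 5, 4]) ∘ t5) = S.bs6 (x ∘ t5) := rfl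
  have v1 := S.vw_lt (x 0) (x 1) (x 4)
  have v2 := S.vw_lt (x 2) (x 3) (x 4)
  have v3 := S.vw_lt (x 0) (x 1) (x 5)
  have v4 := S.vw_lt (x 2) (x 3) (x 5)
  have w0 : (x ∘ ![0, 1, 2, 3, 5, 4] : Fin 6 → V) 0 = x 0 := rfl
  have w1 : (x ∘ ![0, 1, 2, 3, 5, 4] : Fin 6 → V) 1 = x 1 := rfl
  have w2 : (x ∘ ![0, 1, 2, 3, 5, 4] : Fin 6 → V) 2 = x 2 := rfl
  have w3 : (x ∘ ![0, 1, 2, 3, 5, 4] : Fin 6 → V) 3 = x 3 := rfl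
  have w4 : (x ∘ ![0, 1, 2, 3, 5, 4] : Fin 6 → V) 4 = x 5 := rfl
  have w5 : (x ∘ ![0, 1, 2, 3, 5, 4] : Fin 6 → V) 5 = x 4 := rfl
  rw [hbs, w0, w1, w2, w3, w4, w5]
  have hk : S.a (x 4) (x 5) < 2 := Nat.lt_succ_of_le (S.a_le _ _)
  unfold valC
  rw [evC_pk _ _ _ _ _ _ _ _ (by
    intro a ha
    simp only [List.mem_cons, List.not_mem_nil, or_false] at ha
    rcases ha with rfl | rfl | rfl | rfl | rfl | rfl | rfl | rfl <;> exact S.c5_lt _)]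
  have q1 : qrC (Nat.add (Nat.mul 2 (6 * S.vw (x 0) (x 1) (x 5) + S.vw (x 2) (x 3) (x 5)))
      (S.a (x 4) (x 5))) = qrow (S.a (x 0) (x 5)) (S.a (x 1) (x 5)) (S.a (x 2) (x 5))
      (S.a (x 3) (x 5)) (S.a (x 4) (x 5)) := by
    have := qrC_eq _ v3 _ v4 _ hk
    rw [S.aw0_vw, S.aw1_vw, S.aw0_vw, S.aw1_vw] at this
    exact this
  have q2 : qrC (Nat.add (Nat.mul 2 (6 * S.vw (x 0) (x 1) (x 4) + S.vw (x 2) (x 3) (x 4)))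
      (S.a (x 4) (x 5))) = qrow (S.a (x 0) (x 4)) (S.a (x 1) (x 4)) (S.a (x 2) (x 4))
      (S.a (x 3) (x 4)) (S.a (x 5) (x 4)) := by
    have := qrC_eq _ v1 _ v2 _ hk
    rw [S.aw0_vw, S.aw1_vw, S.aw0_vw, S.aw1_vw] at this
    rw [S.a_symm (x 5) (x 4)]
    exact this
  have p1 : dg (6 * S.vw (x 0) (x 1) (x 4) + S.vw (x 2) (x 3) (x 4)) = S.dg4 x 4 := by
    rw [dg_eq _ v1 _ v2, S.aw0_vw, S.aw1_vw, S.aw0_vw, S.aw1_vw]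
    rfl
  have p2 : dg (6 * S.vw (x 0) (x 1) (x 5) + S.vw (x 2) (x 3) (x 5)) = S.dg4 x 5 := by
    rw [dg_eq _ v3 _ v4, S.aw0_vw, S.aw1_vw, S.aw0_vw, S.aw1_vw]
    rfl
  rw [q1, q2, p1, p2]
  generalize hi : 6 * S.vw (x 0) (x 1) (x 4) + S.vw (x 2) (x 3) (x 4) = i at *
  generalize hj : 6 * S.vw (x 0) (x 1) (x 5) + S.vw (x 2) (x 3) (x 5) = j at *
  have li : i < 36 := by omega
  have lj : j < 36 := by omega
  have R1 := R (Nat.add (Nat.mul 36 (bI (S.bs6 (x ∘ t5)))) i)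
    (by show 36 * _ + _ < _; omega)
  have R2 := R (Nat.add (Nat.mul 36 (bI (S.bs6 (x ∘ t5)))) j)
    (by show 36 * _ + _ < _; omega)
  have D1 := reg_dig R1 (S.a_le (x 0) (x 5)) (S.a_le (x 1) (x 5)) (S.a_le (x 2) (x 5))
    (S.a_le (x 3) (x 5)) (S.a_le (x 4) (x 5))
  have D2 := reg_dig R2 (S.a_le (x 0) (x 4)) (S.a_le (x 1) (x 4)) (S.a_le (x 2) (x 4))
    (S.a_le (x 3) (x 4)) (S.a_le (x 5) (x 4))
  have D := hbody.add (D1.add D2)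
  have hD := D.extract (by unfold BB; norm_num) (by unfold BB; norm_num)
  have e : ∀ a b c d f g : ℕ, Nat.add (dgt (Nat.add a (Nat.add (Nat.mul b c) (Nat.mul d f)))) g =
      (a + (b * c + d * f)) / BB ^ 51 % BB + g := fun _ _ _ _ _ _ => rfl
  rw [e, Nat.cast_add, hD]
  have e2 : Nat.mul (Nat.mul 8 scl) (Nat.mul (S.dg4 x 4) (S.dg4 x 5)) =
      8 * scl * (S.dg4 x 4 * S.dg4 x 5) := rfl
  have e3 : (kC : ℤ) = 33 * 2 ^ 45 + 10 * cW := by unfold kC cW; norm_num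
  rw [e2, e3]
  push_cast
  ring

end Pool.Agent.Helper96.FC
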