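import Pool.Agent.Helper96.FC.Sem

/-!
# Flag certificates on six vertices: the groups of placements
-/

set_option autoImplicit false

namespace Pool.Agent.Helper96.FC

theorem gpC0_ok : gpC0.Ok 2 3 := by decide +kernel

theorem gpC1_ok : gpC1.Ok 2 3 := by decide +kernel

theorem gpC2_ok : gpC2.Ok 2 3 := by decide +kernel

theorem gpC3_ok : gpC3.Ok 2 3 := by decide +kernel

theorem gpC4_ok : gpC4.Ok 2 3 := by decide +kernel

theorem gpC5_ok : gpC5.Ok 2 3 := by decide +kernel

theorem gpC6_ok : gpC6.Ok 2 3 := by decide +kernel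

theorem gpC7_ok : gpC7.Ok 2 3 := by decide +kernel

theorem gpC8_ok : gpC8.Ok 2 3 := by decide +kernel

theorem gpC9_ok : gpC9.Ok 2 3 := by decide +kernel

theorem gpC10_ok : gpC10.Ok 2 3 := by decide +kernel

theorem gpC11_ok : gpC11.Ok 2 3 := by decide +kernel

theorem gpC12_ok : gpC12.Ok 2 3 := by decide +kernel

theorem gpC13_ok : gpC13.Ok 2 3 := by decide +kernel

theorem gqC0_ok : gqC0.Ok 2 3 := by decide +kernel

theorem gqC1_ok : gqC1.Ok 2 3 := by decide +kernel

theorem gqC2_ok : gqC2.Ok 2 3 := by decide +kernel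

theorem gqC3_ok : gqC3.Ok 2 3 := by decide +kernel

theorem gqC4_ok : gqC4.Ok 2 3 := by decide +kernel

theorem gqC5_ok : gqC5.Ok 2 3 := by decide +kernel

theorem gqC6_ok : gqC6.Ok 2 3 := by decide +kernel

theorem gqC7_ok : gqC7.Ok 2 3 := by decide +kernel

theorem gqC8_ok : gqC8.Ok 2 3 := by decide +kernel

theorem gqC9_ok : gqC9.Ok 2 3 := by decide +kernel

theorem gqC10_ok : gqC10.Ok 2 3 := by decide +kernel

theorem gqC11_ok : gqC11.Ok 2 3 := by decide +kernel

theorem gqC12_ok : gqC12.Ok 2 3 := by decide +kernel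

theorem gqC13_ok : gqC13.Ok 2 3 := by decide +kernel

theorem gqC14_ok : gqC14.Ok 2 3 := by decide +kernel

theorem gqC15_ok : gqC15.Ok 2 3 := by decide +kernel

theorem gqC16_ok : gqC16.Ok 2 3 := by decide +kernel

theorem gqC17_ok : gqC17.Ok 2 3 := by decide +kernel

theorem gqC18_ok : gqC18.Ok 2 3 := by decide +kernel

theorem gpB0_ok : gpB0.Ok 0 2 := by decide +kernel

theorem gpB1_ok : gpB1.Ok 0 2 := by decide +kernel

theorem gpB2_ok : gpB2.Ok 0 2 := by decide +kernel

theorem gpB3_ok : gpB3.Ok 0 2 := by decide +kernel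

theorem gpB4_ok : gpB4.Ok 0 2 := by decide +kernel

theorem gpB5_ok : gpB5.Ok 0 2 := by decide +kernel

theorem gpB6_ok : gpB6.Ok 0 2 := by decide +kernel

theorem gpB7_ok : gpB7.Ok 0 2 := by decide +kernel

theorem gpB8_ok : gpB8.Ok 0 2 := by decide +kernel

theorem gpB9_ok : gpB9.Ok 0 2 := by decide +kernel

theorem gpB10_ok : gpB10.Ok 0 2 := by decide +kernel

theorem gpB11_ok : gpB11.Ok 0 2 := by decide +kernel

theorem gpB12_ok : gpB12.Ok 0 2 := by decide +kernel

theorem gqB0_ok : gqB0.Ok 0 2 := by decide +kernel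

theorem gqB1_ok : gqB1.Ok 0 2 := by decide +kernel

theorem gqB2_ok : gqB2.Ok 0 2 := by decide +kernel

theorem gqB3_ok : gqB3.Ok 0 2 := by decide +kernel

theorem gqB4_ok : gqB4.Ok 0 2 := by decide +kernel

theorem gqB5_ok : gqB5.Ok 0 2 := by decide +kernel

theorem gqB6_ok : gqB6.Ok 0 2 := by decide +kernel

theorem gqB7_ok : gqB7.Ok 0 2 := by decide +kernel

theorem gqB8_ok : gqB8.Ok 0 2 := by decide +kernel

theorem gqB9_ok : gqB9.Ok 0 2 := by decide +kernel

theorem gqB10_ok : gqB10.Ok 0 2 := by decide +kernel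

theorem gqB11_ok : gqB11.Ok 0 2 := by decide +kernel

theorem gpA0_ok : gpA0.Ok 0 1 := by decide +kernel

theorem gpA1_ok : gpA1.Ok 0 1 := by decide +kernel

theorem gpA2_ok : gpA2.Ok 0 1 := by decide +kernel

theorem gpA3_ok : gpA3.Ok 0 1 := by decide +kernel

theorem gpA4_ok : gpA4.Ok 0 1 := by decide +kernel

theorem gpA5_ok : gpA5.Ok 0 1 := by decide +kernel

theorem gpA6_ok : gpA6.Ok 0 1 := by decide +kernel

theorem gpA7_ok : gpA7.Ok 0 1 := by decide +kernel

theorem gpA8_ok : gpA8.Ok 0 1 := by decide +kernel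

theorem gpA9_ok : gpA9.Ok 0 1 := by decide +kernel

theorem gpA10_ok : gpA10.Ok 0 1 := by decide +kernel

theorem gpA11_ok : gpA11.Ok 0 1 := by decide +kernel

theorem gqA0_ok : gqA0.Ok 0 1 := by decide +kernel

theorem gqA1_ok : gqA1.Ok 0 1 := by decide +kernel

theorem gqA2_ok : gqA2.Ok 0 1 := by decide +kernel

theorem gqA3_ok : gqA3.Ok 0 1 := by decide +kernel

theorem gqA4_ok : gqA4.Ok 0 1 := by decide +kernel

theorem gqA5_ok : gqA5.Ok 0 1 := by decide +kernel

end Pool.Agent.Helper96.FC
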