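import Pool.Agent.Helper96.FC.TDef

/-!
# Flag certificates on six vertices: checks of the tables of entries
-/

set_option autoImplicit false

namespace Pool.Agent.Helper96.FC

theorem T0_lenOk : T0.LenOk := fun _ _ => dec_length _ _ _

theorem T0_clsG_lt : ∀ r < 64, T0.clsG r < 9 := by
  have h : allN 64 (fun r => Nat.blt (T0.clsG r) 9) = true := by decide +kernel
  exact fun r hr => Nat.le_of_ble_eq_true ((allN_iff _ _).1 h r hr)

theorem T0_ordOk : T0.OrdOk := by
  unfold TD.OrdOk
  decide +kernel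

theorem look0 : allN 1 (fun e => T0.chkEnt aMax bMax 0 e) = true := by decide +kernel

theorem look1 : allN 373 (fun e => T0.chkEnt aMax bMax 1 e) = true := by decide +kernel

theorem look2 : allN 277 (fun e => T0.chkEnt aMax bMax 2 e) = true := by decide +kernel

theorem look3 : allN 289 (fun e => T0.chkEnt aMax bMax 3 e) = true := by decide +kernel

theorem look4 : allN 473 (fun e => T0.chkEnt aMax bMax 4 e) = true := by decide +kernel

theorem look5 : allN 298 (fun e => T0.chkEnt aMax bMax 5 e) = true := by decide +kernel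

theorem look7 : allN 64 (fun e => T0.chkEnt aMax bMax 7 e) = true := by decide +kernel

theorem look8 : allN 109 (fun e => T0.chkEnt aMax bMax 8 e) = true := by decide +kernel

theorem T0_E0 : T0.E 0 = 1 := rfl

theorem T0_E1 : T0.E 1 = 373 := rfl

theorem T0_E2 : T0.E 2 = 277 := rfl

theorem T0_E3 : T0.E 3 = 289 := rfl

theorem T0_E4 : T0.E 4 = 473 := rfl

theorem T0_E5 : T0.E 5 = 298 := rfl

theorem T0_E6 : T0.E 6 = 0 := rfl

theorem T0_E7 : T0.E 7 = 64 := rfl

theorem T0_E8 : T0.E 8 = 109 := rfl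

theorem T0_lookOk : T0.LookOk aMax bMax := by
  intro cl hcl e he
  refine TD.chkEnt_ok T0 ?_
  interval_cases cl
  · exact (allN_iff _ _).1 look0 e (T0_E0 ▸ he)
  · exact (allN_iff _ _).1 look1 e (T0_E1 ▸ he)
  · exact (allN_iff _ _).1 look2 e (T0_E2 ▸ he)
  · exact (allN_iff _ _).1 look3 e (T0_E3 ▸ he)
  · exact (allN_iff _ _).1 look4 e (T0_E4 ▸ he)
  · exact (allN_iff _ _).1 look5 e (T0_E5 ▸ he)
  · rw [T0_E6] at he; exact absurd he (Nat.not_lt_zero _)
  · exact (allN_iff _ _).1 look7 e (T0_E7 ▸ he)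
  · exact (allN_iff _ _).1 look8 e (T0_E8 ▸ he)

end Pool.Agent.Helper96.FC
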