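import Pool.Agent.Helper96.FC.Sem

/-!
# Flag certificates on six vertices: tables of sequences, part 1
-/

set_option autoImplicit false

namespace Pool.Agent.Helper96.FC

theorem sq0_ok : T0.SeqOk sq0 ix0 := TD.chkSeq_ok T0 (by decide +kernel)

theorem sq1_ok : T0.SeqOk sq1 ix1 := TD.chkSeq_ok T0 (by decide +kernel)

theorem sq2_ok : T0.SeqOk sq2 ix2 := TD.chkSeq_ok T0 (by decide +kernel)

theorem sq3_ok : T0.SeqOk sq3 ix3 := TD.chkSeq_ok T0 (by decide +kernel)

theorem sq4_ok : T0.SeqOk sq4 ix4 := TD.chkSeq_ok T0 (by decide +kernel)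

end Pool.Agent.Helper96.FC
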