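import Pool.Agent.Helper96.FC.Sem

/-!
# Flag certificates on six vertices: tables of sequences, part 2
-/

set_option autoImplicit false

namespace Pool.Agent.Helper96.FC

theorem sq5_ok : T0.SeqOk sq5 ix5 := TD.chkSeq_ok T0 (by decide +kernel)

theorem sq6_ok : T0.SeqOk sq6 ix6 := TD.chkSeq_ok T0 (by decide +kernel)

theorem sq7_ok : T0.SeqOk sq7 ix7 := TD.chkSeq_ok T0 (by decide +kernel)

theorem sq8_ok : T0.SeqOk sq8 ix8 := TD.chkSeq_ok T0 (by decide +kernel)

theorem sq9_ok : T0.SeqOk sq9 ix9 := TD.chkSeq_ok T0 (by decide +kernel)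

end Pool.Agent.Helper96.FC
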