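import Pool.Agent.Helper96.FC.Sem

/-!
# Flag certificates on six vertices: tables of sequences, part 3
-/

set_option autoImplicit false

namespace Pool.Agent.Helper96.FC

theorem sq10_ok : T0.SeqOk sq10 ix10 := TD.chkSeq_ok T0 (by decide +kernel)

theorem sq11_ok : T0.SeqOk sq11 ix11 := TD.chkSeq_ok T0 (by decide +kernel)

theorem sq12_ok : T0.SeqOk sq12 ix12 := TD.chkSeq_ok T0 (by decide +kernel)

theorem sq13_ok : T0.SeqOk sq13 ix13 := TD.chkSeq_ok T0 (by decide +kernel)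

theorem sr0_ok : T0.SeqOk4 sr0 iy0 := TD.chkSeq4_ok T0 (by decide +kernel)

theorem sr1_ok : T0.SeqOk4 sr1 iy1 := TD.chkSeq4_ok T0 (by decide +kernel)

theorem sr2_ok : T0.SeqOk4 sr2 iy2 := TD.chkSeq4_ok T0 (by decide +kernel)

theorem sr3_ok : T0.SeqOk4 sr3 iy3 := TD.chkSeq4_ok T0 (by decide +kernel)

theorem sr4_ok : T0.SeqOk4 sr4 iy4 := TD.chkSeq4_ok T0 (by decide +kernel)

theorem sr5_ok : T0.SeqOk4 sr5 iy5 := TD.chkSeq4_ok T0 (by decide +kernel)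

theorem sr6_ok : T0.SeqOk4 sr6 iy6 := TD.chkSeq4_ok T0 (by decide +kernel)

theorem sr7_ok : T0.SeqOk4 sr7 iy7 := TD.chkSeq4_ok T0 (by decide +kernel)

end Pool.Agent.Helper96.FC
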