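import Pool.Agent.Helper96.FC.Facts
import Pool.Agent.Helper96.FC.KLook
import Pool.Agent.Helper96.FC.KSeq1
import Pool.Agent.Helper96.FC.KSeq2
import Pool.Agent.Helper96.FC.KSeq3
import Pool.Agent.Helper96.FC.KGp

/-!
# Flag certificates on six vertices: all facts about the tables
-/

set_option autoImplicit false

namespace Pool.Agent.Helper96.FC

theorem facts : Facts where
  cls := T0_clsG_lt
  ord := T0_ordOk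
  look := T0_lookOk
  s0 := sq0_ok
  s1 := sq1_ok
  s2 := sq2_ok
  s3 := sq3_ok
  s4 := sq4_ok
  s5 := sq5_ok
  s6 := sq6_ok
  s7 := sq7_ok
  s8 := sq8_ok
  s9 := sq9_ok
  s10 := sq10_ok
  s11 := sq11_ok
  s12 := sq12_ok
  s13 := sq13_ok
  r0 := sr0_ok
  r1 := sr1_ok
  r2 := sr2_ok
  r3 := sr3_ok
  r4 := sr4_ok
  r5 := sr5_ok
  r6 := sr6_ok
  r7 := sr7_ok
  gC0 := gpC0_ok
  gC1 := gpC1_ok
  gC2 := gpC2_ok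
  gC3 := gpC3_ok
  gC4 := gpC4_ok
  gC5 := gpC5_ok
  gC6 := gpC6_ok
  gC7 := gpC7_ok
  gC8 := gpC8_ok
  gC9 := gpC9_ok
  gC10 := gpC10_ok
  gC11 := gpC11_ok
  gC12 := gpC12_ok
  gC13 := gpC13_ok
  hC0 := gqC0_ok
  hC1 := gqC1_ok
  hC2 := gqC2_ok
  hC3 := gqC3_ok
  hC4 := gqC4_ok
  hC5 := gqC5_ok
  hC6 := gqC6_ok
  hC7 := gqC7_ok
  hC8 := gqC8_ok
  hC9 := gqC9_ok
  hC10 := gqC10_ok
  hC11 := gqC11_ok
  hC12 := gqC12_ok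
  hC13 := gqC13_ok
  hC14 := gqC14_ok
  hC15 := gqC15_ok
  hC16 := gqC16_ok
  hC17 := gqC17_ok
  hC18 := gqC18_ok
  gB0 := gpB0_ok
  gB1 := gpB1_ok
  gB2 := gpB2_ok
  gB3 := gpB3_ok
  gB4 := gpB4_ok
  gB5 := gpB5_ok
  gB6 := gpB6_ok
  gB7 := gpB7_ok
  gB8 := gpB8_ok
  gB9 := gpB9_ok
  gB10 := gpB10_ok
  gB11 := gpB11_ok
  gB12 := gpB12_ok
  hB0 := gqB0_ok
  hB1 := gqB1_ok
  hB2 := gqB2_ok
  hB3 := gqB3_ok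
  hB4 := gqB4_ok
  hB5 := gqB5_ok
  hB6 := gqB6_ok
  hB7 := gqB7_ok
  hB8 := gqB8_ok
  hB9 := gqB9_ok
  hB10 := gqB10_ok
  hB11 := gqB11_ok
  gA0 := gpA0_ok
  gA1 := gpA1_ok
  gA2 := gpA2_ok
  gA3 := gpA3_ok
  gA4 := gpA4_ok
  gA5 := gpA5_ok
  gA6 := gpA6_ok
  gA7 := gpA7_ok
  gA8 := gpA8_ok
  gA9 := gpA9_ok
  gA10 := gpA10_ok
  gA11 := gpA11_ok
  hA0 := gqA0_ok
  hA1 := gqA1_ok
  hA2 := gqA2_ok
  hA3 := gqA3_ok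
  hA4 := gqA4_ok
  hA5 := gqA5_ok

end Pool.Agent.Helper96.FC
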