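import Pool.Agent.Helper96.FC.Facts

/-!
# Flag certificates on six vertices: the sums of products, type A
-/

set_option autoImplicit false

namespace Pool.Agent.Helper96.FC

open Finset

variable {V : Type} [Fintype V]


theorem Sys.dA0 (S : Sys V) (K : Facts) (x : Fin 6 → V) (h01 : S.a (x 0) (x 1) = 1)
    (hab : S.a (x 0) (x 1) = 1) : DigZ 51 (2 ^ 58) (2 ^ 57) (S.gsum T0 gpA0 x + 2 ^ 45)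
      (Nat.mul (pe11 (S.c5 (x ∘ ![0, 1, 2, 4, 5]))) (qe11 (S.c5 (x ∘ ![0, 1, 3, 4, 5])))) := by
  rw [pe11_eq, qe11_eq]
  exact S.grpT K K.gA0 K.s11 K.s11 x h01 hab

theorem Sys.dA1 (S : Sys V) (K : Facts) (x : Fin 6 → V) (h01 : S.a (x 0) (x 1) = 1)
    (hab : S.a (x 0) (x 1) = 1) : DigZ 51 (2 ^ 58) (2 ^ 57) (S.gsum T0 gpA1 x + 2 ^ 45)
      (Nat.mul (pe11 (S.c5 (x ∘ ![0, 1, 2, 3, 5]))) (qe6 (S.c5 (x ∘ ![0, 1, 3, 4, 5])))) := by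
  rw [pe11_eq, qe6_eq]
  exact S.grpT K K.gA1 K.s11 K.s6 x h01 hab

theorem Sys.dA2 (S : Sys V) (K : Facts) (x : Fin 6 → V) (h01 : S.a (x 0) (x 1) = 1)
    (hab : S.a (x 0) (x 1) = 1) : DigZ 51 (2 ^ 58) (2 ^ 57) (S.gsum T0 gpA2 x + 2 ^ 45)
      (Nat.mul (pe11 (S.c5 (x ∘ ![0, 1, 2, 3, 4]))) (qe9 (S.c5 (x ∘ ![0, 1, 3, 4, 5])))) := by
  rw [pe11_eq, qe9_eq]
  exact S.grpT K K.gA2 K.s11 K.s9 x h01 hab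

theorem Sys.dA3 (S : Sys V) (K : Facts) (x : Fin 6 → V) (h01 : S.a (x 0) (x 1) = 1)
    (hab : S.a (x 0) (x 1) = 1) : DigZ 51 (2 ^ 58) (2 ^ 57) (S.gsum T0 gpA3 x + 2 ^ 45)
      (Nat.mul (pe11 (S.c5 (x ∘ ![0, 1, 3, 4, 5]))) (qe11 (S.c5 (x ∘ ![0, 1, 2, 4, 5])))) := by
  rw [pe11_eq, qe11_eq]
  exact S.grpT K K.gA3 K.s11 K.s11 x h01 hab

theorem Sys.dA4 (S : Sys V) (K : Facts) (x : Fin 6 → V) (h01 : S.a (x 0) (x 1) = 1)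
    (hab : S.a (x 0) (x 1) = 1) : DigZ 51 (2 ^ 58) (2 ^ 57) (S.gsum T0 gpA4 x + 2 ^ 45)
      (Nat.mul (pe6 (S.c5 (x ∘ ![0, 1, 2, 3, 5]))) (qe6 (S.c5 (x ∘ ![0, 1, 2, 4, 5])))) := by
  rw [pe6_eq, qe6_eq]
  exact S.grpT K K.gA4 K.s6 K.s6 x h01 hab

theorem Sys.dA5 (S : Sys V) (K : Facts) (x : Fin 6 → V) (h01 : S.a (x 0) (x 1) = 1)
    (hab : S.a (x 0) (x 1) = 1) : DigZ 51 (2 ^ 58) (2 ^ 57) (S.gsum T0 gpA5 x + 2 ^ 45)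
      (Nat.mul (pe6 (S.c5 (x ∘ ![0, 1, 2, 3, 4]))) (qe9 (S.c5 (x ∘ ![0, 1, 2, 4, 5])))) := by
  rw [pe6_eq, qe9_eq]
  exact S.grpT K K.gA5 K.s6 K.s9 x h01 hab

theorem Sys.dA6 (S : Sys V) (K : Facts) (x : Fin 6 → V) (h01 : S.a (x 0) (x 1) = 1)
    (hab : S.a (x 0) (x 1) = 1) : DigZ 51 (2 ^ 58) (2 ^ 57) (S.gsum T0 gpA6 x + 2 ^ 45)
      (Nat.mul (pe6 (S.c5 (x ∘ ![0, 1, 3, 4, 5]))) (qe11 (S.c5 (x ∘ ![0, 1, 2, 3, 5])))) := by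
  rw [pe6_eq, qe11_eq]
  exact S.grpT K K.gA6 K.s6 K.s11 x h01 hab

theorem Sys.dA7 (S : Sys V) (K : Facts) (x : Fin 6 → V) (h01 : S.a (x 0) (x 1) = 1)
    (hab : S.a (x 0) (x 1) = 1) : DigZ 51 (2 ^ 58) (2 ^ 57) (S.gsum T0 gpA7 x + 2 ^ 45)
      (Nat.mul (pe6 (S.c5 (x ∘ ![0, 1, 2, 4, 5]))) (qe6 (S.c5 (x ∘ ![0, 1, 2, 3, 5])))) := by
  rw [pe6_eq, qe6_eq]
  exact S.grpT K K.gA7 K.s6 K.s6 x h01 hab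

theorem Sys.dA8 (S : Sys V) (K : Facts) (x : Fin 6 → V) (h01 : S.a (x 0) (x 1) = 1)
    (hab : S.a (x 0) (x 1) = 1) : DigZ 51 (2 ^ 58) (2 ^ 57) (S.gsum T0 gpA8 x + 2 ^ 45)
      (Nat.mul (pe9 (S.c5 (x ∘ ![0, 1, 2, 3, 4]))) (qe9 (S.c5 (x ∘ ![0, 1, 2, 3, 5])))) := by
  rw [pe9_eq, qe9_eq]
  exact S.grpT K K.gA8 K.s9 K.s9 x h01 hab

theorem Sys.dA9 (S : Sys V) (K : Facts) (x : Fin 6 → V) (h01 : S.a (x 0) (x 1) = 1)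
    (hab : S.a (x 0) (x 1) = 1) : DigZ 51 (2 ^ 58) (2 ^ 57) (S.gsum T0 gpA9 x + 2 ^ 45)
      (Nat.mul (pe9 (S.c5 (x ∘ ![0, 1, 3, 4, 5]))) (qe11 (S.c5 (x ∘ ![0, 1, 2, 3, 4])))) := by
  rw [pe9_eq, qe11_eq]
  exact S.grpT K K.gA9 K.s9 K.s11 x h01 hab

theorem Sys.dA10 (S : Sys V) (K : Facts) (x : Fin 6 → V) (h01 : S.a (x 0) (x 1) = 1)
    (hab : S.a (x 0) (x 1) = 1) : DigZ 51 (2 ^ 58) (2 ^ 57) (S.gsum T0 gpA10 x + 2 ^ 45)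
      (Nat.mul (pe9 (S.c5 (x ∘ ![0, 1, 2, 4, 5]))) (qe6 (S.c5 (x ∘ ![0, 1, 2, 3, 4])))) := by
  rw [pe9_eq, qe6_eq]
  exact S.grpT K K.gA10 K.s9 K.s6 x h01 hab

theorem Sys.dA11 (S : Sys V) (K : Facts) (x : Fin 6 → V) (h01 : S.a (x 0) (x 1) = 1)
    (hab : S.a (x 0) (x 1) = 1) : DigZ 51 (2 ^ 58) (2 ^ 57) (S.gsum T0 gpA11 x + 2 ^ 45)
      (Nat.mul (pe9 (S.c5 (x ∘ ![0, 1, 2, 3, 5]))) (qe9 (S.c5 (x ∘ ![0, 1, 2, 3, 4])))) := by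
  rw [pe9_eq, qe9_eq]
  exact S.grpT K K.gA11 K.s9 K.s9 x h01 hab

theorem Sys.kA0 (S : Sys V) (K : Facts) (x : Fin 6 → V) (h01 : S.a (x 0) (x 1) = 1)
    (hab : S.a (x 0) (x 1) = 1) : DigZ 51 (2 ^ 58) (2 ^ 57) (S.gsum4 T0 gqA0 x + 2 ^ 45)
      (Nat.mul (pf0_0 (S.c5 (x ∘ ![0, 1, 2, 3, 5]))) (qf0_2 (S.c5 (x ∘ ![0, 1, 3, 4, 5])))) := by
  rw [S.pf0_0_eq, S.qf0_2_eq]
  have h := S.grpT4 K K.hA0 K.r0 K.r0 x h01 hab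
  have e1 : x ∘ gqA0.io = ![x 0, x 1, x 2, x 3] := vec4_comp x _ _ _ _
  have e2 : x ∘ gqA0.ka = ![x 0, x 1, x 4, x 5] := vec4_comp x _ _ _ _
  rw [e1, e2] at h
  exact h

theorem Sys.kA1 (S : Sys V) (K : Facts) (x : Fin 6 → V) (h01 : S.a (x 0) (x 1) = 1)
    (hab : S.a (x 0) (x 1) = 1) : DigZ 51 (2 ^ 58) (2 ^ 57) (S.gsum4 T0 gqA1 x + 2 ^ 45)
      (Nat.mul (pf0_0 (S.c5 (x ∘ ![0, 1, 2, 4, 5]))) (qf0_1 (S.c5 (x ∘ ![0, 1, 3, 4, 5])))) := by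
  rw [S.pf0_0_eq, S.qf0_1_eq]
  have h := S.grpT4 K K.hA1 K.r0 K.r0 x h01 hab
  have e1 : x ∘ gqA1.io = ![x 0, x 1, x 2, x 4] := vec4_comp x _ _ _ _
  have e2 : x ∘ gqA1.ka = ![x 0, x 1, x 3, x 5] := vec4_comp x _ _ _ _
  rw [e1, e2] at h
  exact h

theorem Sys.kA2 (S : Sys V) (K : Facts) (x : Fin 6 → V) (h01 : S.a (x 0) (x 1) = 1)
    (hab : S.a (x 0) (x 1) = 1) : DigZ 51 (2 ^ 58) (2 ^ 57) (S.gsum4 T0 gqA2 x + 2 ^ 45)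
      (Nat.mul (pf0_1 (S.c5 (x ∘ ![0, 1, 2, 4, 5]))) (qf0_0 (S.c5 (x ∘ ![0, 1, 3, 4, 5])))) := by
  rw [S.pf0_1_eq, S.qf0_0_eq]
  have h := S.grpT4 K K.hA2 K.r0 K.r0 x h01 hab
  have e1 : x ∘ gqA2.io = ![x 0, x 1, x 2, x 5] := vec4_comp x _ _ _ _
  have e2 : x ∘ gqA2.ka = ![x 0, x 1, x 3, x 4] := vec4_comp x _ _ _ _
  rw [e1, e2] at h
  exact h

theorem Sys.kA3 (S : Sys V) (K : Facts) (x : Fin 6 → V) (h01 : S.a (x 0) (x 1) = 1)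
    (hab : S.a (x 0) (x 1) = 1) : DigZ 51 (2 ^ 58) (2 ^ 57) (S.gsum4 T0 gqA3 x + 2 ^ 45)
      (Nat.mul (pf0_0 (S.c5 (x ∘ ![0, 1, 3, 4, 5]))) (qf0_1 (S.c5 (x ∘ ![0, 1, 2, 4, 5])))) := by
  rw [S.pf0_0_eq, S.qf0_1_eq]
  have h := S.grpT4 K K.hA3 K.r0 K.r0 x h01 hab
  have e1 : x ∘ gqA3.io = ![x 0, x 1, x 3, x 4] := vec4_comp x _ _ _ _
  have e2 : x ∘ gqA3.ka = ![x 0, x 1, x 2, x 5] := vec4_comp x _ _ _ _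
  rw [e1, e2] at h
  exact h

theorem Sys.kA4 (S : Sys V) (K : Facts) (x : Fin 6 → V) (h01 : S.a (x 0) (x 1) = 1)
    (hab : S.a (x 0) (x 1) = 1) : DigZ 51 (2 ^ 58) (2 ^ 57) (S.gsum4 T0 gqA4 x + 2 ^ 45)
      (Nat.mul (pf0_1 (S.c5 (x ∘ ![0, 1, 3, 4, 5]))) (qf0_0 (S.c5 (x ∘ ![0, 1, 2, 4, 5])))) := by
  rw [S.pf0_1_eq, S.qf0_0_eq]
  have h := S.grpT4 K K.hA4 K.r0 K.r0 x h01 hab
  have e1 : x ∘ gqA4.io = ![x 0, x 1, x 3, x 5] := vec4_comp x _ _ _ _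
  have e2 : x ∘ gqA4.ka = ![x 0, x 1, x 2, x 4] := vec4_comp x _ _ _ _
  rw [e1, e2] at h
  exact h

theorem Sys.kA5 (S : Sys V) (K : Facts) (x : Fin 6 → V) (h01 : S.a (x 0) (x 1) = 1)
    (hab : S.a (x 0) (x 1) = 1) : DigZ 51 (2 ^ 58) (2 ^ 57) (S.gsum4 T0 gqA5 x + 2 ^ 45)
      (Nat.mul (pf0_2 (S.c5 (x ∘ ![0, 1, 3, 4, 5]))) (qf0_0 (S.c5 (x ∘ ![0, 1, 2, 3, 5])))) := by
  rw [S.pf0_2_eq, S.qf0_0_eq]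
  have h := S.grpT4 K K.hA5 K.r0 K.r0 x h01 hab
  have e1 : x ∘ gqA5.io = ![x 0, x 1, x 4, x 5] := vec4_comp x _ _ _ _
  have e2 : x ∘ gqA5.ka = ![x 0, x 1, x 2, x 3] := vec4_comp x _ _ _ _
  rw [e1, e2] at h
  exact h

theorem Sys.KS_A (S : Sys V) (x : Fin 6 → V) : S.KS tau plAA plAC x + 18 * 2 ^ 45 =
    (S.gsum T0 gpA0 x + 2 ^ 45) + ((S.gsum T0 gpA1 x + 2 ^ 45) + ((S.gsum T0 gpA2 x + 2 ^ 45) + ((S.gsum T0 gpA3 x + 2 ^ 45) + ((S.gsum T0 gpA4 x + 2 ^ 45) + ((S.gsum T0 gpA5 x + 2 ^ 45) + ((S.gsum T0 gpA6 x + 2 ^ 45) + ((S.gsum T0 gpA7 x + 2 ^ 45) + ((S.gsum T0 gpA8 x + 2 ^ 45) + ((S.gsum T0 gpA9 x + 2 ^ 45) + ((S.gsum T0 gpA10 x + 2 ^ 45) + ((S.gsum T0 gpA11 x + 2 ^ 45) + ((S.gsum4 T0 gqA0 x + 2 ^ 45) + ((S.gsum4 T0 gqA1 x + 2 ^ 45) + ((S.gsum4 T0 gqA2 x + 2 ^ 45) +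 ((S.gsum4 T0 gqA3 x + 2 ^ 45) + ((S.gsum4 T0 gqA4 x + 2 ^ 45) + ((S.gsum4 T0 gqA5 x + 2 ^ 45) + (0)))))))))))))))))) := by
  unfold Sys.KS
  simp only [plAA, plAC, pgAC, List.flatten_cons, List.flatten_nil, List.append_nil,
    List.map_append, List.sum_append]
  rw [sum_get24 S gpA0 gA0 rfl (fun _ => rfl) x,
    sum_get24 S gpA1 gA1 rfl (fun _ => rfl) x,
    sum_get24 S gpA2 gA2 rfl (fun _ => rfl) x,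
    sum_get24 S gpA3 gA3 rfl (fun _ => rfl) x,
    sum_get24 S gpA4 gA4 rfl (fun _ => rfl) x,
    sum_get24 S gpA5 gA5 rfl (fun _ => rfl) x,
    sum_get24 S gpA6 gA6 rfl (fun _ => rfl) x,
    sum_get24 S gpA7 gA7 rfl (fun _ => rfl) x,
    sum_get24 S gpA8 gA8 rfl (fun _ => rfl) x,
    sum_get24 S gpA9 gA9 rfl (fun _ => rfl) x,
    sum_get24 S gpA10 gA10 rfl (fun _ => rfl) x,
    sum_get24 S gpA11 gA11 rfl (fun _ => rfl) x,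
    sum_get2 S gqA0 hA0 rfl (fun _ => rfl) x,
    sum_get2 S gqA1 hA1 rfl (fun _ => rfl) x,
    sum_get2 S gqA2 hA2 rfl (fun _ => rfl) x,
    sum_get2 S gqA3 hA3 rfl (fun _ => rfl) x,
    sum_get2 S gqA4 hA4 rfl (fun _ => rfl) x,
    sum_get2 S gqA5 hA5 rfl (fun _ => rfl) x]
  ring

theorem Sys.body_A (S : Sys V) (K : Facts) (x : Fin 6 → V) (h01 : S.a (x 0) (x 1) = 1)
    (hab : S.a (x 0) (x 1) = 1) : DigZ 51 (18 * 2 ^ 58) (18 * 2 ^ 57)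
      (S.KS tau plAA plAC x + 18 * 2 ^ 45)
      (bodyA (S.c5 (x ∘ ![0, 1, 3, 4, 5])) (S.c5 (x ∘ ![0, 1, 2, 4, 5])) (S.c5 (x ∘ ![0, 1, 2, 3, 5])) (S.c5 (x ∘ ![0, 1, 2, 3, 4]))) := by
  rw [S.KS_A]
  have h := (S.dA0 K x h01 hab).add
    ((S.dA1 K x h01 hab).add
    ((S.dA2 K x h01 hab).add
    ((S.dA3 K x h01 hab).add
    ((S.dA4 K x h01 hab).add
    ((S.dA5 K x h01 hab).add
    ((S.dA6 K x h01 hab).add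
    ((S.dA7 K x h01 hab).add
    ((S.dA8 K x h01 hab).add
    ((S.dA9 K x h01 hab).add
    ((S.dA10 K x h01 hab).add
    ((S.dA11 K x h01 hab).add
    ((S.kA0 K x h01 hab).add
    ((S.kA1 K x h01 hab).add
    ((S.kA2 K x h01 hab).add
    ((S.kA3 K x h01 hab).add
    ((S.kA4 K x h01 hab).add
    ((S.kA5 K x h01 hab).add
    (DigZ.zero 51))))))))))))))))))
  have e1 : 2 ^ 58 + (2 ^ 58 + (2 ^ 58 + (2 ^ 58 + (2 ^ 58 + (2 ^ 58 + (2 ^ 58 + (2 ^ 58 + (2 ^ 58 + (2 ^ 58 + (2 ^ 58 + (2 ^ 58 + (2 ^ 58 + (2 ^ 58 + (2 ^ 58 + (2 ^ 58 + (2 ^ 58 + (2 ^ 58 + (0)))))))))))))))))) = 18 * 2 ^ 58 := by norm_num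
  have e2 : 2 ^ 57 + (2 ^ 57 + (2 ^ 57 + (2 ^ 57 + (2 ^ 57 + (2 ^ 57 + (2 ^ 57 + (2 ^ 57 + (2 ^ 57 + (2 ^ 57 + (2 ^ 57 + (2 ^ 57 + (2 ^ 57 + (2 ^ 57 + (2 ^ 57 + (2 ^ 57 + (2 ^ 57 + (2 ^ 57 + (0)))))))))))))))))) = 18 * 2 ^ 57 := by norm_num
  rw [e1, e2] at h
  exact h


end Pool.Agent.Helper96.FC
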