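import Pool.Agent.Helper96.FC.Facts

/-!
# Flag certificates on six vertices: the sums of products, type B
-/

set_option autoImplicit false

namespace Pool.Agent.Helper96.FC

open Finset

variable {V : Type} [Fintype V]


theorem Sys.dB0 (S : Sys V) (K : Facts) (x : Fin 6 → V) (h01 : S.a (x 0) (x 1) = 1)
    (hab : S.a (x 0) (x 2) = 1) : DigZ 51 (2 ^ 58) (2 ^ 57) (S.gsum T0 gpB0 x + 2 ^ 45)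
      (Nat.mul (pe5 (S.c5 (x ∘ ![0, 1, 3, 4, 5]))) (qe5 (S.c5 (x ∘ ![0, 2, 3, 4, 5])))) := by
  rw [pe5_eq, qe5_eq]
  exact S.grpT K K.gB0 K.s5 K.s5 x h01 hab

theorem Sys.dB1 (S : Sys V) (K : Facts) (x : Fin 6 → V) (h01 : S.a (x 0) (x 1) = 1)
    (hab : S.a (x 0) (x 2) = 1) : DigZ 51 (2 ^ 58) (2 ^ 57) (S.gsum T0 gpB1 x + 2 ^ 45)
      (Nat.mul (pe5 (S.c5 (x ∘ ![0, 1, 2, 4, 5]))) (qe11 (S.c5 (x ∘ ![0, 2, 3, 4, 5])))) := by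
  rw [pe5_eq, qe11_eq]
  exact S.grpT K K.gB1 K.s5 K.s11 x h01 hab

theorem Sys.dB2 (S : Sys V) (K : Facts) (x : Fin 6 → V) (h01 : S.a (x 0) (x 1) = 1)
    (hab : S.a (x 0) (x 2) = 1) : DigZ 51 (2 ^ 58) (2 ^ 57) (S.gsum T0 gpB2 x + 2 ^ 45)
      (Nat.mul (pe5 (S.c5 (x ∘ ![0, 1, 2, 3, 5]))) (qe6 (S.c5 (x ∘ ![0, 2, 3, 4, 5])))) := by
  rw [pe5_eq, qe6_eq]
  exact S.grpT K K.gB2 K.s5 K.s6 x h01 hab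

theorem Sys.dB3 (S : Sys V) (K : Facts) (x : Fin 6 → V) (h01 : S.a (x 0) (x 1) = 1)
    (hab : S.a (x 0) (x 2) = 1) : DigZ 51 (2 ^ 58) (2 ^ 57) (S.gsum T0 gpB3 x + 2 ^ 45)
      (Nat.mul (pe5 (S.c5 (x ∘ ![0, 1, 2, 3, 4]))) (qe9 (S.c5 (x ∘ ![0, 2, 3, 4, 5])))) := by
  rw [pe5_eq, qe9_eq]
  exact S.grpT K K.gB3 K.s5 K.s9 x h01 hab

theorem Sys.dB4 (S : Sys V) (K : Facts) (x : Fin 6 → V) (h01 : S.a (x 0) (x 1) = 1)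
    (hab : S.a (x 0) (x 2) = 1) : DigZ 51 (2 ^ 58) (2 ^ 57) (S.gsum T0 gpB4 x + 2 ^ 45)
      (Nat.mul (pe11 (S.c5 (x ∘ ![0, 1, 3, 4, 5]))) (qe5 (S.c5 (x ∘ ![0, 2, 1, 4, 5])))) := by
  rw [pe11_eq, qe5_eq]
  exact S.grpT K K.gB4 K.s11 K.s5 x h01 hab

theorem Sys.dB5 (S : Sys V) (K : Facts) (x : Fin 6 → V) (h01 : S.a (x 0) (x 1) = 1)
    (hab : S.a (x 0) (x 2) = 1) : DigZ 51 (2 ^ 58) (2 ^ 57) (S.gsum T0 gpB5 x + 2 ^ 45)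
      (Nat.mul (pe6 (S.c5 (x ∘ ![0, 1, 2, 3, 5]))) (qe12 (S.c5 (x ∘ ![0, 2, 1, 4, 5])))) := by
  rw [pe6_eq, qe12_eq]
  exact S.grpT K K.gB5 K.s6 K.s12 x h01 hab

theorem Sys.dB6 (S : Sys V) (K : Facts) (x : Fin 6 → V) (h01 : S.a (x 0) (x 1) = 1)
    (hab : S.a (x 0) (x 2) = 1) : DigZ 51 (2 ^ 58) (2 ^ 57) (S.gsum T0 gpB6 x + 2 ^ 45)
      (Nat.mul (pe6 (S.c5 (x ∘ ![0, 1, 2, 3, 4]))) (qe13 (S.c5 (x ∘ ![0, 2, 1, 4, 5])))) := by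
  rw [pe6_eq, qe13_eq]
  exact S.grpT K K.gB6 K.s6 K.s13 x h01 hab

theorem Sys.dB7 (S : Sys V) (K : Facts) (x : Fin 6 → V) (h01 : S.a (x 0) (x 1) = 1)
    (hab : S.a (x 0) (x 2) = 1) : DigZ 51 (2 ^ 58) (2 ^ 57) (S.gsum T0 gpB7 x + 2 ^ 45)
      (Nat.mul (pe6 (S.c5 (x ∘ ![0, 1, 3, 4, 5]))) (qe5 (S.c5 (x ∘ ![0, 2, 1, 3, 5])))) := by
  rw [pe6_eq, qe5_eq]
  exact S.grpT K K.gB7 K.s6 K.s5 x h01 hab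

theorem Sys.dB8 (S : Sys V) (K : Facts) (x : Fin 6 → V) (h01 : S.a (x 0) (x 1) = 1)
    (hab : S.a (x 0) (x 2) = 1) : DigZ 51 (2 ^ 58) (2 ^ 57) (S.gsum T0 gpB8 x + 2 ^ 45)
      (Nat.mul (pe6 (S.c5 (x ∘ ![0, 1, 2, 4, 5]))) (qe12 (S.c5 (x ∘ ![0, 2, 1, 3, 5])))) := by
  rw [pe6_eq, qe12_eq]
  exact S.grpT K K.gB8 K.s6 K.s12 x h01 hab

theorem Sys.dB9 (S : Sys V) (K : Facts) (x : Fin 6 → V) (h01 : S.a (x 0) (x 1) = 1)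
    (hab : S.a (x 0) (x 2) = 1) : DigZ 51 (2 ^ 58) (2 ^ 57) (S.gsum T0 gpB9 x + 2 ^ 45)
      (Nat.mul (pe9 (S.c5 (x ∘ ![0, 1, 2, 3, 4]))) (qe13 (S.c5 (x ∘ ![0, 2, 1, 3, 5])))) := by
  rw [pe9_eq, qe13_eq]
  exact S.grpT K K.gB9 K.s9 K.s13 x h01 hab

theorem Sys.dB10 (S : Sys V) (K : Facts) (x : Fin 6 → V) (h01 : S.a (x 0) (x 1) = 1)
    (hab : S.a (x 0) (x 2) = 1) : DigZ 51 (2 ^ 58) (2 ^ 57) (S.gsum T0 gpB10 x + 2 ^ 45)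
      (Nat.mul (pe9 (S.c5 (x ∘ ![0, 1, 3, 4, 5]))) (qe5 (S.c5 (x ∘ ![0, 2, 1, 3, 4])))) := by
  rw [pe9_eq, qe5_eq]
  exact S.grpT K K.gB10 K.s9 K.s5 x h01 hab

theorem Sys.dB11 (S : Sys V) (K : Facts) (x : Fin 6 → V) (h01 : S.a (x 0) (x 1) = 1)
    (hab : S.a (x 0) (x 2) = 1) : DigZ 51 (2 ^ 58) (2 ^ 57) (S.gsum T0 gpB11 x + 2 ^ 45)
      (Nat.mul (pe9 (S.c5 (x ∘ ![0, 1, 2, 4, 5]))) (qe12 (S.c5 (x ∘ ![0, 2, 1, 3, 4])))) := by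
  rw [pe9_eq, qe12_eq]
  exact S.grpT K K.gB11 K.s9 K.s12 x h01 hab

theorem Sys.dB12 (S : Sys V) (K : Facts) (x : Fin 6 → V) (h01 : S.a (x 0) (x 1) = 1)
    (hab : S.a (x 0) (x 2) = 1) : DigZ 51 (2 ^ 58) (2 ^ 57) (S.gsum T0 gpB12 x + 2 ^ 45)
      (Nat.mul (pe9 (S.c5 (x ∘ ![0, 1, 2, 3, 5]))) (qe13 (S.c5 (x ∘ ![0, 2, 1, 3, 4])))) := by
  rw [pe9_eq, qe13_eq]
  exact S.grpT K K.gB12 K.s9 K.s13 x h01 hab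

theorem Sys.kB0 (S : Sys V) (K : Facts) (x : Fin 6 → V) (h01 : S.a (x 0) (x 1) = 1)
    (hab : S.a (x 0) (x 2) = 1) : DigZ 51 (2 ^ 58) (2 ^ 57) (S.gsum4 T0 gqB0 x + 2 ^ 45)
      (Nat.mul (pf0_0 (S.c5 (x ∘ ![0, 1, 3, 4, 5]))) (qf2_1 (S.c5 (x ∘ ![0, 2, 1, 4, 5])))) := by
  rw [S.pf0_0_eq, S.qf2_1_eq]
  have h := S.grpT4 K K.hB0 K.r0 K.r2 x h01 hab
  have e1 : x ∘ gqB0.io = ![x 0, x 1, x 3, x 4] := vec4_comp x _ _ _ _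
  have e2 : x ∘ gqB0.ka = ![x 0, x 2, x 1, x 5] := vec4_comp x _ _ _ _
  rw [e1, e2] at h
  exact h

theorem Sys.kB1 (S : Sys V) (K : Facts) (x : Fin 6 → V) (h01 : S.a (x 0) (x 1) = 1)
    (hab : S.a (x 0) (x 2) = 1) : DigZ 51 (2 ^ 58) (2 ^ 57) (S.gsum4 T0 gqB1 x + 2 ^ 45)
      (Nat.mul (pf0_1 (S.c5 (x ∘ ![0, 1, 3, 4, 5]))) (qf2_0 (S.c5 (x ∘ ![0, 2, 1, 4, 5])))) := by
  rw [S.pf0_1_eq, S.qf2_0_eq]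
  have h := S.grpT4 K K.hB1 K.r0 K.r2 x h01 hab
  have e1 : x ∘ gqB1.io = ![x 0, x 1, x 3, x 5] := vec4_comp x _ _ _ _
  have e2 : x ∘ gqB1.ka = ![x 0, x 2, x 1, x 4] := vec4_comp x _ _ _ _
  rw [e1, e2] at h
  exact h

theorem Sys.kB2 (S : Sys V) (K : Facts) (x : Fin 6 → V) (h01 : S.a (x 0) (x 1) = 1)
    (hab : S.a (x 0) (x 2) = 1) : DigZ 51 (2 ^ 58) (2 ^ 57) (S.gsum4 T0 gqB2 x + 2 ^ 45)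
      (Nat.mul (pf0_2 (S.c5 (x ∘ ![0, 1, 3, 4, 5]))) (qf2_0 (S.c5 (x ∘ ![0, 2, 1, 3, 5])))) := by
  rw [S.pf0_2_eq, S.qf2_0_eq]
  have h := S.grpT4 K K.hB2 K.r0 K.r2 x h01 hab
  have e1 : x ∘ gqB2.io = ![x 0, x 1, x 4, x 5] := vec4_comp x _ _ _ _
  have e2 : x ∘ gqB2.ka = ![x 0, x 2, x 1, x 3] := vec4_comp x _ _ _ _
  rw [e1, e2] at h
  exact h

theorem Sys.kB3 (S : Sys V) (K : Facts) (x : Fin 6 → V) (h01 : S.a (x 0) (x 1) = 1)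
    (hab : S.a (x 0) (x 2) = 1) : DigZ 51 (2 ^ 58) (2 ^ 57) (S.gsum4 T0 gqB3 x + 2 ^ 45)
      (Nat.mul (pf2_0 (S.c5 (x ∘ ![0, 1, 2, 3, 5]))) (qf0_2 (S.c5 (x ∘ ![0, 2, 3, 4, 5])))) := by
  rw [S.pf2_0_eq, S.qf0_2_eq]
  have h := S.grpT4 K K.hB3 K.r2 K.r0 x h01 hab
  have e1 : x ∘ gqB3.io = ![x 0, x 1, x 2, x 3] := vec4_comp x _ _ _ _
  have e2 : x ∘ gqB3.ka = ![x 0, x 2, x 4, x 5] := vec4_comp x _ _ _ _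
  rw [e1, e2] at h
  exact h

theorem Sys.kB4 (S : Sys V) (K : Facts) (x : Fin 6 → V) (h01 : S.a (x 0) (x 1) = 1)
    (hab : S.a (x 0) (x 2) = 1) : DigZ 51 (2 ^ 58) (2 ^ 57) (S.gsum4 T0 gqB4 x + 2 ^ 45)
      (Nat.mul (pf2_0 (S.c5 (x ∘ ![0, 1, 2, 4, 5]))) (qf0_1 (S.c5 (x ∘ ![0, 2, 3, 4, 5])))) := by
  rw [S.pf2_0_eq, S.qf0_1_eq]
  have h := S.grpT4 K K.hB4 K.r2 K.r0 x h01 hab
  have e1 : x ∘ gqB4.io = ![x 0, x 1, x 2, x 4] := vec4_comp x _ _ _ _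
  have e2 : x ∘ gqB4.ka = ![x 0, x 2, x 3, x 5] := vec4_comp x _ _ _ _
  rw [e1, e2] at h
  exact h

theorem Sys.kB5 (S : Sys V) (K : Facts) (x : Fin 6 → V) (h01 : S.a (x 0) (x 1) = 1)
    (hab : S.a (x 0) (x 2) = 1) : DigZ 51 (2 ^ 58) (2 ^ 57) (S.gsum4 T0 gqB5 x + 2 ^ 45)
      (Nat.mul (pf2_1 (S.c5 (x ∘ ![0, 1, 2, 4, 5]))) (qf0_0 (S.c5 (x ∘ ![0, 2, 3, 4, 5])))) := by
  rw [S.pf2_1_eq, S.qf0_0_eq]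
  have h := S.grpT4 K K.hB5 K.r2 K.r0 x h01 hab
  have e1 : x ∘ gqB5.io = ![x 0, x 1, x 2, x 5] := vec4_comp x _ _ _ _
  have e2 : x ∘ gqB5.ka = ![x 0, x 2, x 3, x 4] := vec4_comp x _ _ _ _
  rw [e1, e2] at h
  exact h

theorem Sys.kB6 (S : Sys V) (K : Facts) (x : Fin 6 → V) (h01 : S.a (x 0) (x 1) = 1)
    (hab : S.a (x 0) (x 2) = 1) : DigZ 51 (2 ^ 58) (2 ^ 57) (S.gsum4 T0 gqB6 x + 2 ^ 45)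
      (Nat.mul (pf2_0 (S.c5 (x ∘ ![0, 1, 3, 4, 5]))) (qf2_1 (S.c5 (x ∘ ![0, 2, 3, 4, 5])))) := by
  rw [S.pf2_0_eq, S.qf2_1_eq]
  have h := S.grpT4 K K.hB6 K.r2 K.r2 x h01 hab
  have e1 : x ∘ gqB6.io = ![x 0, x 1, x 3, x 4] := vec4_comp x _ _ _ _
  have e2 : x ∘ gqB6.ka = ![x 0, x 2, x 3, x 5] := vec4_comp x _ _ _ _
  rw [e1, e2] at h
  exact h

theorem Sys.kB7 (S : Sys V) (K : Facts) (x : Fin 6 → V) (h01 : S.a (x 0) (x 1) = 1)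
    (hab : S.a (x 0) (x 2) = 1) : DigZ 51 (2 ^ 58) (2 ^ 57) (S.gsum4 T0 gqB7 x + 2 ^ 45)
      (Nat.mul (pf2_1 (S.c5 (x ∘ ![0, 1, 3, 4, 5]))) (qf2_0 (S.c5 (x ∘ ![0, 2, 3, 4, 5])))) := by
  rw [S.pf2_1_eq, S.qf2_0_eq]
  have h := S.grpT4 K K.hB7 K.r2 K.r2 x h01 hab
  have e1 : x ∘ gqB7.io = ![x 0, x 1, x 3, x 5] := vec4_comp x _ _ _ _
  have e2 : x ∘ gqB7.ka = ![x 0, x 2, x 3, x 4] := vec4_comp x _ _ _ _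
  rw [e1, e2] at h
  exact h

theorem Sys.kB8 (S : Sys V) (K : Facts) (x : Fin 6 → V) (h01 : S.a (x 0) (x 1) = 1)
    (hab : S.a (x 0) (x 2) = 1) : DigZ 51 (2 ^ 58) (2 ^ 57) (S.gsum4 T0 gqB8 x + 2 ^ 45)
      (Nat.mul (pf5_0 (S.c5 (x ∘ ![0, 1, 3, 4, 5]))) (qf2_2 (S.c5 (x ∘ ![0, 2, 3, 4, 5])))) := by
  rw [S.pf5_0_eq, S.qf2_2_eq]
  have h := S.grpT4 K K.hB8 K.r5 K.r2 x h01 hab
  have e1 : x ∘ gqB8.io = ![x 0, x 1, x 3, x 4] := vec4_comp x _ _ _ _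
  have e2 : x ∘ gqB8.ka = ![x 0, x 2, x 4, x 5] := vec4_comp x _ _ _ _
  rw [e1, e2] at h
  exact h

theorem Sys.kB9 (S : Sys V) (K : Facts) (x : Fin 6 → V) (h01 : S.a (x 0) (x 1) = 1)
    (hab : S.a (x 0) (x 2) = 1) : DigZ 51 (2 ^ 58) (2 ^ 57) (S.gsum4 T0 gqB9 x + 2 ^ 45)
      (Nat.mul (pf2_2 (S.c5 (x ∘ ![0, 1, 3, 4, 5]))) (qf5_0 (S.c5 (x ∘ ![0, 2, 3, 4, 5])))) := by
  rw [S.pf2_2_eq, S.qf5_0_eq]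
  have h := S.grpT4 K K.hB9 K.r2 K.r5 x h01 hab
  have e1 : x ∘ gqB9.io = ![x 0, x 1, x 4, x 5] := vec4_comp x _ _ _ _
  have e2 : x ∘ gqB9.ka = ![x 0, x 2, x 3, x 4] := vec4_comp x _ _ _ _
  rw [e1, e2] at h
  exact h

theorem Sys.kB10 (S : Sys V) (K : Facts) (x : Fin 6 → V) (h01 : S.a (x 0) (x 1) = 1)
    (hab : S.a (x 0) (x 2) = 1) : DigZ 51 (2 ^ 58) (2 ^ 57) (S.gsum4 T0 gqB10 x + 2 ^ 45)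
      (Nat.mul (pf5_1 (S.c5 (x ∘ ![0, 1, 3, 4, 5]))) (qf5_2 (S.c5 (x ∘ ![0, 2, 3, 4, 5])))) := by
  rw [S.pf5_1_eq, S.qf5_2_eq]
  have h := S.grpT4 K K.hB10 K.r5 K.r5 x h01 hab
  have e1 : x ∘ gqB10.io = ![x 0, x 1, x 3, x 5] := vec4_comp x _ _ _ _
  have e2 : x ∘ gqB10.ka = ![x 0, x 2, x 4, x 5] := vec4_comp x _ _ _ _
  rw [e1, e2] at h
  exact h

theorem Sys.kB11 (S : Sys V) (K : Facts) (x : Fin 6 → V) (h01 : S.a (x 0) (x 1) = 1)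
    (hab : S.a (x 0) (x 2) = 1) : DigZ 51 (2 ^ 58) (2 ^ 57) (S.gsum4 T0 gqB11 x + 2 ^ 45)
      (Nat.mul (pf5_2 (S.c5 (x ∘ ![0, 1, 3, 4, 5]))) (qf5_1 (S.c5 (x ∘ ![0, 2, 3, 4, 5])))) := by
  rw [S.pf5_2_eq, S.qf5_1_eq]
  have h := S.grpT4 K K.hB11 K.r5 K.r5 x h01 hab
  have e1 : x ∘ gqB11.io = ![x 0, x 1, x 4, x 5] := vec4_comp x _ _ _ _
  have e2 : x ∘ gqB11.ka = ![x 0, x 2, x 3, x 5] := vec4_comp x _ _ _ _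
  rw [e1, e2] at h
  exact h

theorem Sys.KS_B (S : Sys V) (x : Fin 6 → V) : S.KS tau plBA plBC x + 25 * 2 ^ 45 =
    (S.gsum T0 gpB0 x + 2 ^ 45) + ((S.gsum T0 gpB1 x + 2 ^ 45) + ((S.gsum T0 gpB2 x + 2 ^ 45) + ((S.gsum T0 gpB3 x + 2 ^ 45) + ((S.gsum T0 gpB4 x + 2 ^ 45) + ((S.gsum T0 gpB5 x + 2 ^ 45) + ((S.gsum T0 gpB6 x + 2 ^ 45) + ((S.gsum T0 gpB7 x + 2 ^ 45) + ((S.gsum T0 gpB8 x + 2 ^ 45) + ((S.gsum T0 gpB9 x + 2 ^ 45) + ((S.gsum T0 gpB10 x + 2 ^ 45) + ((S.gsum T0 gpB11 x + 2 ^ 45) + ((S.gsum T0 gpB12 x + 2 ^ 45) + ((S.gsum4 T0 gqB0 x + 2 ^ 45) + ((S.gsum4 T0 gqB1 x + 2 ^ 45) + ((S.gsum4 T0 gqB2 x + 2 ^ 45) + ((S.gsum4 T0 gqB3 x + 2 ^ 45) + ((S.gsum4 T0 gqB4 x + 2 ^ 45) + ((S.gsum4 T0 gqB5 x + 2 ^ 45) + ((S.gsum4 T0 gqB6 x + 2 ^ 45) + ((S.gsum4 T0 gqB7 x + 2 ^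 45) + ((S.gsum4 T0 gqB8 x + 2 ^ 45) + ((S.gsum4 T0 gqB9 x + 2 ^ 45) + ((S.gsum4 T0 gqB10 x + 2 ^ 45) + ((S.gsum4 T0 gqB11 x + 2 ^ 45) + (0))))))))))))))))))))))))) := by
  unfold Sys.KS
  simp only [plBA, plBC, pgBC, List.flatten_cons, List.flatten_nil, List.append_nil,
    List.map_append, List.sum_append]
  rw [sum_get24 S gpB0 gB0 rfl (fun _ => rfl) x,
    sum_get24 S gpB1 gB1 rfl (fun _ => rfl) x,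
    sum_get24 S gpB2 gB2 rfl (fun _ => rfl) x,
    sum_get24 S gpB3 gB3 rfl (fun _ => rfl) x,
    sum_get24 S gpB4 gB4 rfl (fun _ => rfl) x,
    sum_get24 S gpB5 gB5 rfl (fun _ => rfl) x,
    sum_get24 S gpB6 gB6 rfl (fun _ => rfl) x,
    sum_get24 S gpB7 gB7 rfl (fun _ => rfl) x,
    sum_get24 S gpB8 gB8 rfl (fun _ => rfl) x,
    sum_get24 S gpB9 gB9 rfl (fun _ => rfl) x,
    sum_get24 S gpB10 gB10 rfl (fun _ => rfl) x,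
    sum_get24 S gpB11 gB11 rfl (fun _ => rfl) x,
    sum_get24 S gpB12 gB12 rfl (fun _ => rfl) x,
    sum_get2 S gqB0 hB0 rfl (fun _ => rfl) x,
    sum_get2 S gqB1 hB1 rfl (fun _ => rfl) x,
    sum_get2 S gqB2 hB2 rfl (fun _ => rfl) x,
    sum_get2 S gqB3 hB3 rfl (fun _ => rfl) x,
    sum_get2 S gqB4 hB4 rfl (fun _ => rfl) x,
    sum_get2 S gqB5 hB5 rfl (fun _ => rfl) x,
    sum_get2 S gqB6 hB6 rfl (fun _ => rfl) x,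
    sum_get2 S gqB7 hB7 rfl (fun _ => rfl) x,
    sum_get2 S gqB8 hB8 rfl (fun _ => rfl) x,
    sum_get2 S gqB9 hB9 rfl (fun _ => rfl) x,
    sum_get2 S gqB10 hB10 rfl (fun _ => rfl) x,
    sum_get2 S gqB11 hB11 rfl (fun _ => rfl) x]
  ring

theorem Sys.body_B (S : Sys V) (K : Facts) (x : Fin 6 → V) (h01 : S.a (x 0) (x 1) = 1)
    (hab : S.a (x 0) (x 2) = 1) : DigZ 51 (25 * 2 ^ 58) (25 * 2 ^ 57)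
      (S.KS tau plBA plBC x + 25 * 2 ^ 45)
      (bodyB (S.c5 (x ∘ ![0, 1, 3, 4, 5])) (S.c5 (x ∘ ![0, 1, 2, 4, 5])) (S.c5 (x ∘ ![0, 1, 2, 3, 5])) (S.c5 (x ∘ ![0, 1, 2, 3, 4])) (S.c5 (x ∘ ![0, 2, 3, 4, 5])) (S.c5 (x ∘ ![0, 2, 1, 4, 5])) (S.c5 (x ∘ ![0, 2, 1, 3, 5])) (S.c5 (x ∘ ![0, 2, 1, 3, 4]))) := by
  rw [S.KS_B]
  have h := (S.dB0 K x h01 hab).add
    ((S.dB1 K x h01 hab).add
    ((S.dB2 K x h01 hab).add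
    ((S.dB3 K x h01 hab).add
    ((S.dB4 K x h01 hab).add
    ((S.dB5 K x h01 hab).add
    ((S.dB6 K x h01 hab).add
    ((S.dB7 K x h01 hab).add
    ((S.dB8 K x h01 hab).add
    ((S.dB9 K x h01 hab).add
    ((S.dB10 K x h01 hab).add
    ((S.dB11 K x h01 hab).add
    ((S.dB12 K x h01 hab).add
    ((S.kB0 K x h01 hab).add
    ((S.kB1 K x h01 hab).add
    ((S.kB2 K x h01 hab).add
    ((S.kB3 K x h01 hab).add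
    ((S.kB4 K x h01 hab).add
    ((S.kB5 K x h01 hab).add
    ((S.kB6 K x h01 hab).add
    ((S.kB7 K x h01 hab).add
    ((S.kB8 K x h01 hab).add
    ((S.kB9 K x h01 hab).add
    ((S.kB10 K x h01 hab).add
    ((S.kB11 K x h01 hab).add
    (DigZ.zero 51)))))))))))))))))))))))))
  have e1 : 2 ^ 58 + (2 ^ 58 + (2 ^ 58 + (2 ^ 58 + (2 ^ 58 + (2 ^ 58 + (2 ^ 58 + (2 ^ 58 + (2 ^ 58 + (2 ^ 58 + (2 ^ 58 + (2 ^ 58 + (2 ^ 58 + (2 ^ 58 + (2 ^ 58 + (2 ^ 58 + (2 ^ 58 + (2 ^ 58 + (2 ^ 58 + (2 ^ 58 + (2 ^ 58 + (2 ^ 58 + (2 ^ 58 + (2 ^ 58 + (2 ^ 58 + (0))))))))))))))))))))))))) = 25 * 2 ^ 58 := by norm_num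
  have e2 : 2 ^ 57 + (2 ^ 57 + (2 ^ 57 + (2 ^ 57 + (2 ^ 57 + (2 ^ 57 + (2 ^ 57 + (2 ^ 57 + (2 ^ 57 + (2 ^ 57 + (2 ^ 57 + (2 ^ 57 + (2 ^ 57 + (2 ^ 57 + (2 ^ 57 + (2 ^ 57 + (2 ^ 57 + (2 ^ 57 + (2 ^ 57 + (2 ^ 57 + (2 ^ 57 + (2 ^ 57 + (2 ^ 57 + (2 ^ 57 + (2 ^ 57 + (0))))))))))))))))))))))))) = 25 * 2 ^ 57 := by norm_num
  rw [e1, e2] at h
  exact h


end Pool.Agent.Helper96.FC
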