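import Pool.Agent.Helper96.FC.Facts

/-!
# Flag certificates on six vertices: the sums of products, type C
-/

set_option autoImplicit false

namespace Pool.Agent.Helper96.FC

open Finset

variable {V : Type} [Fintype V]


theorem Sys.dC0 (S : Sys V) (K : Facts) (x : Fin 6 → V) (h01 : S.a (x 0) (x 1) = 1)
    (hab : S.a (x 2) (x 3) = 1) : DigZ 51 (2 ^ 58) (2 ^ 57) (S.gsum T0 gpC0 x + 2 ^ 45)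
      (Nat.mul (pe0 (S.c5 (x ∘ ![0, 1, 3, 4, 5]))) (qe1 (S.c5 (x ∘ ![2, 3, 1, 4, 5])))) := by
  rw [pe0_eq, qe1_eq]
  exact S.grpT K K.gC0 K.s0 K.s1 x h01 hab

theorem Sys.dC1 (S : Sys V) (K : Facts) (x : Fin 6 → V) (h01 : S.a (x 0) (x 1) = 1)
    (hab : S.a (x 2) (x 3) = 1) : DigZ 51 (2 ^ 58) (2 ^ 57) (S.gsum T0 gpC1 x + 2 ^ 45)
      (Nat.mul (pe0 (S.c5 (x ∘ ![0, 1, 2, 4, 5]))) (qe2 (S.c5 (x ∘ ![2, 3, 1, 4, 5])))) := by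
  rw [pe0_eq, qe2_eq]
  exact S.grpT K K.gC1 K.s0 K.s2 x h01 hab

theorem Sys.dC2 (S : Sys V) (K : Facts) (x : Fin 6 → V) (h01 : S.a (x 0) (x 1) = 1)
    (hab : S.a (x 2) (x 3) = 1) : DigZ 51 (2 ^ 58) (2 ^ 57) (S.gsum T0 gpC2 x + 2 ^ 45)
      (Nat.mul (pe0 (S.c5 (x ∘ ![0, 1, 2, 3, 5]))) (qe3 (S.c5 (x ∘ ![2, 3, 1, 4, 5])))) := by
  rw [pe0_eq, qe3_eq]
  exact S.grpT K K.gC2 K.s0 K.s3 x h01 hab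

theorem Sys.dC3 (S : Sys V) (K : Facts) (x : Fin 6 → V) (h01 : S.a (x 0) (x 1) = 1)
    (hab : S.a (x 2) (x 3) = 1) : DigZ 51 (2 ^ 58) (2 ^ 57) (S.gsum T0 gpC3 x + 2 ^ 45)
      (Nat.mul (pe0 (S.c5 (x ∘ ![0, 1, 2, 3, 4]))) (qe4 (S.c5 (x ∘ ![2, 3, 1, 4, 5])))) := by
  rw [pe0_eq, qe4_eq]
  exact S.grpT K K.gC3 K.s0 K.s4 x h01 hab

theorem Sys.dC4 (S : Sys V) (K : Facts) (x : Fin 6 → V) (h01 : S.a (x 0) (x 1) = 1)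
    (hab : S.a (x 2) (x 3) = 1) : DigZ 51 (2 ^ 58) (2 ^ 57) (S.gsum T0 gpC4 x + 2 ^ 45)
      (Nat.mul (pe5 (S.c5 (x ∘ ![0, 1, 3, 4, 5]))) (qe1 (S.c5 (x ∘ ![2, 3, 0, 4, 5])))) := by
  rw [pe5_eq, qe1_eq]
  exact S.grpT K K.gC4 K.s5 K.s1 x h01 hab

theorem Sys.dC5 (S : Sys V) (K : Facts) (x : Fin 6 → V) (h01 : S.a (x 0) (x 1) = 1)
    (hab : S.a (x 2) (x 3) = 1) : DigZ 51 (2 ^ 58) (2 ^ 57) (S.gsum T0 gpC5 x + 2 ^ 45)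
      (Nat.mul (pe5 (S.c5 (x ∘ ![0, 1, 2, 4, 5]))) (qe2 (S.c5 (x ∘ ![2, 3, 0, 4, 5])))) := by
  rw [pe5_eq, qe2_eq]
  exact S.grpT K K.gC5 K.s5 K.s2 x h01 hab

theorem Sys.dC6 (S : Sys V) (K : Facts) (x : Fin 6 → V) (h01 : S.a (x 0) (x 1) = 1)
    (hab : S.a (x 2) (x 3) = 1) : DigZ 51 (2 ^ 58) (2 ^ 57) (S.gsum T0 gpC6 x + 2 ^ 45)
      (Nat.mul (pe5 (S.c5 (x ∘ ![0, 1, 2, 3, 5]))) (qe3 (S.c5 (x ∘ ![2, 3, 0, 4, 5])))) := by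
  rw [pe5_eq, qe3_eq]
  exact S.grpT K K.gC6 K.s5 K.s3 x h01 hab

theorem Sys.dC7 (S : Sys V) (K : Facts) (x : Fin 6 → V) (h01 : S.a (x 0) (x 1) = 1)
    (hab : S.a (x 2) (x 3) = 1) : DigZ 51 (2 ^ 58) (2 ^ 57) (S.gsum T0 gpC7 x + 2 ^ 45)
      (Nat.mul (pe5 (S.c5 (x ∘ ![0, 1, 2, 3, 4]))) (qe4 (S.c5 (x ∘ ![2, 3, 0, 4, 5])))) := by
  rw [pe5_eq, qe4_eq]
  exact S.grpT K K.gC7 K.s5 K.s4 x h01 hab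

theorem Sys.dC8 (S : Sys V) (K : Facts) (x : Fin 6 → V) (h01 : S.a (x 0) (x 1) = 1)
    (hab : S.a (x 2) (x 3) = 1) : DigZ 51 (2 ^ 58) (2 ^ 57) (S.gsum T0 gpC8 x + 2 ^ 45)
      (Nat.mul (pe6 (S.c5 (x ∘ ![0, 1, 3, 4, 5]))) (qe7 (S.c5 (x ∘ ![2, 3, 0, 1, 5])))) := by
  rw [pe6_eq, qe7_eq]
  exact S.grpT K K.gC8 K.s6 K.s7 x h01 hab

theorem Sys.dC9 (S : Sys V) (K : Facts) (x : Fin 6 → V) (h01 : S.a (x 0) (x 1) = 1)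
    (hab : S.a (x 2) (x 3) = 1) : DigZ 51 (2 ^ 58) (2 ^ 57) (S.gsum T0 gpC9 x + 2 ^ 45)
      (Nat.mul (pe6 (S.c5 (x ∘ ![0, 1, 2, 4, 5]))) (qe8 (S.c5 (x ∘ ![2, 3, 0, 1, 5])))) := by
  rw [pe6_eq, qe8_eq]
  exact S.grpT K K.gC9 K.s6 K.s8 x h01 hab

theorem Sys.dC10 (S : Sys V) (K : Facts) (x : Fin 6 → V) (h01 : S.a (x 0) (x 1) = 1)
    (hab : S.a (x 2) (x 3) = 1) : DigZ 51 (2 ^ 58) (2 ^ 57) (S.gsum T0 gpC10 x + 2 ^ 45)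
      (Nat.mul (pe9 (S.c5 (x ∘ ![0, 1, 2, 3, 4]))) (qe10 (S.c5 (x ∘ ![2, 3, 0, 1, 5])))) := by
  rw [pe9_eq, qe10_eq]
  exact S.grpT K K.gC10 K.s9 K.s10 x h01 hab

theorem Sys.dC11 (S : Sys V) (K : Facts) (x : Fin 6 → V) (h01 : S.a (x 0) (x 1) = 1)
    (hab : S.a (x 2) (x 3) = 1) : DigZ 51 (2 ^ 58) (2 ^ 57) (S.gsum T0 gpC11 x + 2 ^ 45)
      (Nat.mul (pe9 (S.c5 (x ∘ ![0, 1, 3, 4, 5]))) (qe7 (S.c5 (x ∘ ![2, 3, 0, 1, 4])))) := by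
  rw [pe9_eq, qe7_eq]
  exact S.grpT K K.gC11 K.s9 K.s7 x h01 hab

theorem Sys.dC12 (S : Sys V) (K : Facts) (x : Fin 6 → V) (h01 : S.a (x 0) (x 1) = 1)
    (hab : S.a (x 2) (x 3) = 1) : DigZ 51 (2 ^ 58) (2 ^ 57) (S.gsum T0 gpC12 x + 2 ^ 45)
      (Nat.mul (pe9 (S.c5 (x ∘ ![0, 1, 2, 4, 5]))) (qe8 (S.c5 (x ∘ ![2, 3, 0, 1, 4])))) := by
  rw [pe9_eq, qe8_eq]
  exact S.grpT K K.gC12 K.s9 K.s8 x h01 hab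

theorem Sys.dC13 (S : Sys V) (K : Facts) (x : Fin 6 → V) (h01 : S.a (x 0) (x 1) = 1)
    (hab : S.a (x 2) (x 3) = 1) : DigZ 51 (2 ^ 58) (2 ^ 57) (S.gsum T0 gpC13 x + 2 ^ 45)
      (Nat.mul (pe9 (S.c5 (x ∘ ![0, 1, 2, 3, 5]))) (qe10 (S.c5 (x ∘ ![2, 3, 0, 1, 4])))) := by
  rw [pe9_eq, qe10_eq]
  exact S.grpT K K.gC13 K.s9 K.s10 x h01 hab

theorem Sys.kC0 (S : Sys V) (K : Facts) (x : Fin 6 → V) (h01 : S.a (x 0) (x 1) = 1)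
    (hab : S.a (x 2) (x 3) = 1) : DigZ 51 (2 ^ 58) (2 ^ 57) (S.gsum4 T0 gqC0 x + 2 ^ 45)
      (Nat.mul (pf0_2 (S.c5 (x ∘ ![0, 1, 3, 4, 5]))) (qf1_0 (S.c5 (x ∘ ![2, 3, 0, 1, 5])))) := by
  rw [S.pf0_2_eq, S.qf1_0_eq]
  have h := S.grpT4 K K.hC0 K.r0 K.r1 x h01 hab
  have e1 : x ∘ gqC0.io = ![x 0, x 1, x 4, x 5] := vec4_comp x _ _ _ _
  have e2 : x ∘ gqC0.ka = ![x 2, x 3, x 0, x 1] := vec4_comp x _ _ _ _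
  rw [e1, e2] at h
  exact h

theorem Sys.kC1 (S : Sys V) (K : Facts) (x : Fin 6 → V) (h01 : S.a (x 0) (x 1) = 1)
    (hab : S.a (x 2) (x 3) = 1) : DigZ 51 (2 ^ 58) (2 ^ 57) (S.gsum4 T0 gqC1 x + 2 ^ 45)
      (Nat.mul (pf2_0 (S.c5 (x ∘ ![0, 1, 2, 4, 5]))) (qf3_1 (S.c5 (x ∘ ![2, 3, 0, 4, 5])))) := by
  rw [S.pf2_0_eq, S.qf3_1_eq]
  have h := S.grpT4 K K.hC1 K.r2 K.r3 x h01 hab
  have e1 : x ∘ gqC1.io = ![x 0, x 1, x 2, x 4] := vec4_comp x _ _ _ _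
  have e2 : x ∘ gqC1.ka = ![x 2, x 3, x 0, x 5] := vec4_comp x _ _ _ _
  rw [e1, e2] at h
  exact h

theorem Sys.kC2 (S : Sys V) (K : Facts) (x : Fin 6 → V) (h01 : S.a (x 0) (x 1) = 1)
    (hab : S.a (x 2) (x 3) = 1) : DigZ 51 (2 ^ 58) (2 ^ 57) (S.gsum4 T0 gqC2 x + 2 ^ 45)
      (Nat.mul (pf2_1 (S.c5 (x ∘ ![0, 1, 2, 4, 5]))) (qf3_0 (S.c5 (x ∘ ![2, 3, 0, 4, 5])))) := by
  rw [S.pf2_1_eq, S.qf3_0_eq]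
  have h := S.grpT4 K K.hC2 K.r2 K.r3 x h01 hab
  have e1 : x ∘ gqC2.io = ![x 0, x 1, x 2, x 5] := vec4_comp x _ _ _ _
  have e2 : x ∘ gqC2.ka = ![x 2, x 3, x 0, x 4] := vec4_comp x _ _ _ _
  rw [e1, e2] at h
  exact h

theorem Sys.kC3 (S : Sys V) (K : Facts) (x : Fin 6 → V) (h01 : S.a (x 0) (x 1) = 1)
    (hab : S.a (x 2) (x 3) = 1) : DigZ 51 (2 ^ 58) (2 ^ 57) (S.gsum4 T0 gqC3 x + 2 ^ 45)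
      (Nat.mul (pf2_0 (S.c5 (x ∘ ![0, 1, 3, 4, 5]))) (qf4_1 (S.c5 (x ∘ ![2, 3, 0, 4, 5])))) := by
  rw [S.pf2_0_eq, S.qf4_1_eq]
  have h := S.grpT4 K K.hC3 K.r2 K.r4 x h01 hab
  have e1 : x ∘ gqC3.io = ![x 0, x 1, x 3, x 4] := vec4_comp x _ _ _ _
  have e2 : x ∘ gqC3.ka = ![x 2, x 3, x 0, x 5] := vec4_comp x _ _ _ _
  rw [e1, e2] at h
  exact h

theorem Sys.kC4 (S : Sys V) (K : Facts) (x : Fin 6 → V) (h01 : S.a (x 0) (x 1) = 1)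
    (hab : S.a (x 2) (x 3) = 1) : DigZ 51 (2 ^ 58) (2 ^ 57) (S.gsum4 T0 gqC4 x + 2 ^ 45)
      (Nat.mul (pf2_1 (S.c5 (x ∘ ![0, 1, 3, 4, 5]))) (qf4_0 (S.c5 (x ∘ ![2, 3, 0, 4, 5])))) := by
  rw [S.pf2_1_eq, S.qf4_0_eq]
  have h := S.grpT4 K K.hC4 K.r2 K.r4 x h01 hab
  have e1 : x ∘ gqC4.io = ![x 0, x 1, x 3, x 5] := vec4_comp x _ _ _ _
  have e2 : x ∘ gqC4.ka = ![x 2, x 3, x 0, x 4] := vec4_comp x _ _ _ _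
  rw [e1, e2] at h
  exact h

theorem Sys.kC5 (S : Sys V) (K : Facts) (x : Fin 6 → V) (h01 : S.a (x 0) (x 1) = 1)
    (hab : S.a (x 2) (x 3) = 1) : DigZ 51 (2 ^ 58) (2 ^ 57) (S.gsum4 T0 gqC5 x + 2 ^ 45)
      (Nat.mul (pf2_2 (S.c5 (x ∘ ![0, 1, 3, 4, 5]))) (qf1_0 (S.c5 (x ∘ ![2, 3, 0, 4, 5])))) := by
  rw [S.pf2_2_eq, S.qf1_0_eq]
  have h := S.grpT4 K K.hC5 K.r2 K.r1 x h01 hab
  have e1 : x ∘ gqC5.io = ![x 0, x 1, x 4, x 5] := vec4_comp x _ _ _ _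
  have e2 : x ∘ gqC5.ka = ![x 2, x 3, x 0, x 4] := vec4_comp x _ _ _ _
  rw [e1, e2] at h
  exact h

theorem Sys.kC6 (S : Sys V) (K : Facts) (x : Fin 6 → V) (h01 : S.a (x 0) (x 1) = 1)
    (hab : S.a (x 2) (x 3) = 1) : DigZ 51 (2 ^ 58) (2 ^ 57) (S.gsum4 T0 gqC6 x + 2 ^ 45)
      (Nat.mul (pf5_2 (S.c5 (x ∘ ![0, 1, 3, 4, 5]))) (qf1_1 (S.c5 (x ∘ ![2, 3, 0, 4, 5])))) := by
  rw [S.pf5_2_eq, S.qf1_1_eq]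
  have h := S.grpT4 K K.hC6 K.r5 K.r1 x h01 hab
  have e1 : x ∘ gqC6.io = ![x 0, x 1, x 4, x 5] := vec4_comp x _ _ _ _
  have e2 : x ∘ gqC6.ka = ![x 2, x 3, x 0, x 5] := vec4_comp x _ _ _ _
  rw [e1, e2] at h
  exact h

theorem Sys.kC7 (S : Sys V) (K : Facts) (x : Fin 6 → V) (h01 : S.a (x 0) (x 1) = 1)
    (hab : S.a (x 2) (x 3) = 1) : DigZ 51 (2 ^ 58) (2 ^ 57) (S.gsum4 T0 gqC7 x + 2 ^ 45)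
      (Nat.mul (pf6_0 (S.c5 (x ∘ ![0, 1, 2, 4, 5]))) (qf3_1 (S.c5 (x ∘ ![2, 3, 1, 4, 5])))) := by
  rw [S.pf6_0_eq, S.qf3_1_eq]
  have h := S.grpT4 K K.hC7 K.r6 K.r3 x h01 hab
  have e1 : x ∘ gqC7.io = ![x 0, x 1, x 2, x 4] := vec4_comp x _ _ _ _
  have e2 : x ∘ gqC7.ka = ![x 2, x 3, x 1, x 5] := vec4_comp x _ _ _ _
  rw [e1, e2] at h
  exact h

theorem Sys.kC8 (S : Sys V) (K : Facts) (x : Fin 6 → V) (h01 : S.a (x 0) (x 1) = 1)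
    (hab : S.a (x 2) (x 3) = 1) : DigZ 51 (2 ^ 58) (2 ^ 57) (S.gsum4 T0 gqC8 x + 2 ^ 45)
      (Nat.mul (pf6_1 (S.c5 (x ∘ ![0, 1, 2, 4, 5]))) (qf3_0 (S.c5 (x ∘ ![2, 3, 1, 4, 5])))) := by
  rw [S.pf6_1_eq, S.qf3_0_eq]
  have h := S.grpT4 K K.hC8 K.r6 K.r3 x h01 hab
  have e1 : x ∘ gqC8.io = ![x 0, x 1, x 2, x 5] := vec4_comp x _ _ _ _
  have e2 : x ∘ gqC8.ka = ![x 2, x 3, x 1, x 4] := vec4_comp x _ _ _ _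
  rw [e1, e2] at h
  exact h

theorem Sys.kC9 (S : Sys V) (K : Facts) (x : Fin 6 → V) (h01 : S.a (x 0) (x 1) = 1)
    (hab : S.a (x 2) (x 3) = 1) : DigZ 51 (2 ^ 58) (2 ^ 57) (S.gsum4 T0 gqC9 x + 2 ^ 45)
      (Nat.mul (pf6_0 (S.c5 (x ∘ ![0, 1, 3, 4, 5]))) (qf4_1 (S.c5 (x ∘ ![2, 3, 1, 4, 5])))) := by
  rw [S.pf6_0_eq, S.qf4_1_eq]
  have h := S.grpT4 K K.hC9 K.r6 K.r4 x h01 hab
  have e1 : x ∘ gqC9.io = ![x 0, x 1, x 3, x 4] := vec4_comp x _ _ _ _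
  have e2 : x ∘ gqC9.ka = ![x 2, x 3, x 1, x 5] := vec4_comp x _ _ _ _
  rw [e1, e2] at h
  exact h

theorem Sys.kC10 (S : Sys V) (K : Facts) (x : Fin 6 → V) (h01 : S.a (x 0) (x 1) = 1)
    (hab : S.a (x 2) (x 3) = 1) : DigZ 51 (2 ^ 58) (2 ^ 57) (S.gsum4 T0 gqC10 x + 2 ^ 45)
      (Nat.mul (pf6_1 (S.c5 (x ∘ ![0, 1, 3, 4, 5]))) (qf4_0 (S.c5 (x ∘ ![2, 3, 1, 4, 5])))) := by
  rw [S.pf6_1_eq, S.qf4_0_eq]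
  have h := S.grpT4 K K.hC10 K.r6 K.r4 x h01 hab
  have e1 : x ∘ gqC10.io = ![x 0, x 1, x 3, x 5] := vec4_comp x _ _ _ _
  have e2 : x ∘ gqC10.ka = ![x 2, x 3, x 1, x 4] := vec4_comp x _ _ _ _
  rw [e1, e2] at h
  exact h

theorem Sys.kC11 (S : Sys V) (K : Facts) (x : Fin 6 → V) (h01 : S.a (x 0) (x 1) = 1)
    (hab : S.a (x 2) (x 3) = 1) : DigZ 51 (2 ^ 58) (2 ^ 57) (S.gsum4 T0 gqC11 x + 2 ^ 45)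
      (Nat.mul (pf6_2 (S.c5 (x ∘ ![0, 1, 3, 4, 5]))) (qf1_0 (S.c5 (x ∘ ![2, 3, 1, 4, 5])))) := by
  rw [S.pf6_2_eq, S.qf1_0_eq]
  have h := S.grpT4 K K.hC11 K.r6 K.r1 x h01 hab
  have e1 : x ∘ gqC11.io = ![x 0, x 1, x 4, x 5] := vec4_comp x _ _ _ _
  have e2 : x ∘ gqC11.ka = ![x 2, x 3, x 1, x 4] := vec4_comp x _ _ _ _
  rw [e1, e2] at h
  exact h

theorem Sys.kC12 (S : Sys V) (K : Facts) (x : Fin 6 → V) (h01 : S.a (x 0) (x 1) = 1)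
    (hab : S.a (x 2) (x 3) = 1) : DigZ 51 (2 ^ 58) (2 ^ 57) (S.gsum4 T0 gqC12 x + 2 ^ 45)
      (Nat.mul (pf7_2 (S.c5 (x ∘ ![0, 1, 3, 4, 5]))) (qf1_1 (S.c5 (x ∘ ![2, 3, 1, 4, 5])))) := by
  rw [S.pf7_2_eq, S.qf1_1_eq]
  have h := S.grpT4 K K.hC12 K.r7 K.r1 x h01 hab
  have e1 : x ∘ gqC12.io = ![x 0, x 1, x 4, x 5] := vec4_comp x _ _ _ _
  have e2 : x ∘ gqC12.ka = ![x 2, x 3, x 1, x 5] := vec4_comp x _ _ _ _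
  rw [e1, e2] at h
  exact h

theorem Sys.kC13 (S : Sys V) (K : Facts) (x : Fin 6 → V) (h01 : S.a (x 0) (x 1) = 1)
    (hab : S.a (x 2) (x 3) = 1) : DigZ 51 (2 ^ 58) (2 ^ 57) (S.gsum4 T0 gqC13 x + 2 ^ 45)
      (Nat.mul (pf1_0 (S.c5 (x ∘ ![0, 1, 2, 3, 5]))) (qf0_2 (S.c5 (x ∘ ![2, 3, 1, 4, 5])))) := by
  rw [S.pf1_0_eq, S.qf0_2_eq]
  have h := S.grpT4 K K.hC13 K.r1 K.r0 x h01 hab
  have e1 : x ∘ gqC13.io = ![x 0, x 1, x 2, x 3] := vec4_comp x _ _ _ _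
  have e2 : x ∘ gqC13.ka = ![x 2, x 3, x 4, x 5] := vec4_comp x _ _ _ _
  rw [e1, e2] at h
  exact h

theorem Sys.kC14 (S : Sys V) (K : Facts) (x : Fin 6 → V) (h01 : S.a (x 0) (x 1) = 1)
    (hab : S.a (x 2) (x 3) = 1) : DigZ 51 (2 ^ 58) (2 ^ 57) (S.gsum4 T0 gqC14 x + 2 ^ 45)
      (Nat.mul (pf1_0 (S.c5 (x ∘ ![0, 1, 2, 4, 5]))) (qf2_2 (S.c5 (x ∘ ![2, 3, 1, 4, 5])))) := by
  rw [S.pf1_0_eq, S.qf2_2_eq]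
  have h := S.grpT4 K K.hC14 K.r1 K.r2 x h01 hab
  have e1 : x ∘ gqC14.io = ![x 0, x 1, x 2, x 4] := vec4_comp x _ _ _ _
  have e2 : x ∘ gqC14.ka = ![x 2, x 3, x 4, x 5] := vec4_comp x _ _ _ _
  rw [e1, e2] at h
  exact h

theorem Sys.kC15 (S : Sys V) (K : Facts) (x : Fin 6 → V) (h01 : S.a (x 0) (x 1) = 1)
    (hab : S.a (x 2) (x 3) = 1) : DigZ 51 (2 ^ 58) (2 ^ 57) (S.gsum4 T0 gqC15 x + 2 ^ 45)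
      (Nat.mul (pf1_1 (S.c5 (x ∘ ![0, 1, 2, 4, 5]))) (qf5_2 (S.c5 (x ∘ ![2, 3, 1, 4, 5])))) := by
  rw [S.pf1_1_eq, S.qf5_2_eq]
  have h := S.grpT4 K K.hC15 K.r1 K.r5 x h01 hab
  have e1 : x ∘ gqC15.io = ![x 0, x 1, x 2, x 5] := vec4_comp x _ _ _ _
  have e2 : x ∘ gqC15.ka = ![x 2, x 3, x 4, x 5] := vec4_comp x _ _ _ _
  rw [e1, e2] at h
  exact h

theorem Sys.kC16 (S : Sys V) (K : Facts) (x : Fin 6 → V) (h01 : S.a (x 0) (x 1) = 1)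
    (hab : S.a (x 2) (x 3) = 1) : DigZ 51 (2 ^ 58) (2 ^ 57) (S.gsum4 T0 gqC16 x + 2 ^ 45)
      (Nat.mul (pf1_0 (S.c5 (x ∘ ![0, 1, 3, 4, 5]))) (qf6_2 (S.c5 (x ∘ ![2, 3, 1, 4, 5])))) := by
  rw [S.pf1_0_eq, S.qf6_2_eq]
  have h := S.grpT4 K K.hC16 K.r1 K.r6 x h01 hab
  have e1 : x ∘ gqC16.io = ![x 0, x 1, x 3, x 4] := vec4_comp x _ _ _ _
  have e2 : x ∘ gqC16.ka = ![x 2, x 3, x 4, x 5] := vec4_comp x _ _ _ _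
  rw [e1, e2] at h
  exact h

theorem Sys.kC17 (S : Sys V) (K : Facts) (x : Fin 6 → V) (h01 : S.a (x 0) (x 1) = 1)
    (hab : S.a (x 2) (x 3) = 1) : DigZ 51 (2 ^ 58) (2 ^ 57) (S.gsum4 T0 gqC17 x + 2 ^ 45)
      (Nat.mul (pf1_1 (S.c5 (x ∘ ![0, 1, 3, 4, 5]))) (qf7_2 (S.c5 (x ∘ ![2, 3, 1, 4, 5])))) := by
  rw [S.pf1_1_eq, S.qf7_2_eq]
  have h := S.grpT4 K K.hC17 K.r1 K.r7 x h01 hab
  have e1 : x ∘ gqC17.io = ![x 0, x 1, x 3, x 5] := vec4_comp x _ _ _ _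
  have e2 : x ∘ gqC17.ka = ![x 2, x 3, x 4, x 5] := vec4_comp x _ _ _ _
  rw [e1, e2] at h
  exact h

theorem Sys.kC18 (S : Sys V) (K : Facts) (x : Fin 6 → V) (h01 : S.a (x 0) (x 1) = 1)
    (hab : S.a (x 2) (x 3) = 1) : DigZ 51 (2 ^ 58) (2 ^ 57) (S.gsum4 T0 gqC18 x + 2 ^ 45)
      (Nat.mul (pf1_2 (S.c5 (x ∘ ![0, 1, 3, 4, 5]))) (qf1_2 (S.c5 (x ∘ ![2, 3, 1, 4, 5])))) := by
  rw [S.pf1_2_eq, S.qf1_2_eq]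
  have h := S.grpT4 K K.hC18 K.r1 K.r1 x h01 hab
  have e1 : x ∘ gqC18.io = ![x 0, x 1, x 4, x 5] := vec4_comp x _ _ _ _
  have e2 : x ∘ gqC18.ka = ![x 2, x 3, x 4, x 5] := vec4_comp x _ _ _ _
  rw [e1, e2] at h
  exact h

theorem Sys.KS_C (S : Sys V) (x : Fin 6 → V) : S.KS tau plCA plCC x + 33 * 2 ^ 45 =
    (S.gsum T0 gpC0 x + 2 ^ 45) + ((S.gsum T0 gpC1 x + 2 ^ 45) + ((S.gsum T0 gpC2 x + 2 ^ 45) + ((S.gsum T0 gpC3 x + 2 ^ 45) + ((S.gsum T0 gpC4 x + 2 ^ 45) + ((S.gsum T0 gpC5 x + 2 ^ 45) + ((S.gsum T0 gpC6 x + 2 ^ 45) + ((S.gsum T0 gpC7 x + 2 ^ 45) + ((S.gsum T0 gpC8 x + 2 ^ 45) + ((S.gsum T0 gpC9 x + 2 ^ 45) + ((S.gsum T0 gpC10 x + 2 ^ 45) + ((S.gsum T0 gpC11 x + 2 ^ 45) + ((S.gsum T0 gpC12 x + 2 ^ 45) + ((S.gsum T0 gpC13 x + 2 ^ 45) + ((S.gsum4 T0 gqC0 x + 2 ^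 45) + ((S.gsum4 T0 gqC1 x + 2 ^ 45) + ((S.gsum4 T0 gqC2 x + 2 ^ 45) + ((S.gsum4 T0 gqC3 x + 2 ^ 45) + ((S.gsum4 T0 gqC4 x + 2 ^ 45) + ((S.gsum4 T0 gqC5 x + 2 ^ 45) + ((S.gsum4 T0 gqC6 x + 2 ^ 45) + ((S.gsum4 T0 gqC7 x + 2 ^ 45) + ((S.gsum4 T0 gqC8 x + 2 ^ 45) + ((S.gsum4 T0 gqC9 x + 2 ^ 45) + ((S.gsum4 T0 gqC10 x + 2 ^ 45) + ((S.gsum4 T0 gqC11 x + 2 ^ 45) + ((S.gsum4 T0 gqC12 x + 2 ^ 45) + ((S.gsum4 T0 gqC13 x + 2 ^ 45) + ((S.gsum4 T0 gqC14 x + 2 ^ 45) + ((S.gsum4 T0 gqC15 x + 2 ^ 45) + ((S.gsum4 T0 gqC16 x + 2 ^ 45) + ((S.gsum4 T0 gqC17 x + 2 ^ 45) + ((S.gsum4 T0 gqC18 x + 2 ^ 45) + (0))))))))))))))))))))))))))))))))) := by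
  unfold Sys.KS
  simp only [plCA, plCC, pgCC, List.flatten_cons, List.flatten_nil, List.append_nil,
    List.map_append, List.sum_append]
  rw [sum_get24 S gpC0 gC0 rfl (fun _ => rfl) x,
    sum_get24 S gpC1 gC1 rfl (fun _ => rfl) x,
    sum_get24 S gpC2 gC2 rfl (fun _ => rfl) x,
    sum_get24 S gpC3 gC3 rfl (fun _ => rfl) x,
    sum_get24 S gpC4 gC4 rfl (fun _ => rfl) x,
    sum_get24 S gpC5 gC5 rfl (fun _ => rfl) x,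
    sum_get24 S gpC6 gC6 rfl (fun _ => rfl) x,
    sum_get24 S gpC7 gC7 rfl (fun _ => rfl) x,
    sum_get24 S gpC8 gC8 rfl (fun _ => rfl) x,
    sum_get24 S gpC9 gC9 rfl (fun _ => rfl) x,
    sum_get24 S gpC10 gC10 rfl (fun _ => rfl) x,
    sum_get24 S gpC11 gC11 rfl (fun _ => rfl) x,
    sum_get24 S gpC12 gC12 rfl (fun _ => rfl) x,
    sum_get24 S gpC13 gC13 rfl (fun _ => rfl) x,
    sum_get2 S gqC0 hC0 rfl (fun _ => rfl) x,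
    sum_get2 S gqC1 hC1 rfl (fun _ => rfl) x,
    sum_get2 S gqC2 hC2 rfl (fun _ => rfl) x,
    sum_get2 S gqC3 hC3 rfl (fun _ => rfl) x,
    sum_get2 S gqC4 hC4 rfl (fun _ => rfl) x,
    sum_get2 S gqC5 hC5 rfl (fun _ => rfl) x,
    sum_get2 S gqC6 hC6 rfl (fun _ => rfl) x,
    sum_get2 S gqC7 hC7 rfl (fun _ => rfl) x,
    sum_get2 S gqC8 hC8 rfl (fun _ => rfl) x,
    sum_get2 S gqC9 hC9 rfl (fun _ => rfl) x,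
    sum_get2 S gqC10 hC10 rfl (fun _ => rfl) x,
    sum_get2 S gqC11 hC11 rfl (fun _ => rfl) x,
    sum_get2 S gqC12 hC12 rfl (fun _ => rfl) x,
    sum_get2 S gqC13 hC13 rfl (fun _ => rfl) x,
    sum_get2 S gqC14 hC14 rfl (fun _ => rfl) x,
    sum_get2 S gqC15 hC15 rfl (fun _ => rfl) x,
    sum_get2 S gqC16 hC16 rfl (fun _ => rfl) x,
    sum_get2 S gqC17 hC17 rfl (fun _ => rfl) x,
    sum_get2 S gqC18 hC18 rfl (fun _ => rfl) x]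
  ring

theorem Sys.body_C (S : Sys V) (K : Facts) (x : Fin 6 → V) (h01 : S.a (x 0) (x 1) = 1)
    (hab : S.a (x 2) (x 3) = 1) : DigZ 51 (33 * 2 ^ 58) (33 * 2 ^ 57)
      (S.KS tau plCA plCC x + 33 * 2 ^ 45)
      (bodyC (S.c5 (x ∘ ![0, 1, 3, 4, 5])) (S.c5 (x ∘ ![0, 1, 2, 4, 5])) (S.c5 (x ∘ ![0, 1, 2, 3, 5])) (S.c5 (x ∘ ![0, 1, 2, 3, 4])) (S.c5 (x ∘ ![2, 3, 1, 4, 5])) (S.c5 (x ∘ ![2, 3, 0, 4, 5])) (S.c5 (x ∘ ![2, 3, 0, 1, 5])) (S.c5 (x ∘ ![2, 3, 0, 1, 4]))) := by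
  rw [S.KS_C]
  have h := (S.dC0 K x h01 hab).add
    ((S.dC1 K x h01 hab).add
    ((S.dC2 K x h01 hab).add
    ((S.dC3 K x h01 hab).add
    ((S.dC4 K x h01 hab).add
    ((S.dC5 K x h01 hab).add
    ((S.dC6 K x h01 hab).add
    ((S.dC7 K x h01 hab).add
    ((S.dC8 K x h01 hab).add
    ((S.dC9 K x h01 hab).add
    ((S.dC10 K x h01 hab).add
    ((S.dC11 K x h01 hab).add
    ((S.dC12 K x h01 hab).add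
    ((S.dC13 K x h01 hab).add
    ((S.kC0 K x h01 hab).add
    ((S.kC1 K x h01 hab).add
    ((S.kC2 K x h01 hab).add
    ((S.kC3 K x h01 hab).add
    ((S.kC4 K x h01 hab).add
    ((S.kC5 K x h01 hab).add
    ((S.kC6 K x h01 hab).add
    ((S.kC7 K x h01 hab).add
    ((S.kC8 K x h01 hab).add
    ((S.kC9 K x h01 hab).add
    ((S.kC10 K x h01 hab).add
    ((S.kC11 K x h01 hab).add
    ((S.kC12 K x h01 hab).add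
    ((S.kC13 K x h01 hab).add
    ((S.kC14 K x h01 hab).add
    ((S.kC15 K x h01 hab).add
    ((S.kC16 K x h01 hab).add
    ((S.kC17 K x h01 hab).add
    ((S.kC18 K x h01 hab).add
    (DigZ.zero 51)))))))))))))))))))))))))))))))))
  have e1 : 2 ^ 58 + (2 ^ 58 + (2 ^ 58 + (2 ^ 58 + (2 ^ 58 + (2 ^ 58 + (2 ^ 58 + (2 ^ 58 + (2 ^ 58 + (2 ^ 58 + (2 ^ 58 + (2 ^ 58 + (2 ^ 58 + (2 ^ 58 + (2 ^ 58 + (2 ^ 58 + (2 ^ 58 + (2 ^ 58 + (2 ^ 58 + (2 ^ 58 + (2 ^ 58 + (2 ^ 58 + (2 ^ 58 + (2 ^ 58 + (2 ^ 58 + (2 ^ 58 + (2 ^ 58 + (2 ^ 58 + (2 ^ 58 + (2 ^ 58 + (2 ^ 58 + (2 ^ 58 + (2 ^ 58 + (0))))))))))))))))))))))))))))))))) = 33 * 2 ^ 58 := by norm_num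
  have e2 : 2 ^ 57 + (2 ^ 57 + (2 ^ 57 + (2 ^ 57 + (2 ^ 57 + (2 ^ 57 + (2 ^ 57 + (2 ^ 57 + (2 ^ 57 + (2 ^ 57 + (2 ^ 57 + (2 ^ 57 + (2 ^ 57 + (2 ^ 57 + (2 ^ 57 + (2 ^ 57 + (2 ^ 57 + (2 ^ 57 + (2 ^ 57 + (2 ^ 57 + (2 ^ 57 + (2 ^ 57 + (2 ^ 57 + (2 ^ 57 + (2 ^ 57 + (2 ^ 57 + (2 ^ 57 + (2 ^ 57 + (2 ^ 57 + (2 ^ 57 + (2 ^ 57 + (2 ^ 57 + (2 ^ 57 + (0))))))))))))))))))))))))))))))))) = 33 * 2 ^ 57 := by norm_num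
  rw [e1, e2] at h
  exact h


end Pool.Agent.Helper96.FC
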