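import Pool.Agent.Helper96.FC.Decomp

/-!
# Flag certificates on six vertices: codes of tuples of five and four vertices
-/

set_option autoImplicit false

namespace Pool.Agent.Helper96.FC

open Finset

variable {V : Type} [Fintype V]

/-- the code of five vertices whose first two are a mark -/
def Sys.c5 (S : Sys V) (g : Fin 5 → V) : ℕ :=
  S.vw (g 0) (g 1) (g 2) + 8 * S.vw (g 0) (g 1) (g 3) + 64 * S.vw (g 0) (g 1) (g 4) +
    512 * S.a (g 2) (g 3) + 1024 * S.a (g 2) (g 4) + 2048 * S.a (g 3) (g 4)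

/-- the code of four vertices whose first two are a mark -/
def Sys.c4 (S : Sys V) (g : Fin 4 → V) : ℕ :=
  S.vw (g 0) (g 1) (g 2) + 8 * S.vw (g 0) (g 1) (g 3) + 64 * S.a (g 2) (g 3)

/-- the flipping of views as a table -/
def flN (fl v : ℕ) : ℕ := 2899505759880 / 8 ^ (v + 8 * fl) % 8

/-- one flag as seen from a code: mark number, orientation, positions -/
structure Rec where
  m : ℕ
  fl : ℕ
  k1 : ℕ
  k2 : ℕ
  k3 : ℕ
  b1 : ℕ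
  b2 : ℕ
  b3 : ℕ
deriving DecidableEq

def Rec.key (r : Rec) (c : ℕ) : ℕ :=
  keyf r.m (flN r.fl (c / r.k1 % 8)) (flN r.fl (c / r.k2 % 8)) (flN r.fl (c / r.k3 % 8))
    (c / r.b1 % 2) (c / r.b2 % 2) (c / r.b3 % 2)

def posOk (i : Fin 5) (k : ℕ) : Prop := (i = 2 ∧ k = 1) ∨ (i = 3 ∧ k = 8) ∨ (i = 4 ∧ k = 64)

def prOk (i j : Fin 5) (b : ℕ) : Prop :=
  (((i = 2 ∧ j = 3) ∨ (i = 3 ∧ j = 2)) ∧ b = 512) ∨
  (((i = 2 ∧ j = 4) ∨ (i = 4 ∧ j = 2)) ∧ b = 1024) ∨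
  (((i = 3 ∧ j = 4) ∨ (i = 4 ∧ j = 3)) ∧ b = 2048)

instance (i : Fin 5) (k : ℕ) : Decidable (posOk i k) := by unfold posOk; infer_instance

instance (i j : Fin 5) (k : ℕ) : Decidable (prOk i j k) := by unfold prOk; infer_instance

theorem flN0 : ∀ v < 6, flN 0 v = v := by decide

theorem flN1 : ∀ v < 6, flN 1 v = flip v := by decide

theorem Sys.c5_pos (S : Sys V) (g : Fin 5 → V) {i : Fin 5} {k : ℕ} (h : posOk i k) :
    S.c5 g / k % 8 = S.vw (g 0) (g 1) (g i) := by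
  have h2 := S.vw_lt (g 0) (g 1) (g 2)
  have h3 := S.vw_lt (g 0) (g 1) (g 3)
  have h4 := S.vw_lt (g 0) (g 1) (g 4)
  unfold Sys.c5
  rcases h with ⟨rfl, rfl⟩ | ⟨rfl, rfl⟩ | ⟨rfl, rfl⟩ <;> omega

theorem Sys.c5_pr (S : Sys V) (g : Fin 5 → V) {i j : Fin 5} {k : ℕ} (h : prOk i j k) :
    S.c5 g / k % 2 = S.a (g i) (g j) := by
  have h2 := S.vw_lt (g 0) (g 1) (g 2)
  have h3 := S.vw_lt (g 0) (g 1) (g 3)
  have h4 := S.vw_lt (g 0) (g 1) (g 4)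
  have h5 := S.a_le (g 2) (g 3)
  have h6 := S.a_le (g 2) (g 4)
  have h7 := S.a_le (g 3) (g 4)
  unfold Sys.c5
  rcases h with ⟨⟨rfl, rfl⟩ | ⟨rfl, rfl⟩, rfl⟩ | ⟨⟨rfl, rfl⟩ | ⟨rfl, rfl⟩, rfl⟩ |
    ⟨⟨rfl, rfl⟩ | ⟨rfl, rfl⟩, rfl⟩
  · omega
  · rw [S.a_symm (g 3) (g 2)]; omega
  · omega
  · rw [S.a_symm (g 4) (g 2)]; omega
  · omega
  · rw [S.a_symm (g 4) (g 3)]; omega

/-- the record describes the flag `g ∘ π` with the mark number `m` -/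
def RecOk (π : Fin 5 → Fin 5) (m : Fin 10) (r : Rec) : Prop :=
  r.m = (m : ℕ) ∧
  ((r.fl = 0 ∧ π (e1 m) = 0 ∧ π (e2 m) = 1) ∨ (r.fl = 1 ∧ π (e1 m) = 1 ∧ π (e2 m) = 0)) ∧
  posOk (π (o1 m)) r.k1 ∧ posOk (π (o2 m)) r.k2 ∧ posOk (π (o3 m)) r.k3 ∧
  prOk (π (o1 m)) (π (o2 m)) r.b1 ∧ prOk (π (o1 m)) (π (o3 m)) r.b2 ∧
  prOk (π (o2 m)) (π (o3 m)) r.b3

instance (π : Fin 5 → Fin 5) (m : Fin 10) (r : Rec) : Decidable (RecOk π m r) := by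
  unfold RecOk; infer_instance

theorem Sys.key_rec (S : Sys V) (g : Fin 5 → V) {π : Fin 5 → Fin 5} {m : Fin 10} {r : Rec}
    (h : RecOk π m r) : S.key m (g ∘ π) = r.key (S.c5 g) := by
  obtain ⟨hm, hf, p1, p2, p3, q1, q2, q3⟩ := h
  unfold Sys.key Rec.key
  simp only [Function.comp]
  rw [S.c5_pos g p1, S.c5_pos g p2, S.c5_pos g p3, S.c5_pr g q1, S.c5_pr g q2, S.c5_pr g q3, hm]
  rcases hf with ⟨h0, h1, h2⟩ | ⟨h0, h1, h2⟩
  · rw [h0, h1, h2, flN0 _ (S.vw_lt _ _ _), flN0 _ (S.vw_lt _ _ _), flN0 _ (S.vw_lt _ _ _)]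
  · rw [h0, h1, h2, flN1 _ (S.vw_lt _ _ _), flN1 _ (S.vw_lt _ _ _), flN1 _ (S.vw_lt _ _ _),
      ← S.vw_flip, ← S.vw_flip, ← S.vw_flip]

/-- adjacency to the first and to the second end as a function of the view -/
def aw0 (v : ℕ) : ℕ := 38 / 2 ^ v % 2

def aw1 (v : ℕ) : ℕ := 56 / 2 ^ v % 2

theorem Sys.aw0_vw (S : Sys V) (u w k : V) : aw0 (S.vw u w k) = S.a u k := by
  unfold Sys.vw Sys.a
  rcases h1 : S.adj u k <;> rcases h2 : S.adj w k <;> simp [aw0] <;> split_ifs <;> simp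

theorem Sys.aw1_vw (S : Sys V) (u w k : V) : aw1 (S.vw u w k) = S.a w k := by
  unfold Sys.vw Sys.a
  rcases h1 : S.adj u k <;> rcases h2 : S.adj w k <;> simp [aw1] <;> split_ifs <;> simp

/-- the adjacency bits of the ten pairs -/
def adw (c : ℕ) : ℕ :=
  1 + 2 * aw0 (c % 8) + 4 * aw0 (c / 8 % 8) + 8 * aw0 (c / 64 % 8) + 16 * aw1 (c % 8) +
    32 * aw1 (c / 8 % 8) + 64 * aw1 (c / 64 % 8) + 128 * (c / 512)

/-- the number of a pair of positions -/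
def pid (i j : Fin 5) : ℕ :=
  match (min i j).val, (max i j).val with
  | 0, 1 => 0
  | 0, 2 => 1
  | 0, 3 => 2
  | 0, 4 => 3
  | 1, 2 => 4
  | 1, 3 => 5
  | 1, 4 => 6
  | 2, 3 => 7
  | 2, 4 => 8
  | _, _ => 9

theorem Sys.adw_bit' (S : Sys V) (g : Fin 5 → V) (h01 : S.a (g 0) (g 1) = 1) (i j : Fin 5)
    (hij : i < j) : adw (S.c5 g) / 2 ^ pid i j % 2 = S.a (g i) (g j) := by
  have p2 := S.c5_pos g (show posOk 2 1 from Or.inl ⟨rfl, rfl⟩)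
  have p3 := S.c5_pos g (show posOk 3 8 from Or.inr (Or.inl ⟨rfl, rfl⟩))
  have p4 := S.c5_pos g (show posOk 4 64 from Or.inr (Or.inr ⟨rfl, rfl⟩))
  have q1 := S.c5_pr g (show prOk 2 3 512 by decide)
  have q2 := S.c5_pr g (show prOk 2 4 1024 by decide)
  have q3 := S.c5_pr g (show prOk 3 4 2048 by decide)
  rw [Nat.div_one] at p2
  have e : adw (S.c5 g) = 1 + 2 * S.a (g 0) (g 2) + 4 * S.a (g 0) (g 3) + 8 * S.a (g 0) (g 4) +
      16 * S.a (g 1) (g 2) + 32 * S.a (g 1) (g 3) + 64 * S.a (g 1) (g 4) +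
      128 * (S.c5 g / 512) := by
    unfold adw
    rw [p2, p3, p4, S.aw0_vw, S.aw0_vw, S.aw0_vw, S.aw1_vw, S.aw1_vw, S.aw1_vw]
  have u1 := S.a_le (g 0) (g 2)
  have u2 := S.a_le (g 0) (g 3)
  have u3 := S.a_le (g 0) (g 4)
  have u4 := S.a_le (g 1) (g 2)
  have u5 := S.a_le (g 1) (g 3)
  have u6 := S.a_le (g 1) (g 4)
  rw [e]
  clear e
  generalize S.c5 g = c at *
  fin_cases i <;> fin_cases j <;> first
    | exact absurd hij (by decide)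
    | (simp [pid]; omega)

theorem pid_comm : ∀ i j : Fin 5, pid i j = pid j i := by decide

theorem Sys.adw_bit (S : Sys V) (g : Fin 5 → V) (h01 : S.a (g 0) (g 1) = 1) (i j : Fin 5)
    (hij : i ≠ j) : adw (S.c5 g) / 2 ^ pid i j % 2 = S.a (g i) (g j) := by
  rcases lt_or_gt_of_ne hij with h | h
  · exact S.adw_bit' g h01 i j h
  · rw [pid_comm, S.a_symm]
    exact S.adw_bit' g h01 j i h

end Pool.Agent.Helper96.FC
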