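import Mathlib

/-!
# Flag certificates on six vertices: graphs, marks, views
-/

set_option autoImplicit false

namespace Pool.Agent.Helper96.FC

open Finset

/-- A `D`-regular graph with a set of edges and weights on these edges. -/
structure Sys (V : Type) [Fintype V] where
  adj : V → V → Bool
  q : V → V → Bool
  lam : V → V → ℝ
  D : ℕ
  adj_symm : ∀ u v, adj u v = adj v u
  adj_irr : ∀ v, adj v v = false
  q_symm : ∀ u v, q u v = q v u
  q_adj : ∀ u v, q u v = true → adj u v = true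
  reg : ∀ v, (univ.filter (fun w => adj v w = true)).card = D
  lam_symm : ∀ u v, lam u v = lam v u
  lam_nonneg : ∀ u v, 0 ≤ lam u v
  lam_q : ∀ u v, q u v = false → lam u v = 0

variable {V : Type} [Fintype V]

/-- The given edges are pairwise conflicting. -/
def Sys.Clique (S : Sys V) : Prop :=
  ∀ x y z w, S.q x y = true → S.q z w = true →
    (S.adj x z || S.adj x w || S.adj y z || S.adj y w) = true

namespace Sys

/-- adjacency as a number -/
def a (S : Sys V) (u v : V) : ℕ := (S.adj u v).toNat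

/-- the state of `k` relative to the ordered pair `u, w` -/
def vw (S : Sys V) (u w k : V) : ℕ :=
  match S.adj u k, S.adj w k with
  | false, false => 0
  | true, false => if S.q u k then 2 else 1
  | false, true => if S.q w k then 4 else 3
  | true, true => 5

end Sys

/-- the state relative to the reversed pair -/
def flip : ℕ → ℕ
  | 1 => 3
  | 2 => 4
  | 3 => 1
  | 4 => 2
  | n => n

theorem Sys.vw_flip (S : Sys V) (u w k : V) : S.vw w u k = flip (S.vw u w k) := by
  unfold Sys.vw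
  rcases h1 : S.adj u k <;> rcases h2 : S.adj w k <;> simp [flip] <;> split_ifs <;> simp [flip]

theorem Sys.vw_lt (S : Sys V) (u w k : V) : S.vw u w k < 6 := by
  unfold Sys.vw
  rcases h1 : S.adj u k <;> rcases h2 : S.adj w k <;> simp <;> split_ifs <;> simp

theorem Sys.a_symm (S : Sys V) (u v : V) : S.a u v = S.a v u := by
  unfold Sys.a; rw [S.adj_symm]

theorem Sys.a_irr (S : Sys V) (v : V) : S.a v v = 0 := by
  unfold Sys.a; rw [S.adj_irr]; rfl

theorem Sys.a_le (S : Sys V) (u v : V) : S.a u v ≤ 1 := by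
  unfold Sys.a; cases S.adj u v <;> simp

theorem Sys.sum_a (S : Sys V) (u : V) : ∑ v, (S.a u v : ℝ) = S.D := by
  rw [← S.reg u, Finset.card_filter]
  push_cast
  refine Finset.sum_congr rfl fun v _ => ?_
  unfold Sys.a
  cases S.adj u v <;> simp

/-- positions of the two ends of the mark number `m` in a flag with five vertices -/
def e1 : Fin 10 → Fin 5 := ![0, 0, 0, 0, 1, 1, 1, 2, 2, 3]

def e2 : Fin 10 → Fin 5 := ![1, 2, 3, 4, 2, 3, 4, 3, 4, 4]

/-- positions of the three other vertices -/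
def o1 : Fin 10 → Fin 5 := ![2, 1, 1, 1, 0, 0, 0, 0, 0, 0]

def o2 : Fin 10 → Fin 5 := ![3, 3, 2, 2, 3, 2, 2, 1, 1, 1]

def o3 : Fin 10 → Fin 5 := ![4, 4, 4, 3, 4, 4, 3, 4, 3, 2]

/-- the key of a flag -/
def keyf (m v1 v2 v3 p1 p2 p3 : ℕ) : ℕ :=
  2 * (2 * (2 * (6 * (6 * (6 * m + v1) + v2) + v3) + p1) + p2) + p3

/-- the key of a tuple of five vertices with the mark number `m` -/
def Sys.key (S : Sys V) (m : Fin 10) (y : Fin 5 → V) : ℕ :=
  keyf m (S.vw (y (e1 m)) (y (e2 m)) (y (o1 m))) (S.vw (y (e1 m)) (y (e2 m)) (y (o2 m)))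
    (S.vw (y (e1 m)) (y (e2 m)) (y (o3 m))) (S.a (y (o1 m)) (y (o2 m)))
    (S.a (y (o1 m)) (y (o3 m))) (S.a (y (o2 m)) (y (o3 m)))

/-- the code of the graph on the four roots -/
def rcf (p01 p02 p03 p12 p13 p23 : ℕ) : ℕ :=
  2 * (2 * (2 * (2 * (2 * p01 + p02) + p03) + p12) + p13) + p23

def Sys.rc (S : Sys V) (x : Fin 6 → V) : ℕ :=
  rcf (S.a (x 0) (x 1)) (S.a (x 0) (x 2)) (S.a (x 0) (x 3)) (S.a (x 1) (x 2)) (S.a (x 1) (x 3))
    (S.a (x 2) (x 3))

/-- the two flags contained in a tuple of six vertices -/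
def s1 : Fin 5 → Fin 6 := ![0, 1, 2, 3, 4]

def s2 : Fin 5 → Fin 6 := ![0, 1, 2, 3, 5]

/-- the weighted sum over all tuples of six vertices, the marks being `x 0, x 1` and `x a, x b` -/
noncomputable def Sys.T (S : Sys V) (a b : Fin 6) (K : (Fin 6 → V) → ℝ) : ℝ :=
  ∑ x : Fin 6 → V, S.lam (x 0) (x 1) * S.lam (x a) (x b) * K x

theorem Sys.T_add (S : Sys V) (a b : Fin 6) (K L : (Fin 6 → V) → ℝ) :
    S.T a b (fun x => K x + L x) = S.T a b K + S.T a b L := by
  unfold Sys.T
  rw [← Finset.sum_add_distrib]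
  exact Finset.sum_congr rfl fun x _ => by ring

theorem Sys.T_sub (S : Sys V) (a b : Fin 6) (K L : (Fin 6 → V) → ℝ) :
    S.T a b (fun x => K x - L x) = S.T a b K - S.T a b L := by
  unfold Sys.T
  rw [← Finset.sum_sub_distrib]
  exact Finset.sum_congr rfl fun x _ => by ring

theorem Sys.T_mul (S : Sys V) (a b : Fin 6) (c : ℝ) (K : (Fin 6 → V) → ℝ) :
    S.T a b (fun x => c * K x) = c * S.T a b K := by
  unfold Sys.T
  rw [Finset.mul_sum]
  exact Finset.sum_congr rfl fun x _ => by ring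

theorem Sys.T_listsum (S : Sys V) (a b : Fin 6) {α : Type} (l : List α)
    (K : α → (Fin 6 → V) → ℝ) :
    S.T a b (fun x => (l.map (fun p => K p x)).sum) = (l.map (fun p => S.T a b (K p))).sum := by
  induction l with
  | nil => simp [Sys.T]
  | cons p l ih => simp only [List.map_cons, List.sum_cons]; rw [Sys.T_add, ih]

theorem Sys.T_nonneg (S : Sys V) (a b : Fin 6) (K : (Fin 6 → V) → ℝ)
    (h : ∀ x, S.q (x 0) (x 1) = true → S.q (x a) (x b) = true → 0 ≤ K x) : 0 ≤ S.T a b K := by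
  refine Finset.sum_nonneg fun x _ => ?_
  rcases h1 : S.q (x 0) (x 1) with _ | _
  · rw [S.lam_q _ _ h1]; simp
  rcases h2 : S.q (x a) (x b) with _ | _
  · rw [S.lam_q _ _ h2]; simp
  exact mul_nonneg (mul_nonneg (S.lam_nonneg _ _) (S.lam_nonneg _ _)) (h x h1 h2)

/-- substitution of a permutation in a sum over tuples -/
theorem sum_comp_perm (f : Fin 6 → Fin 6) (hf : Function.Bijective f)
    (F : (Fin 6 → V) → ℝ) : ∑ x : Fin 6 → V, F x = ∑ x : Fin 6 → V, F (x ∘ f) := by
  have h := (Equiv.ofBijective f hf).arrowCongr (Equiv.refl V)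
  refine (Fintype.sum_equiv ((Equiv.ofBijective f hf).symm.arrowCongr (Equiv.refl V))
    (fun x => F (x ∘ f)) F fun x => ?_).symm
  congr 1

end Pool.Agent.Helper96.FC
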