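import Pool.Agent.Helper96.FC.PtA

/-!
# Flag certificates on six vertices: the enumeration for type A
-/

set_option autoImplicit false

namespace Pool.Agent.Helper96.FC

theorem enA_0 : enA 0 0 = true := by decide +kernel

theorem enA_1 : enA 0 1 = true := by decide +kernel

theorem enA_2 : enA 0 2 = true := by decide +kernel

end Pool.Agent.Helper96.FC
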