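import Pool.Agent.Helper96.FC.PtC

/-!
# Flag certificates on six vertices: the enumeration for type C
-/

set_option autoImplicit false

namespace Pool.Agent.Helper96.FC

theorem enC_0 : enC 0 = true := by decide +kernel

theorem enC_1 : enC 1 = true := by decide +kernel

theorem enC_2 : enC 2 = true := by decide +kernel

theorem enC_3 : enC 3 = true := by decide +kernel

theorem enC_4 : enC 4 = true := by decide +kernel

end Pool.Agent.Helper96.FC
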