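import Pool.Agent.Helper96.FC.Pack
import Pool.Agent.Helper96.FC.Code

/-!
# Flag certificates on six vertices: encoded vectors
-/

set_option autoImplicit false

namespace Pool.Agent.Helper96.FC

open Finset

/-- the weighted digits -/
def mulD : List (ℕ × ℕ) → List ℕ → List ℕ
  | (_, d) :: l, p :: v => d * p :: mulD l v
  | _, _ => []

/-- sum of offset times weight times digit -/
def scd : List (ℕ × ℕ) → List ℕ → ℕ
  | (c, d) :: l, p :: v => c * d * p + scd l v
  | _, _ => 0

def sdd : List (ℕ × ℕ) → ℕ
  | (c, d) :: l => d * c * c + sdd l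
  | [] => 0

/-- the weighted inner product of two vectors given by digits with offsets -/
def cdot : List (ℕ × ℕ) → List ℕ → List ℕ → ℤ
  | (c, d) :: l, p :: v, q :: w => (d : ℤ) * (((p : ℤ) - c) * ((q : ℤ) - c)) + cdot l v w
  | _, _, _ => 0

theorem mulD_length (l : List (ℕ × ℕ)) (v : List ℕ) (h : v.length = l.length) :
    (mulD l v).length = l.length := by
  induction l generalizing v with
  | nil => simp [mulD]
  | cons c l ih =>
    cases v with
    | nil => simp at h
    | cons p v => simp only [mulD, List.length_cons]; rw [ih v (by simpa using h)]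

theorem dotN_mulD (l : List (ℕ × ℕ)) (v w : List ℕ) (hv : v.length = l.length)
    (hw : w.length = l.length) :
    (dotN v (mulD l w) : ℤ) + sdd l = cdot l v w + scd l v + scd l w := by
  induction l generalizing v w with
  | nil =>
    cases v with
    | nil => simp [mulD, dotN, sdd, cdot, scd]
    | cons p v => simp at hv
  | cons c l ih =>
    obtain ⟨c, d⟩ := c
    cases v with
    | nil => simp at hv
    | cons p v =>
      cases w with
      | nil => simp at hw
      | cons q w =>
        have h := ih v w (by simpa using hv) (by simpa using hw)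
        simp only [mulD, dotN, sdd, cdot, scd]
        push_cast
        linear_combination h

theorem cdot_sum (l : List (ℕ × ℕ)) (v w : List ℕ) (hv : v.length = l.length)
    (hw : w.length = l.length) : cdot l v w = ∑ k ∈ range l.length,
      ((l.getD k (0, 0)).2 : ℤ) * (((v.getD k 0 : ℤ) - (l.getD k (0, 0)).1) *
        ((w.getD k 0 : ℤ) - (l.getD k (0, 0)).1)) := by
  induction l generalizing v w with
  | nil => simp [cdot]
  | cons c l ih =>
    obtain ⟨c, d⟩ := c
    cases v with
    | nil => simp at hv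
    | cons p v =>
      cases w with
      | nil => simp at hw
      | cons q w =>
        rw [List.length_cons, Finset.sum_range_succ', cdot,
          ih v w (by simpa using hv) (by simpa using hw), add_comm]
        simp

/-- the tables of a certificate -/
structure TD where
  K1 : ℕ
  N : ℕ
  clsC : ℕ → ℕ
  clsG : ℕ → ℕ
  cd : ℕ → List (ℕ × ℕ)
  vec : ℕ → ℕ → List ℕ
  ki : ℕ → ℕ
  ki4 : ℕ → ℕ
  ord : ℕ → List ℕ
  el : ℕ → ℕ → List ℕ
  E : ℕ → ℕ
  lookP : ℕ → ℕ
  lookQ : ℕ → ℕ

namespace TD

variable (T : TD)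

def lp (cl : ℕ) (is : List ℕ) : List ℕ := is.flatMap (T.vec cl)

def lq (cl : ℕ) (is : List ℕ) : List ℕ := is.flatMap (fun i => mulD (T.cd cl) (T.vec cl i))

def sp (cl : ℕ) (is : List ℕ) : ℕ := (is.map (fun i => scd (T.cd cl) (T.vec cl i))).sum

def sc (cl : ℕ) (is : List ℕ) : ℕ := is.length * sdd (T.cd cl)

def digP (cl : ℕ) (is : List ℕ) : List ℕ := 1 :: (T.lp cl is ++ [T.K1 - T.sp cl is])

def digQ (cl : ℕ) (is : List ℕ) : List ℕ :=
  (T.K1 + T.sc cl is - T.sp cl is) :: (T.lq cl is ++ [1])

def encP (cl : ℕ) (is : List ℕ) : ℕ := packP (T.digP cl is)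

def encQ (cl : ℕ) (is : List ℕ) : ℕ := packQ T.N (T.digQ cl is)

def X (cl i j : ℕ) : ℤ := cdot (T.cd cl) (T.vec cl i) (T.vec cl j)

/-- lengths of all vectors -/
def LenOk : Prop := ∀ cl i, (T.vec cl i).length = (T.cd cl).length

/-- conditions for one entry -/
def EntOk (a b : ℕ) (cl : ℕ) (is : List ℕ) : Prop :=
  T.sp cl is ≤ T.K1 ∧ T.sc cl is ≤ T.K1 ∧ (∀ p ∈ T.lp cl is, p ≤ a) ∧ (∀ q ∈ T.lq cl is, q ≤ b) ∧
    is.length * (T.cd cl).length + 2 ≤ T.N + 1

variable {T}

theorem lp_length (h : T.LenOk) (cl : ℕ) (is : List ℕ) :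
    (T.lp cl is).length = is.length * (T.cd cl).length := by
  unfold TD.lp
  induction is with
  | nil => simp
  | cons i is ih => rw [List.flatMap_cons, List.length_append, ih, h, List.length_cons]; ring

theorem lq_length (h : T.LenOk) (cl : ℕ) (is : List ℕ) :
    (T.lq cl is).length = is.length * (T.cd cl).length := by
  unfold TD.lq
  induction is with
  | nil => simp
  | cons i is ih =>
    rw [List.flatMap_cons, List.length_append, ih, mulD_length _ _ (h cl i), List.length_cons]
    ring

theorem dotN_append (l l' m m' : List ℕ) (h : l.length = m.length) :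
    dotN (l ++ l') (m ++ m') = dotN l m + dotN l' m' := by
  induction l generalizing m with
  | nil =>
    cases m with
    | nil => simp [dotN]
    | cons q m => simp at h
  | cons p l ih =>
    cases m with
    | nil => simp at h
    | cons q m =>
      simp only [List.cons_append, dotN]
      rw [ih m (by simpa using h)]
      ring

theorem dot_lp_lq (h : T.LenOk) (cl : ℕ) (is js : List ℕ) (hl : is.length = js.length) :
    (dotN (T.lp cl is) (T.lq cl js) : ℤ) + T.sc cl js
      = ((is.zip js).map (fun p => T.X cl p.1 p.2)).sum + T.sp cl is + T.sp cl js := by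
  unfold TD.lp TD.lq TD.sc TD.sp
  induction is generalizing js with
  | nil =>
    cases js with
    | nil => simp [dotN]
    | cons j js => simp at hl
  | cons i is ih =>
    cases js with
    | nil => simp at hl
    | cons j js =>
      have h1 := ih js (by simpa using hl)
      have h2 := dotN_mulD (T.cd cl) (T.vec cl i) (T.vec cl j) (h cl i) (h cl j)
      rw [List.flatMap_cons, List.flatMap_cons, dotN_append _ _ _ _ (by
        rw [h, mulD_length _ _ (h cl j)])]
      simp only [List.zip_cons_cons, List.map_cons, List.sum_cons, List.length_cons]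
      have h3 : T.X cl i j = cdot (T.cd cl) (T.vec cl i) (T.vec cl j) := rfl
      rw [h3]
      push_cast at h1 ⊢
      linear_combination h1 + h2

/-- a digit of `M` is the integer `z` -/
def _root_.Pool.Agent.Helper96.FC.DigZ (N J U : ℕ) (z : ℤ) (M : ℕ) : Prop :=
  ∃ d : ℕ, (d : ℤ) = z ∧ d ≤ U ∧ Dig N J d M

theorem dotN_le (a b : ℕ) (l m : List ℕ) (ha : ∀ p ∈ l, p ≤ a) (hb : ∀ q ∈ m, q ≤ b) :
    dotN l m ≤ l.length * (a * b) := by
  induction l generalizing m with
  | nil => cases m <;> simp [dotN]
  | cons p l ih =>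
    cases m with
    | nil => simp [dotN]
    | cons q m =>
      rw [dotN, List.length_cons]
      have h1 := ih m (fun p hp => ha p (by simp [hp])) (fun q hq => hb q (by simp [hq]))
      have h2 : p * q ≤ a * b := Nat.mul_le_mul (ha p (by simp)) (hb q (by simp))
      linarith

theorem enc_mul (h : T.LenOk) {a b : ℕ} (ha : 1 ≤ a) (hb : 1 ≤ b) (cl : ℕ) (is js : List ℕ)
    (hl : is.length = js.length) (hi : T.EntOk a b cl is) (hj : T.EntOk a b cl js) :
    DigZ T.N ((T.N + 1) * (2 * a * b)) (3 * T.K1 + (T.N + 1) * (a * b))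
      (((is.zip js).map (fun p => T.X cl p.1 p.2)).sum + 2 * T.K1)
      (T.encP cl is * T.encQ cl js) := by
  obtain ⟨i1, i5, i2, i3, i4⟩ := hi
  obtain ⟨j1, j5, j2, j3, j4⟩ := hj
  have hlp := lp_length h cl is
  have hlq := lq_length h cl js
  have hjl : T.sp cl js ≤ T.K1 + T.sc cl js := j1.trans (Nat.le_add_right _ _)
  obtain ⟨low, high, h1, h2⟩ := pack_mul a b T.N (T.digP cl is) (T.digQ cl js)
    (by unfold digP digQ; simp only [List.length_cons, List.length_append, hlp, hlq, hl,
          List.length_nil])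
    (by unfold digP; simp only [List.length_cons, List.length_append, hlp, List.length_nil]; omega)
    (by
      intro p hp
      unfold digP at hp
      rw [← List.cons_append, List.dropLast_concat] at hp
      rcases List.mem_cons.1 hp with rfl | hp
      · exact ha
      · exact i2 p hp)
    (by
      intro q hq
      unfold digQ at hq
      rw [List.tail_cons] at hq
      rcases List.mem_append.1 hq with hq | hq
      · exact j3 q hq
      · rw [List.mem_singleton] at hq; rw [hq]; exact hb)
  have h3 : dotN (1 :: (T.lp cl is ++ [T.K1 - T.sp cl is]))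
      ((T.K1 + T.sc cl js - T.sp cl js) :: (T.lq cl js ++ [1]))
      = (T.K1 + T.sc cl js - T.sp cl js) +
        (dotN (T.lp cl is) (T.lq cl js) + (T.K1 - T.sp cl is)) := by
    rw [dotN, dotN_append _ _ _ _ (by rw [hlp, hlq, hl])]
    simp [dotN]
  refine ⟨dotN (T.digP cl is) (T.digQ cl js), ?_, ?_, low, high, h1, h2.trans ?_⟩
  · unfold digP digQ
    rw [h3]
    have h4 := dot_lp_lq h cl is js hl
    push_cast
    rw [Nat.cast_sub hjl, Nat.cast_sub i1]
    push_cast
    linear_combination h4
  · unfold digP digQ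
    rw [h3]
    have h5 := dotN_le a b (T.lp cl is) (T.lq cl js) i2 j3
    have h6 : (T.lp cl is).length * (a * b) ≤ (T.N + 1) * (a * b) :=
      Nat.mul_le_mul_right _ (by rw [hlp]; omega)
    omega
  · refine Nat.mul_le_mul_right _ (Nat.mul_le_mul_right _ ?_)
    unfold digP
    simp only [List.length_cons, List.length_append, hlp, List.length_nil]
    omega

end TD

theorem DigZ.add {N J J' U U' : ℕ} {z z' : ℤ} {M M' : ℕ} (h : DigZ N J U z M)
    (h' : DigZ N J' U' z' M') : DigZ N (J + J') (U + U') (z + z') (M + M') := by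
  obtain ⟨d, h1, h3, h2⟩ := h
  obtain ⟨d', h1', h3', h2'⟩ := h'
  exact ⟨d + d', by push_cast; rw [h1, h1'], Nat.add_le_add h3 h3', h2.add h2'⟩

theorem DigZ.zero (N : ℕ) : DigZ N 0 0 0 0 := ⟨0, by simp, le_refl 0, Dig.zero N⟩

theorem DigZ.extract {N J U : ℕ} {z : ℤ} {M : ℕ} (h : DigZ N J U z M) (hJ : J < BB)
    (hU : U < BB) : ((M / BB ^ N % BB : ℕ) : ℤ) = z := by
  obtain ⟨d, h1, h2, h3⟩ := h
  rw [h3.extract hJ (by omega), h1]

end Pool.Agent.Helper96.FC
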