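import Pool.Agent.Helper96.FC.TDef
import Pool.Agent.Helper96.FC.DatR

/-!
# Flag certificates on six vertices: evaluation of configurations
-/

set_option autoImplicit false

namespace Pool.Agent.Helper96.FC

noncomputable section

noncomputable def prj0 (c : ℕ) : ℕ := Nat.add (Nat.mod c 64) (Nat.mul 64 (Nat.mod (Nat.div c 512) 2))

noncomputable def prj1 (c : ℕ) : ℕ :=
  Nat.add (Nat.add (Nat.mod c 8) (Nat.mul 8 (Nat.mod (Nat.div c 64) 8)))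
    (Nat.mul 64 (Nat.mod (Nat.div c 1024) 2))

noncomputable def prj2 (c : ℕ) : ℕ := Nat.add (Nat.mod (Nat.div c 8) 64) (Nat.mul 64 (Nat.mod (Nat.div c 2048) 2))

noncomputable def pe0 (c : ℕ) : ℕ := frc lookPF (ix0 c)

noncomputable def pe5 (c : ℕ) : ℕ := frc lookPF (ix5 c)

noncomputable def pe6 (c : ℕ) : ℕ := frc lookPF (ix6 c)

noncomputable def pe9 (c : ℕ) : ℕ := frc lookPF (ix9 c)

noncomputable def pe11 (c : ℕ) : ℕ := frc lookPF (ix11 c)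

noncomputable def qe1 (c : ℕ) : ℕ := frc lookQF (ix1 c)

noncomputable def qe2 (c : ℕ) : ℕ := frc lookQF (ix2 c)

noncomputable def qe3 (c : ℕ) : ℕ := frc lookQF (ix3 c)

noncomputable def qe4 (c : ℕ) : ℕ := frc lookQF (ix4 c)

noncomputable def qe5 (c : ℕ) : ℕ := frc lookQF (ix5 c)

noncomputable def qe6 (c : ℕ) : ℕ := frc lookQF (ix6 c)

noncomputable def qe7 (c : ℕ) : ℕ := frc lookQF (ix7 c)

noncomputable def qe8 (c : ℕ) : ℕ := frc lookQF (ix8 c)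

noncomputable def qe9 (c : ℕ) : ℕ := frc lookQF (ix9 c)

noncomputable def qe10 (c : ℕ) : ℕ := frc lookQF (ix10 c)

noncomputable def qe11 (c : ℕ) : ℕ := frc lookQF (ix11 c)

noncomputable def qe12 (c : ℕ) : ℕ := frc lookQF (ix12 c)

noncomputable def qe13 (c : ℕ) : ℕ := frc lookQF (ix13 c)

noncomputable def pg0 (c : ℕ) : ℕ := frc lookPF (iy0 c)

noncomputable def pg1 (c : ℕ) : ℕ := frc lookPF (iy1 c)

noncomputable def pg2 (c : ℕ) : ℕ := frc lookPF (iy2 c)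

noncomputable def pg5 (c : ℕ) : ℕ := frc lookPF (iy5 c)

noncomputable def pg6 (c : ℕ) : ℕ := frc lookPF (iy6 c)

noncomputable def pg7 (c : ℕ) : ℕ := frc lookPF (iy7 c)

noncomputable def qg0 (c : ℕ) : ℕ := frc lookQF (iy0 c)

noncomputable def qg1 (c : ℕ) : ℕ := frc lookQF (iy1 c)

noncomputable def qg2 (c : ℕ) : ℕ := frc lookQF (iy2 c)

noncomputable def qg3 (c : ℕ) : ℕ := frc lookQF (iy3 c)

noncomputable def qg4 (c : ℕ) : ℕ := frc lookQF (iy4 c)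

noncomputable def qg5 (c : ℕ) : ℕ := frc lookQF (iy5 c)

noncomputable def qg6 (c : ℕ) : ℕ := frc lookQF (iy6 c)

noncomputable def qg7 (c : ℕ) : ℕ := frc lookQF (iy7 c)

noncomputable def pf0_0 (c : ℕ) : ℕ := frc pg0 (prj0 c)

noncomputable def pf0_1 (c : ℕ) : ℕ := frc pg0 (prj1 c)

noncomputable def pf0_2 (c : ℕ) : ℕ := frc pg0 (prj2 c)

noncomputable def pf1_0 (c : ℕ) : ℕ := frc pg1 (prj0 c)

noncomputable def pf1_1 (c : ℕ) : ℕ := frc pg1 (prj1 c)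

noncomputable def pf1_2 (c : ℕ) : ℕ := frc pg1 (prj2 c)

noncomputable def pf2_0 (c : ℕ) : ℕ := frc pg2 (prj0 c)

noncomputable def pf2_1 (c : ℕ) : ℕ := frc pg2 (prj1 c)

noncomputable def pf2_2 (c : ℕ) : ℕ := frc pg2 (prj2 c)

noncomputable def pf5_0 (c : ℕ) : ℕ := frc pg5 (prj0 c)

noncomputable def pf5_1 (c : ℕ) : ℕ := frc pg5 (prj1 c)

noncomputable def pf5_2 (c : ℕ) : ℕ := frc pg5 (prj2 c)

noncomputable def pf6_0 (c : ℕ) : ℕ := frc pg6 (prj0 c)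

noncomputable def pf6_1 (c : ℕ) : ℕ := frc pg6 (prj1 c)

noncomputable def pf6_2 (c : ℕ) : ℕ := frc pg6 (prj2 c)

noncomputable def pf7_2 (c : ℕ) : ℕ := frc pg7 (prj2 c)

noncomputable def qf0_0 (c : ℕ) : ℕ := frc qg0 (prj0 c)

noncomputable def qf0_1 (c : ℕ) : ℕ := frc qg0 (prj1 c)

noncomputable def qf0_2 (c : ℕ) : ℕ := frc qg0 (prj2 c)

noncomputable def qf1_0 (c : ℕ) : ℕ := frc qg1 (prj0 c)

noncomputable def qf1_1 (c : ℕ) : ℕ := frc qg1 (prj1 c)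

noncomputable def qf1_2 (c : ℕ) : ℕ := frc qg1 (prj2 c)

noncomputable def qf2_0 (c : ℕ) : ℕ := frc qg2 (prj0 c)

noncomputable def qf2_1 (c : ℕ) : ℕ := frc qg2 (prj1 c)

noncomputable def qf2_2 (c : ℕ) : ℕ := frc qg2 (prj2 c)

noncomputable def qf3_0 (c : ℕ) : ℕ := frc qg3 (prj0 c)

noncomputable def qf3_1 (c : ℕ) : ℕ := frc qg3 (prj1 c)

noncomputable def qf4_0 (c : ℕ) : ℕ := frc qg4 (prj0 c)

noncomputable def qf4_1 (c : ℕ) : ℕ := frc qg4 (prj1 c)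

noncomputable def qf5_0 (c : ℕ) : ℕ := frc qg5 (prj0 c)

noncomputable def qf5_1 (c : ℕ) : ℕ := frc qg5 (prj1 c)

noncomputable def qf5_2 (c : ℕ) : ℕ := frc qg5 (prj2 c)

noncomputable def qf6_2 (c : ℕ) : ℕ := frc qg6 (prj2 c)

noncomputable def qf7_2 (c : ℕ) : ℕ := frc qg7 (prj2 c)

noncomputable def fl0 (h : ℕ) : ℕ := Nat.mod (Nat.div h 1) 4096

noncomputable def fl1 (h : ℕ) : ℕ := Nat.mod (Nat.div h 4096) 4096

noncomputable def fl2 (h : ℕ) : ℕ := Nat.mod (Nat.div h 16777216) 4096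

noncomputable def fl3 (h : ℕ) : ℕ := Nat.mod (Nat.div h 68719476736) 4096

noncomputable def fl4 (h : ℕ) : ℕ := Nat.mod (Nat.div h 281474976710656) 4096

noncomputable def fl5 (h : ℕ) : ℕ := Nat.mod (Nat.div h 1152921504606846976) 4096

noncomputable def fl6 (h : ℕ) : ℕ := Nat.mod (Nat.div h 4722366482869645213696) 4096

noncomputable def fl7 (h : ℕ) : ℕ := Nat.mod (Nat.div h 19342813113834066795298816) 4096

noncomputable def bodyC (e0 e1 e2 e3 f0 f1 f2 f3 : ℕ) : ℕ :=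
    Nat.add (Nat.mul (pe0 e0) (qe1 f0))
    (Nat.add (Nat.mul (pe0 e1) (qe2 f0))
    (Nat.add (Nat.mul (pe0 e2) (qe3 f0))
    (Nat.add (Nat.mul (pe0 e3) (qe4 f0))
    (Nat.add (Nat.mul (pe5 e0) (qe1 f1))
    (Nat.add (Nat.mul (pe5 e1) (qe2 f1))
    (Nat.add (Nat.mul (pe5 e2) (qe3 f1))
    (Nat.add (Nat.mul (pe5 e3) (qe4 f1))
    (Nat.add (Nat.mul (pe6 e0) (qe7 f2))
    (Nat.add (Nat.mul (pe6 e1) (qe8 f2))
    (Nat.add (Nat.mul (pe9 e3) (qe10 f2))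
    (Nat.add (Nat.mul (pe9 e0) (qe7 f3))
    (Nat.add (Nat.mul (pe9 e1) (qe8 f3))
    (Nat.add (Nat.mul (pe9 e2) (qe10 f3))
    (Nat.add (Nat.mul (pf0_2 e0) (qf1_0 f2))
    (Nat.add (Nat.mul (pf2_0 e1) (qf3_1 f1))
    (Nat.add (Nat.mul (pf2_1 e1) (qf3_0 f1))
    (Nat.add (Nat.mul (pf2_0 e0) (qf4_1 f1))
    (Nat.add (Nat.mul (pf2_1 e0) (qf4_0 f1))
    (Nat.add (Nat.mul (pf2_2 e0) (qf1_0 f1))
    (Nat.add (Nat.mul (pf5_2 e0) (qf1_1 f1))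
    (Nat.add (Nat.mul (pf6_0 e1) (qf3_1 f0))
    (Nat.add (Nat.mul (pf6_1 e1) (qf3_0 f0))
    (Nat.add (Nat.mul (pf6_0 e0) (qf4_1 f0))
    (Nat.add (Nat.mul (pf6_1 e0) (qf4_0 f0))
    (Nat.add (Nat.mul (pf6_2 e0) (qf1_0 f0))
    (Nat.add (Nat.mul (pf7_2 e0) (qf1_1 f0))
    (Nat.add (Nat.mul (pf1_0 e2) (qf0_2 f0))
    (Nat.add (Nat.mul (pf1_0 e1) (qf2_2 f0))
    (Nat.add (Nat.mul (pf1_1 e1) (qf5_2 f0))
    (Nat.add (Nat.mul (pf1_0 e0) (qf6_2 f0))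
    (Nat.add (Nat.mul (pf1_1 e0) (qf7_2 f0))
    (Nat.add (Nat.mul (pf1_2 e0) (qf1_2 f0))
    (0)))))))))))))))))))))))))))))))))

noncomputable def evC (h : ℕ) : ℕ :=
  frc (fun e0 => frc (fun e1 => frc (fun e2 => frc (fun e3 => frc (fun f0 => frc (fun f1 => frc (fun f2 => frc (fun f3 => bodyC e0 e1 e2 e3 f0 f1 f2 f3) (fl7 h)) (fl6 h)) (fl5 h)) (fl4 h)) (fl3 h)) (fl2 h)) (fl1 h)) (fl0 h)

noncomputable def bodyB (e0 e1 e2 e3 f0 f1 f2 f3 : ℕ) : ℕ :=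
    Nat.add (Nat.mul (pe5 e0) (qe5 f0))
    (Nat.add (Nat.mul (pe5 e1) (qe11 f0))
    (Nat.add (Nat.mul (pe5 e2) (qe6 f0))
    (Nat.add (Nat.mul (pe5 e3) (qe9 f0))
    (Nat.add (Nat.mul (pe11 e0) (qe5 f1))
    (Nat.add (Nat.mul (pe6 e2) (qe12 f1))
    (Nat.add (Nat.mul (pe6 e3) (qe13 f1))
    (Nat.add (Nat.mul (pe6 e0) (qe5 f2))
    (Nat.add (Nat.mul (pe6 e1) (qe12 f2))
    (Nat.add (Nat.mul (pe9 e3) (qe13 f2))
    (Nat.add (Nat.mul (pe9 e0) (qe5 f3))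
    (Nat.add (Nat.mul (pe9 e1) (qe12 f3))
    (Nat.add (Nat.mul (pe9 e2) (qe13 f3))
    (Nat.add (Nat.mul (pf0_0 e0) (qf2_1 f1))
    (Nat.add (Nat.mul (pf0_1 e0) (qf2_0 f1))
    (Nat.add (Nat.mul (pf0_2 e0) (qf2_0 f2))
    (Nat.add (Nat.mul (pf2_0 e2) (qf0_2 f0))
    (Nat.add (Nat.mul (pf2_0 e1) (qf0_1 f0))
    (Nat.add (Nat.mul (pf2_1 e1) (qf0_0 f0))
    (Nat.add (Nat.mul (pf2_0 e0) (qf2_1 f0))
    (Nat.add (Nat.mul (pf2_1 e0) (qf2_0 f0))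
    (Nat.add (Nat.mul (pf5_0 e0) (qf2_2 f0))
    (Nat.add (Nat.mul (pf2_2 e0) (qf5_0 f0))
    (Nat.add (Nat.mul (pf5_1 e0) (qf5_2 f0))
    (Nat.add (Nat.mul (pf5_2 e0) (qf5_1 f0))
    (0)))))))))))))))))))))))))

noncomputable def evB (h : ℕ) : ℕ :=
  frc (fun e0 => frc (fun e1 => frc (fun e2 => frc (fun e3 => frc (fun f0 => frc (fun f1 => frc (fun f2 => frc (fun f3 => bodyB e0 e1 e2 e3 f0 f1 f2 f3) (fl7 h)) (fl6 h)) (fl5 h)) (fl4 h)) (fl3 h)) (fl2 h)) (fl1 h)) (fl0 h)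

noncomputable def bodyA (e0 e1 e2 e3 : ℕ) : ℕ :=
    Nat.add (Nat.mul (pe11 e1) (qe11 e0))
    (Nat.add (Nat.mul (pe11 e2) (qe6 e0))
    (Nat.add (Nat.mul (pe11 e3) (qe9 e0))
    (Nat.add (Nat.mul (pe11 e0) (qe11 e1))
    (Nat.add (Nat.mul (pe6 e2) (qe6 e1))
    (Nat.add (Nat.mul (pe6 e3) (qe9 e1))
    (Nat.add (Nat.mul (pe6 e0) (qe11 e2))
    (Nat.add (Nat.mul (pe6 e1) (qe6 e2))
    (Nat.add (Nat.mul (pe9 e3) (qe9 e2))
    (Nat.add (Nat.mul (pe9 e0) (qe11 e3))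
    (Nat.add (Nat.mul (pe9 e1) (qe6 e3))
    (Nat.add (Nat.mul (pe9 e2) (qe9 e3))
    (Nat.add (Nat.mul (pf0_0 e2) (qf0_2 e0))
    (Nat.add (Nat.mul (pf0_0 e1) (qf0_1 e0))
    (Nat.add (Nat.mul (pf0_1 e1) (qf0_0 e0))
    (Nat.add (Nat.mul (pf0_0 e0) (qf0_1 e1))
    (Nat.add (Nat.mul (pf0_1 e0) (qf0_0 e1))
    (Nat.add (Nat.mul (pf0_2 e0) (qf0_0 e2))
    (0))))))))))))))))))

noncomputable def evA (h : ℕ) : ℕ :=
  frc (fun e0 => frc (fun e1 => frc (fun e2 => frc (fun e3 => bodyA e0 e1 e2 e3) (fl3 h)) (fl2 h)) (fl1 h)) (fl0 h)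

noncomputable def m384 : ℕ := Nat.pred (Nat.pow 2 384)

noncomputable def prC (i : ℕ) : ℕ := ent tRC 384 m384 i

noncomputable def qrC (i : ℕ) : ℕ := Nat.shiftLeft (ent tSC 384 m384 i) 2944

noncomputable def prB (i : ℕ) : ℕ := ent tRB 384 m384 i

noncomputable def qrB (i : ℕ) : ℕ := Nat.shiftLeft (ent tSB 384 m384 i) 2944

noncomputable def prA (i : ℕ) : ℕ := ent tRA 384 m384 i

noncomputable def qrA (i : ℕ) : ℕ := Nat.shiftLeft (ent tSA 384 m384 i) 2944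

noncomputable def m96 : ℕ := 79228162514264337593543950335

noncomputable def m48 : ℕ := 281474976710655

/-- the digit which carries the inner products -/
noncomputable def dgt (t : ℕ) : ℕ := Nat.mod (Nat.div t (BB ^ 51)) BB

/-- the number of the offset of the regularity weights -/
noncomputable def cW : ℕ := 35184372088832

noncomputable def scl : ℕ := 8589934592

noncomputable def kC : ℕ := 1512927999819776

noncomputable def kB : ℕ := 1407374883553280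

noncomputable def kA : ℕ := 1337006139375616

noncomputable def dg (i : ℕ) : ℕ := ent tDG 4 15 i

/-- the value for a configuration of type C -/
noncomputable def valC (b i j k h : ℕ) : ℕ :=
  Nat.add (dgt (Nat.add (evC h) (Nat.add
    (Nat.mul (prC (Nat.add (Nat.mul 36 b) i)) (qrC (Nat.add (Nat.mul 2 j) k)))
    (Nat.mul (prC (Nat.add (Nat.mul 36 b) j)) (qrC (Nat.add (Nat.mul 2 i) k))))))
    (Nat.mul (Nat.mul 8 scl) (Nat.mul (dg i) (dg j)))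

noncomputable def hC (b i j k : ℕ) : ℕ :=
  Nat.add (ent tHC 96 m96 b) (Nat.add (ent tHC4 96 m96 i) (Nat.add (ent tHC5 96 m96 j)
    (Nat.mul hkC k)))

noncomputable def ixB (a u v k : ℕ) : ℕ :=
  Nat.add (Nat.mul 2 (Nat.add (Nat.mul 16 (Nat.add (Nat.mul 16 a) u)) v)) k

noncomputable def jxB (u k l : ℕ) : ℕ := Nat.add (Nat.mul 2 (Nat.add (Nat.mul 2 u) k)) l

/-- the value for a configuration of type B -/
noncomputable def valB (a u3 u4 u5 b34 b35 b45 h : ℕ) : ℕ :=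
  dgt (Nat.add (evB h) (Nat.add (Nat.mul (prB (ixB a u3 u4 b34)) (qrB (jxB u5 b35 b45)))
    (Nat.add (Nat.mul (prB (ixB a u3 u5 b35)) (qrB (jxB u4 b34 b45)))
      (Nat.mul (prB (ixB a u4 u5 b45)) (qrB (jxB u3 b34 b35))))))

noncomputable def hB (a u3 u4 u5 b : ℕ) : ℕ :=
  Nat.add (ent tHB 96 m96 a) (Nat.add (ent tHB3 96 m96 u3) (Nat.add (ent tHB4 96 m96 u4)
    (Nat.add (ent tHB5 96 m96 u5) (ent tHBK 96 m96 b))))

noncomputable def ixA (s t u k l m : ℕ) : ℕ :=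
  Nat.add (Nat.mul 8 (Nat.add (Nat.mul 6 (Nat.add (Nat.mul 6 s) t)) u))
    (Nat.add (Nat.mul 2 (Nat.add (Nat.mul 2 k) l)) m)

noncomputable def jxA (s k l m : ℕ) : ℕ :=
  Nat.add (Nat.mul 8 s) (Nat.add (Nat.mul 2 (Nat.add (Nat.mul 2 k) l)) m)

/-- the value for a configuration of type A -/
noncomputable def valA (s2 s3 s4 s5 b23 b24 b25 b34 b35 b45 h : ℕ) : ℕ :=
  dgt (Nat.add (evA h)
    (Nat.add (Nat.mul (prA (ixA s2 s3 s4 b23 b24 b34)) (qrA (jxA s5 b25 b35 b45)))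
    (Nat.add (Nat.mul (prA (ixA s2 s3 s5 b23 b25 b35)) (qrA (jxA s4 b24 b34 b45)))
    (Nat.add (Nat.mul (prA (ixA s2 s4 s5 b24 b25 b45)) (qrA (jxA s3 b23 b34 b35)))
      (Nat.mul (prA (ixA s3 s4 s5 b34 b35 b45)) (qrA (jxA s2 b23 b24 b25)))))))

noncomputable def hA (s2 s3 s4 s5 b : ℕ) : ℕ :=
  Nat.add (ent tHA2 48 m48 s2) (Nat.add (ent tHA3 48 m48 s3) (Nat.add (ent tHA4 48 m48 s4)
    (Nat.add (ent tHA5 48 m48 s5) (ent tHAK 48 m48 b))))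

end

end Pool.Agent.Helper96.FC
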