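import Pool.Agent.Helper96.FC.Tau

/-!
# Flag certificates on six vertices: the facts about the tables
-/

set_option autoImplicit false

namespace Pool.Agent.Helper96.FC

open Finset

variable {V : Type} [Fintype V]


/-- the facts about the tables which are checked by computation -/
structure Facts : Prop where
  cls : ∀ r < 64, T0.clsG r < 9
  ord : T0.OrdOk
  look : T0.LookOk aMax bMax
  s0 : T0.SeqOk sq0 ix0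
  s1 : T0.SeqOk sq1 ix1
  s2 : T0.SeqOk sq2 ix2
  s3 : T0.SeqOk sq3 ix3
  s4 : T0.SeqOk sq4 ix4
  s5 : T0.SeqOk sq5 ix5
  s6 : T0.SeqOk sq6 ix6
  s7 : T0.SeqOk sq7 ix7
  s8 : T0.SeqOk sq8 ix8
  s9 : T0.SeqOk sq9 ix9
  s10 : T0.SeqOk sq10 ix10
  s11 : T0.SeqOk sq11 ix11
  s12 : T0.SeqOk sq12 ix12
  s13 : T0.SeqOk sq13 ix13
  r0 : T0.SeqOk4 sr0 iy0
  r1 : T0.SeqOk4 sr1 iy1
  r2 : T0.SeqOk4 sr2 iy2
  r3 : T0.SeqOk4 sr3 iy3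
  r4 : T0.SeqOk4 sr4 iy4
  r5 : T0.SeqOk4 sr5 iy5
  r6 : T0.SeqOk4 sr6 iy6
  r7 : T0.SeqOk4 sr7 iy7
  gC0 : gpC0.Ok 2 3
  gC1 : gpC1.Ok 2 3
  gC2 : gpC2.Ok 2 3
  gC3 : gpC3.Ok 2 3
  gC4 : gpC4.Ok 2 3
  gC5 : gpC5.Ok 2 3
  gC6 : gpC6.Ok 2 3
  gC7 : gpC7.Ok 2 3
  gC8 : gpC8.Ok 2 3
  gC9 : gpC9.Ok 2 3
  gC10 : gpC10.Ok 2 3
  gC11 : gpC11.Ok 2 3
  gC12 : gpC12.Ok 2 3
  gC13 : gpC13.Ok 2 3
  hC0 : gqC0.Ok 2 3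
  hC1 : gqC1.Ok 2 3
  hC2 : gqC2.Ok 2 3
  hC3 : gqC3.Ok 2 3
  hC4 : gqC4.Ok 2 3
  hC5 : gqC5.Ok 2 3
  hC6 : gqC6.Ok 2 3
  hC7 : gqC7.Ok 2 3
  hC8 : gqC8.Ok 2 3
  hC9 : gqC9.Ok 2 3
  hC10 : gqC10.Ok 2 3
  hC11 : gqC11.Ok 2 3
  hC12 : gqC12.Ok 2 3
  hC13 : gqC13.Ok 2 3
  hC14 : gqC14.Ok 2 3
  hC15 : gqC15.Ok 2 3
  hC16 : gqC16.Ok 2 3
  hC17 : gqC17.Ok 2 3
  hC18 : gqC18.Ok 2 3
  gB0 : gpB0.Ok 0 2
  gB1 : gpB1.Ok 0 2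
  gB2 : gpB2.Ok 0 2
  gB3 : gpB3.Ok 0 2
  gB4 : gpB4.Ok 0 2
  gB5 : gpB5.Ok 0 2
  gB6 : gpB6.Ok 0 2
  gB7 : gpB7.Ok 0 2
  gB8 : gpB8.Ok 0 2
  gB9 : gpB9.Ok 0 2
  gB10 : gpB10.Ok 0 2
  gB11 : gpB11.Ok 0 2
  gB12 : gpB12.Ok 0 2
  hB0 : gqB0.Ok 0 2
  hB1 : gqB1.Ok 0 2
  hB2 : gqB2.Ok 0 2
  hB3 : gqB3.Ok 0 2
  hB4 : gqB4.Ok 0 2
  hB5 : gqB5.Ok 0 2
  hB6 : gqB6.Ok 0 2
  hB7 : gqB7.Ok 0 2
  hB8 : gqB8.Ok 0 2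
  hB9 : gqB9.Ok 0 2
  hB10 : gqB10.Ok 0 2
  hB11 : gqB11.Ok 0 2
  gA0 : gpA0.Ok 0 1
  gA1 : gpA1.Ok 0 1
  gA2 : gpA2.Ok 0 1
  gA3 : gpA3.Ok 0 1
  gA4 : gpA4.Ok 0 1
  gA5 : gpA5.Ok 0 1
  gA6 : gpA6.Ok 0 1
  gA7 : gpA7.Ok 0 1
  gA8 : gpA8.Ok 0 1
  gA9 : gpA9.Ok 0 1
  gA10 : gpA10.Ok 0 1
  gA11 : gpA11.Ok 0 1
  hA0 : gqA0.Ok 0 1
  hA1 : gqA1.Ok 0 1
  hA2 : gqA2.Ok 0 1
  hA3 : gqA3.Ok 0 1
  hA4 : gqA4.Ok 0 1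
  hA5 : gqA5.Ok 0 1

theorem Sys.grpT (S : Sys V) (K : Facts) {a b : Fin 6} {g : Gp} (hg : g.Ok a b) {ixE ixF : ℕ → ℕ}
    (hE : T0.SeqOk g.sE ixE) (hF : T0.SeqOk g.sF ixF)
    (x : Fin 6 → V) (h01 : S.a (x 0) (x 1) = 1) (hab : S.a (x a) (x b) = 1) :
    DigZ 51 (2 ^ 58) (2 ^ 57) (S.gsum T0 g x + 2 ^ 45)
      (Nat.mul (T0.lookP (ixE (S.c5 (x ∘ g.io)))) (T0.lookQ (ixF (S.c5 (x ∘ g.ka))))) := by
  have h := S.grp T0 (A := aMax) (B := bMax) (by unfold aMax; norm_num) (by unfold bMax; norm_num)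
    len0 K.ord K.look K.cls hg hE hF x h01 hab
  obtain ⟨d, h1, h2, h3⟩ := h
  refine ⟨d, h1.trans ?_, h2.trans ?_, h3.mono ?_⟩
  · have : T0.K1 = 17592186044416 := rfl
    rw [this]; norm_num
  · have : T0.K1 = 17592186044416 := rfl
    have h4 : T0.N = 51 := rfl
    rw [this, h4]; unfold aMax bMax; norm_num
  · have h4 : T0.N = 51 := rfl
    rw [h4]; unfold aMax bMax; norm_num

theorem Sys.grpT4 (S : Sys V) (K : Facts) {a b : Fin 6} {g : Gp4} (hg : g.Ok a b)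
    {ixE ixF : ℕ → ℕ} (hE : T0.SeqOk4 g.sE ixE) (hF : T0.SeqOk4 g.sF ixF)
    (x : Fin 6 → V) (h01 : S.a (x 0) (x 1) = 1) (hab : S.a (x a) (x b) = 1) :
    DigZ 51 (2 ^ 58) (2 ^ 57) (S.gsum4 T0 g x + 2 ^ 45)
      (Nat.mul (T0.lookP (ixE (S.c4 (x ∘ g.io)))) (T0.lookQ (ixF (S.c4 (x ∘ g.ka))))) := by
  have h := S.grp4 T0 (A := aMax) (B := bMax) (by unfold aMax; norm_num) (by unfold bMax; norm_num)
    len0 K.look hg hE hF x h01 hab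
  obtain ⟨d, h1, h2, h3⟩ := h
  refine ⟨d, h1.trans ?_, h2.trans ?_, h3.mono ?_⟩
  · have : T0.K1 = 17592186044416 := rfl
    rw [this]; norm_num
  · have : T0.K1 = 17592186044416 := rfl
    have h4 : T0.N = 51 := rfl
    rw [this, h4]; unfold aMax bMax; norm_num
  · have h4 : T0.N = 51 := rfl
    rw [h4]; unfold aMax bMax; norm_num

theorem sum_get24 (S : Sys V) (g : Gp) (l : List PA) (hl : l.length = 24)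
    (hg : ∀ n : Fin 24, g.pl n = l.get (Fin.cast hl.symm n)) (x : Fin 6 → V) :
    (l.map (fun p => S.GA tau.idA tau.XA p.m p.m' (x ∘ p.f))).sum = S.gsum T0 g x := by
  unfold Sys.gsum
  have h : ∀ F : PA → ℤ, (l.map F).sum = ∑ n : Fin 24, F (g.pl n) := by
    intro F
    have h1 : (l.map F).sum = ∑ i : Fin l.length, F (l.get i) := by
      rw [← List.sum_ofFn]
      congr 1
      apply List.ext_getElem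
      · simp
      · intro i h1 h2
        simp
    rw [h1]
    refine Fintype.sum_equiv (finCongr hl) _ _ fun i => ?_
    rw [hg]
    rfl
  exact h _

theorem sum_get2 (S : Sys V) (g : Gp4) (l : List PC) (hl : l.length = 2)
    (hg : ∀ n : Fin 2, g.pl n = l.get (Fin.cast hl.symm n)) (x : Fin 6 → V) :
    (l.map (fun p => S.GC tau.idC tau.XC p.m p.m' (x ∘ p.f))).sum = S.gsum4 T0 g x := by
  unfold Sys.gsum4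
  have h : ∀ F : PC → ℤ, (l.map F).sum = ∑ n : Fin 2, F (g.pl n) := by
    intro F
    have h1 : (l.map F).sum = ∑ i : Fin l.length, F (l.get i) := by
      rw [← List.sum_ofFn]
      congr 1
      apply List.ext_getElem
      · simp
      · intro i h1 h2
        simp
    rw [h1]
    refine Fintype.sum_equiv (finCongr hl) _ _ fun i => ?_
    rw [hg]
    rfl
  exact h _

theorem pe0_eq (c : ℕ) : pe0 c = T0.lookP (ix0 c) := frc_eq _ _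

theorem pe5_eq (c : ℕ) : pe5 c = T0.lookP (ix5 c) := frc_eq _ _

theorem pe6_eq (c : ℕ) : pe6 c = T0.lookP (ix6 c) := frc_eq _ _

theorem pe9_eq (c : ℕ) : pe9 c = T0.lookP (ix9 c) := frc_eq _ _

theorem pe11_eq (c : ℕ) : pe11 c = T0.lookP (ix11 c) := frc_eq _ _

theorem qe1_eq (c : ℕ) : qe1 c = T0.lookQ (ix1 c) := frc_eq _ _

theorem qe2_eq (c : ℕ) : qe2 c = T0.lookQ (ix2 c) := frc_eq _ _

theorem qe3_eq (c : ℕ) : qe3 c = T0.lookQ (ix3 c) := frc_eq _ _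

theorem qe4_eq (c : ℕ) : qe4 c = T0.lookQ (ix4 c) := frc_eq _ _

theorem qe5_eq (c : ℕ) : qe5 c = T0.lookQ (ix5 c) := frc_eq _ _

theorem qe6_eq (c : ℕ) : qe6 c = T0.lookQ (ix6 c) := frc_eq _ _

theorem qe7_eq (c : ℕ) : qe7 c = T0.lookQ (ix7 c) := frc_eq _ _

theorem qe8_eq (c : ℕ) : qe8 c = T0.lookQ (ix8 c) := frc_eq _ _

theorem qe9_eq (c : ℕ) : qe9 c = T0.lookQ (ix9 c) := frc_eq _ _

theorem qe10_eq (c : ℕ) : qe10 c = T0.lookQ (ix10 c) := frc_eq _ _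

theorem qe11_eq (c : ℕ) : qe11 c = T0.lookQ (ix11 c) := frc_eq _ _

theorem qe12_eq (c : ℕ) : qe12 c = T0.lookQ (ix12 c) := frc_eq _ _

theorem qe13_eq (c : ℕ) : qe13 c = T0.lookQ (ix13 c) := frc_eq _ _

theorem pg0_eq (c : ℕ) : pg0 c = T0.lookP (iy0 c) := frc_eq _ _

theorem pg1_eq (c : ℕ) : pg1 c = T0.lookP (iy1 c) := frc_eq _ _

theorem pg2_eq (c : ℕ) : pg2 c = T0.lookP (iy2 c) := frc_eq _ _

theorem pg5_eq (c : ℕ) : pg5 c = T0.lookP (iy5 c) := frc_eq _ _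

theorem pg6_eq (c : ℕ) : pg6 c = T0.lookP (iy6 c) := frc_eq _ _

theorem pg7_eq (c : ℕ) : pg7 c = T0.lookP (iy7 c) := frc_eq _ _

theorem qg0_eq (c : ℕ) : qg0 c = T0.lookQ (iy0 c) := frc_eq _ _

theorem qg1_eq (c : ℕ) : qg1 c = T0.lookQ (iy1 c) := frc_eq _ _

theorem qg2_eq (c : ℕ) : qg2 c = T0.lookQ (iy2 c) := frc_eq _ _

theorem qg3_eq (c : ℕ) : qg3 c = T0.lookQ (iy3 c) := frc_eq _ _

theorem qg4_eq (c : ℕ) : qg4 c = T0.lookQ (iy4 c) := frc_eq _ _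

theorem qg5_eq (c : ℕ) : qg5 c = T0.lookQ (iy5 c) := frc_eq _ _

theorem qg6_eq (c : ℕ) : qg6 c = T0.lookQ (iy6 c) := frc_eq _ _

theorem qg7_eq (c : ℕ) : qg7 c = T0.lookQ (iy7 c) := frc_eq _ _

theorem Sys.pf0_0_eq (S : Sys V) (g : Fin 5 → V) :
    pf0_0 (S.c5 g) = T0.lookP (iy0 (S.c4 ![g 0, g 1, g 2, g 3])) := by
  unfold pf0_0
  rw [frc_eq, S.prj0_c5, pg0_eq]

theorem Sys.pf0_1_eq (S : Sys V) (g : Fin 5 → V) :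
    pf0_1 (S.c5 g) = T0.lookP (iy0 (S.c4 ![g 0, g 1, g 2, g 4])) := by
  unfold pf0_1
  rw [frc_eq, S.prj1_c5, pg0_eq]

theorem Sys.pf0_2_eq (S : Sys V) (g : Fin 5 → V) :
    pf0_2 (S.c5 g) = T0.lookP (iy0 (S.c4 ![g 0, g 1, g 3, g 4])) := by
  unfold pf0_2
  rw [frc_eq, S.prj2_c5, pg0_eq]

theorem Sys.pf1_0_eq (S : Sys V) (g : Fin 5 → V) :
    pf1_0 (S.c5 g) = T0.lookP (iy1 (S.c4 ![g 0, g 1, g 2, g 3])) := by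
  unfold pf1_0
  rw [frc_eq, S.prj0_c5, pg1_eq]

theorem Sys.pf1_1_eq (S : Sys V) (g : Fin 5 → V) :
    pf1_1 (S.c5 g) = T0.lookP (iy1 (S.c4 ![g 0, g 1, g 2, g 4])) := by
  unfold pf1_1
  rw [frc_eq, S.prj1_c5, pg1_eq]

theorem Sys.pf1_2_eq (S : Sys V) (g : Fin 5 → V) :
    pf1_2 (S.c5 g) = T0.lookP (iy1 (S.c4 ![g 0, g 1, g 3, g 4])) := by
  unfold pf1_2
  rw [frc_eq, S.prj2_c5, pg1_eq]

theorem Sys.pf2_0_eq (S : Sys V) (g : Fin 5 → V) :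
    pf2_0 (S.c5 g) = T0.lookP (iy2 (S.c4 ![g 0, g 1, g 2, g 3])) := by
  unfold pf2_0
  rw [frc_eq, S.prj0_c5, pg2_eq]

theorem Sys.pf2_1_eq (S : Sys V) (g : Fin 5 → V) :
    pf2_1 (S.c5 g) = T0.lookP (iy2 (S.c4 ![g 0, g 1, g 2, g 4])) := by
  unfold pf2_1
  rw [frc_eq, S.prj1_c5, pg2_eq]

theorem Sys.pf2_2_eq (S : Sys V) (g : Fin 5 → V) :
    pf2_2 (S.c5 g) = T0.lookP (iy2 (S.c4 ![g 0, g 1, g 3, g 4])) := by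
  unfold pf2_2
  rw [frc_eq, S.prj2_c5, pg2_eq]

theorem Sys.pf5_0_eq (S : Sys V) (g : Fin 5 → V) :
    pf5_0 (S.c5 g) = T0.lookP (iy5 (S.c4 ![g 0, g 1, g 2, g 3])) := by
  unfold pf5_0
  rw [frc_eq, S.prj0_c5, pg5_eq]

theorem Sys.pf5_1_eq (S : Sys V) (g : Fin 5 → V) :
    pf5_1 (S.c5 g) = T0.lookP (iy5 (S.c4 ![g 0, g 1, g 2, g 4])) := by
  unfold pf5_1
  rw [frc_eq, S.prj1_c5, pg5_eq]

theorem Sys.pf5_2_eq (S : Sys V) (g : Fin 5 → V) :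
    pf5_2 (S.c5 g) = T0.lookP (iy5 (S.c4 ![g 0, g 1, g 3, g 4])) := by
  unfold pf5_2
  rw [frc_eq, S.prj2_c5, pg5_eq]

theorem Sys.pf6_0_eq (S : Sys V) (g : Fin 5 → V) :
    pf6_0 (S.c5 g) = T0.lookP (iy6 (S.c4 ![g 0, g 1, g 2, g 3])) := by
  unfold pf6_0
  rw [frc_eq, S.prj0_c5, pg6_eq]

theorem Sys.pf6_1_eq (S : Sys V) (g : Fin 5 → V) :
    pf6_1 (S.c5 g) = T0.lookP (iy6 (S.c4 ![g 0, g 1, g 2, g 4])) := by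
  unfold pf6_1
  rw [frc_eq, S.prj1_c5, pg6_eq]

theorem Sys.pf6_2_eq (S : Sys V) (g : Fin 5 → V) :
    pf6_2 (S.c5 g) = T0.lookP (iy6 (S.c4 ![g 0, g 1, g 3, g 4])) := by
  unfold pf6_2
  rw [frc_eq, S.prj2_c5, pg6_eq]

theorem Sys.pf7_2_eq (S : Sys V) (g : Fin 5 → V) :
    pf7_2 (S.c5 g) = T0.lookP (iy7 (S.c4 ![g 0, g 1, g 3, g 4])) := by
  unfold pf7_2
  rw [frc_eq, S.prj2_c5, pg7_eq]

theorem Sys.qf0_0_eq (S : Sys V) (g : Fin 5 → V) :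
    qf0_0 (S.c5 g) = T0.lookQ (iy0 (S.c4 ![g 0, g 1, g 2, g 3])) := by
  unfold qf0_0
  rw [frc_eq, S.prj0_c5, qg0_eq]

theorem Sys.qf0_1_eq (S : Sys V) (g : Fin 5 → V) :
    qf0_1 (S.c5 g) = T0.lookQ (iy0 (S.c4 ![g 0, g 1, g 2, g 4])) := by
  unfold qf0_1
  rw [frc_eq, S.prj1_c5, qg0_eq]

theorem Sys.qf0_2_eq (S : Sys V) (g : Fin 5 → V) :
    qf0_2 (S.c5 g) = T0.lookQ (iy0 (S.c4 ![g 0, g 1, g 3, g 4])) := by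
  unfold qf0_2
  rw [frc_eq, S.prj2_c5, qg0_eq]

theorem Sys.qf1_0_eq (S : Sys V) (g : Fin 5 → V) :
    qf1_0 (S.c5 g) = T0.lookQ (iy1 (S.c4 ![g 0, g 1, g 2, g 3])) := by
  unfold qf1_0
  rw [frc_eq, S.prj0_c5, qg1_eq]

theorem Sys.qf1_1_eq (S : Sys V) (g : Fin 5 → V) :
    qf1_1 (S.c5 g) = T0.lookQ (iy1 (S.c4 ![g 0, g 1, g 2, g 4])) := by
  unfold qf1_1
  rw [frc_eq, S.prj1_c5, qg1_eq]

theorem Sys.qf1_2_eq (S : Sys V) (g : Fin 5 → V) :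
    qf1_2 (S.c5 g) = T0.lookQ (iy1 (S.c4 ![g 0, g 1, g 3, g 4])) := by
  unfold qf1_2
  rw [frc_eq, S.prj2_c5, qg1_eq]

theorem Sys.qf2_0_eq (S : Sys V) (g : Fin 5 → V) :
    qf2_0 (S.c5 g) = T0.lookQ (iy2 (S.c4 ![g 0, g 1, g 2, g 3])) := by
  unfold qf2_0
  rw [frc_eq, S.prj0_c5, qg2_eq]

theorem Sys.qf2_1_eq (S : Sys V) (g : Fin 5 → V) :
    qf2_1 (S.c5 g) = T0.lookQ (iy2 (S.c4 ![g 0, g 1, g 2, g 4])) := by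
  unfold qf2_1
  rw [frc_eq, S.prj1_c5, qg2_eq]

theorem Sys.qf2_2_eq (S : Sys V) (g : Fin 5 → V) :
    qf2_2 (S.c5 g) = T0.lookQ (iy2 (S.c4 ![g 0, g 1, g 3, g 4])) := by
  unfold qf2_2
  rw [frc_eq, S.prj2_c5, qg2_eq]

theorem Sys.qf3_0_eq (S : Sys V) (g : Fin 5 → V) :
    qf3_0 (S.c5 g) = T0.lookQ (iy3 (S.c4 ![g 0, g 1, g 2, g 3])) := by
  unfold qf3_0
  rw [frc_eq, S.prj0_c5, qg3_eq]

theorem Sys.qf3_1_eq (S : Sys V) (g : Fin 5 → V) :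
    qf3_1 (S.c5 g) = T0.lookQ (iy3 (S.c4 ![g 0, g 1, g 2, g 4])) := by
  unfold qf3_1
  rw [frc_eq, S.prj1_c5, qg3_eq]

theorem Sys.qf4_0_eq (S : Sys V) (g : Fin 5 → V) :
    qf4_0 (S.c5 g) = T0.lookQ (iy4 (S.c4 ![g 0, g 1, g 2, g 3])) := by
  unfold qf4_0
  rw [frc_eq, S.prj0_c5, qg4_eq]

theorem Sys.qf4_1_eq (S : Sys V) (g : Fin 5 → V) :
    qf4_1 (S.c5 g) = T0.lookQ (iy4 (S.c4 ![g 0, g 1, g 2, g 4])) := by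
  unfold qf4_1
  rw [frc_eq, S.prj1_c5, qg4_eq]

theorem Sys.qf5_0_eq (S : Sys V) (g : Fin 5 → V) :
    qf5_0 (S.c5 g) = T0.lookQ (iy5 (S.c4 ![g 0, g 1, g 2, g 3])) := by
  unfold qf5_0
  rw [frc_eq, S.prj0_c5, qg5_eq]

theorem Sys.qf5_1_eq (S : Sys V) (g : Fin 5 → V) :
    qf5_1 (S.c5 g) = T0.lookQ (iy5 (S.c4 ![g 0, g 1, g 2, g 4])) := by
  unfold qf5_1
  rw [frc_eq, S.prj1_c5, qg5_eq]

theorem Sys.qf5_2_eq (S : Sys V) (g : Fin 5 → V) :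
    qf5_2 (S.c5 g) = T0.lookQ (iy5 (S.c4 ![g 0, g 1, g 3, g 4])) := by
  unfold qf5_2
  rw [frc_eq, S.prj2_c5, qg5_eq]

theorem Sys.qf6_2_eq (S : Sys V) (g : Fin 5 → V) :
    qf6_2 (S.c5 g) = T0.lookQ (iy6 (S.c4 ![g 0, g 1, g 3, g 4])) := by
  unfold qf6_2
  rw [frc_eq, S.prj2_c5, qg6_eq]

theorem Sys.qf7_2_eq (S : Sys V) (g : Fin 5 → V) :
    qf7_2 (S.c5 g) = T0.lookQ (iy7 (S.c4 ![g 0, g 1, g 3, g 4])) := by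
  unfold qf7_2
  rw [frc_eq, S.prj2_c5, qg7_eq]


end Pool.Agent.Helper96.FC
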