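import Pool.Agent.Helper96.FC.Pt
import Pool.Agent.Helper60.SL.FromSys

/-!
# The fractional strong chromatic index is at most `5Δ²/4`
-/

set_option autoImplicit false

namespace Pool.Agent.Helper96.FC

open Finset Pool.Agent.Helper60.SL

theorem good_of_clique {V : Type} [Fintype V] {S : Sys V} (h : S.Clique) (x : Fin 6 → V) :
    Good S x := fun i j k l h1 h2 => h (x i) (x j) (x k) (x l) h1 h2

/-- The inequality for all systems whose edges are pairwise conflicting. -/
theorem Sys.five_fourths {V : Type} [Fintype V] (S : Sys V) (hD : 1 ≤ S.D) (hcl : S.Clique) :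
    (∑ u, ∑ v, S.lam u v) ^ 2 ≤ ∑ a, ∑ b, S.lam a b ^ 2 *
      ((S.D : ℝ) ^ 2 + 2 * S.D * ∑ u, ((S.a a u * S.a b u : ℕ) : ℝ) +
        ∑ u, ∑ v, ((S.uu a b u * S.uu a b v * S.a u v : ℕ) : ℝ)) :=
  S.main hD tau scl (by unfold scl; norm_num) S.omC S.omB S.omA S.omC_sum S.omB_sum S.omA_sum
    (fun x h1 h2 => S.goodC x h1 h2 (good_of_clique hcl x))
    (fun x h1 h2 => S.goodB x h1 h2 (good_of_clique hcl x))
    (fun x h1 _ => S.goodA x h1)

theorem frac_five_fourths (V : Type) [Fintype V] (G : SimpleGraph V) (D : ℕ) (hD : 1 ≤ D)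
    (hdeg : ∀ x, Helper60.SL.dg G x ≤ D) : FracStrongIndexLE G (5 / 4 * (D : ℝ) ^ 2) :=
  frac_of_QF False (by norm_num)
    (fun W _ H D hD _ hreg => QF_of_sys (fun W _ S h1 h2 => S.five_fourths h1 h2) H D hD hreg)
    V G D hD (fun h => h.elim) hdeg

end Pool.Agent.Helper96.FC
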