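import Pool.Agent.Helper96.FC.Enc

/-!
# Flag certificates on six vertices: groups of placements of the first kind
-/

set_option autoImplicit false

namespace Pool.Agent.Helper96.FC

open Finset

variable {V : Type} [Fintype V]

/-- the number of a pair of roots -/
def pid4 (i j : Fin 4) : ℕ :=
  match (min i j).val, (max i j).val with
  | 0, 1 => 5
  | 0, 2 => 4
  | 0, 3 => 3
  | 1, 2 => 2
  | 1, 3 => 1
  | _, _ => 0

def bitR (r : ℕ) (i j : Fin 4) : ℕ := r / 2 ^ pid4 i j % 2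

/-- the code of the graph on the roots in another order -/
def prc (α : Fin 4 → Fin 4) (r : ℕ) : ℕ :=
  rcf (bitR r (α 0) (α 1)) (bitR r (α 0) (α 2)) (bitR r (α 0) (α 3)) (bitR r (α 1) (α 2))
    (bitR r (α 1) (α 3)) (bitR r (α 2) (α 3))

/-- the code of the graph on four vertices -/
def Sys.rc4 (S : Sys V) (y : Fin 4 → V) : ℕ :=
  rcf (S.a (y 0) (y 1)) (S.a (y 0) (y 2)) (S.a (y 0) (y 3)) (S.a (y 1) (y 2)) (S.a (y 1) (y 3))
    (S.a (y 2) (y 3))

theorem pid4_comm : ∀ i j : Fin 4, pid4 i j = pid4 j i := by decide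

theorem Sys.bitR_rc4 (S : Sys V) (y : Fin 4 → V) (i j : Fin 4) (hij : i ≠ j) :
    bitR (S.rc4 y) i j = S.a (y i) (y j) := by
  have key : ∀ i j : Fin 4, i < j → bitR (S.rc4 y) i j = S.a (y i) (y j) := by
    intro i j hij
    have u1 := S.a_le (y 0) (y 1)
    have u2 := S.a_le (y 0) (y 2)
    have u3 := S.a_le (y 0) (y 3)
    have u4 := S.a_le (y 1) (y 2)
    have u5 := S.a_le (y 1) (y 3)
    have u6 := S.a_le (y 2) (y 3)
    unfold bitR Sys.rc4 rcf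
    fin_cases i <;> fin_cases j <;> first
      | exact absurd hij (by decide)
      | (simp [pid4]; omega)
  rcases lt_or_gt_of_ne hij with h | h
  · exact key i j h
  · rw [S.a_symm, ← key j i h]
    unfold bitR
    rw [pid4_comm]

theorem Sys.rc4_comp (S : Sys V) (y : Fin 4 → V) (α : Fin 4 → Fin 4)
    (hα : Function.Injective α) : S.rc4 (y ∘ α) = prc α (S.rc4 y) := by
  have h : ∀ i j : Fin 4, i ≠ j → α i ≠ α j := fun i j hij h => hij (hα h)
  unfold prc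
  rw [S.bitR_rc4 y _ _ (h 0 1 (by decide)), S.bitR_rc4 y _ _ (h 0 2 (by decide)),
    S.bitR_rc4 y _ _ (h 0 3 (by decide)), S.bitR_rc4 y _ _ (h 1 2 (by decide)),
    S.bitR_rc4 y _ _ (h 1 3 (by decide)), S.bitR_rc4 y _ _ (h 2 3 (by decide))]
  rfl

theorem Sys.rc4_lt (S : Sys V) (y : Fin 4 → V) : S.rc4 y < 64 := by
  have u1 := S.a_le (y 0) (y 1)
  have u2 := S.a_le (y 0) (y 2)
  have u3 := S.a_le (y 0) (y 3)
  have u4 := S.a_le (y 1) (y 2)
  have u5 := S.a_le (y 1) (y 3)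
  have u6 := S.a_le (y 2) (y 3)
  unfold Sys.rc4 rcf
  omega

/-- an order of the roots inside a tuple of five vertices which starts with the mark -/
structure Sq where
  base : Fin 4 → Fin 5
  fr : Fin 5
  rp : List ℕ
  recs : List Rec

def Sq.pi (s : Sq) (α : Fin 4 → Fin 4) : Fin 5 → Fin 5 :=
  ![s.base (α 0), s.base (α 1), s.base (α 2), s.base (α 3), s.fr]

/-- binary number with given bits of `w` -/
def bits (w : ℕ) : ℕ → List ℕ → ℕ
  | acc, [] => acc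
  | acc, k :: l => bits w (2 * acc + w / 2 ^ k % 2) l

def Sq.rid (s : Sq) (c : ℕ) : ℕ := bits (adw c) 0 s.rp

/-- the orders of four roots -/
def S4 : List (Fin 4 → Fin 4) :=
  [![0, 1, 2, 3], ![0, 1, 3, 2], ![0, 2, 1, 3], ![0, 2, 3, 1], ![0, 3, 1, 2], ![0, 3, 2, 1],
   ![1, 0, 2, 3], ![1, 0, 3, 2], ![1, 2, 0, 3], ![1, 2, 3, 0], ![1, 3, 0, 2], ![1, 3, 2, 0],
   ![2, 0, 1, 3], ![2, 0, 3, 1], ![2, 1, 0, 3], ![2, 1, 3, 0], ![2, 3, 0, 1], ![2, 3, 1, 0],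
   ![3, 0, 1, 2], ![3, 0, 2, 1], ![3, 1, 0, 2], ![3, 1, 2, 0], ![3, 2, 0, 1], ![3, 2, 1, 0]]

def s4 (n : Fin 24) : Fin 4 → Fin 4 := S4.get n

theorem s4_inj : ∀ n : Fin 24, Function.Injective (s4 n) := by decide +kernel

def rec0 : Rec := ⟨0, 0, 0, 0, 0, 0, 0, 0⟩

def Sq.rcd (s : Sq) (n : ℕ) : Rec := s.recs.getD n rec0

/-- the root pairs are as they should be -/
def Sq.Ok (s : Sq) : Prop :=
  s.rp = [pid (s.base 0) (s.base 1), pid (s.base 0) (s.base 2), pid (s.base 0) (s.base 3),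
    pid (s.base 1) (s.base 2), pid (s.base 1) (s.base 3), pid (s.base 2) (s.base 3)] ∧
  Function.Injective s.base

instance (s : Sq) : Decidable s.Ok := by unfold Sq.Ok; infer_instance

theorem Sys.rid_eq (S : Sys V) {s : Sq} (hs : s.Ok) (g : Fin 5 → V)
    (h01 : S.a (g 0) (g 1) = 1) : s.rid (S.c5 g) = S.rc4 (g ∘ s.base) := by
  obtain ⟨h1, h2⟩ := hs
  have h : ∀ i j : Fin 4, i ≠ j → s.base i ≠ s.base j := fun i j hij h => hij (h2 h)
  unfold Sq.rid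
  rw [h1]
  simp only [bits]
  rw [S.adw_bit g h01 _ _ (h 0 1 (by decide)), S.adw_bit g h01 _ _ (h 0 2 (by decide)),
    S.adw_bit g h01 _ _ (h 0 3 (by decide)), S.adw_bit g h01 _ _ (h 1 2 (by decide)),
    S.adw_bit g h01 _ _ (h 1 3 (by decide)), S.adw_bit g h01 _ _ (h 2 3 (by decide))]
  unfold Sys.rc4 rcf
  simp only [Function.comp]
  ring

/-- a group of placements: the same free vertices, all orders of the roots -/
structure Gp where
  io : Fin 5 → Fin 6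
  ka : Fin 5 → Fin 6
  sE : Sq
  sF : Sq
  pl : Fin 24 → PA

/-- the group is as it should be; the second mark is at `a, b` -/
def Gp.Ok (a b : Fin 6) (g : Gp) : Prop :=
  g.sE.Ok ∧ g.sF.Ok ∧ g.io 0 = 0 ∧ g.io 1 = 1 ∧ g.ka 0 = a ∧ g.ka 1 = b ∧
  ∀ n : Fin 24, (∀ i, (g.pl n).f (s1 i) = g.io (g.sE.pi (s4 n) i)) ∧
    (∀ i, (g.pl n).f (s2 i) = g.ka (g.sF.pi (s4 n) i)) ∧
    RecOk (g.sE.pi (s4 n)) (g.pl n).m (g.sE.rcd n) ∧
    RecOk (g.sF.pi (s4 n)) (g.pl n).m' (g.sF.rcd n)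

instance (a b : Fin 6) (g : Gp) : Decidable (g.Ok a b) := by unfold Gp.Ok; infer_instance

namespace TD

variable (T : TD)

/-- the table of Gram matrices of the first kind -/
def XA (r i j : ℕ) : ℤ := if T.clsC r = 0 then 0 else T.X (T.clsC r) i j

/-- conditions for the table of orders -/
def OrdOk : Prop := ∀ r < 64, (T.ord r).Nodup ∧ (∀ n ∈ T.ord r, n < 24) ∧
  (T.clsG r = 0 → T.ord r = []) ∧
  ∀ n : Fin 24, if (n : ℕ) ∈ T.ord r then T.clsC (prc (s4 n) r) = T.clsG r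
    else T.clsC (prc (s4 n) r) = 0

/-- the views in the code are views -/
def _root_.Pool.Agent.Helper96.FC.Vld (c : ℕ) : Prop :=
  c < 4096 ∧ c % 8 < 6 ∧ c / 8 % 8 < 6 ∧ c / 64 % 8 < 6

/-- the table `ix` describes the sequence `s` -/
def SeqOk (s : Sq) (ix : ℕ → ℕ) : Prop :=
  ∀ c, Vld c → ∃ e, ix c = T.clsG (s.rid c) + 16 * e ∧ e < T.E (T.clsG (s.rid c)) ∧
    T.el (T.clsG (s.rid c)) e = (T.ord (s.rid c)).map (fun n => T.ki ((s.rcd n).key c))

/-- the tables of entries are as they should be -/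
def LookOk (a b : ℕ) : Prop := ∀ cl < 9, ∀ e < T.E cl,
  T.lookP (cl + 16 * e) = T.encP cl (T.el cl e) ∧ T.lookQ (cl + 16 * e) = T.encQ cl (T.el cl e) ∧
    T.EntOk a b cl (T.el cl e)

end TD

theorem Sys.c5_vld (S : Sys V) (g : Fin 5 → V) : Vld (S.c5 g) := by
  have h2 := S.vw_lt (g 0) (g 1) (g 2)
  have h3 := S.vw_lt (g 0) (g 1) (g 3)
  have h4 := S.vw_lt (g 0) (g 1) (g 4)
  have h5 := S.a_le (g 2) (g 3)
  have h6 := S.a_le (g 2) (g 4)
  have h7 := S.a_le (g 3) (g 4)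
  unfold Sys.c5 Vld
  omega

/-- the sum over the placements of a group -/
def Sys.gsum (S : Sys V) (T : TD) (g : Gp) (x : Fin 6 → V) : ℤ :=
  ∑ n : Fin 24, S.GA T.ki T.XA (g.pl n).m (g.pl n).m' (x ∘ (g.pl n).f)

theorem sum_ord (l : List ℕ) (hl : l.Nodup) (h24 : ∀ n ∈ l, n < 24) (f : ℕ → ℤ)
    (h0 : ∀ n < 24, n ∉ l → f n = 0) : ∑ n : Fin 24, f n = (l.map f).sum := by
  rw [Fin.sum_univ_eq_sum_range (fun n => f n) 24, ← List.sum_toFinset f hl]
  symm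
  refine Finset.sum_subset ?_ ?_
  · intro n hn
    rw [List.mem_toFinset] at hn
    exact Finset.mem_range.2 (h24 n hn)
  · intro n hn hn'
    rw [List.mem_toFinset] at hn'
    exact h0 n (Finset.mem_range.1 hn) hn'

/-- One product of two table entries gives the sum over a group. -/
theorem Sys.grp (S : Sys V) (T : TD) {a b : Fin 6} {A B : ℕ} (hA : 1 ≤ A) (hB : 1 ≤ B)
    (hlen : T.LenOk) (hord : T.OrdOk) (hlook : T.LookOk A B) (hcl : ∀ r < 64, T.clsG r < 9)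
    {g : Gp} (hg : g.Ok a b) {ixE ixF : ℕ → ℕ} (hE : T.SeqOk g.sE ixE) (hF : T.SeqOk g.sF ixF)
    (x : Fin 6 → V) (h01 : S.a (x 0) (x 1) = 1) (hab : S.a (x a) (x b) = 1) :
    DigZ T.N ((T.N + 1) * (2 * A * B)) (3 * T.K1 + (T.N + 1) * (A * B)) (S.gsum T g x + 2 * T.K1)
      (T.lookP (ixE (S.c5 (x ∘ g.io))) * T.lookQ (ixF (S.c5 (x ∘ g.ka)))) := by
  obtain ⟨hsE, hsF, i0, i1, k0, k1, hn⟩ := hg
  have e1 : g.sE.rid (S.c5 (x ∘ g.io)) = S.rc4 ((x ∘ g.io) ∘ g.sE.base) :=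
    S.rid_eq hsE _ (by simp only [Function.comp, i0, i1]; exact h01)
  have e2 : g.sF.rid (S.c5 (x ∘ g.ka)) = S.rc4 ((x ∘ g.ka) ∘ g.sF.base) :=
    S.rid_eq hsF _ (by simp only [Function.comp, k0, k1]; exact hab)
  have hbase : (x ∘ g.ka) ∘ g.sF.base = (x ∘ g.io) ∘ g.sE.base := by
    obtain ⟨h1, h2, -, -⟩ := hn 0
    funext i
    simp only [Function.comp]
    congr 1
    have a1 : ∀ i : Fin 4, (s1 i.castSucc) = s2 i.castSucc := by decide
    have a2 : ∀ i : Fin 4, g.sE.pi (s4 0) i.castSucc = g.sE.base i := by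
      intro i; fin_cases i <;> rfl
    have a3 : ∀ i : Fin 4, g.sF.pi (s4 0) i.castSucc = g.sF.base i := by
      intro i; fin_cases i <;> rfl
    have h3 := h1 i.castSucc
    have h4 := h2 i.castSucc
    rw [a2] at h3
    rw [a3] at h4
    rw [← h3, ← h4, a1]
  rw [hbase] at e2
  obtain ⟨eE, p1, p2, p3⟩ := hE _ (S.c5_vld (x ∘ g.io))
  obtain ⟨eF, q1, q2, q3⟩ := hF _ (S.c5_vld (x ∘ g.ka))
  rw [e1] at p1 p2 p3
  rw [e2] at q1 q2 q3
  have hρ : S.rc4 ((x ∘ g.io) ∘ g.sE.base) < 64 := S.rc4_lt _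
  generalize hr : S.rc4 ((x ∘ g.io) ∘ g.sE.base) = ρ at *
  obtain ⟨o1, o2, o3, o4⟩ := hord ρ hρ
  obtain ⟨lP1, -, lE1⟩ := hlook _ (hcl ρ hρ) _ p2
  obtain ⟨-, lQ1, lE2⟩ := hlook _ (hcl ρ hρ) _ q2
  rw [p1, q1, lP1, lQ1]
  have hmain := TD.enc_mul hlen hA hB (T.clsG ρ) (T.el (T.clsG ρ) eE) (T.el (T.clsG ρ) eF)
    (by rw [p3, q3]; simp) lE1 lE2
  have hsum : S.gsum T g x
      = (((T.el (T.clsG ρ) eE).zip (T.el (T.clsG ρ) eF)).map
        (fun p => T.X (T.clsG ρ) p.1 p.2)).sum := by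
    rw [p3, q3, List.zip_map', List.map_map]
    obtain ⟨G, hG⟩ : ∃ G : ℕ → ℤ, ∀ n, G n = if n ∈ T.ord ρ then T.X (T.clsG ρ)
            (T.ki ((g.sE.rcd n).key (S.c5 (x ∘ g.io))))
            (T.ki ((g.sF.rcd n).key (S.c5 (x ∘ g.ka)))) else 0 := ⟨_, fun n => rfl⟩
    have hval : ∀ n : Fin 24, S.GA T.ki T.XA (g.pl n).m (g.pl n).m' (x ∘ (g.pl n).f)
        = G n := by
      intro n
      obtain ⟨h1, h2, h3, h4⟩ := hn n
      have f1 : (x ∘ (g.pl n).f) ∘ s1 = (x ∘ g.io) ∘ g.sE.pi (s4 n) := by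
        funext i; simp only [Function.comp]; rw [h1]
      have f2 : (x ∘ (g.pl n).f) ∘ s2 = (x ∘ g.ka) ∘ g.sF.pi (s4 n) := by
        funext i; simp only [Function.comp]; rw [h2]
      have f3 : S.rc (x ∘ (g.pl n).f) = prc (s4 n) ρ := by
        rw [← hr, ← S.rc4_comp _ _ (s4_inj n)]
        have c0 := congrFun f1 0
        have c1 := congrFun f1 1
        have c2 := congrFun f1 2
        have c3 := congrFun f1 3
        have d : ∀ i : Fin 4, ((x ∘ g.io) ∘ g.sE.pi (s4 n)) i.castSucc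
            = (((x ∘ g.io) ∘ g.sE.base) ∘ s4 n) i := by
          intro i; fin_cases i <;> rfl
        have d0 : (x ∘ (g.pl n).f) 0 = (((x ∘ g.io) ∘ g.sE.base) ∘ s4 n) 0 := c0.trans (d 0)
        have d1 : (x ∘ (g.pl n).f) 1 = (((x ∘ g.io) ∘ g.sE.base) ∘ s4 n) 1 := c1.trans (d 1)
        have d2 : (x ∘ (g.pl n).f) 2 = (((x ∘ g.io) ∘ g.sE.base) ∘ s4 n) 2 := c2.trans (d 2)
        have d3 : (x ∘ (g.pl n).f) 3 = (((x ∘ g.io) ∘ g.sE.base) ∘ s4 n) 3 := c3.trans (d 3)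
        unfold Sys.rc Sys.rc4
        rw [d0, d1, d2, d3]
      unfold Sys.GA
      rw [f1, f2, f3, S.key_rec _ h3, S.key_rec _ h4]
      unfold TD.XA
      have hc := o4 n
      rw [hG]
      by_cases hm : (n : ℕ) ∈ T.ord ρ
      · rw [if_pos hm] at hc ⊢
        rw [hc]
        by_cases h0 : T.clsG ρ = 0
        · exact absurd hm (by rw [o3 h0]; simp)
        · rw [if_neg h0]
      · rw [if_neg hm] at hc ⊢
        rw [if_pos hc]
    unfold Sys.gsum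
    refine (Finset.sum_congr rfl (fun n _ => hval n)).trans ((sum_ord (T.ord ρ) o1 o2 G
      (fun n _ hn => by rw [hG, if_neg hn])).trans ?_)
    congr 1
    refine List.map_congr_left fun n hn => ?_
    rw [hG, if_pos hn]
    rfl
  rw [hsum]
  exact hmain

end Pool.Agent.Helper96.FC
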