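import Pool.Agent.Helper96.FC.Grp

/-!
# Flag certificates on six vertices: groups of placements of the second kind
-/

set_option autoImplicit false

namespace Pool.Agent.Helper96.FC

open Finset

variable {V : Type} [Fintype V]

/-- one flag with four vertices as seen from a code -/
structure Rec4 where
  m : ℕ
  fl : ℕ
  k1 : ℕ
  k2 : ℕ
deriving DecidableEq

def Rec4.key (r : Rec4) (c : ℕ) : ℕ :=
  keyg r.m (flN r.fl (c / r.k1 % 8)) (flN r.fl (c / r.k2 % 8)) (c / 64 % 2)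

def posOk4 (i : Fin 4) (k : ℕ) : Prop := (i = 2 ∧ k = 1) ∨ (i = 3 ∧ k = 8)

instance (i : Fin 4) (k : ℕ) : Decidable (posOk4 i k) := by unfold posOk4; infer_instance

theorem Sys.c4_pos (S : Sys V) (g : Fin 4 → V) {i : Fin 4} {k : ℕ} (h : posOk4 i k) :
    S.c4 g / k % 8 = S.vw (g 0) (g 1) (g i) := by
  have h2 := S.vw_lt (g 0) (g 1) (g 2)
  have h3 := S.vw_lt (g 0) (g 1) (g 3)
  unfold Sys.c4
  rcases h with ⟨rfl, rfl⟩ | ⟨rfl, rfl⟩ <;> omega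

theorem Sys.c4_bit (S : Sys V) (g : Fin 4 → V) : S.c4 g / 64 = S.a (g 2) (g 3) := by
  have h2 := S.vw_lt (g 0) (g 1) (g 2)
  have h3 := S.vw_lt (g 0) (g 1) (g 3)
  unfold Sys.c4
  omega

/-- the record describes the flag `g ∘ π` with the mark number `m` -/
def RecOk4 (π : Fin 4 → Fin 4) (m : Fin 6) (r : Rec4) : Prop :=
  r.m = (m : ℕ) ∧
  ((r.fl = 0 ∧ π (c1 m) = 0 ∧ π (c2 m) = 1) ∨ (r.fl = 1 ∧ π (c1 m) = 1 ∧ π (c2 m) = 0)) ∧
  posOk4 (π (q1 m)) r.k1 ∧ posOk4 (π (q2 m)) r.k2 ∧ π (q1 m) ≠ π (q2 m)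

instance (π : Fin 4 → Fin 4) (m : Fin 6) (r : Rec4) : Decidable (RecOk4 π m r) := by
  unfold RecOk4; infer_instance

theorem Sys.key_rec4 (S : Sys V) (g : Fin 4 → V) {π : Fin 4 → Fin 4} {m : Fin 6} {r : Rec4}
    (h : RecOk4 π m r) : S.key4 m (g ∘ π) = r.key (S.c4 g) := by
  obtain ⟨hm, hf, p1, p2, hne⟩ := h
  unfold Sys.key4 Rec4.key
  simp only [Function.comp]
  rw [S.c4_pos g p1, S.c4_pos g p2, S.c4_bit, hm]
  have hb : S.a (g 2) (g 3) % 2 = S.a (g (π (q1 m))) (g (π (q2 m))) := by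
    have := S.a_le (g 2) (g 3)
    rcases p1 with ⟨h1, -⟩ | ⟨h1, -⟩ <;> rcases p2 with ⟨h2, -⟩ | ⟨h2, -⟩
    · exact absurd (h1.trans h2.symm) hne
    · rw [h1, h2]; omega
    · rw [h1, h2, S.a_symm (g 3) (g 2)]; omega
    · exact absurd (h1.trans h2.symm) hne
  rw [hb]
  rcases hf with ⟨h0, h1, h2⟩ | ⟨h0, h1, h2⟩
  · rw [h0, h1, h2, flN0 _ (S.vw_lt _ _ _), flN0 _ (S.vw_lt _ _ _)]
  · rw [h0, h1, h2, flN1 _ (S.vw_lt _ _ _), flN1 _ (S.vw_lt _ _ _), ← S.vw_flip, ← S.vw_flip]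

/-- the adjacency bits of the six pairs -/
def adw4 (c : ℕ) : ℕ :=
  1 + 2 * aw0 (c % 8) + 4 * aw0 (c / 8 % 8) + 8 * aw1 (c % 8) + 16 * aw1 (c / 8 % 8) +
    32 * (c / 64)

/-- the number of a pair of positions -/
def pidf (i j : Fin 4) : ℕ :=
  match (min i j).val, (max i j).val with
  | 0, 1 => 0
  | 0, 2 => 1
  | 0, 3 => 2
  | 1, 2 => 3
  | 1, 3 => 4
  | _, _ => 5

theorem pidf_comm : ∀ i j : Fin 4, pidf i j = pidf j i := by decide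

theorem Sys.adw4_bit (S : Sys V) (g : Fin 4 → V) (h01 : S.a (g 0) (g 1) = 1) (i j : Fin 4)
    (hij : i ≠ j) : adw4 (S.c4 g) / 2 ^ pidf i j % 2 = S.a (g i) (g j) := by
  have key : ∀ i j : Fin 4, i < j → adw4 (S.c4 g) / 2 ^ pidf i j % 2 = S.a (g i) (g j) := by
    intro i j hij
    have p2 := S.c4_pos g (show posOk4 2 1 from Or.inl ⟨rfl, rfl⟩)
    have p3 := S.c4_pos g (show posOk4 3 8 from Or.inr ⟨rfl, rfl⟩)
    rw [Nat.div_one] at p2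
    have e : adw4 (S.c4 g) = 1 + 2 * S.a (g 0) (g 2) + 4 * S.a (g 0) (g 3) +
        8 * S.a (g 1) (g 2) + 16 * S.a (g 1) (g 3) + 32 * S.a (g 2) (g 3) := by
      unfold adw4
      rw [p2, p3, S.c4_bit, S.aw0_vw, S.aw0_vw, S.aw1_vw, S.aw1_vw]
    have u1 := S.a_le (g 0) (g 2)
    have u2 := S.a_le (g 0) (g 3)
    have u4 := S.a_le (g 1) (g 2)
    have u5 := S.a_le (g 1) (g 3)
    have u6 := S.a_le (g 2) (g 3)
    rw [e]
    clear e p2 p3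
    fin_cases i <;> fin_cases j <;> first
      | exact absurd hij (by decide)
      | (simp [pidf]; omega)
  rcases lt_or_gt_of_ne hij with h | h
  · exact key i j h
  · rw [pidf_comm, S.a_symm]
    exact key j i h

/-- an order of the roots inside a tuple of four vertices which starts with the mark -/
structure Sq4 where
  base : Fin 4 → Fin 4
  rp : ℕ
  recs : List Rec4

def Sq4.pi (s : Sq4) (n : Fin 2) : Fin 4 → Fin 4 :=
  ![s.base (if n = 0 then 0 else 1), s.base (if n = 0 then 1 else 0), s.base 2, s.base 3]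

def Sq4.rid (s : Sq4) (c : ℕ) : ℕ := adw4 c / 2 ^ s.rp % 2

def rec40 : Rec4 := ⟨0, 0, 0, 0⟩

def Sq4.rcd (s : Sq4) (n : ℕ) : Rec4 := s.recs.getD n rec40

def Sq4.Ok (s : Sq4) : Prop := s.rp = pidf (s.base 0) (s.base 1) ∧ s.base 0 ≠ s.base 1

instance (s : Sq4) : Decidable s.Ok := by unfold Sq4.Ok; infer_instance

/-- a group of placements: both orders of the roots -/
structure Gp4 where
  io : Fin 4 → Fin 6
  ka : Fin 4 → Fin 6
  sE : Sq4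
  sF : Sq4
  pl : Fin 2 → PC

/-- the group is as it should be; the second mark is at `a, b` -/
def Gp4.Ok (a b : Fin 6) (g : Gp4) : Prop :=
  g.sE.Ok ∧ g.sF.Ok ∧ g.io 0 = 0 ∧ g.io 1 = 1 ∧ g.ka 0 = a ∧ g.ka 1 = b ∧
  ∀ n : Fin 2, (∀ i, (g.pl n).f (t1 i) = g.io (g.sE.pi n i)) ∧
    (∀ i, (g.pl n).f (t2 i) = g.ka (g.sF.pi n i)) ∧
    RecOk4 (g.sE.pi n) (g.pl n).m (g.sE.rcd n) ∧
    RecOk4 (g.sF.pi n) (g.pl n).m' (g.sF.rcd n)

instance (a b : Fin 6) (g : Gp4) : Decidable (g.Ok a b) := by unfold Gp4.Ok; infer_instance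

namespace TD

variable (T : TD)

/-- the table of Gram matrices of the second kind -/
def XC (r i j : ℕ) : ℤ := if r < 2 then T.X (7 + r) i j else 0

/-- the views in the code are views -/
def _root_.Pool.Agent.Helper96.FC.Vld4 (c : ℕ) : Prop :=
  c < 128 ∧ c % 8 < 6 ∧ c / 8 % 8 < 6

/-- the table `ix` describes the sequence `s` -/
def SeqOk4 (s : Sq4) (ix : ℕ → ℕ) : Prop :=
  ∀ c, Vld4 c → ∃ e, ix c = 7 + s.rid c + 16 * e ∧ e < T.E (7 + s.rid c) ∧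
    T.el (7 + s.rid c) e = [T.ki4 ((s.rcd 0).key c), T.ki4 ((s.rcd 1).key c)]

end TD

theorem Sys.c4_vld (S : Sys V) (g : Fin 4 → V) : Vld4 (S.c4 g) := by
  have h2 := S.vw_lt (g 0) (g 1) (g 2)
  have h3 := S.vw_lt (g 0) (g 1) (g 3)
  have h5 := S.a_le (g 2) (g 3)
  unfold Sys.c4 Vld4
  omega

/-- the sum over the placements of a group -/
def Sys.gsum4 (S : Sys V) (T : TD) (g : Gp4) (x : Fin 6 → V) : ℤ :=
  ∑ n : Fin 2, S.GC T.ki4 T.XC (g.pl n).m (g.pl n).m' (x ∘ (g.pl n).f)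

/-- One product of two table entries gives the sum over a group. -/
theorem Sys.grp4 (S : Sys V) (T : TD) {a b : Fin 6} {A B : ℕ} (hA : 1 ≤ A) (hB : 1 ≤ B)
    (hlen : T.LenOk) (hlook : T.LookOk A B)
    {g : Gp4} (hg : g.Ok a b) {ixE ixF : ℕ → ℕ} (hE : T.SeqOk4 g.sE ixE) (hF : T.SeqOk4 g.sF ixF)
    (x : Fin 6 → V) (h01 : S.a (x 0) (x 1) = 1) (hab : S.a (x a) (x b) = 1) :
    DigZ T.N ((T.N + 1) * (2 * A * B)) (3 * T.K1 + (T.N + 1) * (A * B)) (S.gsum4 T g x + 2 * T.K1)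
      (T.lookP (ixE (S.c4 (x ∘ g.io))) * T.lookQ (ixF (S.c4 (x ∘ g.ka)))) := by
  obtain ⟨⟨hrE, hbE⟩, ⟨hrF, hbF⟩, i0, i1, k0, k1, hn⟩ := hg
  have e1 : g.sE.rid (S.c4 (x ∘ g.io)) = S.a (x (g.io (g.sE.base 0))) (x (g.io (g.sE.base 1))) := by
    unfold Sq4.rid
    rw [hrE]
    exact S.adw4_bit (x ∘ g.io) (by simp only [Function.comp, i0, i1]; exact h01) _ _ hbE
  have e2 : g.sF.rid (S.c4 (x ∘ g.ka)) = S.a (x (g.ka (g.sF.base 0))) (x (g.ka (g.sF.base 1))) := by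
    unfold Sq4.rid
    rw [hrF]
    exact S.adw4_bit (x ∘ g.ka) (by simp only [Function.comp, k0, k1]; exact hab) _ _ hbF
  obtain ⟨⟨a1, a2, a3, a4⟩, ⟨b1, b2, b3, b4⟩⟩ : (_ ∧ _) := ⟨hn 0, hn 1⟩
  have r0 : (g.pl 0).f 0 = g.io (g.sE.base 0) := a1 0
  have r1 : (g.pl 0).f 1 = g.io (g.sE.base 1) := a1 1
  have r2 : (g.pl 0).f 0 = g.ka (g.sF.base 0) := a2 0
  have r3 : (g.pl 0).f 1 = g.ka (g.sF.base 1) := a2 1
  have r4 : (g.pl 1).f 0 = g.io (g.sE.base 1) := b1 0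
  have r5 : (g.pl 1).f 1 = g.io (g.sE.base 0) := b1 1
  rw [← r2, ← r3, r0, r1] at e2
  obtain ⟨eE, p1, p2, p3⟩ := hE _ (S.c4_vld (x ∘ g.io))
  obtain ⟨eF, u1, u2, u3⟩ := hF _ (S.c4_vld (x ∘ g.ka))
  rw [e1] at p1 p2 p3
  rw [e2] at u1 u2 u3
  have hρ : S.a (x (g.io (g.sE.base 0))) (x (g.io (g.sE.base 1))) < 2 := by
    have := S.a_le (x (g.io (g.sE.base 0))) (x (g.io (g.sE.base 1)))
    omega
  have w0 : S.a ((x ∘ (g.pl 0).f) 0) ((x ∘ (g.pl 0).f) 1)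
      = S.a (x (g.io (g.sE.base 0))) (x (g.io (g.sE.base 1))) := by
    simp only [Function.comp]; rw [r0, r1]
  have w1 : S.a ((x ∘ (g.pl 1).f) 0) ((x ∘ (g.pl 1).f) 1)
      = S.a (x (g.io (g.sE.base 0))) (x (g.io (g.sE.base 1))) := by
    simp only [Function.comp]; rw [r4, r5, S.a_symm]
  generalize hr : S.a (x (g.io (g.sE.base 0))) (x (g.io (g.sE.base 1))) = ρ at *
  have hcl : 7 + ρ < 9 := by omega
  obtain ⟨lP1, -, lE1⟩ := hlook _ hcl _ p2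
  obtain ⟨-, lQ1, lE2⟩ := hlook _ hcl _ u2
  rw [p1, u1, lP1, lQ1]
  have hmain := TD.enc_mul hlen hA hB (7 + ρ) (T.el (7 + ρ) eE) (T.el (7 + ρ) eF)
    (by rw [p3, u3]; simp) lE1 lE2
  have hsum : S.gsum4 T g x
      = (((T.el (7 + ρ) eE).zip (T.el (7 + ρ) eF)).map (fun p => T.X (7 + ρ) p.1 p.2)).sum := by
    rw [p3, u3]
    unfold Sys.gsum4
    rw [Fin.sum_univ_two]
    have f1 : (x ∘ (g.pl 0).f) ∘ t1 = (x ∘ g.io) ∘ g.sE.pi 0 := by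
      funext i; simp only [Function.comp]; rw [a1]
    have f2 : (x ∘ (g.pl 0).f) ∘ t2 = (x ∘ g.ka) ∘ g.sF.pi 0 := by
      funext i; simp only [Function.comp]; rw [a2]
    have f3 : (x ∘ (g.pl 1).f) ∘ t1 = (x ∘ g.io) ∘ g.sE.pi 1 := by
      funext i; simp only [Function.comp]; rw [b1]
    have f4 : (x ∘ (g.pl 1).f) ∘ t2 = (x ∘ g.ka) ∘ g.sF.pi 1 := by
      funext i; simp only [Function.comp]; rw [b2]
    unfold Sys.GC
    rw [f1, f2, f3, f4, w0, w1, S.key_rec4 _ a3, S.key_rec4 _ a4, S.key_rec4 _ b3,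
      S.key_rec4 _ b4]
    unfold TD.XC
    rw [if_pos hρ, if_pos hρ]
    simp
  rw [hsum]
  exact hmain

end Pool.Agent.Helper96.FC
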