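import Pool.Agent.Helper96.FC.Swap

/-!
# Flag certificates on six vertices: the lists of placements
-/

set_option autoImplicit false

namespace Pool.Agent.Helper96.FC

/-- placements with free vertices `0` and `2` -/
def gC0 : List PA :=
  [⟨![1, 3, 4, 5, 0, 2], 3, 6⟩,
   ⟨![1, 3, 5, 4, 0, 2], 3, 6⟩,
   ⟨![1, 4, 3, 5, 0, 2], 3, 8⟩,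
   ⟨![1, 4, 5, 3, 0, 2], 3, 9⟩,
   ⟨![1, 5, 3, 4, 0, 2], 3, 8⟩,
   ⟨![1, 5, 4, 3, 0, 2], 3, 9⟩,
   ⟨![3, 1, 4, 5, 0, 2], 6, 3⟩,
   ⟨![3, 1, 5, 4, 0, 2], 6, 3⟩,
   ⟨![3, 4, 1, 5, 0, 2], 8, 3⟩,
   ⟨![3, 4, 5, 1, 0, 2], 9, 3⟩,
   ⟨![3, 5, 1, 4, 0, 2], 8, 3⟩,
   ⟨![3, 5, 4, 1, 0, 2], 9, 3⟩,
   ⟨![4, 1, 3, 5, 0, 2], 6, 8⟩,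
   ⟨![4, 1, 5, 3, 0, 2], 6, 9⟩,
   ⟨![4, 3, 1, 5, 0, 2], 8, 6⟩,
   ⟨![4, 3, 5, 1, 0, 2], 9, 6⟩,
   ⟨![4, 5, 1, 3, 0, 2], 8, 9⟩,
   ⟨![4, 5, 3, 1, 0, 2], 9, 8⟩,
   ⟨![5, 1, 3, 4, 0, 2], 6, 8⟩,
   ⟨![5, 1, 4, 3, 0, 2], 6, 9⟩,
   ⟨![5, 3, 1, 4, 0, 2], 8, 6⟩,
   ⟨![5, 3, 4, 1, 0, 2], 9, 6⟩,
   ⟨![5, 4, 1, 3, 0, 2], 8, 9⟩,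
   ⟨![5, 4, 3, 1, 0, 2], 9, 8⟩]

/-- placements with free vertices `0` and `3` -/
def gC1 : List PA :=
  [⟨![1, 2, 4, 5, 0, 3], 3, 6⟩,
   ⟨![1, 2, 5, 4, 0, 3], 3, 6⟩,
   ⟨![1, 4, 2, 5, 0, 3], 3, 8⟩,
   ⟨![1, 4, 5, 2, 0, 3], 3, 9⟩,
   ⟨![1, 5, 2, 4, 0, 3], 3, 8⟩,
   ⟨![1, 5, 4, 2, 0, 3], 3, 9⟩,
   ⟨![2, 1, 4, 5, 0, 3], 6, 3⟩,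
   ⟨![2, 1, 5, 4, 0, 3], 6, 3⟩,
   ⟨![2, 4, 1, 5, 0, 3], 8, 3⟩,
   ⟨![2, 4, 5, 1, 0, 3], 9, 3⟩,
   ⟨![2, 5, 1, 4, 0, 3], 8, 3⟩,
   ⟨![2, 5, 4, 1, 0, 3], 9, 3⟩,
   ⟨![4, 1, 2, 5, 0, 3], 6, 8⟩,
   ⟨![4, 1, 5, 2, 0, 3], 6, 9⟩,
   ⟨![4, 2, 1, 5, 0, 3], 8, 6⟩,
   ⟨![4, 2, 5, 1, 0, 3], 9, 6⟩,
   ⟨![4, 5, 1, 2, 0, 3], 8, 9⟩,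
   ⟨![4, 5, 2, 1, 0, 3], 9, 8⟩,
   ⟨![5, 1, 2, 4, 0, 3], 6, 8⟩,
   ⟨![5, 1, 4, 2, 0, 3], 6, 9⟩,
   ⟨![5, 2, 1, 4, 0, 3], 8, 6⟩,
   ⟨![5, 2, 4, 1, 0, 3], 9, 6⟩,
   ⟨![5, 4, 1, 2, 0, 3], 8, 9⟩,
   ⟨![5, 4, 2, 1, 0, 3], 9, 8⟩]

/-- placements with free vertices `0` and `4` -/
def gC2 : List PA :=
  [⟨![1, 2, 3, 5, 0, 4], 3, 4⟩,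
   ⟨![1, 2, 5, 3, 0, 4], 3, 5⟩,
   ⟨![1, 3, 2, 5, 0, 4], 3, 4⟩,
   ⟨![1, 3, 5, 2, 0, 4], 3, 5⟩,
   ⟨![1, 5, 2, 3, 0, 4], 3, 7⟩,
   ⟨![1, 5, 3, 2, 0, 4], 3, 7⟩,
   ⟨![2, 1, 3, 5, 0, 4], 6, 1⟩,
   ⟨![2, 1, 5, 3, 0, 4], 6, 2⟩,
   ⟨![2, 3, 1, 5, 0, 4], 8, 0⟩,
   ⟨![2, 3, 5, 1, 0, 4], 9, 0⟩,
   ⟨![2, 5, 1, 3, 0, 4], 8, 2⟩,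
   ⟨![2, 5, 3, 1, 0, 4], 9, 1⟩,
   ⟨![3, 1, 2, 5, 0, 4], 6, 1⟩,
   ⟨![3, 1, 5, 2, 0, 4], 6, 2⟩,
   ⟨![3, 2, 1, 5, 0, 4], 8, 0⟩,
   ⟨![3, 2, 5, 1, 0, 4], 9, 0⟩,
   ⟨![3, 5, 1, 2, 0, 4], 8, 2⟩,
   ⟨![3, 5, 2, 1, 0, 4], 9, 1⟩,
   ⟨![5, 1, 2, 3, 0, 4], 6, 7⟩,
   ⟨![5, 1, 3, 2, 0, 4], 6, 7⟩,
   ⟨![5, 2, 1, 3, 0, 4], 8, 5⟩,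
   ⟨![5, 2, 3, 1, 0, 4], 9, 4⟩,
   ⟨![5, 3, 1, 2, 0, 4], 8, 5⟩,
   ⟨![5, 3, 2, 1, 0, 4], 9, 4⟩]

/-- placements with free vertices `0` and `5` -/
def gC3 : List PA :=
  [⟨![1, 2, 3, 4, 0, 5], 3, 4⟩,
   ⟨![1, 2, 4, 3, 0, 5], 3, 5⟩,
   ⟨![1, 3, 2, 4, 0, 5], 3, 4⟩,
   ⟨![1, 3, 4, 2, 0, 5], 3, 5⟩,
   ⟨![1, 4, 2, 3, 0, 5], 3, 7⟩,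
   ⟨![1, 4, 3, 2, 0, 5], 3, 7⟩,
   ⟨![2, 1, 3, 4, 0, 5], 6, 1⟩,
   ⟨![2, 1, 4, 3, 0, 5], 6, 2⟩,
   ⟨![2, 3, 1, 4, 0, 5], 8, 0⟩,
   ⟨![2, 3, 4, 1, 0, 5], 9, 0⟩,
   ⟨![2, 4, 1, 3, 0, 5], 8, 2⟩,
   ⟨![2, 4, 3, 1, 0, 5], 9, 1⟩,
   ⟨![3, 1, 2, 4, 0, 5], 6, 1⟩,
   ⟨![3, 1, 4, 2, 0, 5], 6, 2⟩,
   ⟨![3, 2, 1, 4, 0, 5], 8, 0⟩,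
   ⟨![3, 2, 4, 1, 0, 5], 9, 0⟩,
   ⟨![3, 4, 1, 2, 0, 5], 8, 2⟩,
   ⟨![3, 4, 2, 1, 0, 5], 9, 1⟩,
   ⟨![4, 1, 2, 3, 0, 5], 6, 7⟩,
   ⟨![4, 1, 3, 2, 0, 5], 6, 7⟩,
   ⟨![4, 2, 1, 3, 0, 5], 8, 5⟩,
   ⟨![4, 2, 3, 1, 0, 5], 9, 4⟩,
   ⟨![4, 3, 1, 2, 0, 5], 8, 5⟩,
   ⟨![4, 3, 2, 1, 0, 5], 9, 4⟩]

/-- placements with free vertices `1` and `2` -/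
def gC4 : List PA :=
  [⟨![0, 3, 4, 5, 1, 2], 3, 6⟩,
   ⟨![0, 3, 5, 4, 1, 2], 3, 6⟩,
   ⟨![0, 4, 3, 5, 1, 2], 3, 8⟩,
   ⟨![0, 4, 5, 3, 1, 2], 3, 9⟩,
   ⟨![0, 5, 3, 4, 1, 2], 3, 8⟩,
   ⟨![0, 5, 4, 3, 1, 2], 3, 9⟩,
   ⟨![3, 0, 4, 5, 1, 2], 6, 3⟩,
   ⟨![3, 0, 5, 4, 1, 2], 6, 3⟩,
   ⟨![3, 4, 0, 5, 1, 2], 8, 3⟩,
   ⟨![3, 4, 5, 0, 1, 2], 9, 3⟩,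
   ⟨![3, 5, 0, 4, 1, 2], 8, 3⟩,
   ⟨![3, 5, 4, 0, 1, 2], 9, 3⟩,
   ⟨![4, 0, 3, 5, 1, 2], 6, 8⟩,
   ⟨![4, 0, 5, 3, 1, 2], 6, 9⟩,
   ⟨![4, 3, 0, 5, 1, 2], 8, 6⟩,
   ⟨![4, 3, 5, 0, 1, 2], 9, 6⟩,
   ⟨![4, 5, 0, 3, 1, 2], 8, 9⟩,
   ⟨![4, 5, 3, 0, 1, 2], 9, 8⟩,
   ⟨![5, 0, 3, 4, 1, 2], 6, 8⟩,
   ⟨![5, 0, 4, 3, 1, 2], 6, 9⟩,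
   ⟨![5, 3, 0, 4, 1, 2], 8, 6⟩,
   ⟨![5, 3, 4, 0, 1, 2], 9, 6⟩,
   ⟨![5, 4, 0, 3, 1, 2], 8, 9⟩,
   ⟨![5, 4, 3, 0, 1, 2], 9, 8⟩]

/-- placements with free vertices `1` and `3` -/
def gC5 : List PA :=
  [⟨![0, 2, 4, 5, 1, 3], 3, 6⟩,
   ⟨![0, 2, 5, 4, 1, 3], 3, 6⟩,
   ⟨![0, 4, 2, 5, 1, 3], 3, 8⟩,
   ⟨![0, 4, 5, 2, 1, 3], 3, 9⟩,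
   ⟨![0, 5, 2, 4, 1, 3], 3, 8⟩,
   ⟨![0, 5, 4, 2, 1, 3], 3, 9⟩,
   ⟨![2, 0, 4, 5, 1, 3], 6, 3⟩,
   ⟨![2, 0, 5, 4, 1, 3], 6, 3⟩,
   ⟨![2, 4, 0, 5, 1, 3], 8, 3⟩,
   ⟨![2, 4, 5, 0, 1, 3], 9, 3⟩,
   ⟨![2, 5, 0, 4, 1, 3], 8, 3⟩,
   ⟨![2, 5, 4, 0, 1, 3], 9, 3⟩,
   ⟨![4, 0, 2, 5, 1, 3], 6, 8⟩,
   ⟨![4, 0, 5, 2, 1, 3], 6, 9⟩,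
   ⟨![4, 2, 0, 5, 1, 3], 8, 6⟩,
   ⟨![4, 2, 5, 0, 1, 3], 9, 6⟩,
   ⟨![4, 5, 0, 2, 1, 3], 8, 9⟩,
   ⟨![4, 5, 2, 0, 1, 3], 9, 8⟩,
   ⟨![5, 0, 2, 4, 1, 3], 6, 8⟩,
   ⟨![5, 0, 4, 2, 1, 3], 6, 9⟩,
   ⟨![5, 2, 0, 4, 1, 3], 8, 6⟩,
   ⟨![5, 2, 4, 0, 1, 3], 9, 6⟩,
   ⟨![5, 4, 0, 2, 1, 3], 8, 9⟩,
   ⟨![5, 4, 2, 0, 1, 3], 9, 8⟩]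

/-- placements with free vertices `1` and `4` -/
def gC6 : List PA :=
  [⟨![0, 2, 3, 5, 1, 4], 3, 4⟩,
   ⟨![0, 2, 5, 3, 1, 4], 3, 5⟩,
   ⟨![0, 3, 2, 5, 1, 4], 3, 4⟩,
   ⟨![0, 3, 5, 2, 1, 4], 3, 5⟩,
   ⟨![0, 5, 2, 3, 1, 4], 3, 7⟩,
   ⟨![0, 5, 3, 2, 1, 4], 3, 7⟩,
   ⟨![2, 0, 3, 5, 1, 4], 6, 1⟩,
   ⟨![2, 0, 5, 3, 1, 4], 6, 2⟩,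
   ⟨![2, 3, 0, 5, 1, 4], 8, 0⟩,
   ⟨![2, 3, 5, 0, 1, 4], 9, 0⟩,
   ⟨![2, 5, 0, 3, 1, 4], 8, 2⟩,
   ⟨![2, 5, 3, 0, 1, 4], 9, 1⟩,
   ⟨![3, 0, 2, 5, 1, 4], 6, 1⟩,
   ⟨![3, 0, 5, 2, 1, 4], 6, 2⟩,
   ⟨![3, 2, 0, 5, 1, 4], 8, 0⟩,
   ⟨![3, 2, 5, 0, 1, 4], 9, 0⟩,
   ⟨![3, 5, 0, 2, 1, 4], 8, 2⟩,
   ⟨![3, 5, 2, 0, 1, 4], 9, 1⟩,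
   ⟨![5, 0, 2, 3, 1, 4], 6, 7⟩,
   ⟨![5, 0, 3, 2, 1, 4], 6, 7⟩,
   ⟨![5, 2, 0, 3, 1, 4], 8, 5⟩,
   ⟨![5, 2, 3, 0, 1, 4], 9, 4⟩,
   ⟨![5, 3, 0, 2, 1, 4], 8, 5⟩,
   ⟨![5, 3, 2, 0, 1, 4], 9, 4⟩]

/-- placements with free vertices `1` and `5` -/
def gC7 : List PA :=
  [⟨![0, 2, 3, 4, 1, 5], 3, 4⟩,
   ⟨![0, 2, 4, 3, 1, 5], 3, 5⟩,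
   ⟨![0, 3, 2, 4, 1, 5], 3, 4⟩,
   ⟨![0, 3, 4, 2, 1, 5], 3, 5⟩,
   ⟨![0, 4, 2, 3, 1, 5], 3, 7⟩,
   ⟨![0, 4, 3, 2, 1, 5], 3, 7⟩,
   ⟨![2, 0, 3, 4, 1, 5], 6, 1⟩,
   ⟨![2, 0, 4, 3, 1, 5], 6, 2⟩,
   ⟨![2, 3, 0, 4, 1, 5], 8, 0⟩,
   ⟨![2, 3, 4, 0, 1, 5], 9, 0⟩,
   ⟨![2, 4, 0, 3, 1, 5], 8, 2⟩,
   ⟨![2, 4, 3, 0, 1, 5], 9, 1⟩,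
   ⟨![3, 0, 2, 4, 1, 5], 6, 1⟩,
   ⟨![3, 0, 4, 2, 1, 5], 6, 2⟩,
   ⟨![3, 2, 0, 4, 1, 5], 8, 0⟩,
   ⟨![3, 2, 4, 0, 1, 5], 9, 0⟩,
   ⟨![3, 4, 0, 2, 1, 5], 8, 2⟩,
   ⟨![3, 4, 2, 0, 1, 5], 9, 1⟩,
   ⟨![4, 0, 2, 3, 1, 5], 6, 7⟩,
   ⟨![4, 0, 3, 2, 1, 5], 6, 7⟩,
   ⟨![4, 2, 0, 3, 1, 5], 8, 5⟩,
   ⟨![4, 2, 3, 0, 1, 5], 9, 4⟩,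
   ⟨![4, 3, 0, 2, 1, 5], 8, 5⟩,
   ⟨![4, 3, 2, 0, 1, 5], 9, 4⟩]

/-- placements with free vertices `4` and `2` -/
def gC8 : List PA :=
  [⟨![0, 1, 3, 5, 4, 2], 0, 8⟩,
   ⟨![0, 1, 5, 3, 4, 2], 0, 9⟩,
   ⟨![0, 3, 1, 5, 4, 2], 1, 6⟩,
   ⟨![0, 3, 5, 1, 4, 2], 2, 6⟩,
   ⟨![0, 5, 1, 3, 4, 2], 1, 9⟩,
   ⟨![0, 5, 3, 1, 4, 2], 2, 8⟩,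
   ⟨![1, 0, 3, 5, 4, 2], 0, 8⟩,
   ⟨![1, 0, 5, 3, 4, 2], 0, 9⟩,
   ⟨![1, 3, 0, 5, 4, 2], 1, 6⟩,
   ⟨![1, 3, 5, 0, 4, 2], 2, 6⟩,
   ⟨![1, 5, 0, 3, 4, 2], 1, 9⟩,
   ⟨![1, 5, 3, 0, 4, 2], 2, 8⟩,
   ⟨![3, 0, 1, 5, 4, 2], 4, 3⟩,
   ⟨![3, 0, 5, 1, 4, 2], 5, 3⟩,
   ⟨![3, 1, 0, 5, 4, 2], 4, 3⟩,
   ⟨![3, 1, 5, 0, 4, 2], 5, 3⟩,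
   ⟨![3, 5, 0, 1, 4, 2], 7, 3⟩,
   ⟨![3, 5, 1, 0, 4, 2], 7, 3⟩,
   ⟨![5, 0, 1, 3, 4, 2], 4, 9⟩,
   ⟨![5, 0, 3, 1, 4, 2], 5, 8⟩,
   ⟨![5, 1, 0, 3, 4, 2], 4, 9⟩,
   ⟨![5, 1, 3, 0, 4, 2], 5, 8⟩,
   ⟨![5, 3, 0, 1, 4, 2], 7, 6⟩,
   ⟨![5, 3, 1, 0, 4, 2], 7, 6⟩]

/-- placements with free vertices `4` and `3` -/
def gC9 : List PA :=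
  [⟨![0, 1, 2, 5, 4, 3], 0, 8⟩,
   ⟨![0, 1, 5, 2, 4, 3], 0, 9⟩,
   ⟨![0, 2, 1, 5, 4, 3], 1, 6⟩,
   ⟨![0, 2, 5, 1, 4, 3], 2, 6⟩,
   ⟨![0, 5, 1, 2, 4, 3], 1, 9⟩,
   ⟨![0, 5, 2, 1, 4, 3], 2, 8⟩,
   ⟨![1, 0, 2, 5, 4, 3], 0, 8⟩,
   ⟨![1, 0, 5, 2, 4, 3], 0, 9⟩,
   ⟨![1, 2, 0, 5, 4, 3], 1, 6⟩,
   ⟨![1, 2, 5, 0, 4, 3], 2, 6⟩,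
   ⟨![1, 5, 0, 2, 4, 3], 1, 9⟩,
   ⟨![1, 5, 2, 0, 4, 3], 2, 8⟩,
   ⟨![2, 0, 1, 5, 4, 3], 4, 3⟩,
   ⟨![2, 0, 5, 1, 4, 3], 5, 3⟩,
   ⟨![2, 1, 0, 5, 4, 3], 4, 3⟩,
   ⟨![2, 1, 5, 0, 4, 3], 5, 3⟩,
   ⟨![2, 5, 0, 1, 4, 3], 7, 3⟩,
   ⟨![2, 5, 1, 0, 4, 3], 7, 3⟩,
   ⟨![5, 0, 1, 2, 4, 3], 4, 9⟩,
   ⟨![5, 0, 2, 1, 4, 3], 5, 8⟩,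
   ⟨![5, 1, 0, 2, 4, 3], 4, 9⟩,
   ⟨![5, 1, 2, 0, 4, 3], 5, 8⟩,
   ⟨![5, 2, 0, 1, 4, 3], 7, 6⟩,
   ⟨![5, 2, 1, 0, 4, 3], 7, 6⟩]

/-- placements with free vertices `4` and `5` -/
def gC10 : List PA :=
  [⟨![0, 1, 2, 3, 4, 5], 0, 7⟩,
   ⟨![0, 1, 3, 2, 4, 5], 0, 7⟩,
   ⟨![0, 2, 1, 3, 4, 5], 1, 5⟩,
   ⟨![0, 2, 3, 1, 4, 5], 2, 4⟩,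
   ⟨![0, 3, 1, 2, 4, 5], 1, 5⟩,
   ⟨![0, 3, 2, 1, 4, 5], 2, 4⟩,
   ⟨![1, 0, 2, 3, 4, 5], 0, 7⟩,
   ⟨![1, 0, 3, 2, 4, 5], 0, 7⟩,
   ⟨![1, 2, 0, 3, 4, 5], 1, 5⟩,
   ⟨![1, 2, 3, 0, 4, 5], 2, 4⟩,
   ⟨![1, 3, 0, 2, 4, 5], 1, 5⟩,
   ⟨![1, 3, 2, 0, 4, 5], 2, 4⟩,
   ⟨![2, 0, 1, 3, 4, 5], 4, 2⟩,
   ⟨![2, 0, 3, 1, 4, 5], 5, 1⟩,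
   ⟨![2, 1, 0, 3, 4, 5], 4, 2⟩,
   ⟨![2, 1, 3, 0, 4, 5], 5, 1⟩,
   ⟨![2, 3, 0, 1, 4, 5], 7, 0⟩,
   ⟨![2, 3, 1, 0, 4, 5], 7, 0⟩,
   ⟨![3, 0, 1, 2, 4, 5], 4, 2⟩,
   ⟨![3, 0, 2, 1, 4, 5], 5, 1⟩,
   ⟨![3, 1, 0, 2, 4, 5], 4, 2⟩,
   ⟨![3, 1, 2, 0, 4, 5], 5, 1⟩,
   ⟨![3, 2, 0, 1, 4, 5], 7, 0⟩,
   ⟨![3, 2, 1, 0, 4, 5], 7, 0⟩]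

/-- placements with free vertices `5` and `2` -/
def gC11 : List PA :=
  [⟨![0, 1, 3, 4, 5, 2], 0, 8⟩,
   ⟨![0, 1, 4, 3, 5, 2], 0, 9⟩,
   ⟨![0, 3, 1, 4, 5, 2], 1, 6⟩,
   ⟨![0, 3, 4, 1, 5, 2], 2, 6⟩,
   ⟨![0, 4, 1, 3, 5, 2], 1, 9⟩,
   ⟨![0, 4, 3, 1, 5, 2], 2, 8⟩,
   ⟨![1, 0, 3, 4, 5, 2], 0, 8⟩,
   ⟨![1, 0, 4, 3, 5, 2], 0, 9⟩,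
   ⟨![1, 3, 0, 4, 5, 2], 1, 6⟩,
   ⟨![1, 3, 4, 0, 5, 2], 2, 6⟩,
   ⟨![1, 4, 0, 3, 5, 2], 1, 9⟩,
   ⟨![1, 4, 3, 0, 5, 2], 2, 8⟩,
   ⟨![3, 0, 1, 4, 5, 2], 4, 3⟩,
   ⟨![3, 0, 4, 1, 5, 2], 5, 3⟩,
   ⟨![3, 1, 0, 4, 5, 2], 4, 3⟩,
   ⟨![3, 1, 4, 0, 5, 2], 5, 3⟩,
   ⟨![3, 4, 0, 1, 5, 2], 7, 3⟩,
   ⟨![3, 4, 1, 0, 5, 2], 7, 3⟩,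
   ⟨![4, 0, 1, 3, 5, 2], 4, 9⟩,
   ⟨![4, 0, 3, 1, 5, 2], 5, 8⟩,
   ⟨![4, 1, 0, 3, 5, 2], 4, 9⟩,
   ⟨![4, 1, 3, 0, 5, 2], 5, 8⟩,
   ⟨![4, 3, 0, 1, 5, 2], 7, 6⟩,
   ⟨![4, 3, 1, 0, 5, 2], 7, 6⟩]

/-- placements with free vertices `5` and `3` -/
def gC12 : List PA :=
  [⟨![0, 1, 2, 4, 5, 3], 0, 8⟩,
   ⟨![0, 1, 4, 2, 5, 3], 0, 9⟩,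
   ⟨![0, 2, 1, 4, 5, 3], 1, 6⟩,
   ⟨![0, 2, 4, 1, 5, 3], 2, 6⟩,
   ⟨![0, 4, 1, 2, 5, 3], 1, 9⟩,
   ⟨![0, 4, 2, 1, 5, 3], 2, 8⟩,
   ⟨![1, 0, 2, 4, 5, 3], 0, 8⟩,
   ⟨![1, 0, 4, 2, 5, 3], 0, 9⟩,
   ⟨![1, 2, 0, 4, 5, 3], 1, 6⟩,
   ⟨![1, 2, 4, 0, 5, 3], 2, 6⟩,
   ⟨![1, 4, 0, 2, 5, 3], 1, 9⟩,
   ⟨![1, 4, 2, 0, 5, 3], 2, 8⟩,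
   ⟨![2, 0, 1, 4, 5, 3], 4, 3⟩,
   ⟨![2, 0, 4, 1, 5, 3], 5, 3⟩,
   ⟨![2, 1, 0, 4, 5, 3], 4, 3⟩,
   ⟨![2, 1, 4, 0, 5, 3], 5, 3⟩,
   ⟨![2, 4, 0, 1, 5, 3], 7, 3⟩,
   ⟨![2, 4, 1, 0, 5, 3], 7, 3⟩,
   ⟨![4, 0, 1, 2, 5, 3], 4, 9⟩,
   ⟨![4, 0, 2, 1, 5, 3], 5, 8⟩,
   ⟨![4, 1, 0, 2, 5, 3], 4, 9⟩,
   ⟨![4, 1, 2, 0, 5, 3], 5, 8⟩,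
   ⟨![4, 2, 0, 1, 5, 3], 7, 6⟩,
   ⟨![4, 2, 1, 0, 5, 3], 7, 6⟩]

/-- placements with free vertices `5` and `4` -/
def gC13 : List PA :=
  [⟨![0, 1, 2, 3, 5, 4], 0, 7⟩,
   ⟨![0, 1, 3, 2, 5, 4], 0, 7⟩,
   ⟨![0, 2, 1, 3, 5, 4], 1, 5⟩,
   ⟨![0, 2, 3, 1, 5, 4], 2, 4⟩,
   ⟨![0, 3, 1, 2, 5, 4], 1, 5⟩,
   ⟨![0, 3, 2, 1, 5, 4], 2, 4⟩,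
   ⟨![1, 0, 2, 3, 5, 4], 0, 7⟩,
   ⟨![1, 0, 3, 2, 5, 4], 0, 7⟩,
   ⟨![1, 2, 0, 3, 5, 4], 1, 5⟩,
   ⟨![1, 2, 3, 0, 5, 4], 2, 4⟩,
   ⟨![1, 3, 0, 2, 5, 4], 1, 5⟩,
   ⟨![1, 3, 2, 0, 5, 4], 2, 4⟩,
   ⟨![2, 0, 1, 3, 5, 4], 4, 2⟩,
   ⟨![2, 0, 3, 1, 5, 4], 5, 1⟩,
   ⟨![2, 1, 0, 3, 5, 4], 4, 2⟩,
   ⟨![2, 1, 3, 0, 5, 4], 5, 1⟩,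
   ⟨![2, 3, 0, 1, 5, 4], 7, 0⟩,
   ⟨![2, 3, 1, 0, 5, 4], 7, 0⟩,
   ⟨![3, 0, 1, 2, 5, 4], 4, 2⟩,
   ⟨![3, 0, 2, 1, 5, 4], 5, 1⟩,
   ⟨![3, 1, 0, 2, 5, 4], 4, 2⟩,
   ⟨![3, 1, 2, 0, 5, 4], 5, 1⟩,
   ⟨![3, 2, 0, 1, 5, 4], 7, 0⟩,
   ⟨![3, 2, 1, 0, 5, 4], 7, 0⟩]

/-- all placements of two flags of the first kind -/
def plCA : List (List PA) :=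
  [gC0, gC1, gC2, gC3, gC4, gC5, gC6, gC7, gC8, gC9, gC10, gC11, gC12, gC13]

/-- placements with free vertices `1` and `2` -/
def gB0 : List PA :=
  [⟨![0, 3, 4, 5, 1, 2], 3, 3⟩,
   ⟨![0, 3, 5, 4, 1, 2], 3, 3⟩,
   ⟨![0, 4, 3, 5, 1, 2], 3, 3⟩,
   ⟨![0, 4, 5, 3, 1, 2], 3, 3⟩,
   ⟨![0, 5, 3, 4, 1, 2], 3, 3⟩,
   ⟨![0, 5, 4, 3, 1, 2], 3, 3⟩,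
   ⟨![3, 0, 4, 5, 1, 2], 6, 6⟩,
   ⟨![3, 0, 5, 4, 1, 2], 6, 6⟩,
   ⟨![3, 4, 0, 5, 1, 2], 8, 8⟩,
   ⟨![3, 4, 5, 0, 1, 2], 9, 9⟩,
   ⟨![3, 5, 0, 4, 1, 2], 8, 8⟩,
   ⟨![3, 5, 4, 0, 1, 2], 9, 9⟩,
   ⟨![4, 0, 3, 5, 1, 2], 6, 6⟩,
   ⟨![4, 0, 5, 3, 1, 2], 6, 6⟩,
   ⟨![4, 3, 0, 5, 1, 2], 8, 8⟩,
   ⟨![4, 3, 5, 0, 1, 2], 9, 9⟩,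
   ⟨![4, 5, 0, 3, 1, 2], 8, 8⟩,
   ⟨![4, 5, 3, 0, 1, 2], 9, 9⟩,
   ⟨![5, 0, 3, 4, 1, 2], 6, 6⟩,
   ⟨![5, 0, 4, 3, 1, 2], 6, 6⟩,
   ⟨![5, 3, 0, 4, 1, 2], 8, 8⟩,
   ⟨![5, 3, 4, 0, 1, 2], 9, 9⟩,
   ⟨![5, 4, 0, 3, 1, 2], 8, 8⟩,
   ⟨![5, 4, 3, 0, 1, 2], 9, 9⟩]

/-- placements with free vertices `1` and `3` -/
def gB1 : List PA :=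
  [⟨![0, 2, 4, 5, 1, 3], 3, 0⟩,
   ⟨![0, 2, 5, 4, 1, 3], 3, 0⟩,
   ⟨![0, 4, 2, 5, 1, 3], 3, 1⟩,
   ⟨![0, 4, 5, 2, 1, 3], 3, 2⟩,
   ⟨![0, 5, 2, 4, 1, 3], 3, 1⟩,
   ⟨![0, 5, 4, 2, 1, 3], 3, 2⟩,
   ⟨![2, 0, 4, 5, 1, 3], 6, 0⟩,
   ⟨![2, 0, 5, 4, 1, 3], 6, 0⟩,
   ⟨![2, 4, 0, 5, 1, 3], 8, 1⟩,
   ⟨![2, 4, 5, 0, 1, 3], 9, 2⟩,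
   ⟨![2, 5, 0, 4, 1, 3], 8, 1⟩,
   ⟨![2, 5, 4, 0, 1, 3], 9, 2⟩,
   ⟨![4, 0, 2, 5, 1, 3], 6, 4⟩,
   ⟨![4, 0, 5, 2, 1, 3], 6, 5⟩,
   ⟨![4, 2, 0, 5, 1, 3], 8, 4⟩,
   ⟨![4, 2, 5, 0, 1, 3], 9, 5⟩,
   ⟨![4, 5, 0, 2, 1, 3], 8, 7⟩,
   ⟨![4, 5, 2, 0, 1, 3], 9, 7⟩,
   ⟨![5, 0, 2, 4, 1, 3], 6, 4⟩,
   ⟨![5, 0, 4, 2, 1, 3], 6, 5⟩,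
   ⟨![5, 2, 0, 4, 1, 3], 8, 4⟩,
   ⟨![5, 2, 4, 0, 1, 3], 9, 5⟩,
   ⟨![5, 4, 0, 2, 1, 3], 8, 7⟩,
   ⟨![5, 4, 2, 0, 1, 3], 9, 7⟩]

/-- placements with free vertices `1` and `4` -/
def gB2 : List PA :=
  [⟨![0, 2, 3, 5, 1, 4], 3, 0⟩,
   ⟨![0, 2, 5, 3, 1, 4], 3, 0⟩,
   ⟨![0, 3, 2, 5, 1, 4], 3, 1⟩,
   ⟨![0, 3, 5, 2, 1, 4], 3, 2⟩,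
   ⟨![0, 5, 2, 3, 1, 4], 3, 1⟩,
   ⟨![0, 5, 3, 2, 1, 4], 3, 2⟩,
   ⟨![2, 0, 3, 5, 1, 4], 6, 0⟩,
   ⟨![2, 0, 5, 3, 1, 4], 6, 0⟩,
   ⟨![2, 3, 0, 5, 1, 4], 8, 1⟩,
   ⟨![2, 3, 5, 0, 1, 4], 9, 2⟩,
   ⟨![2, 5, 0, 3, 1, 4], 8, 1⟩,
   ⟨![2, 5, 3, 0, 1, 4], 9, 2⟩,
   ⟨![3, 0, 2, 5, 1, 4], 6, 4⟩,
   ⟨![3, 0, 5, 2, 1, 4], 6, 5⟩,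
   ⟨![3, 2, 0, 5, 1, 4], 8, 4⟩,
   ⟨![3, 2, 5, 0, 1, 4], 9, 5⟩,
   ⟨![3, 5, 0, 2, 1, 4], 8, 7⟩,
   ⟨![3, 5, 2, 0, 1, 4], 9, 7⟩,
   ⟨![5, 0, 2, 3, 1, 4], 6, 4⟩,
   ⟨![5, 0, 3, 2, 1, 4], 6, 5⟩,
   ⟨![5, 2, 0, 3, 1, 4], 8, 4⟩,
   ⟨![5, 2, 3, 0, 1, 4], 9, 5⟩,
   ⟨![5, 3, 0, 2, 1, 4], 8, 7⟩,
   ⟨![5, 3, 2, 0, 1, 4], 9, 7⟩]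

/-- placements with free vertices `1` and `5` -/
def gB3 : List PA :=
  [⟨![0, 2, 3, 4, 1, 5], 3, 0⟩,
   ⟨![0, 2, 4, 3, 1, 5], 3, 0⟩,
   ⟨![0, 3, 2, 4, 1, 5], 3, 1⟩,
   ⟨![0, 3, 4, 2, 1, 5], 3, 2⟩,
   ⟨![0, 4, 2, 3, 1, 5], 3, 1⟩,
   ⟨![0, 4, 3, 2, 1, 5], 3, 2⟩,
   ⟨![2, 0, 3, 4, 1, 5], 6, 0⟩,
   ⟨![2, 0, 4, 3, 1, 5], 6, 0⟩,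
   ⟨![2, 3, 0, 4, 1, 5], 8, 1⟩,
   ⟨![2, 3, 4, 0, 1, 5], 9, 2⟩,
   ⟨![2, 4, 0, 3, 1, 5], 8, 1⟩,
   ⟨![2, 4, 3, 0, 1, 5], 9, 2⟩,
   ⟨![3, 0, 2, 4, 1, 5], 6, 4⟩,
   ⟨![3, 0, 4, 2, 1, 5], 6, 5⟩,
   ⟨![3, 2, 0, 4, 1, 5], 8, 4⟩,
   ⟨![3, 2, 4, 0, 1, 5], 9, 5⟩,
   ⟨![3, 4, 0, 2, 1, 5], 8, 7⟩,
   ⟨![3, 4, 2, 0, 1, 5], 9, 7⟩,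
   ⟨![4, 0, 2, 3, 1, 5], 6, 4⟩,
   ⟨![4, 0, 3, 2, 1, 5], 6, 5⟩,
   ⟨![4, 2, 0, 3, 1, 5], 8, 4⟩,
   ⟨![4, 2, 3, 0, 1, 5], 9, 5⟩,
   ⟨![4, 3, 0, 2, 1, 5], 8, 7⟩,
   ⟨![4, 3, 2, 0, 1, 5], 9, 7⟩]

/-- placements with free vertices `3` and `2` -/
def gB4 : List PA :=
  [⟨![0, 1, 4, 5, 3, 2], 0, 3⟩,
   ⟨![0, 1, 5, 4, 3, 2], 0, 3⟩,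
   ⟨![0, 4, 1, 5, 3, 2], 1, 3⟩,
   ⟨![0, 4, 5, 1, 3, 2], 2, 3⟩,
   ⟨![0, 5, 1, 4, 3, 2], 1, 3⟩,
   ⟨![0, 5, 4, 1, 3, 2], 2, 3⟩,
   ⟨![1, 0, 4, 5, 3, 2], 0, 6⟩,
   ⟨![1, 0, 5, 4, 3, 2], 0, 6⟩,
   ⟨![1, 4, 0, 5, 3, 2], 1, 8⟩,
   ⟨![1, 4, 5, 0, 3, 2], 2, 9⟩,
   ⟨![1, 5, 0, 4, 3, 2], 1, 8⟩,
   ⟨![1, 5, 4, 0, 3, 2], 2, 9⟩,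
   ⟨![4, 0, 1, 5, 3, 2], 4, 6⟩,
   ⟨![4, 0, 5, 1, 3, 2], 5, 6⟩,
   ⟨![4, 1, 0, 5, 3, 2], 4, 8⟩,
   ⟨![4, 1, 5, 0, 3, 2], 5, 9⟩,
   ⟨![4, 5, 0, 1, 3, 2], 7, 8⟩,
   ⟨![4, 5, 1, 0, 3, 2], 7, 9⟩,
   ⟨![5, 0, 1, 4, 3, 2], 4, 6⟩,
   ⟨![5, 0, 4, 1, 3, 2], 5, 6⟩,
   ⟨![5, 1, 0, 4, 3, 2], 4, 8⟩,
   ⟨![5, 1, 4, 0, 3, 2], 5, 9⟩,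
   ⟨![5, 4, 0, 1, 3, 2], 7, 8⟩,
   ⟨![5, 4, 1, 0, 3, 2], 7, 9⟩]

/-- placements with free vertices `3` and `4` -/
def gB5 : List PA :=
  [⟨![0, 1, 2, 5, 3, 4], 0, 1⟩,
   ⟨![0, 1, 5, 2, 3, 4], 0, 2⟩,
   ⟨![0, 2, 1, 5, 3, 4], 1, 0⟩,
   ⟨![0, 2, 5, 1, 3, 4], 2, 0⟩,
   ⟨![0, 5, 1, 2, 3, 4], 1, 2⟩,
   ⟨![0, 5, 2, 1, 3, 4], 2, 1⟩,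
   ⟨![1, 0, 2, 5, 3, 4], 0, 4⟩,
   ⟨![1, 0, 5, 2, 3, 4], 0, 5⟩,
   ⟨![1, 2, 0, 5, 3, 4], 1, 4⟩,
   ⟨![1, 2, 5, 0, 3, 4], 2, 5⟩,
   ⟨![1, 5, 0, 2, 3, 4], 1, 7⟩,
   ⟨![1, 5, 2, 0, 3, 4], 2, 7⟩,
   ⟨![2, 0, 1, 5, 3, 4], 4, 0⟩,
   ⟨![2, 0, 5, 1, 3, 4], 5, 0⟩,
   ⟨![2, 1, 0, 5, 3, 4], 4, 1⟩,
   ⟨![2, 1, 5, 0, 3, 4], 5, 2⟩,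
   ⟨![2, 5, 0, 1, 3, 4], 7, 1⟩,
   ⟨![2, 5, 1, 0, 3, 4], 7, 2⟩,
   ⟨![5, 0, 1, 2, 3, 4], 4, 5⟩,
   ⟨![5, 0, 2, 1, 3, 4], 5, 4⟩,
   ⟨![5, 1, 0, 2, 3, 4], 4, 7⟩,
   ⟨![5, 1, 2, 0, 3, 4], 5, 7⟩,
   ⟨![5, 2, 0, 1, 3, 4], 7, 4⟩,
   ⟨![5, 2, 1, 0, 3, 4], 7, 5⟩]

/-- placements with free vertices `3` and `5` -/
def gB6 : List PA :=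
  [⟨![0, 1, 2, 4, 3, 5], 0, 1⟩,
   ⟨![0, 1, 4, 2, 3, 5], 0, 2⟩,
   ⟨![0, 2, 1, 4, 3, 5], 1, 0⟩,
   ⟨![0, 2, 4, 1, 3, 5], 2, 0⟩,
   ⟨![0, 4, 1, 2, 3, 5], 1, 2⟩,
   ⟨![0, 4, 2, 1, 3, 5], 2, 1⟩,
   ⟨![1, 0, 2, 4, 3, 5], 0, 4⟩,
   ⟨![1, 0, 4, 2, 3, 5], 0, 5⟩,
   ⟨![1, 2, 0, 4, 3, 5], 1, 4⟩,
   ⟨![1, 2, 4, 0, 3, 5], 2, 5⟩,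
   ⟨![1, 4, 0, 2, 3, 5], 1, 7⟩,
   ⟨![1, 4, 2, 0, 3, 5], 2, 7⟩,
   ⟨![2, 0, 1, 4, 3, 5], 4, 0⟩,
   ⟨![2, 0, 4, 1, 3, 5], 5, 0⟩,
   ⟨![2, 1, 0, 4, 3, 5], 4, 1⟩,
   ⟨![2, 1, 4, 0, 3, 5], 5, 2⟩,
   ⟨![2, 4, 0, 1, 3, 5], 7, 1⟩,
   ⟨![2, 4, 1, 0, 3, 5], 7, 2⟩,
   ⟨![4, 0, 1, 2, 3, 5], 4, 5⟩,
   ⟨![4, 0, 2, 1, 3, 5], 5, 4⟩,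
   ⟨![4, 1, 0, 2, 3, 5], 4, 7⟩,
   ⟨![4, 1, 2, 0, 3, 5], 5, 7⟩,
   ⟨![4, 2, 0, 1, 3, 5], 7, 4⟩,
   ⟨![4, 2, 1, 0, 3, 5], 7, 5⟩]

/-- placements with free vertices `4` and `2` -/
def gB7 : List PA :=
  [⟨![0, 1, 3, 5, 4, 2], 0, 3⟩,
   ⟨![0, 1, 5, 3, 4, 2], 0, 3⟩,
   ⟨![0, 3, 1, 5, 4, 2], 1, 3⟩,
   ⟨![0, 3, 5, 1, 4, 2], 2, 3⟩,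
   ⟨![0, 5, 1, 3, 4, 2], 1, 3⟩,
   ⟨![0, 5, 3, 1, 4, 2], 2, 3⟩,
   ⟨![1, 0, 3, 5, 4, 2], 0, 6⟩,
   ⟨![1, 0, 5, 3, 4, 2], 0, 6⟩,
   ⟨![1, 3, 0, 5, 4, 2], 1, 8⟩,
   ⟨![1, 3, 5, 0, 4, 2], 2, 9⟩,
   ⟨![1, 5, 0, 3, 4, 2], 1, 8⟩,
   ⟨![1, 5, 3, 0, 4, 2], 2, 9⟩,
   ⟨![3, 0, 1, 5, 4, 2], 4, 6⟩,
   ⟨![3, 0, 5, 1, 4, 2], 5, 6⟩,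
   ⟨![3, 1, 0, 5, 4, 2], 4, 8⟩,
   ⟨![3, 1, 5, 0, 4, 2], 5, 9⟩,
   ⟨![3, 5, 0, 1, 4, 2], 7, 8⟩,
   ⟨![3, 5, 1, 0, 4, 2], 7, 9⟩,
   ⟨![5, 0, 1, 3, 4, 2], 4, 6⟩,
   ⟨![5, 0, 3, 1, 4, 2], 5, 6⟩,
   ⟨![5, 1, 0, 3, 4, 2], 4, 8⟩,
   ⟨![5, 1, 3, 0, 4, 2], 5, 9⟩,
   ⟨![5, 3, 0, 1, 4, 2], 7, 8⟩,
   ⟨![5, 3, 1, 0, 4, 2], 7, 9⟩]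

/-- placements with free vertices `4` and `3` -/
def gB8 : List PA :=
  [⟨![0, 1, 2, 5, 4, 3], 0, 1⟩,
   ⟨![0, 1, 5, 2, 4, 3], 0, 2⟩,
   ⟨![0, 2, 1, 5, 4, 3], 1, 0⟩,
   ⟨![0, 2, 5, 1, 4, 3], 2, 0⟩,
   ⟨![0, 5, 1, 2, 4, 3], 1, 2⟩,
   ⟨![0, 5, 2, 1, 4, 3], 2, 1⟩,
   ⟨![1, 0, 2, 5, 4, 3], 0, 4⟩,
   ⟨![1, 0, 5, 2, 4, 3], 0, 5⟩,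
   ⟨![1, 2, 0, 5, 4, 3], 1, 4⟩,
   ⟨![1, 2, 5, 0, 4, 3], 2, 5⟩,
   ⟨![1, 5, 0, 2, 4, 3], 1, 7⟩,
   ⟨![1, 5, 2, 0, 4, 3], 2, 7⟩,
   ⟨![2, 0, 1, 5, 4, 3], 4, 0⟩,
   ⟨![2, 0, 5, 1, 4, 3], 5, 0⟩,
   ⟨![2, 1, 0, 5, 4, 3], 4, 1⟩,
   ⟨![2, 1, 5, 0, 4, 3], 5, 2⟩,
   ⟨![2, 5, 0, 1, 4, 3], 7, 1⟩,
   ⟨![2, 5, 1, 0, 4, 3], 7, 2⟩,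
   ⟨![5, 0, 1, 2, 4, 3], 4, 5⟩,
   ⟨![5, 0, 2, 1, 4, 3], 5, 4⟩,
   ⟨![5, 1, 0, 2, 4, 3], 4, 7⟩,
   ⟨![5, 1, 2, 0, 4, 3], 5, 7⟩,
   ⟨![5, 2, 0, 1, 4, 3], 7, 4⟩,
   ⟨![5, 2, 1, 0, 4, 3], 7, 5⟩]

/-- placements with free vertices `4` and `5` -/
def gB9 : List PA :=
  [⟨![0, 1, 2, 3, 4, 5], 0, 1⟩,
   ⟨![0, 1, 3, 2, 4, 5], 0, 2⟩,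
   ⟨![0, 2, 1, 3, 4, 5], 1, 0⟩,
   ⟨![0, 2, 3, 1, 4, 5], 2, 0⟩,
   ⟨![0, 3, 1, 2, 4, 5], 1, 2⟩,
   ⟨![0, 3, 2, 1, 4, 5], 2, 1⟩,
   ⟨![1, 0, 2, 3, 4, 5], 0, 4⟩,
   ⟨![1, 0, 3, 2, 4, 5], 0, 5⟩,
   ⟨![1, 2, 0, 3, 4, 5], 1, 4⟩,
   ⟨![1, 2, 3, 0, 4, 5], 2, 5⟩,
   ⟨![1, 3, 0, 2, 4, 5], 1, 7⟩,
   ⟨![1, 3, 2, 0, 4, 5], 2, 7⟩,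
   ⟨![2, 0, 1, 3, 4, 5], 4, 0⟩,
   ⟨![2, 0, 3, 1, 4, 5], 5, 0⟩,
   ⟨![2, 1, 0, 3, 4, 5], 4, 1⟩,
   ⟨![2, 1, 3, 0, 4, 5], 5, 2⟩,
   ⟨![2, 3, 0, 1, 4, 5], 7, 1⟩,
   ⟨![2, 3, 1, 0, 4, 5], 7, 2⟩,
   ⟨![3, 0, 1, 2, 4, 5], 4, 5⟩,
   ⟨![3, 0, 2, 1, 4, 5], 5, 4⟩,
   ⟨![3, 1, 0, 2, 4, 5], 4, 7⟩,
   ⟨![3, 1, 2, 0, 4, 5], 5, 7⟩,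
   ⟨![3, 2, 0, 1, 4, 5], 7, 4⟩,
   ⟨![3, 2, 1, 0, 4, 5], 7, 5⟩]

/-- placements with free vertices `5` and `2` -/
def gB10 : List PA :=
  [⟨![0, 1, 3, 4, 5, 2], 0, 3⟩,
   ⟨![0, 1, 4, 3, 5, 2], 0, 3⟩,
   ⟨![0, 3, 1, 4, 5, 2], 1, 3⟩,
   ⟨![0, 3, 4, 1, 5, 2], 2, 3⟩,
   ⟨![0, 4, 1, 3, 5, 2], 1, 3⟩,
   ⟨![0, 4, 3, 1, 5, 2], 2, 3⟩,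
   ⟨![1, 0, 3, 4, 5, 2], 0, 6⟩,
   ⟨![1, 0, 4, 3, 5, 2], 0, 6⟩,
   ⟨![1, 3, 0, 4, 5, 2], 1, 8⟩,
   ⟨![1, 3, 4, 0, 5, 2], 2, 9⟩,
   ⟨![1, 4, 0, 3, 5, 2], 1, 8⟩,
   ⟨![1, 4, 3, 0, 5, 2], 2, 9⟩,
   ⟨![3, 0, 1, 4, 5, 2], 4, 6⟩,
   ⟨![3, 0, 4, 1, 5, 2], 5, 6⟩,
   ⟨![3, 1, 0, 4, 5, 2], 4, 8⟩,
   ⟨![3, 1, 4, 0, 5, 2], 5, 9⟩,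
   ⟨![3, 4, 0, 1, 5, 2], 7, 8⟩,
   ⟨![3, 4, 1, 0, 5, 2], 7, 9⟩,
   ⟨![4, 0, 1, 3, 5, 2], 4, 6⟩,
   ⟨![4, 0, 3, 1, 5, 2], 5, 6⟩,
   ⟨![4, 1, 0, 3, 5, 2], 4, 8⟩,
   ⟨![4, 1, 3, 0, 5, 2], 5, 9⟩,
   ⟨![4, 3, 0, 1, 5, 2], 7, 8⟩,
   ⟨![4, 3, 1, 0, 5, 2], 7, 9⟩]

/-- placements with free vertices `5` and `3` -/
def gB11 : List PA :=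
  [⟨![0, 1, 2, 4, 5, 3], 0, 1⟩,
   ⟨![0, 1, 4, 2, 5, 3], 0, 2⟩,
   ⟨![0, 2, 1, 4, 5, 3], 1, 0⟩,
   ⟨![0, 2, 4, 1, 5, 3], 2, 0⟩,
   ⟨![0, 4, 1, 2, 5, 3], 1, 2⟩,
   ⟨![0, 4, 2, 1, 5, 3], 2, 1⟩,
   ⟨![1, 0, 2, 4, 5, 3], 0, 4⟩,
   ⟨![1, 0, 4, 2, 5, 3], 0, 5⟩,
   ⟨![1, 2, 0, 4, 5, 3], 1, 4⟩,
   ⟨![1, 2, 4, 0, 5, 3], 2, 5⟩,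
   ⟨![1, 4, 0, 2, 5, 3], 1, 7⟩,
   ⟨![1, 4, 2, 0, 5, 3], 2, 7⟩,
   ⟨![2, 0, 1, 4, 5, 3], 4, 0⟩,
   ⟨![2, 0, 4, 1, 5, 3], 5, 0⟩,
   ⟨![2, 1, 0, 4, 5, 3], 4, 1⟩,
   ⟨![2, 1, 4, 0, 5, 3], 5, 2⟩,
   ⟨![2, 4, 0, 1, 5, 3], 7, 1⟩,
   ⟨![2, 4, 1, 0, 5, 3], 7, 2⟩,
   ⟨![4, 0, 1, 2, 5, 3], 4, 5⟩,
   ⟨![4, 0, 2, 1, 5, 3], 5, 4⟩,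
   ⟨![4, 1, 0, 2, 5, 3], 4, 7⟩,
   ⟨![4, 1, 2, 0, 5, 3], 5, 7⟩,
   ⟨![4, 2, 0, 1, 5, 3], 7, 4⟩,
   ⟨![4, 2, 1, 0, 5, 3], 7, 5⟩]

/-- placements with free vertices `5` and `4` -/
def gB12 : List PA :=
  [⟨![0, 1, 2, 3, 5, 4], 0, 1⟩,
   ⟨![0, 1, 3, 2, 5, 4], 0, 2⟩,
   ⟨![0, 2, 1, 3, 5, 4], 1, 0⟩,
   ⟨![0, 2, 3, 1, 5, 4], 2, 0⟩,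
   ⟨![0, 3, 1, 2, 5, 4], 1, 2⟩,
   ⟨![0, 3, 2, 1, 5, 4], 2, 1⟩,
   ⟨![1, 0, 2, 3, 5, 4], 0, 4⟩,
   ⟨![1, 0, 3, 2, 5, 4], 0, 5⟩,
   ⟨![1, 2, 0, 3, 5, 4], 1, 4⟩,
   ⟨![1, 2, 3, 0, 5, 4], 2, 5⟩,
   ⟨![1, 3, 0, 2, 5, 4], 1, 7⟩,
   ⟨![1, 3, 2, 0, 5, 4], 2, 7⟩,
   ⟨![2, 0, 1, 3, 5, 4], 4, 0⟩,
   ⟨![2, 0, 3, 1, 5, 4], 5, 0⟩,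
   ⟨![2, 1, 0, 3, 5, 4], 4, 1⟩,
   ⟨![2, 1, 3, 0, 5, 4], 5, 2⟩,
   ⟨![2, 3, 0, 1, 5, 4], 7, 1⟩,
   ⟨![2, 3, 1, 0, 5, 4], 7, 2⟩,
   ⟨![3, 0, 1, 2, 5, 4], 4, 5⟩,
   ⟨![3, 0, 2, 1, 5, 4], 5, 4⟩,
   ⟨![3, 1, 0, 2, 5, 4], 4, 7⟩,
   ⟨![3, 1, 2, 0, 5, 4], 5, 7⟩,
   ⟨![3, 2, 0, 1, 5, 4], 7, 4⟩,
   ⟨![3, 2, 1, 0, 5, 4], 7, 5⟩]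

/-- all placements of two flags of the first kind -/
def plBA : List (List PA) :=
  [gB0, gB1, gB2, gB3, gB4, gB5, gB6, gB7, gB8, gB9, gB10, gB11, gB12]

/-- placements with free vertices `2` and `3` -/
def gA0 : List PA :=
  [⟨![0, 1, 4, 5, 2, 3], 0, 0⟩,
   ⟨![0, 1, 5, 4, 2, 3], 0, 0⟩,
   ⟨![0, 4, 1, 5, 2, 3], 1, 1⟩,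
   ⟨![0, 4, 5, 1, 2, 3], 2, 2⟩,
   ⟨![0, 5, 1, 4, 2, 3], 1, 1⟩,
   ⟨![0, 5, 4, 1, 2, 3], 2, 2⟩,
   ⟨![1, 0, 4, 5, 2, 3], 0, 0⟩,
   ⟨![1, 0, 5, 4, 2, 3], 0, 0⟩,
   ⟨![1, 4, 0, 5, 2, 3], 1, 1⟩,
   ⟨![1, 4, 5, 0, 2, 3], 2, 2⟩,
   ⟨![1, 5, 0, 4, 2, 3], 1, 1⟩,
   ⟨![1, 5, 4, 0, 2, 3], 2, 2⟩,
   ⟨![4, 0, 1, 5, 2, 3], 4, 4⟩,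
   ⟨![4, 0, 5, 1, 2, 3], 5, 5⟩,
   ⟨![4, 1, 0, 5, 2, 3], 4, 4⟩,
   ⟨![4, 1, 5, 0, 2, 3], 5, 5⟩,
   ⟨![4, 5, 0, 1, 2, 3], 7, 7⟩,
   ⟨![4, 5, 1, 0, 2, 3], 7, 7⟩,
   ⟨![5, 0, 1, 4, 2, 3], 4, 4⟩,
   ⟨![5, 0, 4, 1, 2, 3], 5, 5⟩,
   ⟨![5, 1, 0, 4, 2, 3], 4, 4⟩,
   ⟨![5, 1, 4, 0, 2, 3], 5, 5⟩,
   ⟨![5, 4, 0, 1, 2, 3], 7, 7⟩,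
   ⟨![5, 4, 1, 0, 2, 3], 7, 7⟩]

/-- placements with free vertices `2` and `4` -/
def gA1 : List PA :=
  [⟨![0, 1, 3, 5, 2, 4], 0, 0⟩,
   ⟨![0, 1, 5, 3, 2, 4], 0, 0⟩,
   ⟨![0, 3, 1, 5, 2, 4], 1, 1⟩,
   ⟨![0, 3, 5, 1, 2, 4], 2, 2⟩,
   ⟨![0, 5, 1, 3, 2, 4], 1, 1⟩,
   ⟨![0, 5, 3, 1, 2, 4], 2, 2⟩,
   ⟨![1, 0, 3, 5, 2, 4], 0, 0⟩,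
   ⟨![1, 0, 5, 3, 2, 4], 0, 0⟩,
   ⟨![1, 3, 0, 5, 2, 4], 1, 1⟩,
   ⟨![1, 3, 5, 0, 2, 4], 2, 2⟩,
   ⟨![1, 5, 0, 3, 2, 4], 1, 1⟩,
   ⟨![1, 5, 3, 0, 2, 4], 2, 2⟩,
   ⟨![3, 0, 1, 5, 2, 4], 4, 4⟩,
   ⟨![3, 0, 5, 1, 2, 4], 5, 5⟩,
   ⟨![3, 1, 0, 5, 2, 4], 4, 4⟩,
   ⟨![3, 1, 5, 0, 2, 4], 5, 5⟩,
   ⟨![3, 5, 0, 1, 2, 4], 7, 7⟩,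
   ⟨![3, 5, 1, 0, 2, 4], 7, 7⟩,
   ⟨![5, 0, 1, 3, 2, 4], 4, 4⟩,
   ⟨![5, 0, 3, 1, 2, 4], 5, 5⟩,
   ⟨![5, 1, 0, 3, 2, 4], 4, 4⟩,
   ⟨![5, 1, 3, 0, 2, 4], 5, 5⟩,
   ⟨![5, 3, 0, 1, 2, 4], 7, 7⟩,
   ⟨![5, 3, 1, 0, 2, 4], 7, 7⟩]

/-- placements with free vertices `2` and `5` -/
def gA2 : List PA :=
  [⟨![0, 1, 3, 4, 2, 5], 0, 0⟩,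
   ⟨![0, 1, 4, 3, 2, 5], 0, 0⟩,
   ⟨![0, 3, 1, 4, 2, 5], 1, 1⟩,
   ⟨![0, 3, 4, 1, 2, 5], 2, 2⟩,
   ⟨![0, 4, 1, 3, 2, 5], 1, 1⟩,
   ⟨![0, 4, 3, 1, 2, 5], 2, 2⟩,
   ⟨![1, 0, 3, 4, 2, 5], 0, 0⟩,
   ⟨![1, 0, 4, 3, 2, 5], 0, 0⟩,
   ⟨![1, 3, 0, 4, 2, 5], 1, 1⟩,
   ⟨![1, 3, 4, 0, 2, 5], 2, 2⟩,
   ⟨![1, 4, 0, 3, 2, 5], 1, 1⟩,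
   ⟨![1, 4, 3, 0, 2, 5], 2, 2⟩,
   ⟨![3, 0, 1, 4, 2, 5], 4, 4⟩,
   ⟨![3, 0, 4, 1, 2, 5], 5, 5⟩,
   ⟨![3, 1, 0, 4, 2, 5], 4, 4⟩,
   ⟨![3, 1, 4, 0, 2, 5], 5, 5⟩,
   ⟨![3, 4, 0, 1, 2, 5], 7, 7⟩,
   ⟨![3, 4, 1, 0, 2, 5], 7, 7⟩,
   ⟨![4, 0, 1, 3, 2, 5], 4, 4⟩,
   ⟨![4, 0, 3, 1, 2, 5], 5, 5⟩,
   ⟨![4, 1, 0, 3, 2, 5], 4, 4⟩,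
   ⟨![4, 1, 3, 0, 2, 5], 5, 5⟩,
   ⟨![4, 3, 0, 1, 2, 5], 7, 7⟩,
   ⟨![4, 3, 1, 0, 2, 5], 7, 7⟩]

/-- placements with free vertices `3` and `2` -/
def gA3 : List PA :=
  [⟨![0, 1, 4, 5, 3, 2], 0, 0⟩,
   ⟨![0, 1, 5, 4, 3, 2], 0, 0⟩,
   ⟨![0, 4, 1, 5, 3, 2], 1, 1⟩,
   ⟨![0, 4, 5, 1, 3, 2], 2, 2⟩,
   ⟨![0, 5, 1, 4, 3, 2], 1, 1⟩,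
   ⟨![0, 5, 4, 1, 3, 2], 2, 2⟩,
   ⟨![1, 0, 4, 5, 3, 2], 0, 0⟩,
   ⟨![1, 0, 5, 4, 3, 2], 0, 0⟩,
   ⟨![1, 4, 0, 5, 3, 2], 1, 1⟩,
   ⟨![1, 4, 5, 0, 3, 2], 2, 2⟩,
   ⟨![1, 5, 0, 4, 3, 2], 1, 1⟩,
   ⟨![1, 5, 4, 0, 3, 2], 2, 2⟩,
   ⟨![4, 0, 1, 5, 3, 2], 4, 4⟩,
   ⟨![4, 0, 5, 1, 3, 2], 5, 5⟩,
   ⟨![4, 1, 0, 5, 3, 2], 4, 4⟩,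
   ⟨![4, 1, 5, 0, 3, 2], 5, 5⟩,
   ⟨![4, 5, 0, 1, 3, 2], 7, 7⟩,
   ⟨![4, 5, 1, 0, 3, 2], 7, 7⟩,
   ⟨![5, 0, 1, 4, 3, 2], 4, 4⟩,
   ⟨![5, 0, 4, 1, 3, 2], 5, 5⟩,
   ⟨![5, 1, 0, 4, 3, 2], 4, 4⟩,
   ⟨![5, 1, 4, 0, 3, 2], 5, 5⟩,
   ⟨![5, 4, 0, 1, 3, 2], 7, 7⟩,
   ⟨![5, 4, 1, 0, 3, 2], 7, 7⟩]

/-- placements with free vertices `3` and `4` -/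
def gA4 : List PA :=
  [⟨![0, 1, 2, 5, 3, 4], 0, 0⟩,
   ⟨![0, 1, 5, 2, 3, 4], 0, 0⟩,
   ⟨![0, 2, 1, 5, 3, 4], 1, 1⟩,
   ⟨![0, 2, 5, 1, 3, 4], 2, 2⟩,
   ⟨![0, 5, 1, 2, 3, 4], 1, 1⟩,
   ⟨![0, 5, 2, 1, 3, 4], 2, 2⟩,
   ⟨![1, 0, 2, 5, 3, 4], 0, 0⟩,
   ⟨![1, 0, 5, 2, 3, 4], 0, 0⟩,
   ⟨![1, 2, 0, 5, 3, 4], 1, 1⟩,
   ⟨![1, 2, 5, 0, 3, 4], 2, 2⟩,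
   ⟨![1, 5, 0, 2, 3, 4], 1, 1⟩,
   ⟨![1, 5, 2, 0, 3, 4], 2, 2⟩,
   ⟨![2, 0, 1, 5, 3, 4], 4, 4⟩,
   ⟨![2, 0, 5, 1, 3, 4], 5, 5⟩,
   ⟨![2, 1, 0, 5, 3, 4], 4, 4⟩,
   ⟨![2, 1, 5, 0, 3, 4], 5, 5⟩,
   ⟨![2, 5, 0, 1, 3, 4], 7, 7⟩,
   ⟨![2, 5, 1, 0, 3, 4], 7, 7⟩,
   ⟨![5, 0, 1, 2, 3, 4], 4, 4⟩,
   ⟨![5, 0, 2, 1, 3, 4], 5, 5⟩,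
   ⟨![5, 1, 0, 2, 3, 4], 4, 4⟩,
   ⟨![5, 1, 2, 0, 3, 4], 5, 5⟩,
   ⟨![5, 2, 0, 1, 3, 4], 7, 7⟩,
   ⟨![5, 2, 1, 0, 3, 4], 7, 7⟩]

/-- placements with free vertices `3` and `5` -/
def gA5 : List PA :=
  [⟨![0, 1, 2, 4, 3, 5], 0, 0⟩,
   ⟨![0, 1, 4, 2, 3, 5], 0, 0⟩,
   ⟨![0, 2, 1, 4, 3, 5], 1, 1⟩,
   ⟨![0, 2, 4, 1, 3, 5], 2, 2⟩,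
   ⟨![0, 4, 1, 2, 3, 5], 1, 1⟩,
   ⟨![0, 4, 2, 1, 3, 5], 2, 2⟩,
   ⟨![1, 0, 2, 4, 3, 5], 0, 0⟩,
   ⟨![1, 0, 4, 2, 3, 5], 0, 0⟩,
   ⟨![1, 2, 0, 4, 3, 5], 1, 1⟩,
   ⟨![1, 2, 4, 0, 3, 5], 2, 2⟩,
   ⟨![1, 4, 0, 2, 3, 5], 1, 1⟩,
   ⟨![1, 4, 2, 0, 3, 5], 2, 2⟩,
   ⟨![2, 0, 1, 4, 3, 5], 4, 4⟩,
   ⟨![2, 0, 4, 1, 3, 5], 5, 5⟩,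
   ⟨![2, 1, 0, 4, 3, 5], 4, 4⟩,
   ⟨![2, 1, 4, 0, 3, 5], 5, 5⟩,
   ⟨![2, 4, 0, 1, 3, 5], 7, 7⟩,
   ⟨![2, 4, 1, 0, 3, 5], 7, 7⟩,
   ⟨![4, 0, 1, 2, 3, 5], 4, 4⟩,
   ⟨![4, 0, 2, 1, 3, 5], 5, 5⟩,
   ⟨![4, 1, 0, 2, 3, 5], 4, 4⟩,
   ⟨![4, 1, 2, 0, 3, 5], 5, 5⟩,
   ⟨![4, 2, 0, 1, 3, 5], 7, 7⟩,
   ⟨![4, 2, 1, 0, 3, 5], 7, 7⟩]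

/-- placements with free vertices `4` and `2` -/
def gA6 : List PA :=
  [⟨![0, 1, 3, 5, 4, 2], 0, 0⟩,
   ⟨![0, 1, 5, 3, 4, 2], 0, 0⟩,
   ⟨![0, 3, 1, 5, 4, 2], 1, 1⟩,
   ⟨![0, 3, 5, 1, 4, 2], 2, 2⟩,
   ⟨![0, 5, 1, 3, 4, 2], 1, 1⟩,
   ⟨![0, 5, 3, 1, 4, 2], 2, 2⟩,
   ⟨![1, 0, 3, 5, 4, 2], 0, 0⟩,
   ⟨![1, 0, 5, 3, 4, 2], 0, 0⟩,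
   ⟨![1, 3, 0, 5, 4, 2], 1, 1⟩,
   ⟨![1, 3, 5, 0, 4, 2], 2, 2⟩,
   ⟨![1, 5, 0, 3, 4, 2], 1, 1⟩,
   ⟨![1, 5, 3, 0, 4, 2], 2, 2⟩,
   ⟨![3, 0, 1, 5, 4, 2], 4, 4⟩,
   ⟨![3, 0, 5, 1, 4, 2], 5, 5⟩,
   ⟨![3, 1, 0, 5, 4, 2], 4, 4⟩,
   ⟨![3, 1, 5, 0, 4, 2], 5, 5⟩,
   ⟨![3, 5, 0, 1, 4, 2], 7, 7⟩,
   ⟨![3, 5, 1, 0, 4, 2], 7, 7⟩,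
   ⟨![5, 0, 1, 3, 4, 2], 4, 4⟩,
   ⟨![5, 0, 3, 1, 4, 2], 5, 5⟩,
   ⟨![5, 1, 0, 3, 4, 2], 4, 4⟩,
   ⟨![5, 1, 3, 0, 4, 2], 5, 5⟩,
   ⟨![5, 3, 0, 1, 4, 2], 7, 7⟩,
   ⟨![5, 3, 1, 0, 4, 2], 7, 7⟩]

/-- placements with free vertices `4` and `3` -/
def gA7 : List PA :=
  [⟨![0, 1, 2, 5, 4, 3], 0, 0⟩,
   ⟨![0, 1, 5, 2, 4, 3], 0, 0⟩,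
   ⟨![0, 2, 1, 5, 4, 3], 1, 1⟩,
   ⟨![0, 2, 5, 1, 4, 3], 2, 2⟩,
   ⟨![0, 5, 1, 2, 4, 3], 1, 1⟩,
   ⟨![0, 5, 2, 1, 4, 3], 2, 2⟩,
   ⟨![1, 0, 2, 5, 4, 3], 0, 0⟩,
   ⟨![1, 0, 5, 2, 4, 3], 0, 0⟩,
   ⟨![1, 2, 0, 5, 4, 3], 1, 1⟩,
   ⟨![1, 2, 5, 0, 4, 3], 2, 2⟩,
   ⟨![1, 5, 0, 2, 4, 3], 1, 1⟩,
   ⟨![1, 5, 2, 0, 4, 3], 2, 2⟩,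
   ⟨![2, 0, 1, 5, 4, 3], 4, 4⟩,
   ⟨![2, 0, 5, 1, 4, 3], 5, 5⟩,
   ⟨![2, 1, 0, 5, 4, 3], 4, 4⟩,
   ⟨![2, 1, 5, 0, 4, 3], 5, 5⟩,
   ⟨![2, 5, 0, 1, 4, 3], 7, 7⟩,
   ⟨![2, 5, 1, 0, 4, 3], 7, 7⟩,
   ⟨![5, 0, 1, 2, 4, 3], 4, 4⟩,
   ⟨![5, 0, 2, 1, 4, 3], 5, 5⟩,
   ⟨![5, 1, 0, 2, 4, 3], 4, 4⟩,
   ⟨![5, 1, 2, 0, 4, 3], 5, 5⟩,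
   ⟨![5, 2, 0, 1, 4, 3], 7, 7⟩,
   ⟨![5, 2, 1, 0, 4, 3], 7, 7⟩]

/-- placements with free vertices `4` and `5` -/
def gA8 : List PA :=
  [⟨![0, 1, 2, 3, 4, 5], 0, 0⟩,
   ⟨![0, 1, 3, 2, 4, 5], 0, 0⟩,
   ⟨![0, 2, 1, 3, 4, 5], 1, 1⟩,
   ⟨![0, 2, 3, 1, 4, 5], 2, 2⟩,
   ⟨![0, 3, 1, 2, 4, 5], 1, 1⟩,
   ⟨![0, 3, 2, 1, 4, 5], 2, 2⟩,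
   ⟨![1, 0, 2, 3, 4, 5], 0, 0⟩,
   ⟨![1, 0, 3, 2, 4, 5], 0, 0⟩,
   ⟨![1, 2, 0, 3, 4, 5], 1, 1⟩,
   ⟨![1, 2, 3, 0, 4, 5], 2, 2⟩,
   ⟨![1, 3, 0, 2, 4, 5], 1, 1⟩,
   ⟨![1, 3, 2, 0, 4, 5], 2, 2⟩,
   ⟨![2, 0, 1, 3, 4, 5], 4, 4⟩,
   ⟨![2, 0, 3, 1, 4, 5], 5, 5⟩,
   ⟨![2, 1, 0, 3, 4, 5], 4, 4⟩,
   ⟨![2, 1, 3, 0, 4, 5], 5, 5⟩,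
   ⟨![2, 3, 0, 1, 4, 5], 7, 7⟩,
   ⟨![2, 3, 1, 0, 4, 5], 7, 7⟩,
   ⟨![3, 0, 1, 2, 4, 5], 4, 4⟩,
   ⟨![3, 0, 2, 1, 4, 5], 5, 5⟩,
   ⟨![3, 1, 0, 2, 4, 5], 4, 4⟩,
   ⟨![3, 1, 2, 0, 4, 5], 5, 5⟩,
   ⟨![3, 2, 0, 1, 4, 5], 7, 7⟩,
   ⟨![3, 2, 1, 0, 4, 5], 7, 7⟩]

/-- placements with free vertices `5` and `2` -/
def gA9 : List PA :=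
  [⟨![0, 1, 3, 4, 5, 2], 0, 0⟩,
   ⟨![0, 1, 4, 3, 5, 2], 0, 0⟩,
   ⟨![0, 3, 1, 4, 5, 2], 1, 1⟩,
   ⟨![0, 3, 4, 1, 5, 2], 2, 2⟩,
   ⟨![0, 4, 1, 3, 5, 2], 1, 1⟩,
   ⟨![0, 4, 3, 1, 5, 2], 2, 2⟩,
   ⟨![1, 0, 3, 4, 5, 2], 0, 0⟩,
   ⟨![1, 0, 4, 3, 5, 2], 0, 0⟩,
   ⟨![1, 3, 0, 4, 5, 2], 1, 1⟩,
   ⟨![1, 3, 4, 0, 5, 2], 2, 2⟩,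
   ⟨![1, 4, 0, 3, 5, 2], 1, 1⟩,
   ⟨![1, 4, 3, 0, 5, 2], 2, 2⟩,
   ⟨![3, 0, 1, 4, 5, 2], 4, 4⟩,
   ⟨![3, 0, 4, 1, 5, 2], 5, 5⟩,
   ⟨![3, 1, 0, 4, 5, 2], 4, 4⟩,
   ⟨![3, 1, 4, 0, 5, 2], 5, 5⟩,
   ⟨![3, 4, 0, 1, 5, 2], 7, 7⟩,
   ⟨![3, 4, 1, 0, 5, 2], 7, 7⟩,
   ⟨![4, 0, 1, 3, 5, 2], 4, 4⟩,
   ⟨![4, 0, 3, 1, 5, 2], 5, 5⟩,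
   ⟨![4, 1, 0, 3, 5, 2], 4, 4⟩,
   ⟨![4, 1, 3, 0, 5, 2], 5, 5⟩,
   ⟨![4, 3, 0, 1, 5, 2], 7, 7⟩,
   ⟨![4, 3, 1, 0, 5, 2], 7, 7⟩]

/-- placements with free vertices `5` and `3` -/
def gA10 : List PA :=
  [⟨![0, 1, 2, 4, 5, 3], 0, 0⟩,
   ⟨![0, 1, 4, 2, 5, 3], 0, 0⟩,
   ⟨![0, 2, 1, 4, 5, 3], 1, 1⟩,
   ⟨![0, 2, 4, 1, 5, 3], 2, 2⟩,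
   ⟨![0, 4, 1, 2, 5, 3], 1, 1⟩,
   ⟨![0, 4, 2, 1, 5, 3], 2, 2⟩,
   ⟨![1, 0, 2, 4, 5, 3], 0, 0⟩,
   ⟨![1, 0, 4, 2, 5, 3], 0, 0⟩,
   ⟨![1, 2, 0, 4, 5, 3], 1, 1⟩,
   ⟨![1, 2, 4, 0, 5, 3], 2, 2⟩,
   ⟨![1, 4, 0, 2, 5, 3], 1, 1⟩,
   ⟨![1, 4, 2, 0, 5, 3], 2, 2⟩,
   ⟨![2, 0, 1, 4, 5, 3], 4, 4⟩,
   ⟨![2, 0, 4, 1, 5, 3], 5, 5⟩,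
   ⟨![2, 1, 0, 4, 5, 3], 4, 4⟩,
   ⟨![2, 1, 4, 0, 5, 3], 5, 5⟩,
   ⟨![2, 4, 0, 1, 5, 3], 7, 7⟩,
   ⟨![2, 4, 1, 0, 5, 3], 7, 7⟩,
   ⟨![4, 0, 1, 2, 5, 3], 4, 4⟩,
   ⟨![4, 0, 2, 1, 5, 3], 5, 5⟩,
   ⟨![4, 1, 0, 2, 5, 3], 4, 4⟩,
   ⟨![4, 1, 2, 0, 5, 3], 5, 5⟩,
   ⟨![4, 2, 0, 1, 5, 3], 7, 7⟩,
   ⟨![4, 2, 1, 0, 5, 3], 7, 7⟩]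

/-- placements with free vertices `5` and `4` -/
def gA11 : List PA :=
  [⟨![0, 1, 2, 3, 5, 4], 0, 0⟩,
   ⟨![0, 1, 3, 2, 5, 4], 0, 0⟩,
   ⟨![0, 2, 1, 3, 5, 4], 1, 1⟩,
   ⟨![0, 2, 3, 1, 5, 4], 2, 2⟩,
   ⟨![0, 3, 1, 2, 5, 4], 1, 1⟩,
   ⟨![0, 3, 2, 1, 5, 4], 2, 2⟩,
   ⟨![1, 0, 2, 3, 5, 4], 0, 0⟩,
   ⟨![1, 0, 3, 2, 5, 4], 0, 0⟩,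
   ⟨![1, 2, 0, 3, 5, 4], 1, 1⟩,
   ⟨![1, 2, 3, 0, 5, 4], 2, 2⟩,
   ⟨![1, 3, 0, 2, 5, 4], 1, 1⟩,
   ⟨![1, 3, 2, 0, 5, 4], 2, 2⟩,
   ⟨![2, 0, 1, 3, 5, 4], 4, 4⟩,
   ⟨![2, 0, 3, 1, 5, 4], 5, 5⟩,
   ⟨![2, 1, 0, 3, 5, 4], 4, 4⟩,
   ⟨![2, 1, 3, 0, 5, 4], 5, 5⟩,
   ⟨![2, 3, 0, 1, 5, 4], 7, 7⟩,
   ⟨![2, 3, 1, 0, 5, 4], 7, 7⟩,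
   ⟨![3, 0, 1, 2, 5, 4], 4, 4⟩,
   ⟨![3, 0, 2, 1, 5, 4], 5, 5⟩,
   ⟨![3, 1, 0, 2, 5, 4], 4, 4⟩,
   ⟨![3, 1, 2, 0, 5, 4], 5, 5⟩,
   ⟨![3, 2, 0, 1, 5, 4], 7, 7⟩,
   ⟨![3, 2, 1, 0, 5, 4], 7, 7⟩]

/-- all placements of two flags of the first kind -/
def plAA : List (List PA) :=
  [gA0, gA1, gA2, gA3, gA4, gA5, gA6, gA7, gA8, gA9, gA10, gA11]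

def hC0 : List PC :=
  [⟨![0, 1, 4, 5, 2, 3], 0, 5⟩,
   ⟨![1, 0, 4, 5, 2, 3], 0, 5⟩]

def hC1 : List PC :=
  [⟨![0, 2, 1, 4, 3, 5], 1, 3⟩,
   ⟨![2, 0, 1, 4, 3, 5], 3, 1⟩]

def hC2 : List PC :=
  [⟨![0, 2, 1, 5, 3, 4], 1, 3⟩,
   ⟨![2, 0, 1, 5, 3, 4], 3, 1⟩]

def hC3 : List PC :=
  [⟨![0, 3, 1, 4, 2, 5], 1, 3⟩,
   ⟨![3, 0, 1, 4, 2, 5], 3, 1⟩]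

def hC4 : List PC :=
  [⟨![0, 3, 1, 5, 2, 4], 1, 3⟩,
   ⟨![3, 0, 1, 5, 2, 4], 3, 1⟩]

def hC5 : List PC :=
  [⟨![0, 4, 1, 5, 2, 3], 1, 5⟩,
   ⟨![4, 0, 1, 5, 2, 3], 3, 5⟩]

def hC6 : List PC :=
  [⟨![0, 5, 1, 4, 2, 3], 1, 5⟩,
   ⟨![5, 0, 1, 4, 2, 3], 3, 5⟩]

def hC7 : List PC :=
  [⟨![1, 2, 0, 4, 3, 5], 1, 3⟩,
   ⟨![2, 1, 0, 4, 3, 5], 3, 1⟩]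

def hC8 : List PC :=
  [⟨![1, 2, 0, 5, 3, 4], 1, 3⟩,
   ⟨![2, 1, 0, 5, 3, 4], 3, 1⟩]

def hC9 : List PC :=
  [⟨![1, 3, 0, 4, 2, 5], 1, 3⟩,
   ⟨![3, 1, 0, 4, 2, 5], 3, 1⟩]

def hC10 : List PC :=
  [⟨![1, 3, 0, 5, 2, 4], 1, 3⟩,
   ⟨![3, 1, 0, 5, 2, 4], 3, 1⟩]

def hC11 : List PC :=
  [⟨![1, 4, 0, 5, 2, 3], 1, 5⟩,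
   ⟨![4, 1, 0, 5, 2, 3], 3, 5⟩]

def hC12 : List PC :=
  [⟨![1, 5, 0, 4, 2, 3], 1, 5⟩,
   ⟨![5, 1, 0, 4, 2, 3], 3, 5⟩]

def hC13 : List PC :=
  [⟨![2, 3, 0, 1, 4, 5], 5, 0⟩,
   ⟨![3, 2, 0, 1, 4, 5], 5, 0⟩]

def hC14 : List PC :=
  [⟨![2, 4, 0, 1, 3, 5], 5, 1⟩,
   ⟨![4, 2, 0, 1, 3, 5], 5, 3⟩]

def hC15 : List PC :=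
  [⟨![2, 5, 0, 1, 3, 4], 5, 1⟩,
   ⟨![5, 2, 0, 1, 3, 4], 5, 3⟩]

def hC16 : List PC :=
  [⟨![3, 4, 0, 1, 2, 5], 5, 1⟩,
   ⟨![4, 3, 0, 1, 2, 5], 5, 3⟩]

def hC17 : List PC :=
  [⟨![3, 5, 0, 1, 2, 4], 5, 1⟩,
   ⟨![5, 3, 0, 1, 2, 4], 5, 3⟩]

def hC18 : List PC :=
  [⟨![4, 5, 0, 1, 2, 3], 5, 5⟩,
   ⟨![5, 4, 0, 1, 2, 3], 5, 5⟩]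

/-- groups of placements of two flags of the second kind -/
def pgCC : List (List PC) :=
  [hC0, hC1, hC2, hC3, hC4, hC5, hC6, hC7, hC8, hC9, hC10, hC11, hC12, hC13, hC14, hC15, hC16, hC17, hC18]

/-- placements of two flags of the second kind -/
def plCC : List PC := pgCC.flatten

def hB0 : List PC :=
  [⟨![0, 1, 3, 4, 2, 5], 0, 1⟩,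
   ⟨![1, 0, 3, 4, 2, 5], 0, 3⟩]

def hB1 : List PC :=
  [⟨![0, 1, 3, 5, 2, 4], 0, 1⟩,
   ⟨![1, 0, 3, 5, 2, 4], 0, 3⟩]

def hB2 : List PC :=
  [⟨![0, 1, 4, 5, 2, 3], 0, 1⟩,
   ⟨![1, 0, 4, 5, 2, 3], 0, 3⟩]

def hB3 : List PC :=
  [⟨![0, 2, 1, 3, 4, 5], 1, 0⟩,
   ⟨![2, 0, 1, 3, 4, 5], 3, 0⟩]

def hB4 : List PC :=
  [⟨![0, 2, 1, 4, 3, 5], 1, 0⟩,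
   ⟨![2, 0, 1, 4, 3, 5], 3, 0⟩]

def hB5 : List PC :=
  [⟨![0, 2, 1, 5, 3, 4], 1, 0⟩,
   ⟨![2, 0, 1, 5, 3, 4], 3, 0⟩]

def hB6 : List PC :=
  [⟨![0, 3, 1, 4, 2, 5], 1, 1⟩,
   ⟨![3, 0, 1, 4, 2, 5], 3, 3⟩]

def hB7 : List PC :=
  [⟨![0, 3, 1, 5, 2, 4], 1, 1⟩,
   ⟨![3, 0, 1, 5, 2, 4], 3, 3⟩]

def hB8 : List PC :=
  [⟨![0, 4, 1, 3, 2, 5], 1, 1⟩,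
   ⟨![4, 0, 1, 3, 2, 5], 3, 3⟩]

def hB9 : List PC :=
  [⟨![0, 4, 1, 5, 2, 3], 1, 1⟩,
   ⟨![4, 0, 1, 5, 2, 3], 3, 3⟩]

def hB10 : List PC :=
  [⟨![0, 5, 1, 3, 2, 4], 1, 1⟩,
   ⟨![5, 0, 1, 3, 2, 4], 3, 3⟩]

def hB11 : List PC :=
  [⟨![0, 5, 1, 4, 2, 3], 1, 1⟩,
   ⟨![5, 0, 1, 4, 2, 3], 3, 3⟩]

/-- groups of placements of two flags of the second kind -/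
def pgBC : List (List PC) :=
  [hB0, hB1, hB2, hB3, hB4, hB5, hB6, hB7, hB8, hB9, hB10, hB11]

/-- placements of two flags of the second kind -/
def plBC : List PC := pgBC.flatten

def hA0 : List PC :=
  [⟨![0, 1, 2, 3, 4, 5], 0, 0⟩,
   ⟨![1, 0, 2, 3, 4, 5], 0, 0⟩]

def hA1 : List PC :=
  [⟨![0, 1, 2, 4, 3, 5], 0, 0⟩,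
   ⟨![1, 0, 2, 4, 3, 5], 0, 0⟩]

def hA2 : List PC :=
  [⟨![0, 1, 2, 5, 3, 4], 0, 0⟩,
   ⟨![1, 0, 2, 5, 3, 4], 0, 0⟩]

def hA3 : List PC :=
  [⟨![0, 1, 3, 4, 2, 5], 0, 0⟩,
   ⟨![1, 0, 3, 4, 2, 5], 0, 0⟩]

def hA4 : List PC :=
  [⟨![0, 1, 3, 5, 2, 4], 0, 0⟩,
   ⟨![1, 0, 3, 5, 2, 4], 0, 0⟩]

def hA5 : List PC :=
  [⟨![0, 1, 4, 5, 2, 3], 0, 0⟩,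
   ⟨![1, 0, 4, 5, 2, 3], 0, 0⟩]

/-- groups of placements of two flags of the second kind -/
def pgAC : List (List PC) :=
  [hA0, hA1, hA2, hA3, hA4, hA5]

/-- placements of two flags of the second kind -/
def plAC : List PC := pgAC.flatten

end Pool.Agent.Helper96.FC
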