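import Pool.Agent.Helper96.FC.Grp4

/-!
# Flag certificates on six vertices: loops and checks of tables
-/

set_option autoImplicit false

namespace Pool.Agent.Helper96.FC

/-- evaluate the argument first -/
def frc (f : ℕ → ℕ) (n : ℕ) : ℕ := Nat.rec (motive := fun _ => ℕ) (f 0) (fun k _ => f (Nat.succ k)) n

theorem frc_eq (f : ℕ → ℕ) (n : ℕ) : frc f n = f n := by cases n <;> rfl

def frcB (f : ℕ → Bool) (n : ℕ) : Bool :=
  Nat.rec (motive := fun _ => Bool) (f 0) (fun k _ => f (Nat.succ k)) n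

theorem frcB_eq (f : ℕ → Bool) (n : ℕ) : frcB f n = f n := by cases n <;> rfl

/-- all numbers below `n` -/
def allN (n : ℕ) (p : ℕ → Bool) : Bool :=
  Nat.rec (motive := fun _ => Bool) true (fun k r => cond (p k) r false) n

theorem allN_iff (n : ℕ) (p : ℕ → Bool) : allN n p = true ↔ ∀ k < n, p k = true := by
  induction n with
  | zero => simp [allN]
  | succ n ih =>
    have h : allN (n + 1) p = cond (p n) (allN n p) false := rfl
    rw [h]
    cases hp : p n
    · simp only [cond_false, Bool.false_eq_true, false_iff]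
      intro h
      have := h n (Nat.lt_succ_self n)
      rw [hp] at this
      exact Bool.false_ne_true this
    · simp only [cond_true]
      rw [ih]
      constructor
      · intro h k hk
        rcases Nat.lt_succ_iff_lt_or_eq.1 hk with hk | rfl
        · exact h k hk
        · exact hp
      · exact fun h k hk => h k (Nat.lt_succ_of_lt hk)

/-- equality of lists -/
def eqL : List ℕ → List ℕ → Bool
  | [], [] => true
  | a :: l, b :: m => cond (Nat.beq a b) (eqL l m) false
  | _, _ => false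

theorem eqL_eq {l m : List ℕ} (h : eqL l m = true) : l = m := by
  induction l generalizing m with
  | nil =>
    cases m with
    | nil => rfl
    | cons b m => simp [eqL] at h
  | cons a l ih =>
    cases m with
    | nil => simp [eqL] at h
    | cons b m =>
      rw [eqL] at h
      cases hab : Nat.beq a b
      · rw [hab] at h; simp at h
      · rw [hab, cond_true] at h
        rw [ih h, Nat.eq_of_beq_eq_true hab]

/-- all elements of a list are at most `b` -/
def leL (b : ℕ) : List ℕ → Bool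
  | [] => true
  | a :: l => cond (Nat.ble a b) (leL b l) false

theorem leL_le {b : ℕ} {l : List ℕ} (h : leL b l = true) : ∀ a ∈ l, a ≤ b := by
  induction l with
  | nil => simp
  | cons a l ih =>
    rw [leL] at h
    cases hab : Nat.ble a b
    · rw [hab] at h; simp at h
    · rw [hab, cond_true] at h
      intro x hx
      rcases List.mem_cons.1 hx with rfl | hx
      · exact Nat.le_of_ble_eq_true hab
      · exact ih h x hx

/-- digits -/
def dec (w : ℕ) : ℕ → ℕ → List ℕ
  | 0, _ => []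
  | n + 1, e => e % w :: dec w n (e / w)

theorem dec_length (w n e : ℕ) : (dec w n e).length = n := by
  induction n generalizing e with
  | zero => rfl
  | succ n ih => simp only [dec, List.length_cons, ih]

theorem dec_lt {w : ℕ} (hw : 0 < w) (n e : ℕ) : ∀ p ∈ dec w n e, p < w := by
  induction n generalizing e with
  | zero => simp [dec]
  | succ n ih =>
    intro p hp
    simp only [dec] at hp
    rcases List.mem_cons.1 hp with rfl | hp
    · exact Nat.mod_lt _ hw
    · exact ih _ _ hp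

/-- the chunk number `e` of width `w` (with `m = 2 ^ w - 1`) of a table -/
def ent (t w m e : ℕ) : ℕ := Nat.land (Nat.shiftRight t (Nat.mul w e)) m

namespace TD

variable (T : TD)

/-- check of one entry -/
def chkEnt (a b cl e : ℕ) : Bool :=
  cond (Nat.beq (T.lookP (cl + 16 * e)) (T.encP cl (T.el cl e)))
    (cond (Nat.beq (T.lookQ (cl + 16 * e)) (T.encQ cl (T.el cl e)))
      (cond (Nat.ble (T.sp cl (T.el cl e)) T.K1)
        (cond (Nat.ble (T.sc cl (T.el cl e)) T.K1)
        (cond (leL a (T.lp cl (T.el cl e)))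
          (cond (leL b (T.lq cl (T.el cl e)))
            (Nat.ble ((T.el cl e).length * (T.cd cl).length + 2) (T.N + 1)) false) false) false)
        false) false) false

theorem chkEnt_ok {a b cl e : ℕ} (h : T.chkEnt a b cl e = true) :
    T.lookP (cl + 16 * e) = T.encP cl (T.el cl e) ∧
    T.lookQ (cl + 16 * e) = T.encQ cl (T.el cl e) ∧ T.EntOk a b cl (T.el cl e) := by
  unfold chkEnt at h
  cases h1 : Nat.beq (T.lookP (cl + 16 * e)) (T.encP cl (T.el cl e))
  · rw [h1] at h; simp at h
  rw [h1, cond_true] at h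
  cases h2 : Nat.beq (T.lookQ (cl + 16 * e)) (T.encQ cl (T.el cl e))
  · rw [h2] at h; simp at h
  rw [h2, cond_true] at h
  cases h3 : Nat.ble (T.sp cl (T.el cl e)) T.K1
  · rw [h3] at h; simp at h
  rw [h3, cond_true] at h
  cases h6 : Nat.ble (T.sc cl (T.el cl e)) T.K1
  · rw [h6] at h; simp at h
  rw [h6, cond_true] at h
  cases h4 : leL a (T.lp cl (T.el cl e))
  · rw [h4] at h; simp at h
  rw [h4, cond_true] at h
  cases h5 : leL b (T.lq cl (T.el cl e))
  · rw [h5] at h; simp at h
  rw [h5, cond_true] at h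
  exact ⟨Nat.eq_of_beq_eq_true h1, Nat.eq_of_beq_eq_true h2, Nat.le_of_ble_eq_true h3,
    Nat.le_of_ble_eq_true h6, leL_le h4, leL_le h5, Nat.le_of_ble_eq_true h⟩

/-- check of the table of a sequence at one code -/
def chkIx (s : Sq) (ix : ℕ → ℕ) (c : ℕ) : Bool :=
  frcB (fun r => frcB (fun i => cond (Nat.beq (Nat.land i 15) (T.clsG r))
    (cond (Nat.blt (Nat.shiftRight i 4) (T.E (T.clsG r)))
      (eqL (T.el (T.clsG r) (Nat.shiftRight i 4))
        ((T.ord r).map (fun n => T.ki ((s.rcd n).key c)))) false) false) (ix c)) (s.rid c)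

def chkSeq (s : Sq) (ix : ℕ → ℕ) : Bool :=
  allN 6 (fun v1 => allN 6 (fun v2 => allN 6 (fun v3 => allN 8 (fun b =>
    frcB (fun c => T.chkIx s ix c) (v1 + 8 * v2 + 64 * v3 + 512 * b)))))

theorem chkSeq_ok {s : Sq} {ix : ℕ → ℕ} (h : T.chkSeq s ix = true) : T.SeqOk s ix := by
  intro c hc
  obtain ⟨h0, h1, h2, h3⟩ := hc
  unfold chkSeq at h
  have h4 := (allN_iff _ _).1 ((allN_iff _ _).1 ((allN_iff _ _).1 ((allN_iff _ _).1 h _ h1)
    _ h2) _ h3) (c / 512) (by omega)
  have hc' : c % 8 + 8 * (c / 8 % 8) + 64 * (c / 64 % 8) + 512 * (c / 512) = c := by omega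
  rw [frcB_eq, hc'] at h4
  unfold chkIx at h4
  rw [frcB_eq, frcB_eq] at h4
  cases h5 : Nat.beq (Nat.land (ix c) 15) (T.clsG (s.rid c))
  · rw [h5] at h4; simp at h4
  rw [h5, cond_true] at h4
  cases h6 : Nat.blt (Nat.shiftRight (ix c) 4) (T.E (T.clsG (s.rid c)))
  · rw [h6] at h4; simp at h4
  rw [h6, cond_true] at h4
  refine ⟨Nat.shiftRight (ix c) 4, ?_, ?_, eqL_eq h4⟩
  · rw [← Nat.eq_of_beq_eq_true h5]
    have e1 : Nat.land (ix c) 15 = ix c % 16 := Nat.and_two_pow_sub_one_eq_mod (ix c) 4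
    have e2 : Nat.shiftRight (ix c) 4 = ix c / 16 := Nat.shiftRight_eq_div_pow (ix c) 4
    rw [e1, e2]
    omega
  · exact Nat.le_of_ble_eq_true h6

def chkIx4 (s : Sq4) (ix : ℕ → ℕ) (c : ℕ) : Bool :=
  frcB (fun r => frcB (fun i => cond (Nat.beq (Nat.land i 15) (7 + r))
    (cond (Nat.blt (Nat.shiftRight i 4) (T.E (7 + r)))
      (eqL (T.el (7 + r) (Nat.shiftRight i 4))
        [T.ki4 ((s.rcd 0).key c), T.ki4 ((s.rcd 1).key c)]) false) false) (ix c)) (s.rid c)

def chkSeq4 (s : Sq4) (ix : ℕ → ℕ) : Bool :=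
  allN 6 (fun v1 => allN 6 (fun v2 => allN 2 (fun b =>
    frcB (fun c => T.chkIx4 s ix c) (v1 + 8 * v2 + 64 * b))))

theorem chkSeq4_ok {s : Sq4} {ix : ℕ → ℕ} (h : T.chkSeq4 s ix = true) : T.SeqOk4 s ix := by
  intro c hc
  obtain ⟨h0, h1, h2⟩ := hc
  unfold chkSeq4 at h
  have h4 := (allN_iff _ _).1 ((allN_iff _ _).1 ((allN_iff _ _).1 h _ h1) _ h2) (c / 64)
    (by omega)
  have hc' : c % 8 + 8 * (c / 8 % 8) + 64 * (c / 64) = c := by omega
  rw [frcB_eq, hc'] at h4
  unfold chkIx4 at h4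
  rw [frcB_eq, frcB_eq] at h4
  cases h5 : Nat.beq (Nat.land (ix c) 15) (7 + s.rid c)
  · rw [h5] at h4; simp at h4
  rw [h5, cond_true] at h4
  cases h6 : Nat.blt (Nat.shiftRight (ix c) 4) (T.E (7 + s.rid c))
  · rw [h6] at h4; simp at h4
  rw [h6, cond_true] at h4
  refine ⟨Nat.shiftRight (ix c) 4, ?_, ?_, eqL_eq h4⟩
  · rw [← Nat.eq_of_beq_eq_true h5]
    have e1 : Nat.land (ix c) 15 = ix c % 16 := Nat.and_two_pow_sub_one_eq_mod (ix c) 4
    have e2 : Nat.shiftRight (ix c) 4 = ix c / 16 := Nat.shiftRight_eq_div_pow (ix c) 4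
    rw [e1, e2]
    omega
  · exact Nat.le_of_ble_eq_true h6

end TD

end Pool.Agent.Helper96.FC
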