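import Pool.Agent.Helper96.FC.Defs

/-!
# Flag certificates on six vertices: the squares
-/

set_option autoImplicit false

namespace Pool.Agent.Helper96.FC

open Finset

variable {V : Type} [Fintype V]

theorem sum6 (F : (Fin 6 → V) → ℝ) :
    ∑ x : Fin 6 → V, F x = ∑ a, ∑ b, ∑ c, ∑ d, ∑ e, ∑ f, F ![a, b, c, d, e, f] := by
  have h1 : ∀ (n : ℕ) (G : (Fin (n + 1) → V) → ℝ),
      ∑ x : Fin (n + 1) → V, G x = ∑ a, ∑ y : Fin n → V, G (Matrix.vecCons a y) := by
    intro n G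
    rw [← Fintype.sum_prod_type']
    exact (Fintype.sum_equiv (Fin.consEquiv (fun _ => V)) _ _ fun p => rfl).symm
  have h0 : ∀ G : (Fin 0 → V) → ℝ, ∑ x : Fin 0 → V, G x = G ![] := by
    intro G
    rw [Fintype.sum_unique]
    congr 1
  simp only [h1, h0]

/-- a table of weighted Gram matrices: one for every code of the roots -/
def IsGram (X : ℕ → ℕ → ℕ → ℤ) : Prop :=
  ∀ r, ∃ (n : ℕ) (d : ℕ → ℕ) (b : ℕ → ℕ → ℤ),
    ∀ i j, X r i j = ∑ k ∈ range n, (d k : ℤ) * (b k i * b k j)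

theorem IsGram.sum_nonneg {X : ℕ → ℕ → ℕ → ℤ} (hX : IsGram X) (r : ℕ) {ι : Type} [Fintype ι]
    (g : ι → ℕ) (c : ι → ℝ) : 0 ≤ ∑ u, ∑ w, (X r (g u) (g w) : ℝ) * (c u * c w) := by
  obtain ⟨n, d, b, hb⟩ := hX r
  have h : ∑ u, ∑ w, (X r (g u) (g w) : ℝ) * (c u * c w)
      = ∑ k ∈ range n, (d k : ℝ) * (∑ u, (b k (g u) : ℝ) * c u) ^ 2 := by
    calc ∑ u, ∑ w, (X r (g u) (g w) : ℝ) * (c u * c w)
        = ∑ u, ∑ w, ∑ k ∈ range n, (d k : ℝ) * (((b k (g u) : ℝ) * c u) *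
            ((b k (g w) : ℝ) * c w)) := by
          refine Finset.sum_congr rfl fun u _ => Finset.sum_congr rfl fun w _ => ?_
          rw [hb]; push_cast; rw [Finset.sum_mul]
          exact Finset.sum_congr rfl fun k _ => by ring
      _ = ∑ u, ∑ k ∈ range n, ∑ w, (d k : ℝ) * (((b k (g u) : ℝ) * c u) *
            ((b k (g w) : ℝ) * c w)) :=
          Finset.sum_congr rfl fun u _ => Finset.sum_comm
      _ = ∑ k ∈ range n, ∑ u, ∑ w, (d k : ℝ) * (((b k (g u) : ℝ) * c u) *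
            ((b k (g w) : ℝ) * c w)) :=
          Finset.sum_comm
      _ = _ := by
          refine Finset.sum_congr rfl fun k _ => ?_
          rw [sq, Finset.sum_mul_sum, Finset.mul_sum]
          exact Finset.sum_congr rfl fun u _ => by rw [Finset.mul_sum]
  rw [h]
  exact Finset.sum_nonneg fun k _ => mul_nonneg (Nat.cast_nonneg _) (sq_nonneg _)

/-- the summand for the flags on four roots and one more vertex -/
def Sys.GA (S : Sys V) (idx : ℕ → ℕ) (X : ℕ → ℕ → ℕ → ℤ) (m m' : Fin 10) (x : Fin 6 → V) : ℤ :=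
  X (S.rc x) (idx (S.key m (x ∘ s1))) (idx (S.key m' (x ∘ s2)))

/-- the weight of the mark number `m` -/
noncomputable def Sys.wt (S : Sys V) (m : Fin 10) (y : Fin 5 → V) : ℝ :=
  S.lam (y (e1 m)) (y (e2 m))

theorem Sys.sosA_nonneg (S : Sys V) (idx : ℕ → ℕ) {X : ℕ → ℕ → ℕ → ℤ} (hX : IsGram X) :
    0 ≤ ∑ m : Fin 10, ∑ m' : Fin 10, ∑ x : Fin 6 → V,
      S.wt m (x ∘ s1) * S.wt m' (x ∘ s2) * (S.GA idx X m m' x : ℝ) := by
  have h : ∑ m : Fin 10, ∑ m' : Fin 10, ∑ x : Fin 6 → V,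
      S.wt m (x ∘ s1) * S.wt m' (x ∘ s2) * (S.GA idx X m m' x : ℝ)
      = ∑ a, ∑ b, ∑ c, ∑ d, ∑ u : V × Fin 10, ∑ w : V × Fin 10,
        (X (rcf (S.a a b) (S.a a c) (S.a a d) (S.a b c) (S.a b d) (S.a c d))
          (idx (S.key u.2 ![a, b, c, d, u.1])) (idx (S.key w.2 ![a, b, c, d, w.1])) : ℝ) *
          (S.wt u.2 ![a, b, c, d, u.1] * S.wt w.2 ![a, b, c, d, w.1]) := by
    have e : ∀ (m m' : Fin 10), ∑ x : Fin 6 → V,
        S.wt m (x ∘ s1) * S.wt m' (x ∘ s2) * (S.GA idx X m m' x : ℝ)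
        = ∑ a, ∑ b, ∑ c, ∑ d, ∑ v, ∑ w,
          (X (rcf (S.a a b) (S.a a c) (S.a a d) (S.a b c) (S.a b d) (S.a c d))
          (idx (S.key m ![a, b, c, d, v])) (idx (S.key m' ![a, b, c, d, w])) : ℝ) *
          (S.wt m ![a, b, c, d, v] * S.wt m' ![a, b, c, d, w]) := by
      intro m m'
      rw [sum6]
      refine Finset.sum_congr rfl fun a _ => Finset.sum_congr rfl fun b _ =>
        Finset.sum_congr rfl fun c _ => Finset.sum_congr rfl fun d _ =>
        Finset.sum_congr rfl fun v _ => Finset.sum_congr rfl fun w _ => ?_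
      have h1 : (![a, b, c, d, v, w] ∘ s1 : Fin 5 → V) = ![a, b, c, d, v] := by
        funext i; fin_cases i <;> rfl
      have h2 : (![a, b, c, d, v, w] ∘ s2 : Fin 5 → V) = ![a, b, c, d, w] := by
        funext i; fin_cases i <;> rfl
      unfold Sys.GA
      rw [h1, h2, mul_comm]
      rfl
    simp only [e]
    simp only [Fintype.sum_prod_type]
    calc _ = ∑ m : Fin 10, ∑ a, ∑ m' : Fin 10, ∑ b, ∑ c, ∑ d, ∑ v, ∑ w, _ := by
          exact Finset.sum_congr rfl fun m _ => Finset.sum_comm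
      _ = ∑ a, ∑ m : Fin 10, ∑ m' : Fin 10, ∑ b, ∑ c, ∑ d, ∑ v, ∑ w, _ := Finset.sum_comm
      _ = _ := by
        refine Finset.sum_congr rfl fun a _ => ?_
        calc _ = ∑ m : Fin 10, ∑ b, ∑ m' : Fin 10, ∑ c, ∑ d, ∑ v, ∑ w, _ := by
              exact Finset.sum_congr rfl fun m _ => Finset.sum_comm
          _ = ∑ b, ∑ m : Fin 10, ∑ m' : Fin 10, ∑ c, ∑ d, ∑ v, ∑ w, _ := Finset.sum_comm
          _ = _ := by
            refine Finset.sum_congr rfl fun b _ => ?_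
            calc _ = ∑ m : Fin 10, ∑ c, ∑ m' : Fin 10, ∑ d, ∑ v, ∑ w, _ := by
                  exact Finset.sum_congr rfl fun m _ => Finset.sum_comm
              _ = ∑ c, ∑ m : Fin 10, ∑ m' : Fin 10, ∑ d, ∑ v, ∑ w, _ := Finset.sum_comm
              _ = _ := by
                refine Finset.sum_congr rfl fun c _ => ?_
                calc _ = ∑ m : Fin 10, ∑ d, ∑ m' : Fin 10, ∑ v, ∑ w, _ := by
                      exact Finset.sum_congr rfl fun m _ => Finset.sum_comm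
                  _ = ∑ d, ∑ m : Fin 10, ∑ m' : Fin 10, ∑ v, ∑ w, _ := Finset.sum_comm
                  _ = _ := by
                    refine Finset.sum_congr rfl fun d _ => ?_
                    calc _ = ∑ m : Fin 10, ∑ v, ∑ m' : Fin 10, ∑ w, _ := by
                          exact Finset.sum_congr rfl fun m _ => Finset.sum_comm
                      _ = ∑ v, ∑ m : Fin 10, ∑ m' : Fin 10, ∑ w, _ := Finset.sum_comm
                      _ = _ := by
                        refine Finset.sum_congr rfl fun v _ => ?_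
                        refine Finset.sum_congr rfl fun m _ => ?_
                        exact Finset.sum_comm
  rw [h]
  refine Finset.sum_nonneg fun a _ => Finset.sum_nonneg fun b _ => Finset.sum_nonneg fun c _ =>
    Finset.sum_nonneg fun d _ => ?_
  exact hX.sum_nonneg _ (fun u : V × Fin 10 => idx (S.key u.2 ![a, b, c, d, u.1]))
    (fun u => S.wt u.2 ![a, b, c, d, u.1])

/-- the positions of the ends of the mark number `m` in a flag with four vertices -/
def c1 : Fin 6 → Fin 4 := ![0, 0, 0, 1, 1, 2]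

def c2 : Fin 6 → Fin 4 := ![1, 2, 3, 2, 3, 3]

/-- the positions of the two other vertices -/
def q1 : Fin 6 → Fin 4 := ![2, 1, 1, 0, 0, 0]

def q2 : Fin 6 → Fin 4 := ![3, 3, 2, 3, 2, 1]

/-- the key of a flag with four vertices -/
def keyg (m v1 v2 p : ℕ) : ℕ := 2 * (6 * (6 * m + v1) + v2) + p

/-- the key of a tuple of four vertices with the mark number `m` -/
def Sys.key4 (S : Sys V) (m : Fin 6) (y : Fin 4 → V) : ℕ :=
  keyg m (S.vw (y (c1 m)) (y (c2 m)) (y (q1 m))) (S.vw (y (c1 m)) (y (c2 m)) (y (q2 m)))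
    (S.a (y (q1 m)) (y (q2 m)))

def t1 : Fin 4 → Fin 6 := ![0, 1, 2, 3]

def t2 : Fin 4 → Fin 6 := ![0, 1, 4, 5]

/-- the summand for the flags on two roots and two more vertices -/
def Sys.GC (S : Sys V) (idx : ℕ → ℕ) (X : ℕ → ℕ → ℕ → ℤ) (m m' : Fin 6) (x : Fin 6 → V) : ℤ :=
  X (S.a (x 0) (x 1)) (idx (S.key4 m (x ∘ t1))) (idx (S.key4 m' (x ∘ t2)))

/-- the weight of the mark number `m` -/
noncomputable def Sys.wt4 (S : Sys V) (m : Fin 6) (y : Fin 4 → V) : ℝ :=
  S.lam (y (c1 m)) (y (c2 m))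

theorem Sys.sosC_nonneg (S : Sys V) (idx : ℕ → ℕ) {X : ℕ → ℕ → ℕ → ℤ} (hX : IsGram X) :
    0 ≤ ∑ m : Fin 6, ∑ m' : Fin 6, ∑ x : Fin 6 → V,
      S.wt4 m (x ∘ t1) * S.wt4 m' (x ∘ t2) * (S.GC idx X m m' x : ℝ) := by
  have h : ∑ m : Fin 6, ∑ m' : Fin 6, ∑ x : Fin 6 → V,
      S.wt4 m (x ∘ t1) * S.wt4 m' (x ∘ t2) * (S.GC idx X m m' x : ℝ)
      = ∑ a, ∑ b, ∑ u : (V × V) × Fin 6, ∑ w : (V × V) × Fin 6,
        (X (S.a a b) (idx (S.key4 u.2 ![a, b, u.1.1, u.1.2]))
          (idx (S.key4 w.2 ![a, b, w.1.1, w.1.2])) : ℝ) *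
          (S.wt4 u.2 ![a, b, u.1.1, u.1.2] * S.wt4 w.2 ![a, b, w.1.1, w.1.2]) := by
    have e : ∀ (m m' : Fin 6), ∑ x : Fin 6 → V,
        S.wt4 m (x ∘ t1) * S.wt4 m' (x ∘ t2) * (S.GC idx X m m' x : ℝ)
        = ∑ a, ∑ b, ∑ c, ∑ d, ∑ v, ∑ w,
          (X (S.a a b) (idx (S.key4 m ![a, b, c, d])) (idx (S.key4 m' ![a, b, v, w])) : ℝ) *
          (S.wt4 m ![a, b, c, d] * S.wt4 m' ![a, b, v, w]) := by
      intro m m'
      rw [sum6]
      refine Finset.sum_congr rfl fun a _ => Finset.sum_congr rfl fun b _ =>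
        Finset.sum_congr rfl fun c _ => Finset.sum_congr rfl fun d _ =>
        Finset.sum_congr rfl fun v _ => Finset.sum_congr rfl fun w _ => ?_
      have h1 : (![a, b, c, d, v, w] ∘ t1 : Fin 4 → V) = ![a, b, c, d] := by
        funext i; fin_cases i <;> rfl
      have h2 : (![a, b, c, d, v, w] ∘ t2 : Fin 4 → V) = ![a, b, v, w] := by
        funext i; fin_cases i <;> rfl
      unfold Sys.GC
      rw [h1, h2, mul_comm]
      rfl
    simp only [e]
    simp only [Fintype.sum_prod_type]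
    calc _ = ∑ m : Fin 6, ∑ a, ∑ m' : Fin 6, ∑ b, ∑ c, ∑ d, ∑ v, ∑ w, _ := by
          exact Finset.sum_congr rfl fun m _ => Finset.sum_comm
      _ = ∑ a, ∑ m : Fin 6, ∑ m' : Fin 6, ∑ b, ∑ c, ∑ d, ∑ v, ∑ w, _ := Finset.sum_comm
      _ = _ := by
        refine Finset.sum_congr rfl fun a _ => ?_
        calc _ = ∑ m : Fin 6, ∑ b, ∑ m' : Fin 6, ∑ c, ∑ d, ∑ v, ∑ w, _ := by
              exact Finset.sum_congr rfl fun m _ => Finset.sum_comm
          _ = ∑ b, ∑ m : Fin 6, ∑ m' : Fin 6, ∑ c, ∑ d, ∑ v, ∑ w, _ := Finset.sum_comm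
          _ = _ := by
            refine Finset.sum_congr rfl fun b _ => ?_
            calc _ = ∑ m : Fin 6, ∑ c, ∑ d, ∑ m' : Fin 6, ∑ v, ∑ w, _ := by
                  refine Finset.sum_congr rfl fun m _ => ?_
                  rw [Finset.sum_comm]
                  exact Finset.sum_congr rfl fun c _ => Finset.sum_comm
              _ = ∑ c, ∑ d, ∑ m : Fin 6, ∑ m' : Fin 6, ∑ v, ∑ w, _ := by
                  rw [Finset.sum_comm]
                  exact Finset.sum_congr rfl fun c _ => Finset.sum_comm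
              _ = _ := by
                refine Finset.sum_congr rfl fun c _ => Finset.sum_congr rfl fun d _ =>
                  Finset.sum_congr rfl fun m _ => ?_
                rw [Finset.sum_comm]
                exact Finset.sum_congr rfl fun v _ => Finset.sum_comm
  rw [h]
  refine Finset.sum_nonneg fun a _ => Finset.sum_nonneg fun b _ => ?_
  exact hX.sum_nonneg _ (fun u : (V × V) × Fin 6 => idx (S.key4 u.2 ![a, b, u.1.1, u.1.2]))
    (fun u => S.wt4 u.2 ![a, b, u.1.1, u.1.2])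

end Pool.Agent.Helper96.FC
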