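import Pool.Agent.Helper96.FC.Reg
import Pool.Agent.Helper96.FC.Sos

/-!
# Flag certificates on six vertices: the objective
-/

set_option autoImplicit false

namespace Pool.Agent.Helper96.FC

open Finset

variable {V : Type} [Fintype V]

/-- the number of ends of the first mark adjacent to `x k` -/
def Sys.sA (S : Sys V) (x : Fin 6 → V) (k : Fin 6) : ℕ := S.a (x 0) (x k) + S.a (x 1) (x k)

/-- `x k` is adjacent to both ends -/
def Sys.bA (S : Sys V) (x : Fin 6 → V) (k : Fin 6) : ℕ := S.a (x 0) (x k) * S.a (x 1) (x k)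

/-- `u` is adjacent to some end of `a, b` -/
def Sys.uu (S : Sys V) (a b u : V) : ℕ := (S.adj a u || S.adj b u).toNat

/-- `x k` is adjacent to some end -/
def Sys.uA (S : Sys V) (x : Fin 6 → V) (k : Fin 6) : ℕ := S.uu (x 0) (x 1) (x k)

/-- the pair `x j, x k` is an edge between vertices adjacent to some end -/
def Sys.pA (S : Sys V) (x : Fin 6 → V) (j k : Fin 6) : ℕ :=
  S.uA x j * S.uA x k * S.a (x j) (x k)

/-- the objective for two equal marks -/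
def Sys.oA (S : Sys V) (x : Fin 6 → V) : ℕ :=
  3 * (S.sA x 2 * S.sA x 3 * S.sA x 4 * S.sA x 5) +
  3 * (S.bA x 2 * S.sA x 3 * S.sA x 4 * S.sA x 5 + S.sA x 2 * S.bA x 3 * S.sA x 4 * S.sA x 5 +
    S.sA x 2 * S.sA x 3 * S.bA x 4 * S.sA x 5 + S.sA x 2 * S.sA x 3 * S.sA x 4 * S.bA x 5) +
  2 * (S.pA x 2 3 * S.sA x 4 * S.sA x 5 + S.pA x 2 4 * S.sA x 3 * S.sA x 5 +
    S.pA x 2 5 * S.sA x 3 * S.sA x 4 + S.pA x 3 4 * S.sA x 2 * S.sA x 5 +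
    S.pA x 3 5 * S.sA x 2 * S.sA x 4 + S.pA x 4 5 * S.sA x 2 * S.sA x 3)

/-- the degree of `x k` into the first four vertices -/
def Sys.dg4 (S : Sys V) (x : Fin 6 → V) (k : Fin 6) : ℕ :=
  S.a (x 0) (x k) + S.a (x 1) (x k) + S.a (x 2) (x k) + S.a (x 3) (x k)

theorem Sys.T_dd (S : Sys V) :
    S.T 2 3 (fun x => ((S.dg4 x 4 * S.dg4 x 5 : ℕ) : ℝ))
      = 16 * (S.D : ℝ) ^ 2 * (∑ u, ∑ v, S.lam u v) ^ 2 := by
  unfold Sys.T
  rw [sum6]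
  have h1 : ∀ a b c d : V, ∑ e, ((S.a a e + S.a b e + S.a c e + S.a d e : ℕ) : ℝ) = 4 * S.D := by
    intro a b c d
    push_cast
    rw [Finset.sum_add_distrib, Finset.sum_add_distrib, Finset.sum_add_distrib, S.sum_a, S.sum_a,
      S.sum_a, S.sum_a]
    ring
  have h2 : ∀ a b c d : V, ∑ e, ∑ f, S.lam ((![a, b, c, d, e, f] : Fin 6 → V) 0)
      ((![a, b, c, d, e, f] : Fin 6 → V) 1) * S.lam ((![a, b, c, d, e, f] : Fin 6 → V) 2)
      ((![a, b, c, d, e, f] : Fin 6 → V) 3) *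
      ((S.dg4 ![a, b, c, d, e, f] 4 * S.dg4 ![a, b, c, d, e, f] 5 : ℕ) : ℝ)
      = S.lam a b * S.lam c d * (16 * (S.D : ℝ) ^ 2) := by
    intro a b c d
    have h3 : ∀ e f : V, S.lam ((![a, b, c, d, e, f] : Fin 6 → V) 0)
      ((![a, b, c, d, e, f] : Fin 6 → V) 1) * S.lam ((![a, b, c, d, e, f] : Fin 6 → V) 2)
      ((![a, b, c, d, e, f] : Fin 6 → V) 3) *
      ((S.dg4 ![a, b, c, d, e, f] 4 * S.dg4 ![a, b, c, d, e, f] 5 : ℕ) : ℝ)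
      = S.lam a b * S.lam c d * (((S.a a e + S.a b e + S.a c e + S.a d e : ℕ) : ℝ) *
        ((S.a a f + S.a b f + S.a c f + S.a d f : ℕ) : ℝ)) := by
      intro e f
      rw [← Nat.cast_mul]
      rfl
    simp only [h3]
    have h5 : ∑ e, ∑ f, S.lam a b * S.lam c d * (((S.a a e + S.a b e + S.a c e + S.a d e : ℕ) : ℝ) *
        ((S.a a f + S.a b f + S.a c f + S.a d f : ℕ) : ℝ)) = S.lam a b * S.lam c d *
        ((∑ e, ((S.a a e + S.a b e + S.a c e + S.a d e : ℕ) : ℝ)) *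
        (∑ f, ((S.a a f + S.a b f + S.a c f + S.a d f : ℕ) : ℝ))) := by
      rw [Finset.sum_mul_sum, Finset.mul_sum]
      exact Finset.sum_congr rfl fun e _ => by rw [Finset.mul_sum]
    rw [h5, h1]
    ring
  simp only [h2]
  have h4 : ∀ a b : V, ∑ c, ∑ d, S.lam a b * S.lam c d * (16 * (S.D : ℝ) ^ 2)
      = S.lam a b * (16 * (S.D : ℝ) ^ 2 * ∑ c, ∑ d, S.lam c d) := by
    intro a b
    rw [Finset.mul_sum, Finset.mul_sum]
    refine Finset.sum_congr rfl fun c _ => ?_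
    rw [Finset.mul_sum, Finset.mul_sum]
    exact Finset.sum_congr rfl fun d _ => by ring
  simp only [h4]
  simp only [← Finset.sum_mul]
  ring

/-- sums over the last four vertices -/
theorem Sys.T_prod (S : Sys V) (K : (Fin 6 → V) → ℝ) (G : V → V → ℝ)
    (h : ∀ a b, ∑ c, ∑ d, ∑ e, ∑ f, K ![a, b, c, d, e, f] = G a b) :
    S.T 0 1 K = ∑ a, ∑ b, S.lam a b ^ 2 * G a b := by
  unfold Sys.T
  rw [sum6]
  refine Finset.sum_congr rfl fun a _ => Finset.sum_congr rfl fun b _ => ?_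
  rw [← h a b, Finset.mul_sum]
  refine Finset.sum_congr rfl fun c _ => ?_
  rw [Finset.mul_sum]
  refine Finset.sum_congr rfl fun d _ => ?_
  rw [Finset.mul_sum]
  refine Finset.sum_congr rfl fun e _ => ?_
  rw [Finset.mul_sum]
  refine Finset.sum_congr rfl fun f _ => ?_
  rw [sq]
  rfl

theorem Sys.sum_s (S : Sys V) (a b : V) : ∑ c, ((S.a a c + S.a b c : ℕ) : ℝ) = 2 * S.D := by
  push_cast
  rw [Finset.sum_add_distrib, S.sum_a, S.sum_a]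
  ring

theorem sum_prod2 (G : V → V → ℝ) (g h : V → ℝ) :
    ∑ c, ∑ d, ∑ e, ∑ f, G c d * g e * h f
      = (∑ c, ∑ d, G c d) * (∑ e, g e) * (∑ f, h f) := by
  have h1 : ∀ c d : V, ∑ e, ∑ f, G c d * g e * h f = G c d * ((∑ e, g e) * (∑ f, h f)) := by
    intro c d
    rw [Finset.sum_mul_sum, Finset.mul_sum]
    refine Finset.sum_congr rfl fun e _ => ?_
    rw [Finset.mul_sum]
    exact Finset.sum_congr rfl fun f _ => by ring
  simp only [h1, ← Finset.sum_mul]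
  ring

theorem Sys.T_pair (S : Sys V) :
    S.T 0 1 (fun x => ((S.pA x 2 3 * S.sA x 4 * S.sA x 5 : ℕ) : ℝ))
      = ∑ a, ∑ b, S.lam a b ^ 2 * (4 * (S.D : ℝ) ^ 2 *
        ∑ u, ∑ v, ((S.uu a b u * S.uu a b v * S.a u v : ℕ) : ℝ)) := by
  refine S.T_prod _ _ fun a b => ?_
  have h : ∀ c d e f : V, ((S.pA ![a, b, c, d, e, f] 2 3 * S.sA ![a, b, c, d, e, f] 4 *
      S.sA ![a, b, c, d, e, f] 5 : ℕ) : ℝ) = ((S.uu a b c * S.uu a b d * S.a c d : ℕ) : ℝ) *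
      ((S.a a e + S.a b e : ℕ) : ℝ) * ((S.a a f + S.a b f : ℕ) : ℝ) := by
    intro c d e f
    rw [← Nat.cast_mul, ← Nat.cast_mul]
    rfl
  simp only [h]
  rw [sum_prod2, S.sum_s]
  ring

theorem Sys.T_both (S : Sys V) :
    S.T 0 1 (fun x => ((S.bA x 2 * S.sA x 3 * S.sA x 4 * S.sA x 5 : ℕ) : ℝ))
      = ∑ a, ∑ b, S.lam a b ^ 2 * (8 * (S.D : ℝ) ^ 3 * ∑ u, ((S.a a u * S.a b u : ℕ) : ℝ)) := by
  refine S.T_prod _ _ fun a b => ?_
  have h : ∀ c d e f : V, ((S.bA ![a, b, c, d, e, f] 2 * S.sA ![a, b, c, d, e, f] 3 *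
      S.sA ![a, b, c, d, e, f] 4 * S.sA ![a, b, c, d, e, f] 5 : ℕ) : ℝ)
      = (((S.a a c * S.a b c : ℕ) : ℝ) * ((S.a a d + S.a b d : ℕ) : ℝ)) *
      ((S.a a e + S.a b e : ℕ) : ℝ) * ((S.a a f + S.a b f : ℕ) : ℝ) := by
    intro c d e f
    rw [← Nat.cast_mul, ← Nat.cast_mul, ← Nat.cast_mul]
    rfl
  simp only [h]
  rw [sum_prod2 (fun c d => ((S.a a c * S.a b c : ℕ) : ℝ) * ((S.a a d + S.a b d : ℕ) : ℝ)),
    S.sum_s, ← Finset.sum_mul_sum, S.sum_s]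
  ring

theorem Sys.T_four (S : Sys V) :
    S.T 0 1 (fun x => ((S.sA x 2 * S.sA x 3 * S.sA x 4 * S.sA x 5 : ℕ) : ℝ))
      = ∑ a, ∑ b, S.lam a b ^ 2 * (16 * (S.D : ℝ) ^ 4) := by
  refine S.T_prod _ _ fun a b => ?_
  have h : ∀ c d e f : V, ((S.sA ![a, b, c, d, e, f] 2 * S.sA ![a, b, c, d, e, f] 3 *
      S.sA ![a, b, c, d, e, f] 4 * S.sA ![a, b, c, d, e, f] 5 : ℕ) : ℝ)
      = (((S.a a c + S.a b c : ℕ) : ℝ) * ((S.a a d + S.a b d : ℕ) : ℝ)) *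
      ((S.a a e + S.a b e : ℕ) : ℝ) * ((S.a a f + S.a b f : ℕ) : ℝ) := by
    intro c d e f
    rw [← Nat.cast_mul, ← Nat.cast_mul, ← Nat.cast_mul]
    rfl
  simp only [h]
  rw [sum_prod2 (fun c d => ((S.a a c + S.a b c : ℕ) : ℝ) * ((S.a a d + S.a b d : ℕ) : ℝ)),
    S.sum_s, ← Finset.sum_mul_sum, S.sum_s]
  ring

theorem Sys.T_four' (S : Sys V) (f : Fin 6 → Fin 6) (hf : Function.Injective f)
    (h0 : f 0 = 0) (h1 : f 1 = 1) (K L : (Fin 6 → V) → ℕ) (h : ∀ x, K (x ∘ f) = L x) :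
    S.T 0 1 (fun x => (L x : ℝ)) = S.T 0 1 (fun x => (K x : ℝ)) := by
  rw [← S.T_comp 0 1 f hf h0 h1 h0 h1 (fun x => (K x : ℝ))]
  simp only [h]

theorem Sys.pA_symm (S : Sys V) (x : Fin 6 → V) (j k : Fin 6) : S.pA x j k = S.pA x k j := by
  unfold Sys.pA
  rw [S.a_symm]; ring

theorem Sys.T_oA (S : Sys V) :
    S.T 0 1 (fun x => (S.oA x : ℝ)) = 48 * (S.D : ℝ) ^ 2 * ∑ a, ∑ b, S.lam a b ^ 2 *
      ((S.D : ℝ) ^ 2 + 2 * S.D * ∑ u, ((S.a a u * S.a b u : ℕ) : ℝ) +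
        ∑ u, ∑ v, ((S.uu a b u * S.uu a b v * S.a u v : ℕ) : ℝ)) := by
  have e : (fun x : Fin 6 → V => (S.oA x : ℝ)) = fun x =>
      3 * ((S.sA x 2 * S.sA x 3 * S.sA x 4 * S.sA x 5 : ℕ) : ℝ) +
      (3 * (((S.bA x 2 * S.sA x 3 * S.sA x 4 * S.sA x 5 : ℕ) : ℝ) +
        (((S.sA x 2 * S.bA x 3 * S.sA x 4 * S.sA x 5 : ℕ) : ℝ) +
        (((S.sA x 2 * S.sA x 3 * S.bA x 4 * S.sA x 5 : ℕ) : ℝ) +
        ((S.sA x 2 * S.sA x 3 * S.sA x 4 * S.bA x 5 : ℕ) : ℝ)))) +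
      2 * (((S.pA x 2 3 * S.sA x 4 * S.sA x 5 : ℕ) : ℝ) +
        (((S.pA x 2 4 * S.sA x 3 * S.sA x 5 : ℕ) : ℝ) +
        (((S.pA x 2 5 * S.sA x 3 * S.sA x 4 : ℕ) : ℝ) +
        (((S.pA x 3 4 * S.sA x 2 * S.sA x 5 : ℕ) : ℝ) +
        (((S.pA x 3 5 * S.sA x 2 * S.sA x 4 : ℕ) : ℝ) +
        ((S.pA x 4 5 * S.sA x 2 * S.sA x 3 : ℕ) : ℝ))))))) := by
    funext x
    unfold Sys.oA
    push_cast
    ring
  rw [e]
  simp only [Sys.T_add, Sys.T_mul]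
  rw [S.T_four' ![0, 1, 3, 2, 4, 5] (by decide) rfl rfl
      (fun x => S.bA x 2 * S.sA x 3 * S.sA x 4 * S.sA x 5)
      (fun x => S.sA x 2 * S.bA x 3 * S.sA x 4 * S.sA x 5)
      (fun x => by
        show S.bA x 3 * S.sA x 2 * S.sA x 4 * S.sA x 5 = _
        ring),
    S.T_four' ![0, 1, 4, 3, 2, 5] (by decide) rfl rfl
      (fun x => S.bA x 2 * S.sA x 3 * S.sA x 4 * S.sA x 5)
      (fun x => S.sA x 2 * S.sA x 3 * S.bA x 4 * S.sA x 5)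
      (fun x => by
        show S.bA x 4 * S.sA x 3 * S.sA x 2 * S.sA x 5 = _
        ring),
    S.T_four' ![0, 1, 5, 3, 4, 2] (by decide) rfl rfl
      (fun x => S.bA x 2 * S.sA x 3 * S.sA x 4 * S.sA x 5)
      (fun x => S.sA x 2 * S.sA x 3 * S.sA x 4 * S.bA x 5)
      (fun x => by
        show S.bA x 5 * S.sA x 3 * S.sA x 4 * S.sA x 2 = _
        ring),
    S.T_four' ![0, 1, 2, 4, 3, 5] (by decide) rfl rfl
      (fun x => S.pA x 2 3 * S.sA x 4 * S.sA x 5)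
      (fun x => S.pA x 2 4 * S.sA x 3 * S.sA x 5)
      (fun x => rfl),
    S.T_four' ![0, 1, 2, 5, 3, 4] (by decide) rfl rfl
      (fun x => S.pA x 2 3 * S.sA x 4 * S.sA x 5)
      (fun x => S.pA x 2 5 * S.sA x 3 * S.sA x 4)
      (fun x => rfl),
    S.T_four' ![0, 1, 3, 4, 2, 5] (by decide) rfl rfl
      (fun x => S.pA x 2 3 * S.sA x 4 * S.sA x 5)
      (fun x => S.pA x 3 4 * S.sA x 2 * S.sA x 5)
      (fun x => rfl),
    S.T_four' ![0, 1, 3, 5, 2, 4] (by decide) rfl rfl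
      (fun x => S.pA x 2 3 * S.sA x 4 * S.sA x 5)
      (fun x => S.pA x 3 5 * S.sA x 2 * S.sA x 4)
      (fun x => rfl),
    S.T_four' ![0, 1, 4, 5, 2, 3] (by decide) rfl rfl
      (fun x => S.pA x 2 3 * S.sA x 4 * S.sA x 5)
      (fun x => S.pA x 4 5 * S.sA x 2 * S.sA x 3)
      (fun x => rfl),
    S.T_pair, S.T_both, S.T_four]
  have hf : ∀ (P Q R : V → V → ℝ), 3 * (∑ a, ∑ b, S.lam a b ^ 2 * P a b) +
      (3 * ((∑ a, ∑ b, S.lam a b ^ 2 * Q a b) + ((∑ a, ∑ b, S.lam a b ^ 2 * Q a b) +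
        ((∑ a, ∑ b, S.lam a b ^ 2 * Q a b) + (∑ a, ∑ b, S.lam a b ^ 2 * Q a b)))) +
      2 * ((∑ a, ∑ b, S.lam a b ^ 2 * R a b) + ((∑ a, ∑ b, S.lam a b ^ 2 * R a b) +
        ((∑ a, ∑ b, S.lam a b ^ 2 * R a b) + ((∑ a, ∑ b, S.lam a b ^ 2 * R a b) +
        ((∑ a, ∑ b, S.lam a b ^ 2 * R a b) + (∑ a, ∑ b, S.lam a b ^ 2 * R a b)))))))
      = ∑ a, ∑ b, S.lam a b ^ 2 * (3 * P a b + 12 * Q a b + 12 * R a b) := by
    intro P Q R
    have : ∀ a b, S.lam a b ^ 2 * (3 * P a b + 12 * Q a b + 12 * R a b)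
        = 3 * (S.lam a b ^ 2 * P a b) + 12 * (S.lam a b ^ 2 * Q a b)
          + 12 * (S.lam a b ^ 2 * R a b) := fun a b => by ring
    simp only [this, Finset.sum_add_distrib, ← Finset.mul_sum]
    ring
  rw [hf, Finset.mul_sum]
  refine Finset.sum_congr rfl fun a _ => ?_
  rw [Finset.mul_sum]
  refine Finset.sum_congr rfl fun b _ => ?_
  ring

end Pool.Agent.Helper96.FC
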