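import Mathlib

/-!
# Flag certificates on six vertices: packed inner products
-/

set_option autoImplicit false

namespace Pool.Agent.Helper96.FC

/-- the base of the packed numbers -/
def BB : ℕ := 2 ^ 64

def packP : List ℕ → ℕ
  | [] => 0
  | p :: l => p + BB * packP l

def packQ : ℕ → List ℕ → ℕ
  | _, [] => 0
  | N, q :: l => q * BB ^ N + packQ (N - 1) l

def dotN : List ℕ → List ℕ → ℕ
  | p :: l, q :: m => p * q + dotN l m
  | _, _ => 0

theorem packP_append (l m : List ℕ) : packP (l ++ m) = packP l + BB ^ l.length * packP m := by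
  induction l with
  | nil => simp [packP]
  | cons p l ih => simp only [List.cons_append, packP, ih, List.length_cons, pow_succ]; ring

theorem packQ_append (N : ℕ) (l m : List ℕ) :
    packQ N (l ++ m) = packQ N l + packQ (N - l.length) m := by
  induction l generalizing N with
  | nil => simp [packQ]
  | cons p l ih =>
    simp only [List.cons_append, packQ, ih, List.length_cons]
    rw [Nat.sub_sub, Nat.add_comm 1 l.length]
    ring

theorem packQ_le (b : ℕ) (N : ℕ) (l : List ℕ) (hN : l.length ≤ N + 1) (hb : ∀ q ∈ l, q ≤ b) :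
    packQ N l ≤ 2 * b * BB ^ N := by
  induction l generalizing N with
  | nil => simp [packQ]
  | cons q l ih =>
    have hq := hb q (by simp)
    have hb' : ∀ q ∈ l, q ≤ b := fun q hq => hb q (by simp [hq])
    cases l with
    | nil =>
      simp only [packQ, Nat.add_zero]
      exact Nat.mul_le_mul_right _ (by omega)
    | cons q' l =>
      have hN' : 1 ≤ N := by simp only [List.length_cons] at hN; omega
      have h1 := ih (N - 1) (by simp only [List.length_cons] at hN ⊢; omega) hb'
      obtain ⟨M, rfl⟩ : ∃ M, N = M + 1 := ⟨N - 1, by omega⟩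
      rw [packQ]
      have h2 : M + 1 - 1 = M := rfl
      rw [h2] at h1 ⊢
      have h3 : 2 * BB ^ M ≤ BB ^ (M + 1) := by
        rw [pow_succ, Nat.mul_comm]
        exact Nat.mul_le_mul_left _ (by unfold BB; norm_num)
      calc q * BB ^ (M + 1) + packQ M (q' :: l) ≤ b * BB ^ (M + 1) + 2 * b * BB ^ M :=
            Nat.add_le_add (Nat.mul_le_mul_right _ hq) h1
        _ = b * BB ^ (M + 1) + b * (2 * BB ^ M) := by ring
        _ ≤ b * BB ^ (M + 1) + b * BB ^ (M + 1) := Nat.add_le_add_left (Nat.mul_le_mul_left _ h3) _
        _ = 2 * b * BB ^ (M + 1) := by ring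

/-- One digit of the product of two packed numbers is the inner product. -/
theorem pack_mul (a b : ℕ) (N : ℕ) (l m : List ℕ) (hlen : l.length = m.length)
    (hN : l.length ≤ N + 1) (ha : ∀ p ∈ l.dropLast, p ≤ a) (hb : ∀ q ∈ m.tail, q ≤ b) :
    ∃ low high, packP l * packQ N m = low + dotN l m * BB ^ N + high * BB ^ (N + 1) ∧
      BB * low ≤ l.length * (2 * a * b) * BB ^ N := by
  induction l generalizing m N with
  | nil => exact ⟨0, 0, by simp [packP, dotN], by simp⟩
  | cons p l ih =>
    cases m with
    | nil => simp at hlen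
    | cons q m =>
      have hlen' : l.length = m.length := by simpa using hlen
      cases l with
      | nil =>
        cases m with
        | nil => exact ⟨0, 0, by simp [packP, packQ, dotN, Nat.mul_assoc], by simp⟩
        | cons q' m => simp at hlen'
      | cons p' l =>
        have hN' : 1 ≤ N := by simp only [List.length_cons] at hN; omega
        obtain ⟨M, rfl⟩ : ∃ M, N = M + 1 := ⟨N - 1, by omega⟩
        have hb1 : ∀ q ∈ m, q ≤ b := fun q hq => hb q (by simpa using hq)
        obtain ⟨low, high, h1, h2⟩ := ih (N := M) m hlen'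
          (by simp only [List.length_cons] at hN ⊢; omega)
          (fun x hx => ha x (by rw [List.dropLast_cons_of_ne_nil (by simp)]; simp [hx]))
          (fun x hx => hb1 x (List.mem_of_mem_tail hx))
        have hp : p ≤ a := ha p (by rw [List.dropLast_cons_of_ne_nil (by simp)]; simp)
        have h3 := packQ_le b M m (by rw [← hlen']; simp only [List.length_cons] at hN ⊢; omega) hb1
        refine ⟨p * packQ M m + BB * low, high + packP (p' :: l) * q, ?_, ?_⟩
        · rw [packP, packQ, dotN]
          have h4 : M + 1 - 1 = M := rfl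
          rw [h4]
          calc (p + BB * packP (p' :: l)) * (q * BB ^ (M + 1) + packQ M m)
              = p * q * BB ^ (M + 1) + p * packQ M m + packP (p' :: l) * q * (BB * BB ^ (M + 1)) +
                BB * (packP (p' :: l) * packQ M m) := by ring
            _ = _ := by rw [h1]; ring
        · have h5 : p * packQ M m ≤ 2 * a * b * BB ^ M :=
            calc p * packQ M m ≤ a * (2 * b * BB ^ M) := Nat.mul_le_mul hp h3
              _ = 2 * a * b * BB ^ M := by ring
          calc BB * (p * packQ M m + BB * low) = BB * (p * packQ M m) + BB * (BB * low) := by ring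
            _ ≤ BB * (2 * a * b * BB ^ M) + BB * ((p' :: l).length * (2 * a * b) * BB ^ M) :=
              Nat.add_le_add (Nat.mul_le_mul_left _ h5) (Nat.mul_le_mul_left _ h2)
            _ = _ := by simp only [List.length_cons]; ring

/-- a number in which the digit `N` is `d`, up to carries from a small part -/
def Dig (N J d T : ℕ) : Prop :=
  ∃ low high, T = low + d * BB ^ N + high * BB ^ (N + 1) ∧ BB * low ≤ J * BB ^ N

theorem Dig.add {N J d T J' d' T' : ℕ} (h : Dig N J d T) (h' : Dig N J' d' T') :
    Dig N (J + J') (d + d') (T + T') := by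
  obtain ⟨low, high, h1, h2⟩ := h
  obtain ⟨low', high', h1', h2'⟩ := h'
  exact ⟨low + low', high + high', by rw [h1, h1']; ring, by
    calc BB * (low + low') = BB * low + BB * low' := by ring
      _ ≤ J * BB ^ N + J' * BB ^ N := Nat.add_le_add h2 h2'
      _ = _ := by ring⟩

theorem Dig.mono {N J d T J' : ℕ} (h : Dig N J d T) (hJ : J ≤ J') : Dig N J' d T := by
  obtain ⟨low, high, h1, h2⟩ := h
  exact ⟨low, high, h1, h2.trans (Nat.mul_le_mul_right _ hJ)⟩

theorem Dig.zero (N : ℕ) : Dig N 0 0 0 := ⟨0, 0, by simp, by simp⟩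

theorem Dig.extract {N J d T : ℕ} (h : Dig N J d T) (hJ : J < BB) (hd : d < BB) :
    T / BB ^ N % BB = d := by
  obtain ⟨low, high, h1, h2⟩ := h
  have hB : 0 < BB := by unfold BB; norm_num
  have hP : 0 < BB ^ N := Nat.pow_pos hB
  have h3 : low < BB ^ N := by
    have : BB * low < BB * BB ^ N := h2.trans_lt (Nat.mul_lt_mul_of_pos_right hJ hP)
    exact Nat.lt_of_mul_lt_mul_left this
  have h4 : T = low + (d + high * BB) * BB ^ N := by rw [h1, pow_succ]; ring
  rw [h4, Nat.add_mul_div_right _ _ hP, Nat.div_eq_of_lt h3, Nat.zero_add,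
    Nat.add_mul_mod_self_right, Nat.mod_eq_of_lt hd]

end Pool.Agent.Helper96.FC
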