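import Pool.Agent.Helper96.FC.Sos

/-!
# Flag certificates on six vertices: placements of the flags
-/

set_option autoImplicit false

namespace Pool.Agent.Helper96.FC

open Finset

variable {V : Type} [Fintype V]

/-- a placement of two flags of the first kind -/
structure PA where
  f : Fin 6 → Fin 6
  m : Fin 10
  m' : Fin 10

/-- the placement puts the first mark at `0, 1` and the second one at `a, b` -/
def PA.Good (a b : Fin 6) (p : PA) : Prop :=
  Function.Injective p.f ∧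
  ((p.f (s1 (e1 p.m)) = 0 ∧ p.f (s1 (e2 p.m)) = 1) ∨
    (p.f (s1 (e1 p.m)) = 1 ∧ p.f (s1 (e2 p.m)) = 0)) ∧
  ((p.f (s2 (e1 p.m')) = a ∧ p.f (s2 (e2 p.m')) = b) ∨
    (p.f (s2 (e1 p.m')) = b ∧ p.f (s2 (e2 p.m')) = a))

instance (a b : Fin 6) (p : PA) : Decidable (p.Good a b) := by
  unfold PA.Good; infer_instance

/-- a placement of two flags of the second kind -/
structure PC where
  f : Fin 6 → Fin 6
  m : Fin 6
  m' : Fin 6

/-- the placement puts the first mark at `0, 1` and the second one at `a, b` -/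
def PC.Good (a b : Fin 6) (p : PC) : Prop :=
  Function.Injective p.f ∧
  ((p.f (t1 (c1 p.m)) = 0 ∧ p.f (t1 (c2 p.m)) = 1) ∨
    (p.f (t1 (c1 p.m)) = 1 ∧ p.f (t1 (c2 p.m)) = 0)) ∧
  ((p.f (t2 (c1 p.m')) = a ∧ p.f (t2 (c2 p.m')) = b) ∨
    (p.f (t2 (c1 p.m')) = b ∧ p.f (t2 (c2 p.m')) = a))

instance (a b : Fin 6) (p : PC) : Decidable (p.Good a b) := by
  unfold PC.Good; infer_instance

theorem Sys.placeA (S : Sys V) (idx : ℕ → ℕ) (X : ℕ → ℕ → ℕ → ℤ) (a b : Fin 6) (p : PA)
    (hp : p.Good a b) :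
    ∑ x : Fin 6 → V, S.wt p.m (x ∘ s1) * S.wt p.m' (x ∘ s2) * (S.GA idx X p.m p.m' x : ℝ)
      = S.T a b (fun x => (S.GA idx X p.m p.m' (x ∘ p.f) : ℝ)) := by
  obtain ⟨h1, h2, h3⟩ := hp
  rw [sum_comp_perm p.f (Finite.injective_iff_bijective.1 h1)]
  unfold Sys.T
  refine Finset.sum_congr rfl fun x _ => ?_
  have e2' : S.wt p.m ((x ∘ p.f) ∘ s1) = S.lam (x 0) (x 1) := by
    unfold Sys.wt
    simp only [Function.comp]
    rcases h2 with ⟨h, h'⟩ | ⟨h, h'⟩
    · rw [h, h']
    · rw [h, h', S.lam_symm]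
  have e3 : S.wt p.m' ((x ∘ p.f) ∘ s2) = S.lam (x a) (x b) := by
    unfold Sys.wt
    simp only [Function.comp]
    rcases h3 with ⟨h, h'⟩ | ⟨h, h'⟩
    · rw [h, h']
    · rw [h, h', S.lam_symm]
  rw [e2', e3]

theorem Sys.placeC (S : Sys V) (idx : ℕ → ℕ) (X : ℕ → ℕ → ℕ → ℤ) (a b : Fin 6) (p : PC)
    (hp : p.Good a b) :
    ∑ x : Fin 6 → V, S.wt4 p.m (x ∘ t1) * S.wt4 p.m' (x ∘ t2) * (S.GC idx X p.m p.m' x : ℝ)
      = S.T a b (fun x => (S.GC idx X p.m p.m' (x ∘ p.f) : ℝ)) := by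
  obtain ⟨h1, h2, h3⟩ := hp
  rw [sum_comp_perm p.f (Finite.injective_iff_bijective.1 h1)]
  unfold Sys.T
  refine Finset.sum_congr rfl fun x _ => ?_
  have e2' : S.wt4 p.m ((x ∘ p.f) ∘ t1) = S.lam (x 0) (x 1) := by
    unfold Sys.wt4
    simp only [Function.comp]
    rcases h2 with ⟨h, h'⟩ | ⟨h, h'⟩
    · rw [h, h']
    · rw [h, h', S.lam_symm]
  have e3 : S.wt4 p.m' ((x ∘ p.f) ∘ t2) = S.lam (x a) (x b) := by
    unfold Sys.wt4
    simp only [Function.comp]
    rcases h3 with ⟨h, h'⟩ | ⟨h, h'⟩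
    · rw [h, h']
    · rw [h, h', S.lam_symm]
  rw [e2', e3]

/-- a sum over a list of placements, counted by the pairs of marks -/
theorem sum_count {n : ℕ} (l : List (Fin n × Fin n)) (t : Fin n → Fin n → ℝ) :
    (l.map (fun p => t p.1 p.2)).sum = ∑ m, ∑ m', (l.count (m, m') : ℝ) * t m m' := by
  induction l with
  | nil => simp
  | cons p l ih =>
    rw [List.map_cons, List.sum_cons, ih]
    have h0 : ∀ m m', (((p :: l).count (m, m') : ℕ) : ℝ) * t m m'
        = (l.count (m, m') : ℝ) * t m m' + (if (m, m') = p then t m m' else 0) := by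
      intro m m'
      rw [List.count_cons]
      by_cases h : (m, m') = p
      · rw [if_pos h, if_pos (by rw [beq_iff_eq]; exact h.symm)]
        push_cast; ring
      · rw [if_neg h, if_neg (by rw [beq_iff_eq]; exact fun h' => h h'.symm)]
        push_cast; ring
    simp only [h0, Finset.sum_add_distrib]
    have h : ∑ m : Fin n, ∑ m' : Fin n, (if (m, m') = p then t m m' else 0) = t p.1 p.2 := by
      rw [← Fintype.sum_prod_type' (f := fun m m' => if (m, m') = p then t m m' else 0)]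
      rw [Finset.sum_eq_single p]
      · simp
      · intro b _ hb
        rw [if_neg]
        simpa using hb
      · simp
    rw [h]; ring

end Pool.Agent.Helper96.FC
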