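import Pool.Agent.Helper96.FC.TypC
import Pool.Agent.Helper60.SL.Robust

/-!
# Flag certificates on six vertices: the inequality for tuples of type C
-/

set_option autoImplicit false

namespace Pool.Agent.Helper96.FC

open Finset Pool.Agent.Helper60.SL

variable {V : Type} [Fintype V]

/-- four numbers, the first is `n` and the others are zero -/
def bz (s n a b c : ℕ) : Bool := Nat.beq s n && (Nat.beq a 0 && (Nat.beq b 0 && Nat.beq c 0))

/-- two numbers with given values, the others are zero -/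
def by2 (s n t m a b c : ℕ) : Bool :=
  Nat.beq s n && (Nat.beq t m && (Nat.beq a 0 && (Nat.beq b 0 && Nat.beq c 0)))

/-- the configuration contains a non-conflicting pair of edges -/
def bdC (s2 s3 s4 t4 s5 t5 k : ℕ) : Bool :=
  bz s4 2 t4 (aw0 s2) (aw0 s3) || (bz s4 4 t4 (aw1 s2) (aw1 s3) ||
  (bz s5 2 t5 (aw0 s2) (aw0 s3) || (bz s5 4 t5 (aw1 s2) (aw1 s3) ||
  (bz t4 2 s4 (aw0 s2) (aw1 s2) || (bz t4 4 s4 (aw0 s3) (aw1 s3) ||
  (bz t5 2 s5 (aw0 s2) (aw1 s2) || (bz t5 4 s5 (aw0 s3) (aw1 s3) ||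
  (Nat.beq k 0 &&
    (by2 s4 2 t5 2 (aw0 s2) (aw0 s5) (aw0 t4) || (by2 s4 2 t5 4 (aw0 s3) (aw0 s5) (aw1 t4) ||
    (by2 s4 4 t5 2 (aw1 s2) (aw1 s5) (aw0 t4) || (by2 s4 4 t5 4 (aw1 s3) (aw1 s5) (aw1 t4) ||
    (by2 s5 2 t4 2 (aw0 s2) (aw0 s4) (aw0 t5) || (by2 s5 2 t4 4 (aw0 s3) (aw0 s4) (aw1 t5) ||
    (by2 s5 4 t4 2 (aw1 s2) (aw1 s4) (aw0 t5) ||
      by2 s5 4 t4 4 (aw1 s3) (aw1 s4) (aw1 t5))))))))))))))))

/-- the same in terms of the numbers of the configuration -/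
noncomputable def badC (b i j k : ℕ) : Bool :=
  bdC (bT b % 8) (bT b / 8 % 8) (i / 6) (i % 6) (j / 6) (j % 6) k

/-- the check for one base -/
noncomputable def enC (b : ℕ) : Bool :=
  allN 36 (fun i => allN 36 (fun j => allN 2 (fun k =>
    cond (frcB (fun h => Nat.ble (valC b i j k h) kC) (hC b i j k)) true (badC b i j k))))

theorem enC_ok {b : ℕ} (h : enC b = true) {i j k : ℕ} (hi : i < 36) (hj : j < 36) (hk : k < 2)
    (hb : badC b i j k = false) : valC b i j k (hC b i j k) ≤ kC := by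
  have h1 := (allN_iff _ _).1 ((allN_iff _ _).1 ((allN_iff _ _).1 h _ hi) _ hj) _ hk
  rw [frcB_eq, hb] at h1
  rcases h2 : Nat.ble (valC b i j k (hC b i j k)) kC with _ | _
  · rw [h2] at h1
    exact absurd h1 (by simp)
  · exact Nat.le_of_ble_eq_true h2

theorem a_zero {S : Sys V} {u v : V} (h : S.a u v = 0) : S.adj u v = false := by
  unfold Sys.a at h
  rcases h1 : S.adj u v with _ | _
  · rfl
  · rw [h1] at h
    exact absurd h (by decide)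

theorem a_one {S : Sys V} {u v : V} (h : S.adj u v = true) : S.a u v = 1 := by
  unfold Sys.a
  rw [h]
  rfl

theorem vw_two {S : Sys V} {u w k : V} (h : S.vw u w k = 2) : S.q u k = true ∧ S.adj w k = false := by
  unfold Sys.vw at h
  rcases h1 : S.adj u k <;> rcases h2 : S.adj w k <;> rcases h3 : S.q u k <;>
    rcases h4 : S.q w k <;> simp [h1, h2, h3, h4] at h ⊢

theorem vw_four {S : Sys V} {u w k : V} (h : S.vw u w k = 4) :
    S.q w k = true ∧ S.adj u k = false := by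
  unfold Sys.vw at h
  rcases h1 : S.adj u k <;> rcases h2 : S.adj w k <;> rcases h3 : S.q u k <;>
    rcases h4 : S.q w k <;> simp [h1, h2, h3, h4] at h ⊢

theorem vw_zero {S : Sys V} {u w k : V} (h : S.vw u w k = 0) :
    S.adj u k = false ∧ S.adj w k = false := by
  unfold Sys.vw at h
  rcases h1 : S.adj u k <;> rcases h2 : S.adj w k <;> rcases h3 : S.q u k <;>
    rcases h4 : S.q w k <;> simp [h1, h2, h3, h4] at h ⊢

theorem vw_one {S : Sys V} {u w k : V} (h : S.vw u w k = 1) : S.q u k = false := by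
  unfold Sys.vw at h
  rcases h1 : S.adj u k <;> rcases h2 : S.adj w k <;> rcases h3 : S.q u k <;>
    rcases h4 : S.q w k <;> simp [h1, h2, h3, h4] at h ⊢

theorem vw_three {S : Sys V} {u w k : V} (h : S.vw u w k = 3) : S.q w k = false := by
  unfold Sys.vw at h
  rcases h1 : S.adj u k <;> rcases h2 : S.adj w k <;> rcases h3 : S.q u k <;>
    rcases h4 : S.q w k <;> simp [h1, h2, h3, h4] at h ⊢

theorem bz_iff {s n a b c : ℕ} (h : bz s n a b c = true) : s = n ∧ a = 0 ∧ b = 0 ∧ c = 0 := by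
  unfold bz at h
  simp only [Bool.and_eq_true] at h
  exact ⟨Nat.eq_of_beq_eq_true h.1, Nat.eq_of_beq_eq_true h.2.1, Nat.eq_of_beq_eq_true h.2.2.1,
    Nat.eq_of_beq_eq_true h.2.2.2⟩

theorem by2_iff {s n t m a b c : ℕ} (h : by2 s n t m a b c = true) :
    s = n ∧ t = m ∧ a = 0 ∧ b = 0 ∧ c = 0 := by
  unfold by2 at h
  simp only [Bool.and_eq_true] at h
  exact ⟨Nat.eq_of_beq_eq_true h.1, Nat.eq_of_beq_eq_true h.2.1, Nat.eq_of_beq_eq_true h.2.2.1,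
    Nat.eq_of_beq_eq_true h.2.2.2.1, Nat.eq_of_beq_eq_true h.2.2.2.2⟩

/-- two edges of the system in a good tuple with no adjacencies: contradiction -/
theorem good_no {S : Sys V} {x : Fin 6 → V} (hG : Good S x) {i j k l : Fin 6}
    (h1 : S.q (x i) (x j) = true) (h2 : S.q (x k) (x l) = true) (c1 : S.adj (x i) (x k) = false)
    (c2 : S.adj (x i) (x l) = false) (c3 : S.adj (x j) (x k) = false)
    (c4 : S.adj (x j) (x l) = false) : False := by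
  have h := hG i j k l h1 h2
  unfold cf at h
  rw [c1, c2, c3, c4] at h
  exact absurd h (by simp)

theorem adj_no {S : Sys V} {u v : V} (h : S.adj u v = false) : S.adj v u = false := by
  rw [S.adj_symm, h]

theorem good_bdC {S : Sys V} {x : Fin 6 → V} (hG : Good S x) (h01 : S.q (x 0) (x 1) = true)
    (h23 : S.q (x 2) (x 3) = true) :
    bdC (S.vw (x 0) (x 1) (x 2)) (S.vw (x 0) (x 1) (x 3)) (S.vw (x 0) (x 1) (x 4))
      (S.vw (x 2) (x 3) (x 4)) (S.vw (x 0) (x 1) (x 5)) (S.vw (x 2) (x 3) (x 5))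
      (S.a (x 4) (x 5)) = false := by
  rw [Bool.eq_false_iff]
  intro h
  unfold bdC at h
  simp only [Bool.or_eq_true, Bool.and_eq_true, S.aw0_vw, S.aw1_vw] at h
  rcases h with h | h | h | h | h | h | h | h | ⟨h0, h | h | h | h | h | h | h | h⟩
  · obtain ⟨h1, h2, h3, h4⟩ := bz_iff h
    exact good_no hG (vw_two h1).1 h23 (a_zero h3) (a_zero h4) (adj_no (vw_zero h2).1)
      (adj_no (vw_zero h2).2)
  · obtain ⟨h1, h2, h3, h4⟩ := bz_iff h
    exact good_no hG (vw_four h1).1 h23 (a_zero h3) (a_zero h4) (adj_no (vw_zero h2).1)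
      (adj_no (vw_zero h2).2)
  · obtain ⟨h1, h2, h3, h4⟩ := bz_iff h
    exact good_no hG (vw_two h1).1 h23 (a_zero h3) (a_zero h4) (adj_no (vw_zero h2).1)
      (adj_no (vw_zero h2).2)
  · obtain ⟨h1, h2, h3, h4⟩ := bz_iff h
    exact good_no hG (vw_four h1).1 h23 (a_zero h3) (a_zero h4) (adj_no (vw_zero h2).1)
      (adj_no (vw_zero h2).2)
  · obtain ⟨h1, h2, h3, h4⟩ := bz_iff h
    exact good_no hG (vw_two h1).1 h01 (adj_no (a_zero h3)) (adj_no (a_zero h4))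
      (adj_no (vw_zero h2).1) (adj_no (vw_zero h2).2)
  · obtain ⟨h1, h2, h3, h4⟩ := bz_iff h
    exact good_no hG (vw_four h1).1 h01 (adj_no (a_zero h3)) (adj_no (a_zero h4))
      (adj_no (vw_zero h2).1) (adj_no (vw_zero h2).2)
  · obtain ⟨h1, h2, h3, h4⟩ := bz_iff h
    exact good_no hG (vw_two h1).1 h01 (adj_no (a_zero h3)) (adj_no (a_zero h4))
      (adj_no (vw_zero h2).1) (adj_no (vw_zero h2).2)
  · obtain ⟨h1, h2, h3, h4⟩ := bz_iff h
    exact good_no hG (vw_four h1).1 h01 (adj_no (a_zero h3)) (adj_no (a_zero h4))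
      (adj_no (vw_zero h2).1) (adj_no (vw_zero h2).2)
  · obtain ⟨h1, h2, h3, h4, h5⟩ := by2_iff h
    exact good_no hG (vw_two h1).1 (vw_two h2).1 (a_zero h3) (a_zero h4) (adj_no (a_zero h5))
      (a_zero (Nat.eq_of_beq_eq_true h0))
  · obtain ⟨h1, h2, h3, h4, h5⟩ := by2_iff h
    exact good_no hG (vw_two h1).1 (vw_four h2).1 (a_zero h3) (a_zero h4) (adj_no (a_zero h5))
      (a_zero (Nat.eq_of_beq_eq_true h0))
  · obtain ⟨h1, h2, h3, h4, h5⟩ := by2_iff h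
    exact good_no hG (vw_four h1).1 (vw_two h2).1 (a_zero h3) (a_zero h4) (adj_no (a_zero h5))
      (a_zero (Nat.eq_of_beq_eq_true h0))
  · obtain ⟨h1, h2, h3, h4, h5⟩ := by2_iff h
    exact good_no hG (vw_four h1).1 (vw_four h2).1 (a_zero h3) (a_zero h4) (adj_no (a_zero h5))
      (a_zero (Nat.eq_of_beq_eq_true h0))
  · obtain ⟨h1, h2, h3, h4, h5⟩ := by2_iff h
    exact good_no hG (vw_two h1).1 (vw_two h2).1 (a_zero h3) (a_zero h4) (adj_no (a_zero h5))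
      (adj_no (a_zero (Nat.eq_of_beq_eq_true h0)))
  · obtain ⟨h1, h2, h3, h4, h5⟩ := by2_iff h
    exact good_no hG (vw_two h1).1 (vw_four h2).1 (a_zero h3) (a_zero h4) (adj_no (a_zero h5))
      (adj_no (a_zero (Nat.eq_of_beq_eq_true h0)))
  · obtain ⟨h1, h2, h3, h4, h5⟩ := by2_iff h
    exact good_no hG (vw_four h1).1 (vw_two h2).1 (a_zero h3) (a_zero h4) (adj_no (a_zero h5))
      (adj_no (a_zero (Nat.eq_of_beq_eq_true h0)))
  · obtain ⟨h1, h2, h3, h4, h5⟩ := by2_iff h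
    exact good_no hG (vw_four h1).1 (vw_four h2).1 (a_zero h3) (a_zero h4) (adj_no (a_zero h5))
      (adj_no (a_zero (Nat.eq_of_beq_eq_true h0)))

/-- the four views of a base are consistent -/
def consC (s2 s3 t0 t1 : ℕ) : Prop :=
  aw0 s2 = aw0 t0 ∧ aw1 s2 = aw0 t1 ∧ aw0 s3 = aw1 t0 ∧ aw1 s3 = aw1 t1 ∧
  ¬ (s2 = 1 ∧ t0 = 2) ∧ ¬ (s2 = 2 ∧ t0 = 1) ∧ ¬ (s2 = 3 ∧ t1 = 2) ∧ ¬ (s2 = 4 ∧ t1 = 1) ∧
  ¬ (s3 = 1 ∧ t0 = 4) ∧ ¬ (s3 = 2 ∧ t0 = 3) ∧ ¬ (s3 = 3 ∧ t1 = 4) ∧ ¬ (s3 = 4 ∧ t1 = 3)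

instance (s2 s3 t0 t1 : ℕ) : Decidable (consC s2 s3 t0 t1) := by unfold consC; infer_instance

theorem base_ok' : ∀ s2 < 6, ∀ s3 < 6, ∀ t0 < 6, ∀ t1 < 6, (¬ consC s2 s3 t0 t1) ∨
    s2 + s3 = 0 ∨ bT (bI (s2 + 6 * s3 + 36 * t0 + 216 * t1)) =
      s2 + 8 * s3 + 64 * t0 + 512 * t1 := by
  decide +kernel

theorem base_ok {s2 s3 t0 t1 : ℕ} (h2 : s2 < 6) (h3 : s3 < 6) (h0 : t0 < 6) (h1 : t1 < 6)
    (hc : consC s2 s3 t0 t1) (hn : s2 + s3 ≠ 0) :
    bT (bI (s2 + 6 * s3 + 36 * t0 + 216 * t1)) = s2 + 8 * s3 + 64 * t0 + 512 * t1 := by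
  rcases base_ok' s2 h2 s3 h3 t0 h0 t1 h1 with h | h | h
  · exact absurd hc h
  · exact absurd h hn
  · exact h

theorem good_bOk {S : Sys V} {x : Fin 6 → V} (hG : Good S x) (h01 : S.q (x 0) (x 1) = true)
    (h23 : S.q (x 2) (x 3) = true) : S.bOk (x ∘ t5) := by
  unfold Sys.bOk
  show bT (bI (S.vw (x 0) (x 1) (x 2) + 6 * S.vw (x 0) (x 1) (x 3) +
    36 * S.vw (x 2) (x 3) (x 0) + 216 * S.vw (x 2) (x 3) (x 1))) =
    S.vw (x 0) (x 1) (x 2) + 8 * S.vw (x 0) (x 1) (x 3) + 64 * S.vw (x 2) (x 3) (x 0) +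
    512 * S.vw (x 2) (x 3) (x 1)
  refine base_ok (S.vw_lt _ _ _) (S.vw_lt _ _ _) (S.vw_lt _ _ _) (S.vw_lt _ _ _) ?_ ?_
  · have qf : ∀ {u v : V}, S.q u v = true → S.q v u = false → False := by
      intro u v h1 h2
      rw [S.q_symm, h2] at h1
      exact absurd h1 (by simp)
    refine ⟨?_, ?_, ?_, ?_, ?_, ?_, ?_, ?_, ?_, ?_, ?_, ?_⟩
    · rw [S.aw0_vw, S.aw0_vw, S.a_symm]
    · rw [S.aw1_vw, S.aw0_vw, S.a_symm]
    · rw [S.aw0_vw, S.aw1_vw, S.a_symm]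
    · rw [S.aw1_vw, S.aw1_vw, S.a_symm]
    · exact fun h => qf (vw_two h.2).1 (vw_one h.1)
    · exact fun h => qf (vw_two h.1).1 (vw_one h.2)
    · exact fun h => qf (vw_two h.2).1 (vw_three h.1)
    · exact fun h => qf (vw_four h.1).1 (vw_one h.2)
    · exact fun h => qf (vw_four h.2).1 (vw_one h.1)
    · exact fun h => qf (vw_two h.1).1 (vw_three h.2)
    · exact fun h => qf (vw_four h.2).1 (vw_three h.1)
    · exact fun h => qf (vw_four h.1).1 (vw_three h.2)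
  · intro h
    have z1 := vw_zero (Nat.eq_zero_of_add_eq_zero_right h)
    have z2 := vw_zero (Nat.eq_zero_of_add_eq_zero_left h)
    exact good_no hG h01 h23 z1.1 z2.1 z1.2 z2.2

/-- The inequality for good tuples of type C. -/
theorem Sys.ptC (S : Sys V) (K : Facts) (R : ∀ i < 1764, chkR (prC i) = true)
    (E : ∀ b < 49, enC b = true) (x : Fin 6 → V) (h01 : S.q (x 0) (x 1) = true)
    (h23 : S.q (x 2) (x 3) = true) (hG : Good S x) :
    S.KS tau plCA plCC x + S.RR S.omC gC x + 8 * scl * (S.dg4 x 4 * S.dg4 x 5 : ℕ) ≤ 0 := by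
  have hb := good_bOk hG h01 h23
  have h1 := S.valC_eq K R x (a_one (S.q_adj _ _ h01)) (a_one (S.q_adj _ _ h23)) hb
  have v1 := S.vw_lt (x 0) (x 1) (x 4)
  have v2 := S.vw_lt (x 2) (x 3) (x 4)
  have v3 := S.vw_lt (x 0) (x 1) (x 5)
  have v4 := S.vw_lt (x 2) (x 3) (x 5)
  have hbd := good_bdC hG h01 h23
  have h2 := enC_ok (E _ (bI_lt _ (S.bs6_lt (x ∘ t5))))
    (show 6 * S.vw (x 0) (x 1) (x 4) + S.vw (x 2) (x 3) (x 4) < 36 by omega)
    (show 6 * S.vw (x 0) (x 1) (x 5) + S.vw (x 2) (x 3) (x 5) < 36 by omega)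
    (Nat.lt_succ_of_le (S.a_le (x 4) (x 5))) (by
      unfold badC
      have l1 := S.vw_lt (x 0) (x 1) (x 2)
      have l2 := S.vw_lt (x 0) (x 1) (x 3)
      have hbs : S.bs8 (x ∘ t5) = S.vw (x 0) (x 1) (x 2) + 8 * S.vw (x 0) (x 1) (x 3) +
        64 * S.vw (x 2) (x 3) (x 0) + 512 * S.vw (x 2) (x 3) (x 1) := rfl
      have d1 : S.bs8 (x ∘ t5) % 8 = S.vw (x 0) (x 1) (x 2) := by rw [hbs]; omega
      have d2 : S.bs8 (x ∘ t5) / 8 % 8 = S.vw (x 0) (x 1) (x 3) := by rw [hbs]; omega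
      have d3 : (6 * S.vw (x 0) (x 1) (x 4) + S.vw (x 2) (x 3) (x 4)) / 6 =
        S.vw (x 0) (x 1) (x 4) := by omega
      have d4 : (6 * S.vw (x 0) (x 1) (x 4) + S.vw (x 2) (x 3) (x 4)) % 6 =
        S.vw (x 2) (x 3) (x 4) := by omega
      have d5 : (6 * S.vw (x 0) (x 1) (x 5) + S.vw (x 2) (x 3) (x 5)) / 6 =
        S.vw (x 0) (x 1) (x 5) := by omega
      have d6 : (6 * S.vw (x 0) (x 1) (x 5) + S.vw (x 2) (x 3) (x 5)) % 6 =
        S.vw (x 2) (x 3) (x 5) := by omega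
      have hb2 : bT (bI (S.bs6 (x ∘ t5))) = S.bs8 (x ∘ t5) := hb
      rw [hb2, d1, d2, d3, d4, d5, d6]
      exact hbd)
  have h3 : ((valC (bI (S.bs6 (x ∘ t5))) (6 * S.vw (x 0) (x 1) (x 4) + S.vw (x 2) (x 3) (x 4))
      (6 * S.vw (x 0) (x 1) (x 5) + S.vw (x 2) (x 3) (x 5)) (S.a (x 4) (x 5))
      (hC (bI (S.bs6 (x ∘ t5))) (6 * S.vw (x 0) (x 1) (x 4) + S.vw (x 2) (x 3) (x 4))
      (6 * S.vw (x 0) (x 1) (x 5) + S.vw (x 2) (x 3) (x 5)) (S.a (x 4) (x 5))) : ℕ) : ℤ) ≤ kC := by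
    exact_mod_cast h2
  rw [h1] at h3
  linarith

end Pool.Agent.Helper96.FC
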