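import Pool.Agent.Helper96.FC.TypA
import Pool.Agent.Helper96.FC.PtC

/-!
# Flag certificates on six vertices: the inequality for tuples of type A
-/

set_option autoImplicit false

namespace Pool.Agent.Helper96.FC

open Finset Pool.Agent.Helper60.SL

variable {V : Type} [Fintype V]

/-- number of ends seen, both ends seen, some end seen -/
noncomputable def sdv (s : ℕ) : ℕ := Nat.land (Nat.shiftRight 2388 (Nat.mul 2 s)) 3

noncomputable def bdv (s : ℕ) : ℕ := Nat.div s 5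

noncomputable def udv (s : ℕ) : ℕ := Nat.sub 1 (Nat.sub 1 s)

theorem sdv_eq : ∀ s < 6, sdv s = aw0 s + aw1 s := by decide +kernel

theorem bdv_eq : ∀ s < 6, bdv s = aw0 s * aw1 s := by decide +kernel

theorem udv_eq : ∀ s < 6, udv s = (aw0 s + aw1 s) - aw0 s * aw1 s := by decide +kernel

/-- the objective of a configuration of type A -/
noncomputable def oFn (s2 s3 s4 s5 b23 b24 b25 b34 b35 b45 : ℕ) : ℕ :=
  3 * (sdv s2 * sdv s3 * sdv s4 * sdv s5) +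
  3 * (bdv s2 * sdv s3 * sdv s4 * sdv s5 + sdv s2 * bdv s3 * sdv s4 * sdv s5 +
    sdv s2 * sdv s3 * bdv s4 * sdv s5 + sdv s2 * sdv s3 * sdv s4 * bdv s5) +
  2 * (udv s2 * udv s3 * b23 * sdv s4 * sdv s5 + udv s2 * udv s4 * b24 * sdv s3 * sdv s5 +
    udv s2 * udv s5 * b25 * sdv s3 * sdv s4 + udv s3 * udv s4 * b34 * sdv s2 * sdv s5 +
    udv s3 * udv s5 * b35 * sdv s2 * sdv s4 + udv s4 * udv s5 * b45 * sdv s2 * sdv s3)

theorem Sys.oFn_eq (S : Sys V) (x : Fin 6 → V) :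
    oFn (S.vw (x 0) (x 1) (x 2)) (S.vw (x 0) (x 1) (x 3)) (S.vw (x 0) (x 1) (x 4))
      (S.vw (x 0) (x 1) (x 5)) (S.a (x 2) (x 3)) (S.a (x 2) (x 4)) (S.a (x 2) (x 5))
      (S.a (x 3) (x 4)) (S.a (x 3) (x 5)) (S.a (x 4) (x 5)) = S.oA x := by
  have h1 : ∀ k, sdv (S.vw (x 0) (x 1) (x k)) = S.sA x k := by
    intro k
    rw [sdv_eq _ (S.vw_lt _ _ _), S.aw0_vw, S.aw1_vw]
    rfl
  have h2 : ∀ k, bdv (S.vw (x 0) (x 1) (x k)) = S.bA x k := by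
    intro k
    rw [bdv_eq _ (S.vw_lt _ _ _), S.aw0_vw, S.aw1_vw]
    rfl
  have h3 : ∀ k, udv (S.vw (x 0) (x 1) (x k)) = S.uA x k := by
    intro k
    rw [udv_eq _ (S.vw_lt _ _ _), S.aw0_vw, S.aw1_vw]
    unfold Sys.uA Sys.uu Sys.a
    rcases S.adj (x 0) (x k) <;> rcases S.adj (x 1) (x k) <;> rfl
  unfold oFn Sys.oA Sys.pA
  simp only [h1, h2, h3]

/-- the check for one configuration of type A -/
noncomputable def chA (s2 s3 s4 s5 b : ℕ) : Bool :=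
  frcB (fun v => cond (Nat.ble v kA) true (Nat.ble v (Nat.add kA (Nat.mul (Nat.mul 16 scl)
    (oFn s2 s3 s4 s5 (b / 32 % 2) (b / 16 % 2) (b / 8 % 2) (b / 4 % 2) (b / 2 % 2) (b % 2))))))
    (frc (fun h => valA s2 s3 s4 s5 (Nat.mod (Nat.div b 32) 2) (Nat.mod (Nat.div b 16) 2)
      (Nat.mod (Nat.div b 8) 2) (Nat.mod (Nat.div b 4) 2) (Nat.mod (Nat.div b 2) 2)
      (Nat.mod b 2) h) (hA s2 s3 s4 s5 b))

noncomputable def enA (s2 s3 : ℕ) : Bool :=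
  allN 6 (fun s4 => allN 6 (fun s5 => allN 64 (fun b => chA s2 s3 s4 s5 b)))

theorem chA_ok {s2 s3 s4 s5 b : ℕ} (h : chA s2 s3 s4 s5 b = true) :
    valA s2 s3 s4 s5 (b / 32 % 2) (b / 16 % 2) (b / 8 % 2) (b / 4 % 2) (b / 2 % 2) (b % 2)
      (hA s2 s3 s4 s5 b) ≤ kA + 16 * scl * oFn s2 s3 s4 s5 (b / 32 % 2) (b / 16 % 2) (b / 8 % 2)
        (b / 4 % 2) (b / 2 % 2) (b % 2) := by
  unfold chA at h
  rw [frcB_eq, frc_eq] at h
  have e : valA s2 s3 s4 s5 (Nat.mod (Nat.div b 32) 2) (Nat.mod (Nat.div b 16) 2)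
      (Nat.mod (Nat.div b 8) 2) (Nat.mod (Nat.div b 4) 2) (Nat.mod (Nat.div b 2) 2)
      (Nat.mod b 2) (hA s2 s3 s4 s5 b) =
    valA s2 s3 s4 s5 (b / 32 % 2) (b / 16 % 2) (b / 8 % 2) (b / 4 % 2) (b / 2 % 2) (b % 2)
      (hA s2 s3 s4 s5 b) := rfl
  rw [e] at h
  generalize valA s2 s3 s4 s5 (b / 32 % 2) (b / 16 % 2) (b / 8 % 2) (b / 4 % 2) (b / 2 % 2)
    (b % 2) (hA s2 s3 s4 s5 b) = v at *
  rcases h2 : Nat.ble v kA with _ | _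
  · rw [h2, cond_false] at h
    exact Nat.le_of_ble_eq_true h
  · exact (Nat.le_of_ble_eq_true h2).trans (Nat.le_add_right _ _)

theorem enA_ok {s2 s3 : ℕ} (h : enA s2 s3 = true) {s4 s5 b : ℕ} (h4 : s4 < 6) (h5 : s5 < 6)
    (hb : b < 64) : chA s2 s3 s4 s5 b = true :=
  (allN_iff _ _).1 ((allN_iff _ _).1 ((allN_iff _ _).1 h _ h4) _ h5) _ hb

/-- The inequality for tuples of type A. -/
theorem Sys.ptA (S : Sys V) (K : Facts) (R : ∀ i < 1728, chkR (prA i) = true)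
    (E : ∀ s2 < 6, ∀ s3 < 6, enA s2 s3 = true) (x : Fin 6 → V)
    (h01 : S.q (x 0) (x 1) = true) :
    S.KS tau plAA plAC x + S.RR S.omA gA x ≤ 16 * scl * (S.oA x : ℕ) := by
  have h1 := S.valA_eq K R x (a_one (S.q_adj _ _ h01))
  obtain ⟨b0, b1, b2, b3, b4, b5, b6⟩ := S.bbA_dg x
  have h2 := chA_ok (enA_ok (E _ (S.vw_lt (x 0) (x 1) (x 2)) _ (S.vw_lt (x 0) (x 1) (x 3)))
    (S.vw_lt (x 0) (x 1) (x 4)) (S.vw_lt (x 0) (x 1) (x 5)) b0)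
  rw [b1, b2, b3, b4, b5, b6, S.oFn_eq] at h2
  have h3 : ((valA (S.vw (x 0) (x 1) (x 2)) (S.vw (x 0) (x 1) (x 3)) (S.vw (x 0) (x 1) (x 4))
      (S.vw (x 0) (x 1) (x 5)) (S.a (x 2) (x 3)) (S.a (x 2) (x 4)) (S.a (x 2) (x 5))
      (S.a (x 3) (x 4)) (S.a (x 3) (x 5)) (S.a (x 4) (x 5))
      (hA (S.vw (x 0) (x 1) (x 2)) (S.vw (x 0) (x 1) (x 3)) (S.vw (x 0) (x 1) (x 4))
      (S.vw (x 0) (x 1) (x 5)) (S.bbA x)) : ℕ) : ℤ) ≤ ((kA + 16 * scl * S.oA x : ℕ) : ℤ) := by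
    exact_mod_cast h2
  rw [h1] at h3
  push_cast at h3 ⊢
  linarith

end Pool.Agent.Helper96.FC
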