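import Pool.Agent.Helper96.FC.TypB
import Pool.Agent.Helper96.FC.PtC

/-!
# Flag certificates on six vertices: the inequality for tuples of type B
-/

set_option autoImplicit false

namespace Pool.Agent.Helper96.FC

open Finset Pool.Agent.Helper60.SL

variable {V : Type} [Fintype V]

/-- two numbers equal to four, the four others are zero -/
def by4 (s t a b c d : ℕ) : Bool :=
  Nat.beq s 4 && (Nat.beq t 4 && (Nat.beq a 0 && (Nat.beq b 0 && (Nat.beq c 0 && Nat.beq d 0))))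

theorem by4_iff {s t a b c d : ℕ} (h : by4 s t a b c d = true) :
    s = 4 ∧ t = 4 ∧ a = 0 ∧ b = 0 ∧ c = 0 ∧ d = 0 := by
  unfold by4 at h
  simp only [Bool.and_eq_true] at h
  exact ⟨Nat.eq_of_beq_eq_true h.1, Nat.eq_of_beq_eq_true h.2.1, Nat.eq_of_beq_eq_true h.2.2.1,
    Nat.eq_of_beq_eq_true h.2.2.2.1, Nat.eq_of_beq_eq_true h.2.2.2.2.1,
    Nat.eq_of_beq_eq_true h.2.2.2.2.2⟩

/-- the configuration contains a non-conflicting pair of edges -/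
def bdB (a s3 t3 s4 t4 s5 t5 b34 b35 b45 : ℕ) : Bool :=
  by4 s3 t4 a (aw1 s4) (aw1 t3) b34 || (by4 s4 t3 a (aw1 s3) (aw1 t4) b34 ||
  (by4 s3 t5 a (aw1 s5) (aw1 t3) b35 || (by4 s5 t3 a (aw1 s3) (aw1 t5) b35 ||
  (by4 s4 t5 a (aw1 s5) (aw1 t4) b45 || by4 s5 t4 a (aw1 s4) (aw1 t5) b45))))

noncomputable def badB (a u3 u4 u5 b : ℕ) : Bool :=
  bdB a (uT u3 % 8) (uT u3 / 8) (uT u4 % 8) (uT u4 / 8) (uT u5 % 8) (uT u5 / 8)
    (b / 4 % 2) (b / 2 % 2) (b % 2)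

/-- the check for one configuration of type B -/
noncomputable def chB (a u3 u4 u5 b : ℕ) : Bool :=
  cond (frcB (fun h => Nat.ble (valB a u3 u4 u5 (Nat.mod (Nat.div b 4) 2) (Nat.mod (Nat.div b 2) 2)
    (Nat.mod b 2) h) kB) (hB a u3 u4 u5 b)) true (badB a u3 u4 u5 b)

noncomputable def enB (a u3 : ℕ) : Bool :=
  allN 16 (fun u4 => allN 16 (fun u5 => allN 8 (fun b => chB a u3 u4 u5 b)))

theorem chB_ok {a u3 u4 u5 b : ℕ} (h : chB a u3 u4 u5 b = true)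
    (hb : badB a u3 u4 u5 b = false) :
    valB a u3 u4 u5 (b / 4 % 2) (b / 2 % 2) (b % 2) (hB a u3 u4 u5 b) ≤ kB := by
  unfold chB at h
  rw [frcB_eq, hb] at h
  have e : valB a u3 u4 u5 (Nat.mod (Nat.div b 4) 2) (Nat.mod (Nat.div b 2) 2)
      (Nat.mod b 2) (hB a u3 u4 u5 b) =
    valB a u3 u4 u5 (b / 4 % 2) (b / 2 % 2) (b % 2) (hB a u3 u4 u5 b) := rfl
  rw [e] at h
  generalize valB a u3 u4 u5 (b / 4 % 2) (b / 2 % 2) (b % 2) (hB a u3 u4 u5 b) = v at *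
  rcases h2 : Nat.ble v kB with _ | _
  · rw [h2] at h
    exact absurd h (by simp)
  · exact Nat.le_of_ble_eq_true h2

theorem enB_ok {a u3 : ℕ} (h : enB a u3 = true) {u4 u5 b : ℕ} (h4 : u4 < 16) (h5 : u5 < 16)
    (hb : b < 8) : chB a u3 u4 u5 b = true :=
  (allN_iff _ _).1 ((allN_iff _ _).1 ((allN_iff _ _).1 h _ h4) _ h5) _ hb

theorem good_bdB {S : Sys V} {x : Fin 6 → V} (hG : Good S x) :
    bdB (S.a (x 1) (x 2)) (S.vw (x 0) (x 1) (x 3)) (S.vw (x 0) (x 2) (x 3))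
      (S.vw (x 0) (x 1) (x 4)) (S.vw (x 0) (x 2) (x 4)) (S.vw (x 0) (x 1) (x 5))
      (S.vw (x 0) (x 2) (x 5)) (S.a (x 3) (x 4)) (S.a (x 3) (x 5)) (S.a (x 4) (x 5)) = false := by
  rw [Bool.eq_false_iff]
  intro h
  unfold bdB at h
  simp only [Bool.or_eq_true, S.aw1_vw] at h
  rcases h with h | h | h | h | h | h
  · obtain ⟨h1, h2, h3, h4, h5, h6⟩ := by4_iff h
    exact good_no hG (vw_four h1).1 (vw_four h2).1 (a_zero h3) (a_zero h4)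
      (adj_no (a_zero h5)) (a_zero h6)
  · obtain ⟨h1, h2, h3, h4, h5, h6⟩ := by4_iff h
    exact good_no hG (vw_four h1).1 (vw_four h2).1 (a_zero h3) (a_zero h4)
      (adj_no (a_zero h5)) (adj_no (a_zero h6))
  · obtain ⟨h1, h2, h3, h4, h5, h6⟩ := by4_iff h
    exact good_no hG (vw_four h1).1 (vw_four h2).1 (a_zero h3) (a_zero h4)
      (adj_no (a_zero h5)) (a_zero h6)
  · obtain ⟨h1, h2, h3, h4, h5, h6⟩ := by4_iff h
    exact good_no hG (vw_four h1).1 (vw_four h2).1 (a_zero h3) (a_zero h4)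
      (adj_no (a_zero h5)) (adj_no (a_zero h6))
  · obtain ⟨h1, h2, h3, h4, h5, h6⟩ := by4_iff h
    exact good_no hG (vw_four h1).1 (vw_four h2).1 (a_zero h3) (a_zero h4)
      (adj_no (a_zero h5)) (a_zero h6)
  · obtain ⟨h1, h2, h3, h4, h5, h6⟩ := by4_iff h
    exact good_no hG (vw_four h1).1 (vw_four h2).1 (a_zero h3) (a_zero h4)
      (adj_no (a_zero h5)) (adj_no (a_zero h6))

/-- The inequality for good tuples of type B. -/
theorem Sys.ptB (S : Sys V) (K : Facts) (R : ∀ i < 1024, chkR (prB i) = true)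
    (E : ∀ a < 2, ∀ u < 16, enB a u = true) (x : Fin 6 → V)
    (h01 : S.q (x 0) (x 1) = true) (h02 : S.q (x 0) (x 2) = true) (hG : Good S x) :
    S.KS tau plBA plBC x + S.RR S.omB gB x ≤ 0 := by
  have h1 := S.valB_eq K R x h01 h02
  obtain ⟨b0, b1, b2, b3⟩ := S.bbB_dg x
  obtain ⟨p3, q3⟩ := S.ub_dg (x 0) (x 1) (x 2) (x 3)
  obtain ⟨p4, q4⟩ := S.ub_dg (x 0) (x 1) (x 2) (x 4)
  obtain ⟨p5, q5⟩ := S.ub_dg (x 0) (x 1) (x 2) (x 5)
  have h2 := chB_ok (enB_ok (E _ (Nat.lt_succ_of_le (S.a_le (x 1) (x 2))) _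
    (S.ub_lt (x 0) (x 1) (x 2) (x 3))) (S.ub_lt (x 0) (x 1) (x 2) (x 4))
    (S.ub_lt (x 0) (x 1) (x 2) (x 5)) b0) (by
      unfold badB
      rw [b1, b2, b3, p3, q3, p4, q4, p5, q5]
      exact good_bdB hG)
  rw [b1, b2, b3] at h2
  have h3 : ((valB (S.a (x 1) (x 2)) (S.ub (x 0) (x 1) (x 2) (x 3))
      (S.ub (x 0) (x 1) (x 2) (x 4)) (S.ub (x 0) (x 1) (x 2) (x 5)) (S.a (x 3) (x 4))
      (S.a (x 3) (x 5)) (S.a (x 4) (x 5))
      (hB (S.a (x 1) (x 2)) (S.ub (x 0) (x 1) (x 2) (x 3)) (S.ub (x 0) (x 1) (x 2) (x 4))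
      (S.ub (x 0) (x 1) (x 2) (x 5)) (S.bbB x)) : ℕ) : ℤ) ≤ kB := by
    exact_mod_cast h2
  rw [h1] at h3
  linarith

end Pool.Agent.Helper96.FC
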