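import Pool.Agent.Helper96.FC.Defs

/-!
# Flag certificates on six vertices: regularity terms
-/

set_option autoImplicit false

namespace Pool.Agent.Helper96.FC

open Finset

variable {V : Type} [Fintype V]

theorem Sys.T_comp (S : Sys V) (a b : Fin 6) (f : Fin 6 → Fin 6) (hf : Function.Injective f)
    (h0 : f 0 = 0) (h1 : f 1 = 1) (ha : f a = a) (hb : f b = b) (K : (Fin 6 → V) → ℝ) :
    S.T a b (fun x => K (x ∘ f)) = S.T a b K := by
  unfold Sys.T
  rw [sum_comp_perm f (Finite.injective_iff_bijective.1 hf)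
    (fun x => S.lam (x 0) (x 1) * S.lam (x a) (x b) * K x)]
  refine Finset.sum_congr rfl fun x _ => ?_
  simp only [Function.comp, h0, h1, ha, hb]

/-- the first five vertices of a tuple -/
def t5 : Fin 5 → Fin 6 := ![0, 1, 2, 3, 4]

/-- the regularity term for the weights `ω` -/
def Sys.rg (S : Sys V) (ω : (Fin 5 → V) → Fin 5 → ℤ) (x : Fin 6 → V) : ℤ :=
  ∑ z : Fin 5, ω (x ∘ t5) z * (S.a (x (t5 z)) (x 5) : ℤ)

theorem Sys.T_rg (S : Sys V) (a b : Fin 6) (ha : a ≠ 5) (hb : b ≠ 5)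
    (ω : (Fin 5 → V) → Fin 5 → ℤ) (hω : ∀ y, ∑ z : Fin 5, ω y z = 0) :
    S.T a b (fun x => (S.rg ω x : ℝ)) = 0 := by
  have e : ∀ F : (Fin 6 → V) → ℝ, ∑ x : Fin 6 → V, F x = ∑ y : Fin 5 → V, ∑ v, F (Fin.snoc y v) := by
    intro F
    rw [← Fintype.sum_prod_type']
    exact (Fintype.sum_equiv (((Fin.snocEquiv (fun _ : Fin 6 => V)).symm.trans
      (Equiv.prodComm _ _)).symm) _ _ fun p => rfl).symm
  unfold Sys.T
  rw [e]
  refine Finset.sum_eq_zero fun y _ => ?_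
  have hs : ∀ (v : V) (i : Fin 6) (h : i ≠ 5), (Fin.snoc y v : Fin 6 → V) i
      = y (i.castPred (by simpa using h)) := by
    intro v i h
    conv_lhs => rw [← Fin.castSucc_castPred i (by simpa using h)]
    rw [Fin.snoc_castSucc]
  have h5 : ∀ v : V, ((Fin.snoc y v : Fin 6 → V) ∘ t5) = y := by
    intro v
    funext i
    fin_cases i <;> rfl
  have hz : ∀ (v : V) (z : Fin 5), (Fin.snoc y v : Fin 6 → V) (t5 z) = y z := fun v z =>
    congrFun (h5 v) z
  have hl : ∀ v : V, (Fin.snoc y v : Fin 6 → V) 5 = v := fun v => rfl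
  simp only [Sys.rg, h5, hz, hl, hs _ a ha, hs _ b hb, hs _ 0 (by decide), hs _ 1 (by decide)]
  rw [← Finset.mul_sum]
  have h : ∑ v, ((∑ z : Fin 5, ω y z * (S.a (y z) v : ℤ) : ℤ) : ℝ) = 0 := by
    push_cast
    rw [Finset.sum_comm]
    have h2 : ∀ z : Fin 5, ∑ v, (ω y z : ℝ) * (S.a (y z) v : ℝ) = (ω y z : ℝ) * S.D := by
      intro z
      rw [← Finset.mul_sum, S.sum_a]
    rw [Finset.sum_congr rfl (fun z _ => h2 z), ← Finset.sum_mul]
    have h3 : (∑ z : Fin 5, (ω y z : ℝ)) = 0 := by exact_mod_cast hω y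
    rw [h3, zero_mul]
  rw [h, mul_zero]

end Pool.Agent.Helper96.FC
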