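import Pool.Agent.Helper96.FC.Ev
import Pool.Agent.Helper96.FC.Red

/-!
# Flag certificates on six vertices: meaning of the evaluation
-/

set_option autoImplicit false

namespace Pool.Agent.Helper96.FC

open Finset

variable {V : Type} [Fintype V]

theorem Sys.prj0_c5 (S : Sys V) (g : Fin 5 → V) : prj0 (S.c5 g) = S.c4 ![g 0, g 1, g 2, g 3] := by
  have h2 := S.vw_lt (g 0) (g 1) (g 2)
  have h3 := S.vw_lt (g 0) (g 1) (g 3)
  have h4 := S.vw_lt (g 0) (g 1) (g 4)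
  have h5 := S.a_le (g 2) (g 3)
  have h6 := S.a_le (g 2) (g 4)
  have h7 := S.a_le (g 3) (g 4)
  show (S.c5 g) % 64 + 64 * ((S.c5 g) / 512 % 2) = S.vw (g 0) (g 1) (g 2) +
    8 * S.vw (g 0) (g 1) (g 3) + 64 * S.a (g 2) (g 3)
  unfold Sys.c5
  omega

theorem Sys.prj1_c5 (S : Sys V) (g : Fin 5 → V) : prj1 (S.c5 g) = S.c4 ![g 0, g 1, g 2, g 4] := by
  have h2 := S.vw_lt (g 0) (g 1) (g 2)
  have h3 := S.vw_lt (g 0) (g 1) (g 3)
  have h4 := S.vw_lt (g 0) (g 1) (g 4)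
  have h5 := S.a_le (g 2) (g 3)
  have h6 := S.a_le (g 2) (g 4)
  have h7 := S.a_le (g 3) (g 4)
  show (S.c5 g) % 8 + 8 * ((S.c5 g) / 64 % 8) + 64 * ((S.c5 g) / 1024 % 2)
    = S.vw (g 0) (g 1) (g 2) + 8 * S.vw (g 0) (g 1) (g 4) + 64 * S.a (g 2) (g 4)
  unfold Sys.c5
  omega

theorem Sys.prj2_c5 (S : Sys V) (g : Fin 5 → V) : prj2 (S.c5 g) = S.c4 ![g 0, g 1, g 3, g 4] := by
  have h2 := S.vw_lt (g 0) (g 1) (g 2)
  have h3 := S.vw_lt (g 0) (g 1) (g 3)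
  have h4 := S.vw_lt (g 0) (g 1) (g 4)
  have h5 := S.a_le (g 2) (g 3)
  have h6 := S.a_le (g 2) (g 4)
  have h7 := S.a_le (g 3) (g 4)
  show (S.c5 g) / 8 % 64 + 64 * ((S.c5 g) / 2048 % 2)
    = S.vw (g 0) (g 1) (g 3) + 8 * S.vw (g 0) (g 1) (g 4) + 64 * S.a (g 3) (g 4)
  unfold Sys.c5
  omega

theorem vec4_comp {α β : Type} (x : α → β) (a b c d : α) :
    (x ∘ ![a, b, c, d] : Fin 4 → β) = ![x a, x b, x c, x d] := by
  funext i; fin_cases i <;> rfl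

theorem Sys.c5_lt (S : Sys V) (g : Fin 5 → V) : S.c5 g < 4096 := (S.c5_vld g).1

/-- packed codes -/
def pk : List ℕ → ℕ
  | [] => 0
  | a :: l => a + 4096 * pk l

theorem pk_get (l : List ℕ) (k : ℕ) (hk : k < l.length) (hl : ∀ a ∈ l, a < 4096) :
    pk l / 4096 ^ k % 4096 = l[k] := by
  induction l generalizing k with
  | nil => simp at hk
  | cons a l ih =>
    have ha := hl a (by simp)
    cases k with
    | zero => simp only [pk, pow_zero, Nat.div_one, List.getElem_cons_zero]; omega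
    | succ k =>
      have h1 : (a + 4096 * pk l) / 4096 ^ (k + 1) = pk l / 4096 ^ k := by
        rw [pow_succ, Nat.mul_comm (4096 ^ k) 4096, ← Nat.div_div_eq_div_mul]
        congr 1
        omega
      rw [pk, h1, List.getElem_cons_succ]
      exact ih k (by simpa using hk) (fun a ha => hl a (by simp [ha]))

/-- the weights of a regularity entry -/
def wdg (e : ℕ) (z : Fin 5) : ℕ := e / BB ^ ((z : ℕ) + 1) % BB

/-- check of a regularity entry -/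
noncomputable def chkR (e : ℕ) : Bool :=
  Nat.beq e (packP [1, wdg e 0, wdg e 1, wdg e 2, wdg e 3, wdg e 4]) &&
  (Nat.beq (wdg e 0 + wdg e 1 + wdg e 2 + wdg e 3 + wdg e 4) (5 * cW) &&
  (Nat.ble (wdg e 0) (2 ^ 50) && (Nat.ble (wdg e 1) (2 ^ 50) && (Nat.ble (wdg e 2) (2 ^ 50) &&
  (Nat.ble (wdg e 3) (2 ^ 50) && Nat.ble (wdg e 4) (2 ^ 50))))))

theorem chkR_ok {e : ℕ} (h : chkR e = true) :
    e = packP [1, wdg e 0, wdg e 1, wdg e 2, wdg e 3, wdg e 4] ∧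
    wdg e 0 + wdg e 1 + wdg e 2 + wdg e 3 + wdg e 4 = 5 * cW ∧ ∀ z, wdg e z ≤ 2 ^ 50 := by
  unfold chkR at h
  simp only [Bool.and_eq_true] at h
  obtain ⟨h1, h2, h3, h4, h5, h6, h7⟩ := h
  refine ⟨Nat.eq_of_beq_eq_true h1, Nat.eq_of_beq_eq_true h2, ?_⟩
  intro z
  fin_cases z
  · exact Nat.le_of_ble_eq_true h3
  · exact Nat.le_of_ble_eq_true h4
  · exact Nat.le_of_ble_eq_true h5
  · exact Nat.le_of_ble_eq_true h6
  · exact Nat.le_of_ble_eq_true h7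

/-- the packed bits -/
noncomputable def qrow (a0 a1 a2 a3 a4 : ℕ) : ℕ :=
  packQ 51 [5 * cW - cW * (a0 + a1 + a2 + a3 + a4), a0, a1, a2, a3, a4]

theorem reg_dig {e : ℕ} (h : chkR e = true) {a0 a1 a2 a3 a4 : ℕ} (h0 : a0 ≤ 1) (h1 : a1 ≤ 1)
    (h2 : a2 ≤ 1) (h3 : a3 ≤ 1) (h4 : a4 ≤ 1) :
    DigZ 51 (2 ^ 57) (2 ^ 56)
      (((wdg e 0 : ℤ) - cW) * a0 + ((wdg e 1 : ℤ) - cW) * a1 + ((wdg e 2 : ℤ) - cW) * a2 +
        ((wdg e 3 : ℤ) - cW) * a3 + ((wdg e 4 : ℤ) - cW) * a4 + 5 * cW)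
      (e * qrow a0 a1 a2 a3 a4) := by
  obtain ⟨e1, e2, e3⟩ := chkR_ok h
  obtain ⟨low, high, p1, p2⟩ := pack_mul (2 ^ 50) 1 51
    [1, wdg e 0, wdg e 1, wdg e 2, wdg e 3, wdg e 4]
    [5 * cW - cW * (a0 + a1 + a2 + a3 + a4), a0, a1, a2, a3, a4] rfl (by simp)
    (by
      intro p hp
      simp only [List.dropLast, List.mem_cons, List.not_mem_nil, or_false] at hp
      rcases hp with rfl | rfl | rfl | rfl | rfl
      · norm_num
      · exact e3 0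
      · exact e3 1
      · exact e3 2
      · exact e3 3)
    (by
      intro q hq
      simp only [List.tail_cons, List.mem_cons, List.not_mem_nil, or_false] at hq
      rcases hq with rfl | rfl | rfl | rfl | rfl <;> assumption)
  have hc : cW * (a0 + a1 + a2 + a3 + a4) ≤ 5 * cW := by
    rw [Nat.mul_comm 5 cW]
    exact Nat.mul_le_mul_left _ (by omega)
  refine ⟨dotN [1, wdg e 0, wdg e 1, wdg e 2, wdg e 3, wdg e 4]
      [5 * cW - cW * (a0 + a1 + a2 + a3 + a4), a0, a1, a2, a3, a4], ?_, ?_, low, high, ?_, ?_⟩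
  · simp only [dotN]
    push_cast [Nat.cast_sub hc]
    ring
  · simp only [dotN]
    have b0 := Nat.mul_le_mul (e3 0) h0
    have b1 := Nat.mul_le_mul (e3 1) h1
    have b2 := Nat.mul_le_mul (e3 2) h2
    have b3 := Nat.mul_le_mul (e3 3) h3
    have b4 := Nat.mul_le_mul (e3 4) h4
    have hcw : 5 * cW ≤ 2 ^ 53 := by unfold cW; norm_num
    omega
  · unfold qrow
    conv_lhs => rw [e1]
    exact p1
  · refine p2.trans (Nat.mul_le_mul_right _ ?_)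
    norm_num

theorem dgt_eq (t : ℕ) : dgt t = t / BB ^ 51 % BB := rfl

end Pool.Agent.Helper96.FC
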