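import Pool.Agent.Helper96.FC.Place

/-!
# Flag certificates on six vertices: the order of the two free vertices of a flag
-/

set_option autoImplicit false

namespace Pool.Agent.Helper96.FC

open Finset

variable {V : Type} [Fintype V]

/-- the mark number after exchanging the positions `2` and `3` -/
def sw : Fin 6 → Fin 6 := ![0, 2, 1, 4, 3, 5]

/-- the key after exchanging the positions `2` and `3` -/
def swk (m : Fin 6) (v1 v2 p : ℕ) : ℕ :=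
  match m with
  | 0 => keyg 0 v2 v1 p
  | 5 => keyg 5 (flip v1) (flip v2) p
  | m => keyg (sw m) v1 v2 p

/-- the table does not see the order of the two free vertices -/
def SwInv (idx : ℕ → ℕ) : Prop :=
  ∀ m : Fin 6, ∀ v1 < 6, ∀ v2 < 6, ∀ p < 2, idx (swk m v1 v2 p) = idx (keyg m v1 v2 p)

def ta : Fin 6 → Fin 6 := ![0, 1, 3, 2, 4, 5]

def tb : Fin 6 → Fin 6 := ![0, 1, 2, 3, 5, 4]

def tt : Fin 4 → Fin 4 := ![0, 1, 3, 2]

theorem Sys.key4_sw (S : Sys V) (m : Fin 6) (y : Fin 4 → V) :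
    S.key4 (sw m) (y ∘ tt) = swk m (S.vw (y (c1 m)) (y (c2 m)) (y (q1 m)))
      (S.vw (y (c1 m)) (y (c2 m)) (y (q2 m))) (S.a (y (q1 m)) (y (q2 m))) := by
  fin_cases m
  · show keyg _ _ _ (S.a (y 3) (y 2)) = keyg _ _ _ (S.a (y 2) (y 3))
    rw [S.a_symm]; rfl
  · rfl
  · rfl
  · rfl
  · rfl
  · show keyg 5 (S.vw (y 3) (y 2) (y 0)) (S.vw (y 3) (y 2) (y 1)) _
      = keyg 5 (flip (S.vw (y 2) (y 3) (y 0))) (flip (S.vw (y 2) (y 3) (y 1))) _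
    rw [← S.vw_flip, ← S.vw_flip]; rfl

theorem Sys.idx_sw (S : Sys V) {idx : ℕ → ℕ} (h : SwInv idx) (m : Fin 6) (y : Fin 4 → V) :
    idx (S.key4 (sw m) (y ∘ tt)) = idx (S.key4 m y) := by
  rw [S.key4_sw]
  exact h m _ (S.vw_lt _ _ _) _ (S.vw_lt _ _ _) _ (Nat.lt_succ_of_le (S.a_le _ _))

theorem Sys.wt4_sw (S : Sys V) (m : Fin 6) (y : Fin 4 → V) :
    S.wt4 (sw m) (y ∘ tt) = S.wt4 m y := by
  fin_cases m
  · rfl
  · rfl
  · rfl
  · rfl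
  · rfl
  · show S.lam (y 3) (y 2) = S.lam (y 2) (y 3)
    exact S.lam_symm _ _

/-- the sum over all tuples for two marks -/
noncomputable def Sys.tC (S : Sys V) (idx : ℕ → ℕ) (X : ℕ → ℕ → ℕ → ℤ) (m m' : Fin 6) : ℝ :=
  ∑ x : Fin 6 → V, S.wt4 m (x ∘ t1) * S.wt4 m' (x ∘ t2) * (S.GC idx X m m' x : ℝ)

theorem Sys.tC_sw1 (S : Sys V) {idx : ℕ → ℕ} (h : SwInv idx) (X : ℕ → ℕ → ℕ → ℤ)
    (m m' : Fin 6) : S.tC idx X (sw m) m' = S.tC idx X m m' := by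
  unfold Sys.tC
  rw [sum_comp_perm ta (by decide)]
  refine Finset.sum_congr rfl fun x _ => ?_
  have h1 : ((x ∘ ta) ∘ t1 : Fin 4 → V) = (x ∘ t1) ∘ tt := by
    funext i; fin_cases i <;> rfl
  have h2 : ((x ∘ ta) ∘ t2 : Fin 4 → V) = x ∘ t2 := by
    funext i; fin_cases i <;> rfl
  unfold Sys.GC
  rw [h1, h2, S.wt4_sw, S.idx_sw h]
  rfl

theorem Sys.tC_sw2 (S : Sys V) {idx : ℕ → ℕ} (h : SwInv idx) (X : ℕ → ℕ → ℕ → ℤ)
    (m m' : Fin 6) : S.tC idx X m (sw m') = S.tC idx X m m' := by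
  unfold Sys.tC
  rw [sum_comp_perm tb (by decide)]
  refine Finset.sum_congr rfl fun x _ => ?_
  have h1 : ((x ∘ tb) ∘ t1 : Fin 4 → V) = x ∘ t1 := by
    funext i; fin_cases i <;> rfl
  have h2 : ((x ∘ tb) ∘ t2 : Fin 4 → V) = (x ∘ t2) ∘ tt := by
    funext i; fin_cases i <;> rfl
  unfold Sys.GC
  rw [h1, h2, S.wt4_sw, S.idx_sw h]
  rfl

end Pool.Agent.Helper96.FC
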