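import Pool.Agent.Helper96.FC.Sem

/-!
# Flag certificates on six vertices: the tables as Gram matrices
-/

set_option autoImplicit false

namespace Pool.Agent.Helper96.FC

open Finset

theorem len0 : T0.LenOk := fun _ _ => dec_length _ _ _

theorem gramA0 : IsGram T0.XA := by
  intro r
  by_cases h : T0.clsC r = 0
  · exact ⟨0, fun _ => 0, fun _ _ => 0, fun i j => by unfold TD.XA; rw [if_pos h]; simp⟩
  · refine ⟨(T0.cd (T0.clsC r)).length, fun k => ((T0.cd (T0.clsC r)).getD k (0, 0)).2,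
      fun k i => ((T0.vec (T0.clsC r) i).getD k 0 : ℤ) -
        ((T0.cd (T0.clsC r)).getD k (0, 0)).1, fun i j => ?_⟩
    unfold TD.XA
    rw [if_neg h]
    exact cdot_sum _ _ _ (len0 _ _) (len0 _ _)

theorem gramC0 : IsGram T0.XC := by
  intro r
  by_cases h : r < 2
  · refine ⟨(T0.cd (7 + r)).length, fun k => ((T0.cd (7 + r)).getD k (0, 0)).2,
      fun k i => ((T0.vec (7 + r) i).getD k 0 : ℤ) -
        ((T0.cd (7 + r)).getD k (0, 0)).1, fun i j => ?_⟩
    unfold TD.XC
    rw [if_pos h]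
    exact cdot_sum _ _ _ (len0 _ _) (len0 _ _)
  · exact ⟨0, fun _ => 0, fun _ _ => 0, fun i j => by unfold TD.XC; rw [if_neg h]; simp⟩

theorem sw0 : SwInv T0.ki4 := by
  unfold SwInv
  decide +kernel

/-- the tables of the certificate -/
noncomputable def tau : Tab := ⟨T0.ki, T0.XA, T0.ki4, T0.XC, gramA0, gramC0, sw0⟩

end Pool.Agent.Helper96.FC
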